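import Pool.Agent.H62.EL.Defs
import Pool.Agent.H62.EF.PrA

/-!
# EL ChN: small charts

`exists_small_chart`: the proof of `Pool.Agent.H62.EF.exists_chart_of_germ` (`H62/EF/ChEx.lean`; copy it): there `χ.σ p` is a multiple of
`σ (r • p)` for `‖p‖ < 2`, where `r = R / 2` and `R` is any small radius: take `R < η`.

`exists_small_chart'`: moreover all points of the chart are near `σ 0` in the projective space: `p ↦ pr (σ p)` is continuous at `0`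
(`continuousAt_pr`, `σ 0 ≠ 0`), `pr (a • σ (r • p)) = pr (σ (r • p))` (`pr_smul`).

`exists_nc_chart`: `σ, τ, i, j` from `IsNC`; `u (χ.σ p) = u (a • σ (r p))`, which is `u (σ (r p))` modulo `Λ` (`TorusMap.smul`), which is
`b + (r s)^i (r t)^j = b + r^(i+j) s^i t^j`: `ρ = r^(i+j)`; `‖ρ s^i t^j‖ = ‖(r s)^i (r t)^j‖ < η` for `r` small (continuity at `0`, `i + j > 0`).
-/

set_option autoImplicit false

open Topology Filter Metric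

namespace Pool.Agent.H62.EL

open Pool.Agent.H36.BP (EN fs wd IsGermChart)
open Pool.Agent.H14.PP (IsCone Chart Tan CurveAt)
open Pool.Agent.H62.EF (Lat MN pr TorusMap Sec Charts DU)

variable {N : ℕ} {X : Set (EN N)} {Λ : AddSubgroup ℂ} {u : EN N → ℂ}

theorem exists_small_chart (hX : IsCone X) {σ : ℂ × ℂ → EN N} {τ : EN N → ℂ × ℂ} (h : IsGermChart X σ τ) {η : ℝ} (hη : 0 < η) :
    ∃ (χ : Chart X) (r : ℝ), 0 < r ∧ σ 0 ∈ χ.U ∧ χ.q (σ 0) = 0 ∧ ∀ p ∈ ball (0 : ℂ × ℂ) 2, ‖(r : ℂ) • p‖ < η ∧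
      dist (pr (χ.σ p)) (pr (σ 0)) < η ∧ ∃ a : ℂ, a ≠ 0 ∧ χ.σ p = a • σ ((r : ℂ) • p) := by
  have hσ0 : σ 0 ≠ 0 := by
    intro h0
    have h1 := h.σ_mem.self_of_nhds
    rw [h0] at h1
    exact hX.zero_notMem h1
  -- the linear form
  obtain ⟨ℓ, hℓ⟩ : ∃ ℓ : EN N →L[ℂ] ℂ, ℓ (σ 0) = 1 := by
    have hne : inner ℂ (σ 0) (σ 0) ≠ (0 : ℂ) := inner_self_ne_zero.mpr hσ0
    refine ⟨(inner ℂ (σ 0) (σ 0) : ℂ)⁻¹ • innerSL ℂ (σ 0), ?_⟩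
    simp only [_root_.smul_apply, innerSL_apply_apply, smul_eq_mul]
    exact inv_mul_cancel₀ hne
  -- the normalised parametrisation
  have hℓσ : ContinuousAt (fun p => ℓ (σ p)) 0 := ℓ.continuous.continuousAt.comp h.σ_an.continuousAt
  have hℓne : ∀ᶠ p in 𝓝 (0 : ℂ × ℂ), ℓ (σ p) ≠ 0 := hℓσ.eventually_ne (by rw [hℓ]; exact one_ne_zero)
  have hinvσ : ∀ᶠ p in 𝓝 (0 : ℂ × ℂ), τ ((ℓ (σ p))⁻¹ • σ p) = τ (σ p) := by
    have hc : Tendsto (fun p => (σ p, (ℓ (σ p))⁻¹)) (𝓝 (0 : ℂ × ℂ)) (𝓝 (σ 0, (1 : ℂ))) := by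
      have h1 : Tendsto (fun p => (ℓ (σ p))⁻¹) (𝓝 (0 : ℂ × ℂ)) (𝓝 (ℓ (σ 0))⁻¹) := hℓσ.inv₀ (by rw [hℓ]; exact one_ne_zero)
      rw [hℓ, inv_one] at h1
      exact h.σ_an.continuousAt.prodMk_nhds h1
    exact hc.eventually h.inv
  -- the neighbourhood W₀
  have hW : ∀ᶠ y in 𝓝 (σ 0), AnalyticAt ℂ τ y ∧ (y ∈ X → ∃ c : ℂ, c ≠ 0 ∧ y = c • σ (τ y)) := h.τ_an.eventually_analyticAt.and h.right
  obtain ⟨W₀, hW₀s, hW₀o, hW₀m⟩ := _root_.eventually_nhds_iff.mp hW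
  have hσ₁ : Tendsto (fun p => (ℓ (σ p))⁻¹ • σ p) (𝓝 (0 : ℂ × ℂ)) (𝓝 (σ 0)) := by
    have h1 : Tendsto (fun p => (ℓ (σ p))⁻¹) (𝓝 (0 : ℂ × ℂ)) (𝓝 (ℓ (σ 0))⁻¹) := hℓσ.inv₀ (by rw [hℓ]; exact one_ne_zero)
    have h2 := h1.smul h.σ_an.continuousAt
    rwa [hℓ, inv_one, one_smul] at h2
  have hσ₁W : ∀ᶠ p in 𝓝 (0 : ℂ × ℂ), (ℓ (σ p))⁻¹ • σ p ∈ W₀ := hσ₁.eventually (hW₀o.mem_nhds hW₀m)
  have hprσ : ∀ᶠ p in 𝓝 (0 : ℂ × ℂ), dist (pr (σ p)) (pr (σ 0)) < η := by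
    have h1 : ContinuousAt (fun p => pr (σ p)) 0 :=
      ContinuousAt.comp (f := σ) (Pool.Agent.H62.EF.continuousAt_pr hσ0) h.σ_an.continuousAt
    exact h1.eventually (Metric.ball_mem_nhds _ hη)
  obtain ⟨R₀, hR₀, hall₀⟩ := Metric.eventually_nhds_iff_ball.mp
    ((((((h.σ_an.eventually_analyticAt.and h.σ_mem).and h.left).and hℓne).and hinvσ).and hσ₁W).and hprσ)
  obtain ⟨R, hR, hRη, hall, hprb⟩ : ∃ R : ℝ, 0 < R ∧ R ≤ η ∧ (∀ p ∈ ball (0 : ℂ × ℂ) R,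
      (((((AnalyticAt ℂ σ p ∧ σ p ∈ X) ∧ τ (σ p) = p) ∧ ℓ (σ p) ≠ 0) ∧ τ ((ℓ (σ p))⁻¹ • σ p) = τ (σ p)) ∧
        (ℓ (σ p))⁻¹ • σ p ∈ W₀)) ∧ ∀ p ∈ ball (0 : ℂ × ℂ) R, dist (pr (σ p)) (pr (σ 0)) < η :=
    ⟨min R₀ η, lt_min hR₀ hη, min_le_right _ _, fun p hp => (hall₀ p (ball_subset_ball (min_le_left _ _) hp)).1,
      fun p hp => (hall₀ p (ball_subset_ball (min_le_left _ _) hp)).2⟩
  set r : ℝ := R / 2 with hr
  have hr0 : 0 < r := by rw [hr]; positivity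
  have hrC : (r : ℂ) ≠ 0 := by exact_mod_cast hr0.ne'
  have hball : ∀ p ∈ ball (0 : ℂ × ℂ) 2, (r : ℂ) • p ∈ ball (0 : ℂ × ℂ) R := by
    intro p hp
    rw [mem_ball_zero_iff] at hp ⊢
    rw [norm_smul, Complex.norm_real, Real.norm_of_nonneg hr0.le, hr]
    nlinarith
  have hτσ : ∀ p ∈ ball (0 : ℂ × ℂ) R, τ ((ℓ (σ p))⁻¹ • σ p) = p := by
    intro p hp
    rw [(hall p hp).1.2, (hall p hp).1.1.1.2]
  set U : Set (EN N) := {x | ℓ x ≠ 0 ∧ (ℓ x)⁻¹ • x ∈ W₀ ∧ ‖τ ((ℓ x)⁻¹ • x)‖ < R} with hU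
  have hmaps : ∀ x : EN N, ℓ x ≠ 0 → ∀ c : ℂ, c ≠ 0 → (ℓ (c • x))⁻¹ • (c • x) = (ℓ x)⁻¹ • x := by
    intro x hx c hc
    rw [map_smul, smul_eq_mul, smul_smul, mul_inv, mul_comm c⁻¹, mul_assoc, inv_mul_cancel₀ hc, mul_one]
  have han1 : ∀ x : EN N, ℓ x ≠ 0 → AnalyticAt ℂ (fun y : EN N => (ℓ y)⁻¹ • y) x := by
    intro x hx
    exact ((ℓ.analyticAt x).inv hx).smul analyticAt_id
  have hanq : ∀ x ∈ U, AnalyticAt ℂ (fun y : EN N => τ ((ℓ y)⁻¹ • y)) x := by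
    intro x hx
    exact AnalyticAt.fun_comp (hW₀s _ hx.2.1).1 (han1 x hx.1)
  have hUopen : IsOpen U := by
    rw [isOpen_iff_mem_nhds]
    intro x hx
    have h1 : ∀ᶠ y in 𝓝 x, ℓ y ≠ 0 := ℓ.continuous.continuousAt.eventually_ne hx.1
    have h2 : ∀ᶠ y in 𝓝 x, (ℓ y)⁻¹ • y ∈ W₀ := (han1 x hx.1).continuousAt.eventually (hW₀o.mem_nhds hx.2.1)
    have h3 : ∀ᶠ y in 𝓝 x, ‖τ ((ℓ y)⁻¹ • y)‖ < R := (hanq x hx).continuousAt.norm.eventually_lt_const hx.2.2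
    filter_upwards [h1, h2, h3] with y h4 h5 h6
    exact ⟨h4, h5, h6⟩
  let χ : Chart X :=
    { σ := fun p => (ℓ (σ ((r : ℂ) • p)))⁻¹ • σ ((r : ℂ) • p)
      U := U
      q := fun x => (r : ℂ)⁻¹ • τ ((ℓ x)⁻¹ • x)
      isOpen_U := hUopen
      smul_U := by
        rintro x ⟨h1, h2, h3⟩ c hc
        refine ⟨?_, ?_, ?_⟩
        · rw [map_smul, smul_eq_mul]
          exact mul_ne_zero hc h1
        · rw [hmaps x h1 c hc]; exact h2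
        · rw [hmaps x h1 c hc]; exact h3
      σ_an := by
        intro p hp
        have h1 := (hall _ (hball p hp)).1.1.1.1.1
        have h2 : AnalyticAt ℂ (fun p : ℂ × ℂ => σ ((r : ℂ) • p)) p :=
          AnalyticAt.fun_comp h1 (analyticAt_const.fun_smul analyticAt_id)
        have h3 : AnalyticAt ℂ (fun p : ℂ × ℂ => ℓ (σ ((r : ℂ) • p))) p := (ℓ.analyticAt _).fun_comp h2
        exact (h3.inv (hall _ (hball p hp)).1.1.2).smul h2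
      q_an := by
        intro x hx
        exact analyticAt_const.fun_smul (hanq x hx)
      q_smul := by
        rintro x ⟨h1, h2, h3⟩ c hc
        show (r : ℂ)⁻¹ • τ ((ℓ (c • x))⁻¹ • (c • x)) = _
        rw [hmaps x h1 c hc]
      σ_mem := by
        intro p hp
        have hb := hball p hp
        have hh := hall _ hb
        have hne := hh.1.1.2
        have h1 : ℓ ((ℓ (σ ((r : ℂ) • p)))⁻¹ • σ ((r : ℂ) • p)) = 1 := by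
          rw [map_smul, smul_eq_mul, inv_mul_cancel₀ hne]
        have h2 : τ ((ℓ (σ ((r : ℂ) • p)))⁻¹ • σ ((r : ℂ) • p)) = (r : ℂ) • p := hτσ _ hb
        refine ⟨hX.smul_mem _ hh.1.1.1.1.2 _ (inv_ne_zero hne), ⟨?_, ?_, ?_⟩, ?_⟩
        · rw [h1]; exact one_ne_zero
        · rw [h1, inv_one, one_smul]; exact hh.2
        · rw [h1, inv_one, one_smul, h2]
          exact mem_ball_zero_iff.mp hb
        · show (r : ℂ)⁻¹ • τ ((ℓ ((ℓ (σ ((r : ℂ) • p)))⁻¹ • σ ((r : ℂ) • p)))⁻¹ • ((ℓ (σ ((r : ℂ) • p)))⁻¹ • σ ((r : ℂ) • p))) = p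
          rw [h1, inv_one, one_smul, h2, smul_smul, inv_mul_cancel₀ hrC, one_smul]
      surj := by
        rintro x hxX ⟨h1, h2, h3⟩
        have hyX : (ℓ x)⁻¹ • x ∈ X := hX.smul_mem _ hxX _ (inv_ne_zero h1)
        obtain ⟨c, hc0, hc⟩ := (hW₀s _ h2).2 hyX
        have hτb : τ ((ℓ x)⁻¹ • x) ∈ ball (0 : ℂ × ℂ) R := mem_ball_zero_iff.mpr h3
        have hrq : (r : ℂ) • ((r : ℂ)⁻¹ • τ ((ℓ x)⁻¹ • x)) = τ ((ℓ x)⁻¹ • x) := by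
          rw [smul_smul, mul_inv_cancel₀ hrC, one_smul]
        refine ⟨?_, ?_⟩
        · show (r : ℂ)⁻¹ • τ ((ℓ x)⁻¹ • x) ∈ ball (0 : ℂ × ℂ) 2
          rw [mem_ball_zero_iff, norm_smul, norm_inv, Complex.norm_real, Real.norm_of_nonneg hr0.le, inv_mul_lt_iff₀ hr0, hr]
          linarith
        · refine ⟨ℓ x * c * ℓ (σ (τ ((ℓ x)⁻¹ • x))), ?_, ?_⟩
          · exact mul_ne_zero (mul_ne_zero h1 hc0) (hall _ hτb).1.1.2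
          · show x = (ℓ x * c * ℓ (σ (τ ((ℓ x)⁻¹ • x)))) •
              ((ℓ (σ ((r : ℂ) • ((r : ℂ)⁻¹ • τ ((ℓ x)⁻¹ • x)))))⁻¹ • σ ((r : ℂ) • ((r : ℂ)⁻¹ • τ ((ℓ x)⁻¹ • x))))
            rw [hrq, smul_smul, mul_assoc, mul_inv_cancel₀ (hall _ hτb).1.1.2, mul_one, mul_smul, ← hc, smul_smul, mul_inv_cancel₀ h1, one_smul] }
  have h0b : (0 : ℂ × ℂ) ∈ ball (0 : ℂ × ℂ) R := mem_ball_self hR
  have hτ0 : τ (σ 0) = 0 := (hall 0 h0b).1.1.1.2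
  refine ⟨χ, r, hr0, ⟨?_, ?_, ?_⟩, ?_, ?_⟩
  · rw [hℓ]; exact one_ne_zero
  · rw [hℓ, inv_one, one_smul]; exact hW₀m
  · rw [hℓ, inv_one, one_smul, hτ0, norm_zero]; exact hR
  · show (r : ℂ)⁻¹ • τ ((ℓ (σ 0))⁻¹ • σ 0) = 0
    rw [hℓ, inv_one, one_smul, hτ0, smul_zero]
  · intro p hp
    have hb := hball p hp
    have hne := (hall _ hb).1.1.2
    refine ⟨(mem_ball_zero_iff.mp hb).trans_le hRη, ?_, (ℓ (σ ((r : ℂ) • p)))⁻¹, inv_ne_zero hne, rfl⟩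
    show dist (pr ((ℓ (σ ((r : ℂ) • p)))⁻¹ • σ ((r : ℂ) • p))) (pr (σ 0)) < η
    rw [Pool.Agent.H62.EF.pr_smul _ (inv_ne_zero hne)]
    exact hprb _ hb

theorem exists_nc_chart (hX : IsCone X) (hu : TorusMap X Λ u) {x : EN N} {b : ℂ} (h : IsNC X Λ u x b) {η : ℝ} (hη : 0 < η) :
    ∃ (χ : Chart X) (ρ : ℝ) (i j : ℕ), x ∈ χ.U ∧ χ.q x = 0 ∧ Mon Λ u χ b ρ i j ∧
      ∀ p ∈ ball (0 : ℂ × ℂ) 2, dist (pr (χ.σ p)) (pr x) < η ∧ ‖mo b ρ i j p - b‖ < η := by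
  obtain ⟨σ, τ, i, j, hg, hσ0, hij, hev⟩ := h
  have hmono : ∀ᶠ p in 𝓝 (0 : ℂ × ℂ), ‖p.1 ^ i * p.2 ^ j‖ < η := by
    have hc : Continuous fun p : ℂ × ℂ => p.1 ^ i * p.2 ^ j := (continuous_fst.pow i).mul (continuous_snd.pow j)
    have h1 : Tendsto (fun p : ℂ × ℂ => ‖p.1 ^ i * p.2 ^ j‖) (𝓝 0) (𝓝 ‖(0 : ℂ × ℂ).1 ^ i * (0 : ℂ × ℂ).2 ^ j‖) :=
      hc.norm.continuousAt
    have h0 : ‖(0 : ℂ × ℂ).1 ^ i * (0 : ℂ × ℂ).2 ^ j‖ = 0 := by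
      rw [norm_eq_zero]
      show (0 : ℂ) ^ i * (0 : ℂ) ^ j = 0
      rw [← pow_add, zero_pow (by omega)]
    rw [h0] at h1
    exact h1.eventually_lt_const hη
  obtain ⟨η', hη', hall⟩ := Metric.eventually_nhds_iff_ball.mp ((hev.and hmono).and hg.σ_mem)
  obtain ⟨χ, r, hr, hU, hq, hch⟩ := exists_small_chart hX hg (lt_min hη' hη)
  have hrij : (0 : ℝ) < r ^ (i + j) := pow_pos hr _
  have hkey : ∀ p : ℂ × ℂ, ((r ^ (i + j) : ℝ) : ℂ) * (p.1 ^ i * p.2 ^ j) = ((r : ℂ) • p).1 ^ i * ((r : ℂ) • p).2 ^ j := by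
    intro p
    have h1 : ((r : ℂ) • p).1 = (r : ℂ) * p.1 := rfl
    have h2 : ((r : ℂ) • p).2 = (r : ℂ) * p.2 := rfl
    rw [h1, h2]
    push_cast
    ring
  have hb : ∀ p ∈ ball (0 : ℂ × ℂ) 2, (r : ℂ) • p ∈ ball (0 : ℂ × ℂ) η' := fun p hp =>
    mem_ball_zero_iff.mpr ((hch p hp).1.trans_le (min_le_left _ _))
  refine ⟨χ, r ^ (i + j), i, j, hσ0 ▸ hU, hσ0 ▸ hq, ⟨hrij, hij, ?_⟩, ?_⟩
  · intro p hp
    obtain ⟨-, -, a, ha, hap⟩ := hch p hp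
    have h1 := hall _ (hb p hp)
    have h2 := hu.smul _ h1.2 a ha
    rw [hap]
    unfold mo
    rw [hkey p]
    have h3 := Λ.add_mem h2 h1.1.1
    convert h3 using 1
    ring
  · intro p hp
    obtain ⟨-, h1, -⟩ := hch p hp
    refine ⟨?_, ?_⟩
    · rw [← hσ0]
      exact h1.trans_le (min_le_right _ _)
    · unfold mo
      rw [hkey p, add_sub_cancel_left]
      exact (hall _ (hb p hp)).1.2

end Pool.Agent.H62.EL
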