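import Mathlib

/-!
# EL Ext: extension of a holomorphic function from an annulus to the disc

Let `z` be in the annulus, `r₁ < r < ‖z - b‖ < r' < r₂`.
(1) `∮ ζ in C(b, r), J ζ / (ζ - z) = 0`: on the circle `1 / (ζ - z) = - Σ_n (ζ - b)^n / (z - b)^(n+1)` (geometric series,
`|ζ - b| / |z - b| = q < 1`), the partial sums `P_n` satisfy `|1 / (ζ - z) - P_n ζ| ≤ q^n / (‖z - b‖ - r)` on the circle, and `∮ J P_n = 0`
by `h0`; so `|∮ J ζ / (ζ - z)| ≤ 2 π r (sup |J|) q^n / (‖z - b‖ - r)` for all `n`.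
(2) Cauchy's formula for the annulus: `g ζ = dslope J z ζ` (`= (J ζ - J z) / (ζ - z)` for `ζ ≠ z`) is holomorphic on the annulus, so
`∮_{C(b,r')} g = ∮_{C(b,r)} g` (`Complex.circleIntegral_eq_of_differentiable_on_annulus_off_countable`), and `∮_{C(b,r')} 1 / (ζ - z) = 2 π i`
(`circleIntegral.integral_sub_inv_of_mem_ball`), `∮_{C(b,r)} 1 / (ζ - z) = 0` (holomorphic on the closed disc, as `‖z - b‖ > r`).
So `2 π i J z = ∮_{C(b,r')} J ζ / (ζ - z)`.
(3) The function `J'_{r'} z = (2 π i)⁻¹ ∮_{C(b,r')} J ζ / (ζ - z)` is holomorphic on `ball b r'` (Cauchy transform of a continuous function: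
`hasFPowerSeriesOn_cauchy_integral`, `DifferentiableOn`), and equal to `J` for `r₁ < ‖z - b‖ < r'`.  For different `r'` these functions agree on a
common annulus, so (identity theorem, the disc is connected) everywhere on the smaller disc: they define a holomorphic function on `ball b r₂`.
(Or: `J' z := J z` if `‖z - b‖ > (r₁ + r₂)/2` and `J' z := J'_{r'} z` otherwise, with one fixed `r' ∈ ((r₁ + r₂)/2, r₂)`.)
-/

set_option autoImplicit false

open Topology Filter Metric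

namespace Pool.Agent.H62.EL

private theorem ext_open {b : ℂ} {r₁ r₂ : ℝ} : IsOpen {z : ℂ | r₁ < ‖z - b‖ ∧ ‖z - b‖ < r₂} := by
  have h1 : IsOpen {z : ℂ | r₁ < ‖z - b‖} := isOpen_lt continuous_const (by fun_prop)
  have h2 : IsOpen {z : ℂ | ‖z - b‖ < r₂} := isOpen_lt (by fun_prop) continuous_const
  exact h1.inter h2

/-- The moments of `J / (ζ - z)` on a small circle vanish if the moments of `J` vanish and `z` is outside. -/
private theorem ext_inner {b z : ℂ} {r : ℝ} (hr : 0 < r) (hz : r < ‖z - b‖) {J : ℂ → ℂ}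
    (hJ : ContinuousOn J (sphere b r))
    (h0 : ∀ n : ℕ, (∮ ζ in C(b, r), (ζ - b) ^ n * J ζ) = 0) :
    (∮ ζ in C(b, r), (ζ - z)⁻¹ * J ζ) = 0 := by
  have hne : ∀ ζ ∈ sphere b r, ζ - z ≠ 0 := by
    intro ζ hζ h
    rw [sub_eq_zero] at h
    rw [mem_sphere, dist_eq_norm, h] at hζ
    linarith
  have hcI : ContinuousOn (fun ζ : ℂ => (ζ - z)⁻¹) (sphere b r) :=
    ContinuousOn.inv₀ (by fun_prop) hne
  have hcn : ∀ n : ℕ, ContinuousOn (fun ζ : ℂ => (ζ - b) ^ n * ((ζ - z)⁻¹ * J ζ)) (sphere b r) := by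
    intro n
    exact ContinuousOn.mul (by fun_prop) (hcI.mul hJ)
  have hcJ : ∀ n : ℕ, ContinuousOn (fun ζ : ℂ => (ζ - b) ^ n * J ζ) (sphere b r) := by
    intro n
    exact ContinuousOn.mul (by fun_prop) hJ
  have hcz : ∀ n : ℕ, CircleIntegrable (fun ζ : ℂ => (z - b) * ((ζ - b) ^ n * ((ζ - z)⁻¹ * J ζ))) b r := by
    intro n
    exact ContinuousOn.circleIntegrable hr.le (ContinuousOn.mul continuousOn_const (hcn n))
  have hstep : ∀ n : ℕ, (∮ ζ in C(b, r), (ζ - b) ^ n * ((ζ - z)⁻¹ * J ζ)) =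
      (z - b) ^ n * ∮ ζ in C(b, r), (ζ - z)⁻¹ * J ζ := by
    intro n
    induction n with
    | zero => simp
    | succ n ih =>
      have h1 : (∮ ζ in C(b, r), (ζ - b) ^ (n + 1) * ((ζ - z)⁻¹ * J ζ)) =
          ∮ ζ in C(b, r), ((ζ - b) ^ n * J ζ + (z - b) * ((ζ - b) ^ n * ((ζ - z)⁻¹ * J ζ))) := by
        refine circleIntegral.integral_congr hr.le ?_
        intro ζ hζ
        have h2 := hne ζ hζ
        simp only
        field_simp
        ring
      rw [h1, circleIntegral.integral_add ((hcJ n).circleIntegrable hr.le)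
        (hcz n), h0 n, zero_add,
        circleIntegral.integral_const_mul, ih]
      ring
  obtain ⟨M, hM⟩ := (isCompact_sphere b r).exists_bound_of_continuousOn (hcI.mul hJ)
  have hbd : ∀ n : ℕ, ‖∮ ζ in C(b, r), (ζ - z)⁻¹ * J ζ‖ ≤ 2 * Real.pi * r * M * (r / ‖z - b‖) ^ n := by
    intro n
    have h1 : ‖∮ ζ in C(b, r), (ζ - b) ^ n * ((ζ - z)⁻¹ * J ζ)‖ ≤ 2 * Real.pi * r * (r ^ n * M) := by
      refine circleIntegral.norm_integral_le_of_norm_le_const hr.le ?_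
      intro ζ hζ
      rw [norm_mul, norm_pow]
      have h3 : ‖ζ - b‖ = r := by rwa [mem_sphere, dist_eq_norm] at hζ
      rw [h3]
      exact mul_le_mul_of_nonneg_left (hM ζ hζ) (by positivity)
    rw [hstep n, norm_mul, norm_pow] at h1
    have hp : 0 < ‖z - b‖ ^ n := pow_pos (hr.trans hz) n
    rw [div_pow]
    have h2 : ‖∮ ζ in C(b, r), (ζ - z)⁻¹ * J ζ‖ ≤ 2 * Real.pi * r * (r ^ n * M) / ‖z - b‖ ^ n := by
      rw [le_div_iff₀ hp]
      linarith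
    refine h2.trans (le_of_eq ?_)
    field_simp
  have hlim : Tendsto (fun n : ℕ => 2 * Real.pi * r * M * (r / ‖z - b‖) ^ n) atTop (𝓝 0) := by
    have := (tendsto_pow_atTop_nhds_zero_of_lt_one (r := r / ‖z - b‖) (by positivity)
      ((div_lt_one (hr.trans hz)).2 hz)).const_mul (2 * Real.pi * r * M)
    simpa using this
  have := ge_of_tendsto' hlim hbd
  exact norm_le_zero_iff.1 this

/-- The Cauchy transform is holomorphic on the disc. -/
private theorem ext_transform {b : ℂ} {r : ℝ} (hr : 0 < r) {J : ℂ → ℂ} (hcJ : ContinuousOn J (sphere b r)) :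
    DifferentiableOn ℂ (fun w => (2 * Real.pi * Complex.I : ℂ)⁻¹ • ∮ ζ in C(b, r), (ζ - w)⁻¹ • J ζ)
      (ball b r) := by
  lift r to NNReal using hr.le
  have h1 := hasFPowerSeriesOn_cauchy_integral (f := J) (c := b) (R := r)
    (hcJ.circleIntegrable hr.le) (by exact_mod_cast hr)
  have h2 := h1.differentiableOn
  rw [eball_coe] at h2
  exact h2

/-- Cauchy's formula for the annulus. -/
private theorem ext_outer {b : ℂ} {r₁ r₂ : ℝ} (hr₁ : 0 < r₁) {J : ℂ → ℂ}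
    (hJ : DifferentiableOn ℂ J {z | r₁ < ‖z - b‖ ∧ ‖z - b‖ < r₂})
    (h0 : ∀ (n : ℕ) (r : ℝ), r₁ < r → r < r₂ → (∮ z in C(b, r), (z - b) ^ n * J z) = 0)
    {r' : ℝ} (hr' : r' < r₂) {z : ℂ} (hz₁ : r₁ < ‖z - b‖) (hz₂ : ‖z - b‖ < r') :
    (2 * Real.pi * Complex.I : ℂ)⁻¹ • (∮ ζ in C(b, r'), (ζ - z)⁻¹ • J ζ) = J z := by
  have hopen : IsOpen {z : ℂ | r₁ < ‖z - b‖ ∧ ‖z - b‖ < r₂} :=
    ext_open
  obtain ⟨r, hrr₁, hrz⟩ := exists_between hz₁
  have hr0 : 0 < r := hr₁.trans hrr₁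
  have hr'0 : 0 < r' := hr0.trans (hrz.trans hz₂)
  have hsub : closedBall b r' \ ball b r ⊆ {z : ℂ | r₁ < ‖z - b‖ ∧ ‖z - b‖ < r₂} := by
    intro ζ hζ
    rw [Set.mem_sdiff, mem_closedBall, mem_ball, dist_eq_norm, not_lt] at hζ
    exact ⟨hrr₁.trans_le hζ.2, hζ.1.trans_lt hr'⟩
  have hzU : z ∈ {z : ℂ | r₁ < ‖z - b‖ ∧ ‖z - b‖ < r₂} := ⟨hz₁, hz₂.trans hr'⟩
  have hzd : DifferentiableAt ℂ J z := hJ.differentiableAt (hopen.mem_nhds hzU)
  have hcd : ContinuousOn (dslope J z) {z : ℂ | r₁ < ‖z - b‖ ∧ ‖z - b‖ < r₂} :=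
    (continuousOn_dslope (hopen.mem_nhds hzU)).2 ⟨hJ.continuousOn, hzd⟩
  have hsph : ∀ ρ : ℝ, r ≤ ρ → ρ ≤ r' → sphere b ρ ⊆ {z : ℂ | r₁ < ‖z - b‖ ∧ ‖z - b‖ < r₂} := by
    intro ρ h1 h2 ζ hζ
    rw [mem_sphere, dist_eq_norm] at hζ
    refine ⟨?_, ?_⟩
    · rw [hζ]; linarith
    · rw [hζ]; linarith
  have hkey : (∮ ζ in C(b, r'), dslope J z ζ) = ∮ ζ in C(b, r), dslope J z ζ := by
    refine Complex.circleIntegral_eq_of_differentiable_on_annulus_off_countable hr0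
      (hrz.trans hz₂).le (Set.countable_singleton z) (hcd.mono hsub) ?_
    rintro ζ ⟨⟨hζ1, hζ2⟩, hζ3⟩
    have hζU : ζ ∈ {z : ℂ | r₁ < ‖z - b‖ ∧ ‖z - b‖ < r₂} := by
      rw [mem_ball, dist_eq_norm] at hζ1
      rw [mem_closedBall, dist_eq_norm, not_le] at hζ2
      exact ⟨hrr₁.trans hζ2, hζ1.trans hr'⟩
    exact (differentiableAt_dslope_of_ne (by simpa using hζ3)).2
      (hJ.differentiableAt (hopen.mem_nhds hζU))
  have hexp : ∀ ρ : ℝ, r ≤ ρ → ρ ≤ r' → ρ ≠ ‖z - b‖ →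
      (∮ ζ in C(b, ρ), dslope J z ζ) =
        (∮ ζ in C(b, ρ), (ζ - z)⁻¹ * J ζ) - J z * ∮ ζ in C(b, ρ), (ζ - z)⁻¹ := by
    intro ρ h1 h2 h3
    have hρ : 0 ≤ ρ := hr0.le.trans h1
    have hne : ∀ ζ ∈ sphere b ρ, ζ ≠ z := by
      intro ζ hζ h
      rw [mem_sphere, dist_eq_norm, h] at hζ
      exact h3 hζ.symm
    have hcI : ContinuousOn (fun ζ : ℂ => (ζ - z)⁻¹) (sphere b ρ) :=
      ContinuousOn.inv₀ (by fun_prop) (fun ζ hζ => sub_ne_zero.2 (hne ζ hζ))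
    have hcJ : ContinuousOn J (sphere b ρ) := hJ.continuousOn.mono (hsph ρ h1 h2)
    have hi1 : CircleIntegrable (fun ζ : ℂ => (ζ - z)⁻¹ * J ζ) b ρ :=
      ContinuousOn.circleIntegrable hρ (ContinuousOn.mul hcI hcJ)
    have hi2 : CircleIntegrable (fun ζ : ℂ => J z * (ζ - z)⁻¹) b ρ :=
      ContinuousOn.circleIntegrable hρ (ContinuousOn.mul continuousOn_const hcI)
    rw [← circleIntegral.integral_const_mul, ← circleIntegral.integral_sub hi1 hi2]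
    refine circleIntegral.integral_congr hρ ?_
    intro ζ hζ
    simp only
    rw [dslope_of_ne _ (hne ζ hζ), slope_def_field]
    have h4 : ζ - z ≠ 0 := sub_ne_zero.2 (hne ζ hζ)
    field_simp
  have h1 := hexp r' (hrz.trans hz₂).le le_rfl hz₂.ne'
  have h2 := hexp r le_rfl (hrz.trans hz₂).le hrz.ne
  have h3 : (∮ ζ in C(b, r'), (ζ - z)⁻¹) = 2 * Real.pi * Complex.I :=
    circleIntegral.integral_sub_inv_of_mem_ball (by rwa [mem_ball, dist_eq_norm])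
  have h4 : (∮ ζ in C(b, r), (ζ - z)⁻¹) = 0 := by
    have := ext_inner (b := b) (z := z) (r := r) hr0 hrz (J := fun _ => 1) continuousOn_const ?_
    · simpa using this
    · intro n
      simp only [mul_one]
      have := circleIntegral.integral_sub_zpow_of_ne (n := (n : ℤ)) (by omega) b b r
      simpa using this
  have h5 : (∮ ζ in C(b, r), (ζ - z)⁻¹ * J ζ) = 0 :=
    ext_inner hr0 hrz (hJ.continuousOn.mono (hsph r le_rfl (hrz.trans hz₂).le))
      (fun n => h0 n r hrr₁ (by linarith))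
  rw [h1, h2, h3, h4, h5] at hkey
  simp only [smul_eq_mul]
  have h6 : (∮ ζ in C(b, r'), (ζ - z)⁻¹ * J ζ) = J z * (2 * Real.pi * Complex.I) := by
    linear_combination hkey
  rw [h6]
  have h7 : (2 * Real.pi * Complex.I : ℂ) ≠ 0 := Complex.two_pi_I_ne_zero
  field_simp

theorem ext_annulus {b : ℂ} {r₁ r₂ : ℝ} (hr₁ : 0 < r₁) (hr : r₁ < r₂) {J : ℂ → ℂ}
    (hJ : DifferentiableOn ℂ J {z | r₁ < ‖z - b‖ ∧ ‖z - b‖ < r₂})
    (h0 : ∀ (n : ℕ) (r : ℝ), r₁ < r → r < r₂ → (∮ z in C(b, r), (z - b) ^ n * J z) = 0) :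
    ∃ J' : ℂ → ℂ, DifferentiableOn ℂ J' (ball b r₂) ∧ ∀ z, r₁ < ‖z - b‖ → ‖z - b‖ < r₂ → J' z = J z := by
  have hopen : IsOpen {z : ℂ | r₁ < ‖z - b‖ ∧ ‖z - b‖ < r₂} :=
    ext_open
  obtain ⟨m, hm₁, hm₂⟩ := exists_between hr
  obtain ⟨r', hr'₁, hr'₂⟩ := exists_between hm₂
  have hr'0 : 0 < r' := hr₁.trans (hm₁.trans hr'₁)
  have hcJ : ContinuousOn J (sphere b r') := by
    refine hJ.continuousOn.mono ?_
    intro ζ hζ
    rw [mem_sphere, dist_eq_norm] at hζ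
    exact ⟨by rw [hζ]; linarith, by rw [hζ]; linarith⟩
  let Φ : ℂ → ℂ := fun w => (2 * Real.pi * Complex.I : ℂ)⁻¹ • ∮ ζ in C(b, r'), (ζ - w)⁻¹ • J ζ
  have hΦd : DifferentiableOn ℂ Φ (ball b r') := ext_transform hr'0 hcJ
  have hΦJ : ∀ z, r₁ < ‖z - b‖ → ‖z - b‖ < r' → Φ z = J z := fun z h1 h2 =>
    ext_outer hr₁ hJ h0 hr'₂ h1 h2
  classical
  let J' : ℂ → ℂ := fun z => if m < ‖z - b‖ then J z else Φ z
  have hJ'Φ : ∀ z ∈ ball b r', J' z = Φ z := by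
    intro z hz
    rw [mem_ball, dist_eq_norm] at hz
    by_cases h : m < ‖z - b‖
    · simp only [J', if_pos h]
      exact (hΦJ z (hm₁.trans h) hz).symm
    · simp only [J', if_neg h]
  have hJ'J : ∀ z, r₁ < ‖z - b‖ → J' z = J z := by
    intro z hz
    by_cases h : m < ‖z - b‖
    · simp only [J', if_pos h]
    · simp only [J', if_neg h]
      exact hΦJ z hz (by linarith)
  refine ⟨J', ?_, fun z hz _ => hJ'J z hz⟩
  intro z hz
  refine DifferentiableAt.differentiableWithinAt ?_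
  rw [mem_ball, dist_eq_norm] at hz
  by_cases h : ‖z - b‖ < r'
  · have hzb : z ∈ ball b r' := by rwa [mem_ball, dist_eq_norm]
    exact (hΦd.differentiableAt (isOpen_ball.mem_nhds hzb)).congr_of_eventuallyEq
      (eventuallyEq_of_mem (isOpen_ball.mem_nhds hzb) hJ'Φ)
  · have hzU : z ∈ {z : ℂ | r₁ < ‖z - b‖ ∧ ‖z - b‖ < r₂} := ⟨by linarith, hz⟩
    exact (hJ.differentiableAt (hopen.mem_nhds hzU)).congr_of_eventuallyEq
      (eventuallyEq_of_mem (hopen.mem_nhds hzU) (fun w hw => hJ'J w hw.1))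

end Pool.Agent.H62.EL
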