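import Pool.Agent.H62.EL.DyE

/-!
# EL DyF: finiteness

Let `ε` be from `half_plane`.  Suppose the conclusion is false.
(1) There is a sequence `h_k ∈ S` with `¬ Ag B h_k h_j` for `k ≠ j` [otherwise a maximal set of pairwise not agreeing members is finite
and is the wanted set; e.g. `Ag B` is an equivalence relation: if the quotient of `S` is finite choose representatives, if it is
infinite choose an injective sequence of classes and representatives].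
(2) For every `n` there are `f_n, g_n ∈ S`, `¬ Ag B f_n g_n`, `dist (f_n z) (g_n z) ≤ ε` for `z ∈ Gd B δ`, `‖z‖ ≤ n`: let `h ∈ S` be the limit
of `h_k` along a free ultrafilter; by `unif` the set of `k` with `dist (h_k z) (h z) < ε/2` on `Gd B δ ∩ closedBall 0 n` is in the
ultrafilter, so it has two elements.
(3) Let `m_n ≥ n` be the least natural number such that `f_n, g_n` are not `ε`-close on `Gd B δ ∩ closedBall 0 (m_n + 1)` [exists: otherwise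
they are `ε`-close on `Gd B δ`, so `Ag B f_n g_n` by `half_plane` with `ζ = 1` and any `t`]: there is `z_n ∈ Gd B δ`, `m_n < ‖z_n‖ ≤ m_n + 1`,
`dist (f_n z_n) (g_n z_n) > ε`, and they are `ε`-close on `Gd B δ ∩ closedBall 0 m_n`.
(4) `l_n ∈ Λ`, `‖z_n - l_n‖ ≤ R`; `f'_n = f_n (· + l_n)`, `g'_n`; ultrafilter `𝒰 ≤ atTop`; limits `f', g' ∈ S`; `w = lim (z_n - l_n)`,
`w ∈ Gd B δ` (closed, invariant); by `tendsto_along` `dist (f' w) (g' w) ≥ ε`, so `¬ Ag B f' g'`.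
(5) `ζ = lim l_n / ‖l_n‖` (`‖l_n‖ → ∞`).  Let `z ∈ Gd B δ`, `re (conj ζ z) ≤ -(R + 3)`.  Then `‖z + l_n‖ ≤ m_n` eventually:
`‖z + l_n‖² = ‖l_n‖² + 2 re (conj l_n z) + ‖z‖²`, `re (conj l_n z) / ‖l_n‖ → re (conj ζ z)`, so `‖z + l_n‖² ≤ ‖l_n‖² - 2 (R + 2) ‖l_n‖ + ‖z‖² ≤
(‖l_n‖ - R - 1)² ≤ m_n²` eventually (`‖l_n‖ ≤ m_n + 1 + R`).  So `dist (f' z) (g' z) ≤ ε`.  By `half_plane` `Ag B f' g'`: contradiction.
-/

set_option autoImplicit false

open Topology Filter Metric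

namespace Pool.Agent.H62.EL

open Pool.Agent.H62.EF (Lat)

variable {Y : Type} [MetricSpace Y] {K : Set Y} {Λ : AddSubgroup ℂ} {B : Set ℂ} {δ : ℝ} {S : Set (ℂ → Y)}
  {Zr : ℂ → Y → Prop} {N : ℂ → Y → Y → ℝ}

private theorem dyF_two (h : Dyn K Λ B δ S Zr N)
    (hno : ¬ ∃ 𝓕 : Set (ℂ → Y), 𝓕.Finite ∧ 𝓕 ⊆ S ∧ ∀ f ∈ S, ∃ g ∈ 𝓕, Ag B f g) (R ε : ℝ) (hε : 0 < ε) :
    ∃ f ∈ S, ∃ g ∈ S, ¬ Ag B f g ∧ ∀ z ∈ Gd B δ, ‖z‖ ≤ R → dist (f z) (g z) < ε := by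
  let r : Setoid S :=
    { r := fun f g => Ag B f.1 g.1
      iseqv := ⟨fun f z _ => rfl, fun hfg z hz => (hfg z hz).symm, fun h1 h2 z hz => (h1 z hz).trans (h2 z hz)⟩ }
  have hinf : Infinite (Quotient r) := by
    by_contra hfin
    rw [not_infinite_iff_finite] at hfin
    apply hno
    refine ⟨Set.range fun q : Quotient r => (q.out : ℂ → Y), Set.finite_range _, ?_, ?_⟩
    · rintro _ ⟨q, rfl⟩
      exact q.out.2
    · intro f hf
      refine ⟨_, ⟨Quotient.mk r ⟨f, hf⟩, rfl⟩, ?_⟩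
      have h1 : Ag B ((Quotient.mk r ⟨f, hf⟩).out : ℂ → Y) f := Quotient.exact (Quotient.out_eq (Quotient.mk r ⟨f, hf⟩))
      exact fun z hz => (h1 z hz).symm
  let e := Infinite.natEmbedding (Quotient r)
  have hF : ∀ᶠ n in ((hyperfilter ℕ : Ultrafilter ℕ) : Filter ℕ), (fun k => ((e k).out : ℂ → Y)) n ∈ S :=
    Eventually.of_forall fun n => (e n).out.2
  obtain ⟨f, hf, hlim⟩ := h.exists_lim (hyperfilter ℕ) (fun k => ((e k).out : ℂ → Y)) hF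
  have h1 := h.unif (hyperfilter ℕ) (fun k => ((e k).out : ℂ → Y)) hF hf hlim h.bad.pos R (ε / 2) (half_pos hε)
  have h2 : {k : ℕ | ∀ z ∈ Gd B δ, ‖z‖ ≤ R → dist (((e k).out : ℂ → Y) z) (f z) < ε / 2}.Infinite := by
    intro hfin
    exact notMem_hyperfilter_of_finite hfin h1
  obtain ⟨i, hi, j, hj, hij⟩ := h2.nontrivial
  refine ⟨(e i).out, (e i).out.2, (e j).out, (e j).out.2, ?_, ?_⟩
  · intro heq
    apply hij
    apply e.injective
    rw [← Quotient.out_eq (e i), ← Quotient.out_eq (e j)]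
    exact Quotient.sound heq
  · intro z hz hzR
    have h3 := hi z hz hzR
    have h4 := hj z hz hzR
    calc dist (((e i).out : ℂ → Y) z) (((e j).out : ℂ → Y) z) ≤ dist (((e i).out : ℂ → Y) z) (f z) +
          dist (((e j).out : ℂ → Y) z) (f z) := dist_triangle_right _ _ _
      _ < ε / 2 + ε / 2 := add_lt_add h3 h4
      _ = ε := add_halves ε

private theorem dyF_max (h : Dyn K Λ B δ S Zr N) {ε : ℝ} (hε : 0 < ε)
    (hclose : ∀ f ∈ S, ∀ g ∈ S, (∀ z ∈ Gd B δ, dist (f z) (g z) ≤ ε) → Ag B f g)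
    (hno : ¬ ∃ 𝓕 : Set (ℂ → Y), 𝓕.Finite ∧ 𝓕 ⊆ S ∧ ∀ f ∈ S, ∃ g ∈ 𝓕, Ag B f g) (n : ℕ) :
    ∃ f ∈ S, ∃ g ∈ S, ∃ m : ℕ, n ≤ m ∧ (∃ z ∈ Gd B δ, (m : ℝ) < ‖z‖ ∧ ‖z‖ ≤ m + 1 ∧ ε < dist (f z) (g z)) ∧
      ∀ z ∈ Gd B δ, ‖z‖ ≤ m → dist (f z) (g z) ≤ ε := by
  obtain ⟨f, hf, g, hg, hne, hd⟩ := dyF_two h hno n ε hε
  classical
  have hex : ∃ m : ℕ, n ≤ m ∧ ¬ ∀ z ∈ Gd B δ, ‖z‖ ≤ m + 1 → dist (f z) (g z) ≤ ε := by
    by_contra hcon
    push Not at hcon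
    apply hne
    apply hclose f hf g hg
    intro z hz
    obtain ⟨k, hk⟩ := exists_nat_ge ‖z‖
    refine hcon (max n k) (le_max_left _ _) z hz ?_
    have h1 : (k : ℝ) ≤ ((max n k : ℕ) : ℝ) := by exact_mod_cast le_max_right n k
    linarith
  have hspec := Nat.find_spec hex
  set m := Nat.find hex with hm
  have hlow : ∀ z ∈ Gd B δ, ‖z‖ ≤ m → dist (f z) (g z) ≤ ε := by
    rcases hspec.1.eq_or_lt with heq | hlt
    · intro z hz hzm
      rw [← heq] at hzm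
      exact (hd z hz hzm).le
    · have h1 : ¬ (n ≤ m - 1 ∧ ¬ ∀ z ∈ Gd B δ, ‖z‖ ≤ ((m - 1 : ℕ) : ℝ) + 1 → dist (f z) (g z) ≤ ε) :=
        Nat.find_min hex (by omega)
      have h2 : n ≤ m - 1 := by omega
      have h3 : ∀ z ∈ Gd B δ, ‖z‖ ≤ ((m - 1 : ℕ) : ℝ) + 1 → dist (f z) (g z) ≤ ε := by
        by_contra h4
        exact h1 ⟨h2, h4⟩
      have h5 : ((m - 1 : ℕ) : ℝ) + 1 = m := by
        have : (m - 1) + 1 = m := by omega
        exact_mod_cast this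
      rwa [h5] at h3
  obtain ⟨z, hz, hzm, hzd⟩ : ∃ z ∈ Gd B δ, ‖z‖ ≤ m + 1 ∧ ε < dist (f z) (g z) := by
    have h1 := hspec.2
    push Not at h1
    obtain ⟨z, h2, h3, h4⟩ := h1
    exact ⟨z, h2, h3, h4⟩
  refine ⟨f, hf, g, hg, m, hspec.1, ⟨z, hz, ?_, hzm, hzd⟩, hlow⟩
  by_contra hle
  exact absurd (hlow z hz (not_lt.1 hle)) (not_le.2 hzd)

theorem Dyn.finite (h : Dyn K Λ B δ S Zr N) : ∃ 𝓕 : Set (ℂ → Y), 𝓕.Finite ∧ 𝓕 ⊆ S ∧ ∀ f ∈ S, ∃ g ∈ 𝓕, Ag B f g := by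
  by_contra hno
  obtain ⟨ε, hε, hhp⟩ := h.half_plane
  obtain ⟨R, hR, hcoc⟩ := h.lat.cocompact
  have hclose : ∀ f ∈ S, ∀ g ∈ S, (∀ z ∈ Gd B δ, dist (f z) (g z) ≤ ε) → Ag B f g := fun f hf g hg hd =>
    hhp f hf g hg 1 0 norm_one fun z hz _ => hd z hz
  choose f hf g hg m hm hz hlow using dyF_max h hε hclose hno
  choose z hzG hz1 hz2 hz3 using hz
  choose l hl hlR using fun n => hcoc (z n)
  set 𝒰 : Ultrafilter ℕ := hyperfilter ℕ with h𝒰
  have hf' : ∀ᶠ n in (𝒰 : Filter ℕ), (fun n x => f n (x + l n)) n ∈ S :=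
    Eventually.of_forall fun n => h.trans _ (hf n) _ (hl n)
  have hg' : ∀ᶠ n in (𝒰 : Filter ℕ), (fun n x => g n (x + l n)) n ∈ S :=
    Eventually.of_forall fun n => h.trans _ (hg n) _ (hl n)
  obtain ⟨F, hF, hFlim⟩ := h.exists_lim 𝒰 (fun n x => f n (x + l n)) hf'
  obtain ⟨G, hG, hGlim⟩ := h.exists_lim 𝒰 (fun n x => g n (x + l n)) hg'
  obtain ⟨w, hw⟩ : ∃ w : ℂ, Tendsto (fun n => z n - l n) 𝒰 (𝓝 w) := by
    obtain ⟨w, hw1, hw2⟩ := (isCompact_closedBall (0 : ℂ) R).ultrafilter_le_nhds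
      (𝒰.map fun n => z n - l n) (by
        rw [Ultrafilter.coe_map, le_principal_iff, mem_map]
        exact Filter.univ_mem' fun n => by simpa using hlR n)
    exact ⟨w, hw2⟩
  have hmlim : Tendsto (fun n => (m n : ℝ)) (𝒰 : Filter ℕ) atTop := by
    have h1 : Tendsto (fun n : ℕ => (m n : ℝ)) atTop atTop := by
      refine tendsto_atTop_mono (fun n => ?_) tendsto_natCast_atTop_atTop
      exact_mod_cast hm n
    exact h1.mono_left Nat.hyperfilter_le_atTop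
  have hl1 : ∀ n, ‖l n‖ ≤ m n + 1 + R := by
    intro n
    have h1 : ‖l n‖ ≤ ‖z n‖ + ‖z n - l n‖ := by
      have h2 := norm_sub_le (z n) (z n - l n)
      rwa [sub_sub_cancel] at h2
    have := hz2 n
    have := hlR n
    linarith
  have hl2 : ∀ n, (m n : ℝ) - R ≤ ‖l n‖ := by
    intro n
    have h1 : ‖z n‖ ≤ ‖z n - l n‖ + ‖l n‖ := by
      have h2 := norm_add_le (z n - l n) (l n)
      rwa [sub_add_cancel] at h2
    have := hz1 n
    have := hlR n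
    linarith
  have hllim : Tendsto (fun n => ‖l n‖) (𝒰 : Filter ℕ) atTop :=
    tendsto_atTop_mono hl2 (tendsto_atTop_add_const_right _ _ hmlim)
  have hlpos : ∀ᶠ n in (𝒰 : Filter ℕ), 0 < ‖l n‖ := hllim.eventually_gt_atTop 0
  obtain ⟨ζ, hζ, hζlim⟩ : ∃ ζ ∈ sphere (0 : ℂ) 1, Tendsto (fun n => l n / (‖l n‖ : ℂ)) 𝒰 (𝓝 ζ) := by
    obtain ⟨w, hw1, hw2⟩ := (isCompact_sphere (0 : ℂ) 1).ultrafilter_le_nhds
      (𝒰.map fun n => l n / (‖l n‖ : ℂ)) (by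
        rw [Ultrafilter.coe_map, le_principal_iff, mem_map]
        filter_upwards [hlpos] with n hn
        have h1 : ‖l n‖ ≠ 0 := hn.ne'
        simp [h1])
    exact ⟨w, hw1, hw2⟩
  have hζ1 : ‖ζ‖ = 1 := by simpa using hζ
  -- the limits differ at the point w
  have hwG : w ∈ Gd B δ :=
    (isClosed_gd δ).mem_of_tendsto hw (Eventually.of_forall fun n => by
      have h1 := (h.bad.gd_add δ (z := z n - l n) (hl n)).1
      rw [sub_add_cancel] at h1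
      exact h1 (hzG n))
  have hwB : w ∉ B := gd_notMem h.bad.pos hwG
  have hFw := h.tendsto_along 𝒰 (fun n x => f n (x + l n)) hf' hFlim hwB hw
  have hGw := h.tendsto_along 𝒰 (fun n x => g n (x + l n)) hg' hGlim hwB hw
  have hne : ¬ Ag B F G := by
    intro hag
    have h1 : ε ≤ dist (F w) (G w) :=
      ge_of_tendsto (hFw.dist hGw) (Eventually.of_forall fun n => by
        have h2 := (hz3 n).le
        simpa only [sub_add_cancel] using h2)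
    rw [hag w hwB, dist_self] at h1
    linarith
  apply hne
  -- the half plane
  refine hhp F hF G hG ζ (-(R + 3)) hζ1 fun x hx hxr => ?_
  have hxB : x ∉ B := gd_notMem h.bad.pos hx
  have hin : ∀ᶠ n in (𝒰 : Filter ℕ), ‖x + l n‖ ≤ m n := by
    have h2 : Tendsto (fun n => ((starRingEnd ℂ) (l n / (‖l n‖ : ℂ)) * x).re) 𝒰
        (𝓝 ((starRingEnd ℂ) ζ * x).re) :=
      (Complex.continuous_re.tendsto _).comp
        (((Complex.continuous_conj.tendsto _).comp hζlim).mul tendsto_const_nhds)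
    have hxr' : ((starRingEnd ℂ) ζ * x).re < -(R + 2) := by linarith
    filter_upwards [h2.eventually (gt_mem_nhds hxr'), hlpos, hllim.eventually_ge_atTop (R + 1),
      hllim.eventually_ge_atTop (‖x‖ ^ 2)] with n hn1 hpos hn2 hn3
    have h4 : ((starRingEnd ℂ) (l n) * x).re =
        ‖l n‖ * ((starRingEnd ℂ) (l n / (‖l n‖ : ℂ)) * x).re := by
      have h5 : l n = (‖l n‖ : ℂ) * (l n / (‖l n‖ : ℂ)) := by
        rw [mul_div_cancel₀]
        exact_mod_cast hpos.ne'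
      conv_lhs => rw [h5, map_mul, Complex.conj_ofReal, mul_assoc]
      rw [Complex.re_ofReal_mul]
    have h6 : ‖x + l n‖ ^ 2 = ‖x‖ ^ 2 + ‖l n‖ ^ 2 + 2 * ((starRingEnd ℂ) (l n) * x).re := by
      rw [← Complex.normSq_eq_norm_sq, ← Complex.normSq_eq_norm_sq, ← Complex.normSq_eq_norm_sq,
        Complex.normSq_add, mul_comm x]
    have h7 : ‖l n‖ * ((starRingEnd ℂ) (l n / (‖l n‖ : ℂ)) * x).re ≤ ‖l n‖ * (-(R + 2)) :=
      mul_le_mul_of_nonneg_left hn1.le hpos.le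
    have h8 : ‖x + l n‖ ^ 2 ≤ (‖l n‖ - (R + 1)) ^ 2 := by
      rw [h6, h4]
      nlinarith
    have h9 : ‖x + l n‖ ≤ ‖l n‖ - (R + 1) :=
      (pow_le_pow_iff_left₀ (norm_nonneg _) (by linarith) two_ne_zero).1 h8
    have := hl1 n
    linarith
  refine le_of_tendsto ((hFlim x hxB).dist (hGlim x hxB)) ?_
  filter_upwards [hin] with n hn
  exact hlow n _ ((h.bad.gd_add δ (hl n)).2 hx) hn

end Pool.Agent.H62.EL
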