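import Pool.Agent.H62.EL.Jan

/-!
# EL Nr: near different points with the same integral are near the zeros of the form

`near_zr`: let `χ, c, ρ` be a chart with `Cap ... z (f z) r` and `A` a primitive (`exists_prim`), `x ∈ X` a lift of `f z` over `z` (`sb_lift`), `p = χ.q x`.  By `sb_along` `F n (w n) → f z`, `G n (w n) → f z`.  For large `n`:
`w n ∈ closedBall z r`, `dist (F n (w n)) (f z) + ε ≤ r`, `dist (F n (w n)) (G n (w n)) ≤ ε₀`, so there is `v` with `IRel` (`hrel`), and by `II_eq` `A (χ.q x'_n) = A (χ.q x_n)` with lifts `x_n, x'_n ∈ X` of `F n (w n)`,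
`G n (w n)` over `w n`.  `p_n = χ.q x_n ≠ p'_n = χ.q x'_n` (otherwise `x_n, x'_n` are proportional, `Chart.surj`), both tend to `p`, and `c + ρ (p_n).1 = w n = c + ρ (p'_n).1`.  If `∂₂ A p ≠ 0`, then by strict
differentiability of `A` at `p`: `‖A p'_n - A p_n - DA(p) (p'_n - p_n)‖ ≤ (‖∂₂ A p‖ / 2) ‖p'_n - p_n‖` for large `n`, and `DA(p) (p'_n - p_n) = ∂₂ A p * (p'_n - p_n).2` has norm `‖∂₂ A p‖ ‖p'_n - p_n‖`: contradiction.
So `tc α χ _ p = ∂₂ A p = 0` and `Zr α z (f z)` by `zr_iff` (`mo c ρ 1 0 p = z`, `pr (χ.σ p) = pr x = f z`).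

`zr_lim`: with `χ, c, ρ` and lifts as above: `tc α χ _ (p_n) = 0` for `p_n = χ.q x_n → p` (`zr_iff`), so `tc α χ _ p = 0` by continuity (`tc_an`).
`zr_per`: `Per`, `u x - z ∈ Λ ↔ u x - (z + l) ∈ Λ`.
-/

set_option autoImplicit false

open Topology Filter Metric

namespace Pool.Agent.H62.EL

open Pool.Agent.H36.BP (EN fs wd IsGermChart)
open Pool.Agent.H14.PP (IsCone Chart Tan CurveAt jac)
open Pool.Agent.H62.EF (Lat MN pr TorusMap Sec Charts DU)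

variable {N : ℕ} {X : Set (EN N)} {Λ : AddSubgroup ℂ} {u : EN N → ℂ}

variable {Γ : AddSubgroup ℂ} {B : Set ℂ} {δ : ℝ}

private theorem nr_ne (hX : IsCone X) {x : EN N} (hx : x ∈ X) : x ≠ 0 := by
  rintro rfl
  exact hX.zero_notMem hx

/-- points whose image under `pr` is near that of `x₀` lie in the chart, and their coordinates are near -/
private theorem nr_near (hX : IsCone X) (χ : Chart X) {x₀ : EN N} (hx₀ : x₀ ∈ X) (hU : x₀ ∈ χ.U) {V : Set (ℂ × ℂ)} (hV : V ∈ 𝓝 (χ.q x₀)) :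
    ∃ d : ℝ, 0 < d ∧ ∀ x ∈ X, dist (pr x) (pr x₀) < d → x ∈ χ.U ∧ χ.q x ∈ V := by
  have h1 : {y : EN N | y ∈ χ.U ∧ χ.q y ∈ V} ∈ 𝓝 x₀ := by
    have h2 : ∀ᶠ y in 𝓝 x₀, y ∈ χ.U := χ.isOpen_U.mem_nhds hU
    have h3 : ∀ᶠ y in 𝓝 x₀, χ.q y ∈ V := (χ.q_an _ hU).continuousAt.eventually hV
    exact h2.and h3
  obtain ⟨d, hd, h⟩ := Pool.Agent.H62.EF.near_of_pr (nr_ne hX hx₀) h1
  refine ⟨d, hd, fun x hx hdx => ?_⟩
  obtain ⟨c, hc, hcU, hcV⟩ := h x (nr_ne hX hx) hdx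
  have h4 : c⁻¹ • (c • x) = x := by rw [smul_smul, inv_mul_cancel₀ hc, one_smul]
  have h5 : x ∈ χ.U := by
    rw [← h4]
    exact χ.smul_U _ hcU _ (inv_ne_zero hc)
  refine ⟨h5, ?_⟩
  rw [← χ.q_smul x h5 c hc]
  exact hcV

private theorem nr_gd {δ' : ℝ} (hδ' : 0 < δ') {z : ℂ} (hz : z ∈ Gd B δ') : z ∉ B := by
  intro h
  have h1 := hz z h
  rw [sub_self, norm_zero] at h1
  linarith

private theorem nr_mo (c : ℂ) (ρ : ℝ) (p : ℂ × ℂ) : mo c ρ 1 0 p = c + ρ * p.1 := by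
  unfold mo
  ring

private theorem nr_pr (χ : Chart X) {x : EN N} (hx : x ∈ X) (hU : x ∈ χ.U) : pr (χ.σ (χ.q x)) = pr x := by
  obtain ⟨-, a, ha, h⟩ := χ.surj x hx hU
  conv_rhs => rw [h]
  rw [Pool.Agent.H62.EF.pr_smul _ ha]

theorem near_zr (E : EData X Λ u Γ B δ) {α : TForm X Λ u} {δ' ε ε₀ r : ℝ} (hδ' : 0 < δ') (hε₀ : 0 < ε₀) (hr : ε < r)
    (hcap : ∀ z₀ ∈ Gd B δ', ∀ f ∈ Sb X Λ u B, ∃ (χ : Chart X) (c : ℂ) (ρ : ℝ), Cap Λ u χ c ρ z₀ (f z₀) r)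
    (hrel : ∀ f ∈ Sb X Λ u B, ∀ g ∈ Sb X Λ u B, ∀ z ∈ Gd B δ', dist (f z) (g z) ≤ ε₀ → ∃ v, IRel α ε z (f z) (g z) v)
    (𝒰 : Ultrafilter ℕ) (F G : ℕ → ℂ → MN N) (w : ℕ → ℂ) {f : ℂ → MN N} (hf : f ∈ Sb X Λ u B) {z : ℂ} (hz : z ∈ Gd B δ')
    (hFG : ∀ᶠ n in (𝒰 : Filter ℕ), F n ∈ Sb X Λ u B ∧ G n ∈ Sb X Λ u B)
    (hF : ∀ z, z ∉ B → Tendsto (fun n => F n z) 𝒰 (𝓝 (f z))) (hG : ∀ z, z ∉ B → Tendsto (fun n => G n z) 𝒰 (𝓝 (f z)))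
    (hw : Tendsto w 𝒰 (𝓝 z))
    (h : ∀ᶠ n in (𝒰 : Filter ℕ), w n ∈ Gd B δ' ∧ F n (w n) ≠ G n (w n) ∧ II α ε (w n) (F n (w n)) (G n (w n)) = 0) :
    Zr α z (f z) := by
  have hzB : z ∉ B := nr_gd hδ' hz
  have hX := E.cone
  have hε0 : 0 ≤ ε := by
    obtain ⟨v, χ, c, ρ, A, p, p', -, -, -, -, -, -, -, -, h1, -⟩ := hrel f hf f hf z hz (by rw [dist_self]; exact hε₀.le)
    exact dist_nonneg.trans (h1 0 ⟨le_rfl, zero_le_one⟩)
  have hr0 : 0 < r := lt_of_le_of_lt hε0 hr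
  obtain ⟨χ, c, ρ, hc⟩ := hcap z hz f hf
  obtain ⟨A, hA⟩ := exists_prim α χ hc.mon
  obtain ⟨r₁, Ψ, hr₁, -, hΨ⟩ := sb_lift E hf hzB
  obtain ⟨hxX, hxu, hxf⟩ := hΨ z (mem_ball_self hr₁)
  obtain ⟨hxU, hxq, hxz⟩ := hc.cap z (mem_closedBall_self hr0.le) _ hxX hxu (by rw [hxf, dist_self]; exact hr0.le)
  set p := χ.q (Ψ z) with hp
  have hp2 : p ∈ ball (0 : ℂ × ℂ) 2 := closedBall_subset_ball (by norm_num) hxq
  -- the conclusion from the vanishing of the derivative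
  have hmo : mo c ρ 1 0 p = z := by rw [nr_mo, hxz]
  have hprp : pr (χ.σ p) = f z := by rw [hp, nr_pr χ hxX hxU, hxf]
  have hlift : u (χ.σ p) - mo c ρ 1 0 p ∈ Λ := hc.mon.lift p hp2
  have hfin : fderiv ℂ A p (0, 1) = 0 → Zr α z (f z) := by
    intro h0
    have h1 := (zr_iff hX E.tor α χ hp2 hlift).2 (by rw [← hA.der p hp2]; exact h0)
    rwa [hmo, hprp] at h1
  by_contra hcon
  have hD : fderiv ℂ A p (0, 1) ≠ 0 := fun h0 => hcon (hfin h0)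
  have hDpos : 0 < ‖fderiv ℂ A p (0, 1)‖ := norm_pos_iff.2 hD
  have hstr := (hA.an p hp2).hasStrictFDerivAt
  have hlo := hstr.isLittleO.def (half_pos hDpos)
  obtain ⟨s, hs, hsb⟩ := Metric.eventually_nhds_iff.1 hlo
  obtain ⟨d, hd, hdn⟩ := nr_near hX χ hxX hxU (V := ball p s) (by rw [← hp]; exact ball_mem_nhds _ hs)
  have hFf := sb_along E 𝒰 F (hFG.mono fun n hn => hn.1) hF hzB hw
  have hGf := sb_along E 𝒰 G (hFG.mono fun n hn => hn.2) hG hzB hw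
  have hFd : ∀ᶠ n in (𝒰 : Filter ℕ), dist (F n (w n)) (f z) < min (min d (r - ε)) (ε₀ / 2) := by
    refine hFf.eventually (ball_mem_nhds _ ?_)
    exact lt_min (lt_min hd (by linarith)) (by linarith)
  have hGd : ∀ᶠ n in (𝒰 : Filter ℕ), dist (G n (w n)) (f z) < min (min d r) (ε₀ / 2) := by
    refine hGf.eventually (ball_mem_nhds _ ?_)
    exact lt_min (lt_min hd hr0) (by linarith)
  have hwd : ∀ᶠ n in (𝒰 : Filter ℕ), dist (w n) z < r := hw.eventually (ball_mem_nhds _ hr0)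
  obtain ⟨n, ⟨⟨⟨⟨hnB, hne, hII⟩, hFS, hGS⟩, hn3⟩, hn4⟩, hn5⟩ := ((((h.and hFG).and hFd).and hGd).and hwd).exists
  have hwB : w n ∉ B := nr_gd hδ' hnB
  obtain ⟨r₂, Φ, hr₂, -, hΦ⟩ := sb_lift E hFS hwB
  obtain ⟨hx1X, hx1u, hx1f⟩ := hΦ (w n) (mem_ball_self hr₂)
  obtain ⟨r₃, Θ, hr₃, -, hΘ⟩ := sb_lift E hGS hwB
  obtain ⟨hx2X, hx2u, hx2f⟩ := hΘ (w n) (mem_ball_self hr₃)
  set x₁ := Φ (w n) with hx1
  set x₂ := Θ (w n) with hx2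
  have ha : dist (pr x₁) (pr (Ψ z)) < d := by
    rw [hx1f, hxf]
    exact hn3.trans_le ((min_le_left _ _).trans (min_le_left _ _))
  have hb : dist (pr x₂) (pr (Ψ z)) < d := by
    rw [hx2f, hxf]
    exact hn4.trans_le ((min_le_left _ _).trans (min_le_left _ _))
  obtain ⟨hx1U, hx1V⟩ := hdn x₁ hx1X ha
  obtain ⟨hx2U, hx2V⟩ := hdn x₂ hx2X hb
  have hFr : dist (F n (w n)) (f z) < r - ε := hn3.trans_le ((min_le_left _ _).trans (min_le_right _ _))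
  have hGr : dist (G n (w n)) (f z) < r := hn4.trans_le ((min_le_left _ _).trans (min_le_right _ _))
  have hFGd : dist (F n (w n)) (G n (w n)) ≤ ε₀ := by
    have h1 := hn3.trans_le (min_le_right _ _)
    have h2 := hn4.trans_le (min_le_right _ _)
    have h3 := dist_triangle_right (F n (w n)) (G n (w n)) (f z)
    linarith
  have hv := hrel _ hFS _ hGS (w n) hnB hFGd
  have hIe := II_eq hX E.tor E.lat hv hc hA (mem_closedBall.2 hn5.le) (by linarith : dist (F n (w n)) (f z) + ε ≤ r) hx1X hx2X hx1f hx2f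
  rw [hII] at hIe
  have hρ : (ρ : ℂ) ≠ 0 := by exact_mod_cast hc.mon.pos.ne'
  have hAeq : A (χ.q x₂) - A (χ.q x₁) = 0 := by
    rcases div_eq_zero_iff.1 hIe.symm with h1 | h1
    · exact h1
    · exact absurd h1 hρ
  obtain ⟨-, -, hz1⟩ := hc.cap (w n) (mem_closedBall.2 hn5.le) x₁ hx1X hx1u (by rw [hx1f]; linarith)
  obtain ⟨-, -, hz2⟩ := hc.cap (w n) (mem_closedBall.2 hn5.le) x₂ hx2X hx2u (by rw [hx2f]; linarith)
  have hfst : (χ.q x₂).1 = (χ.q x₁).1 := by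
    have h1 : (ρ : ℂ) * (χ.q x₂).1 = ρ * (χ.q x₁).1 := by
      have h2 := hz2.trans hz1.symm
      exact add_left_cancel h2
    exact mul_left_cancel₀ hρ h1
  have hsub : χ.q x₂ - χ.q x₁ = ((χ.q x₂).2 - (χ.q x₁).2) • ((0 : ℂ), (1 : ℂ)) := by
    ext
    · simp [hfst]
    · simp
  have ht : (χ.q x₂).2 - (χ.q x₁).2 ≠ 0 := by
    intro h0
    rw [h0, zero_smul, sub_eq_zero] at hsub
    apply hne
    rw [← hx1f, ← hx2f, ← nr_pr χ hx1X hx1U, ← nr_pr χ hx2X hx2U, hsub]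
  have hbd := @hsb (χ.q x₂, χ.q x₁) (by
    rw [Prod.dist_eq]
    exact max_lt (mem_ball.1 hx2V) (mem_ball.1 hx1V))
  simp only at hbd
  rw [hAeq, hsub, map_smul, zero_sub, norm_neg, norm_smul, norm_smul] at hbd
  have hn01 : ‖((0 : ℂ), (1 : ℂ))‖ = 1 := by
    rw [Prod.norm_def]
    simp
  rw [hn01, mul_one] at hbd
  have htp : 0 < ‖(χ.q x₂).2 - (χ.q x₁).2‖ := norm_pos_iff.2 ht
  nlinarith [mul_pos htp hDpos]

theorem zr_lim (E : EData X Λ u Γ B δ) {α : TForm X Λ u} (𝒰 : Ultrafilter ℕ) (F : ℕ → ℂ → MN N) {f : ℂ → MN N}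
    (hf : f ∈ Sb X Λ u B) (hF : ∀ᶠ n in (𝒰 : Filter ℕ), F n ∈ Sb X Λ u B) {z : ℂ} (hz : z ∉ B)
    (hFf : Tendsto (fun n => F n z) 𝒰 (𝓝 (f z))) (h : ∀ᶠ n in (𝒰 : Filter ℕ), Zr α z (F n z)) : Zr α z (f z) := by
  have hX := E.cone
  obtain ⟨δ', hδ', hzg⟩ := E.bad.exists_gd hz
  obtain ⟨r, hr, hcap⟩ := exists_cap E hδ'
  obtain ⟨χ, c, ρ, hc⟩ := hcap z hzg f hf
  obtain ⟨r₁, Ψ, hr₁, -, hΨ⟩ := sb_lift E hf hz
  obtain ⟨hxX, hxu, hxf⟩ := hΨ z (mem_ball_self hr₁)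
  obtain ⟨hxU, hxq, hxz⟩ := hc.cap z (mem_closedBall_self hr.le) _ hxX hxu (by rw [hxf, dist_self]; exact hr.le)
  set p := χ.q (Ψ z) with hp
  have hp2 : p ∈ ball (0 : ℂ × ℂ) 2 := closedBall_subset_ball (by norm_num) hxq
  have hmo : mo c ρ 1 0 p = z := by rw [nr_mo, hxz]
  have hprp : pr (χ.σ p) = f z := by rw [hp, nr_pr χ hxX hxU, hxf]
  have hlift : u (χ.σ p) - mo c ρ 1 0 p ∈ Λ := hc.mon.lift p hp2
  have hfin : tc α χ (mo c ρ 1 0) p = 0 → Zr α z (f z) := by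
    intro h0
    have h1 := (zr_iff hX E.tor α χ hp2 hlift).2 h0
    rwa [hmo, hprp] at h1
  by_contra hcon
  have hD : tc α χ (mo c ρ 1 0) p ≠ 0 := fun h0 => hcon (hfin h0)
  have han : AnalyticAt ℂ (tc α χ (mo c ρ 1 0)) p := by
    refine tc_an α χ hp2 (mo_an c ρ 1 0 p) ?_
    filter_upwards [isOpen_ball.mem_nhds hp2] with y hy
    exact hc.mon.lift y hy
  have hV : {q : ℂ × ℂ | tc α χ (mo c ρ 1 0) q ≠ 0} ∈ 𝓝 p := han.continuousAt.eventually_ne hD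
  obtain ⟨d, hd, hdn⟩ := nr_near hX χ hxX hxU (V := {q : ℂ × ℂ | tc α χ (mo c ρ 1 0) q ≠ 0}) hV
  have hFd : ∀ᶠ n in (𝒰 : Filter ℕ), dist (F n z) (f z) < min d r := hFf.eventually (ball_mem_nhds _ (lt_min hd hr))
  obtain ⟨n, ⟨hnZ, hFS⟩, hn⟩ := ((h.and hF).and hFd).exists
  obtain ⟨r₂, Φ, hr₂, -, hΦ⟩ := sb_lift E hFS hz
  obtain ⟨hx1X, hx1u, hx1f⟩ := hΦ z (mem_ball_self hr₂)
  set x₁ := Φ z with hx1
  have hdr := lt_min_iff.1 hn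
  obtain ⟨hx1U, hx1V⟩ := hdn x₁ hx1X (by rw [hx1f, hxf]; exact hdr.1)
  obtain ⟨-, hxq1, hz1⟩ := hc.cap z (mem_closedBall_self hr.le) x₁ hx1X hx1u (by rw [hx1f]; exact hdr.2.le)
  have hp1 : χ.q x₁ ∈ ball (0 : ℂ × ℂ) 2 := closedBall_subset_ball (by norm_num) hxq1
  have hmo1 : mo c ρ 1 0 (χ.q x₁) = z := by rw [nr_mo, hz1]
  have hpr1 : pr (χ.σ (χ.q x₁)) = F n z := by rw [nr_pr χ hx1X hx1U, hx1f]
  have h1 := zr_iff hX E.tor α χ hp1 (hc.mon.lift _ hp1)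
  rw [hmo1, hpr1] at h1
  exact hx1V (h1.1 hnZ)

theorem zr_per {α : TForm X Λ u} (hle : Γ ≤ Λ) (hper : Per α Γ) {l : ℂ} (hl : l ∈ Γ) (z : ℂ) (y : MN N) :
    Zr α (z + l) y ↔ Zr α z y := by
  constructor
  · rintro ⟨x, hx, hxy, hxz, h⟩
    have hxz' : u x - z ∈ Λ := by
      have h1 := Λ.add_mem hxz (hle hl)
      have h2 : u x - (z + l) + l = u x - z := by ring
      rwa [h2] at h1
    refine ⟨x, hx, hxy, hxz', fun v w hv hw => ?_⟩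
    rw [← hper z l hl x hx hxz' v w hv hw]
    exact h v w hv hw
  · rintro ⟨x, hx, hxy, hxz, h⟩
    refine ⟨x, hx, hxy, ?_, fun v w hv hw => ?_⟩
    · have h1 := Λ.sub_mem hxz (hle hl)
      have h2 : u x - z - l = u x - (z + l) := by ring
      rwa [h2] at h1
    · rw [hper z l hl x hx hxz v w hv hw]
      exact h v w hv hw

end Pool.Agent.H62.EL
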