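import Pool.Agent.H62.EL.Dc
import Pool.Agent.H62.EL.Nr
import Pool.Agent.H62.EL.Iz
import Pool.Agent.H62.EL.DyF
import Pool.Agent.H62.EF.Core

/-!
# EL Core: the sections are finitely many

`dyn`: the fields of `Dyn (pr '' X) Γ B δ (Sb X Λ u B) (Zr α) (fun z y y' => ‖II α ε z y y'‖)`: `compact`: `isCompact_pr`; `bad`: `BadSet B Γ δ` from `BadSet B Λ δ`; `mem`, `lip`, `trans`, `lim`: `sb_mem`, `sb_lip`,
`sb_trans`, `sb_lim`; `uniq`: `sb_uniq`; `Z_inv`, `Z_lim`: `zr_per`, `zr_lim`; `N_inv`: `II_per`; `decay`: `decay_sb`; `near`: `near_zr`; `iso`: `iso_zr`.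

`EData.mono`: clear.

`sec_finite`: tubes for the representatives (`exists_reps`, `exists_tube`); choose `δ' ≤ δ`, `δ' > 0` with `3 δ' < s` for all of them; `EData.mono`; `exists_cst`; `dyn`; `Dyn.finite` gives the finite set `𝓕`.  For `F ∈ Sec`,
`pr ∘ F ∈ Sb`; two sections whose `pr ∘ F`, `pr ∘ F'` agree outside `B` with the same member of `𝓕` agree outside `B`, hence everywhere (continuous, `Bᶜ` is dense: `B` is countable or discrete).  So the set is finite.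
-/

set_option autoImplicit false

open Topology Filter Metric

namespace Pool.Agent.H62.EL

open Pool.Agent.H36.BP (EN fs wd IsGermChart)
open Pool.Agent.H14.PP (IsCone Chart Tan CurveAt jac)
open Pool.Agent.H62.EF (Lat MN pr TorusMap Sec Charts DU)

variable {N : ℕ} {X : Set (EN N)} {Λ : AddSubgroup ℂ} {u : EN N → ℂ}

variable {Γ : AddSubgroup ℂ} {B : Set ℂ} {δ : ℝ}

theorem dyn (E : EData X Λ u Γ B δ) {α : TForm X Λ u} (hper : Per α Γ) (hvan : VanZero α) (hthin : Thin α) {ε ε₀ C : ℝ}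
    (hc : Cst X Λ u B δ α ε ε₀ C) : Dyn (pr '' X) Γ B δ (Sb X Λ u B) (Zr α) (fun z y y' => ‖II α ε z y y'‖) := by
  have hr : ε < 3 * ε := by
    have := hc.ε_pos
    linarith
  have hd := E.bad.pos
  have hd2 : (0 : ℝ) < 2 * δ := by linarith
  have hmono : ∀ z ∈ Gd B (2 * δ), z ∈ Gd B δ := fun z hz => gd_mono (by linarith) hz
  refine
    { compact := Pool.Agent.H62.EF.isCompact_pr E.cone
      lat := E.latΓ
      bad := ⟨E.bad.pos, fun b hb l hl => E.bad.inv b hb l (E.le hl), E.bad.sep⟩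
      mem := fun f hf z hz => sb_mem E hf hz
      lip := fun δ' hδ' => sb_lip E hδ'
      trans := fun f hf l hl => sb_trans E hf (E.le hl)
      lim := fun 𝒰 F f hF hf => sb_lim E 𝒰 F f hF hf
      uniq := fun f hf g hg z₀ hz₀ h => sb_uniq E hf hg hz₀ h
      Z_inv := fun z l hl y => zr_per E.le hper hl z y
      Z_lim := fun 𝒰 F f hf hF hFf z hz h => zr_lim E 𝒰 F hf hF (gd_notMem hd2 hz) (hFf z (gd_notMem hd2 hz)) h
      N_nonneg := fun z y y' => norm_nonneg _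
      N_inv := fun z l hl y y' => by rw [II_per E.tor E.le hper hl]
      decay := ?_
      near := ?_
      iso := ?_ }
  · obtain ⟨κ, r₁, hκ, hr₁, h⟩ := decay_sb E hper hvan hc
    exact ⟨C, κ, r₁, ε₀ / 2, hc.C_nonneg, hκ, hr₁, by have := hc.ε₀_pos; linarith, h⟩
  · intro 𝒰 F G w f hf z hz hFG hF hG hw h
    refine near_zr E hd2 hc.ε₀_pos hr (fun z₀ hz₀ f hf => hc.cap z₀ (hmono z₀ hz₀) f hf)
      (fun f hf g hg z hz h => hc.rel f hf g hg z (hmono z hz) h) 𝒰 F G w hf hz hFG hF hG hw ?_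
    filter_upwards [h] with n hn using ⟨hn.1, hn.2.1, norm_eq_zero.1 hn.2.2⟩
  · intro e he _
    exact iso_zr E hthin hd2 le_rfl hc.ε_pos hc.ε₀_pos hr (fun z₀ hz₀ f hf => hc.cap z₀ (hmono z₀ hz₀) f hf)
      (fun f hf g hg z hz h => hc.rel f hf g hg z (hmono z hz) h) he

theorem EData.mono (E : EData X Λ u Γ B δ) {δ' : ℝ} (h0 : 0 < δ') (h : δ' ≤ δ) : EData X Λ u Γ B δ' := by
  exact
    { cone := E.cone
      charts := E.charts
      tor := E.tor
      lat := E.lat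
      latΓ := E.latΓ
      le := E.le
      bad := ⟨h0, E.bad.inv, fun b hb b' hb' hne => (by linarith : 8 * δ' ≤ 8 * δ).trans (E.bad.sep b hb b' hb' hne)⟩
      zero := fun b hb => (by linarith : 4 * δ' ≤ 4 * δ).trans (E.zero b hb)
      fib := E.fib
      nc := E.nc }

/-- **The main theorem**: there are only finitely many sections. -/
theorem sec_finite (E : EData X Λ u Γ B δ) {α : TForm X Λ u} (hper : Per α Γ) (hvan : VanZero α) (hthin : Thin α) :
    (Pool.Agent.H62.EF.SS X Λ u).Finite := by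
  classical
  obtain ⟨ℬ, hfin, hsub, hrep⟩ := exists_reps E.latΓ E.bad E.le
  have h1 : ∀ b : ℂ, ∃ s : ℝ, 0 < s ∧ (b ∈ ℬ → ∃ (T : TubeData X) (η : ℝ), Tube Λ u b s η T) := by
    intro b
    by_cases hb : b ∈ ℬ
    · obtain ⟨T, s, η, hT⟩ := exists_tube E (hsub hb)
      exact ⟨s, hT.geo.pos, fun _ => ⟨T, η, hT⟩⟩
    · exact ⟨1, one_pos, fun h => absurd h hb⟩
  choose s hs hT using h1
  have h2 : ∀ᶠ t in 𝓝[>] (0 : ℝ), ∀ b ∈ ℬ, 3 * t < s b := by
    refine (Filter.eventually_all_finite hfin).2 fun b _ => ?_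
    have h3 : Tendsto (fun t : ℝ => 3 * t) (𝓝[>] 0) (𝓝 (3 * 0)) :=
      ((continuous_const.mul continuous_id).tendsto 0).mono_left nhdsWithin_le_nhds
    rw [mul_zero] at h3
    exact h3.eventually (gt_mem_nhds (hs b))
  have h3 : ∀ᶠ t in 𝓝[>] (0 : ℝ), t < δ :=
    nhdsWithin_le_nhds (gt_mem_nhds E.bad.pos)
  obtain ⟨δ', ⟨h4, h5⟩, h6⟩ := ((h2.and h3).and self_mem_nhdsWithin).exists
  have h6' : 0 < δ' := h6
  have E' := E.mono h6' h5.le
  obtain ⟨ε, ε₀, C, hc⟩ := exists_cst E' hper hfin hsub hrep fun b hb => by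
    obtain ⟨T, η, h⟩ := hT b hb
    exact ⟨T, s b, η, h, h4 b hb⟩
  have D := dyn E' hper hvan hthin hc
  obtain ⟨𝓕, h𝓕fin, -, h𝓕⟩ := D.finite
  choose! φ hφ𝓕 hφ using h𝓕
  have hSS : ∀ f ∈ Pool.Agent.H62.EF.SS X Λ u, f ∈ Sb X Λ u B := by
    rintro f ⟨F, hF, rfl⟩
    exact sec_sb hF
  refine Set.Finite.of_injOn (f := φ) (fun f hf => hφ𝓕 f (hSS f hf)) ?_ h𝓕fin
  intro f hf g hg hfg
  have h7 : Ag B f g := by
    intro z hz
    rw [hφ f (hSS f hf) z hz, hφ g (hSS g hg) z hz, hfg]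
  obtain ⟨F, hF, rfl⟩ := hf
  obtain ⟨G, hG, rfl⟩ := hg
  obtain ⟨z₀, hz₀⟩ := E.bad.nonempty
  have h8 : ∀ᶠ z in 𝓝 z₀, pr (F z) = pr (G z) := by
    have hpos : 0 < 2 * δ := by
      have := E.bad.pos
      linarith
    filter_upwards [ball_mem_nhds z₀ hpos] with z hz
    refine h7 z fun hzB => ?_
    have h9 := hz₀ z hzB
    rw [mem_ball, dist_comm, dist_eq_norm] at hz
    linarith
  exact funext fun z => Pool.Agent.H62.EF.sec_uniq E.cone hF hG h8 z

end Pool.Agent.H62.EL
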