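import Pool.Agent.H62.EL.Dyn

/-!
# EL DyA: the sets `Gd`

(1) `gd_notMem`: a point of `Gd B δ'`, `δ' > 0`, is not in `B` (distance `0`).
(2) `gd_add`, `notMem_add`: translation invariance (`B` is invariant under `Λ`, also under `-l`).
(3) `exists_gd`: the points of `B` are `8δ`-separated: at most one of them is in `ball z (2δ)`; `δ' = min (2δ) ‖z - b‖`.
(4) `perfect`: let `z ∈ Gd B (2δ)`.  If no `b ∈ B` has `‖z - b‖ < 3δ`, the ball of radius `δ` about `z` is in `Gd B (2δ)`.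
Otherwise let `b` be such a point; for the other points `b'` of `B` one has `‖z - b'‖ ≥ 8δ - 3δ = 5δ`; the points `z + s (z - b)`,
`0 < s < 1/10`, are in `Gd B (2δ)`.
(5) `nonempty`: `b + 4δ` for `b ∈ B`, or `0` if `B = ∅`.
-/

set_option autoImplicit false

open Topology Filter Metric

namespace Pool.Agent.H62.EL

open Pool.Agent.H62.EF (Lat)

variable {Y : Type} [MetricSpace Y] {K : Set Y} {Λ : AddSubgroup ℂ} {B : Set ℂ} {δ : ℝ} {S : Set (ℂ → Y)}
  {Zr : ℂ → Y → Prop} {N : ℂ → Y → Y → ℝ}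

theorem gd_mono {δ₁ δ₂ : ℝ} (h : δ₁ ≤ δ₂) : Gd B δ₂ ⊆ Gd B δ₁ :=
  fun _ hz b hb => h.trans (hz b hb)

theorem gd_notMem {δ' : ℝ} (h : 0 < δ') {z : ℂ} (hz : z ∈ Gd B δ') : z ∉ B := by
  intro hzB
  have h1 := hz z hzB
  rw [sub_self, norm_zero] at h1
  linarith

theorem isClosed_gd (δ' : ℝ) : IsClosed (Gd B δ') := by
  have h1 : Gd B δ' = ⋂ b ∈ B, {z : ℂ | δ' ≤ ‖z - b‖} := by
    ext z
    simp only [Set.mem_iInter]
    exact Iff.rfl
  rw [h1]
  refine isClosed_biInter fun b _ => ?_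
  exact isClosed_le continuous_const (continuous_id.sub continuous_const).norm

theorem BadSet.gd_add (h : BadSet B Λ δ) (δ' : ℝ) {z l : ℂ} (hl : l ∈ Λ) : z + l ∈ Gd B δ' ↔ z ∈ Gd B δ' := by
  constructor
  · intro hz b hb
    have h1 := hz (b + l) (h.inv b hb l hl)
    rwa [add_sub_add_right_eq_sub] at h1
  · intro hz b hb
    have h1 := hz (b + -l) (h.inv b hb (-l) (Λ.neg_mem hl))
    have h2 : z - (b + -l) = z + l - b := by ring
    rwa [h2] at h1

theorem BadSet.notMem_add (h : BadSet B Λ δ) {z l : ℂ} (hl : l ∈ Λ) : z + l ∉ B ↔ z ∉ B := by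
  rw [not_iff_not]
  constructor
  · intro hz
    have h1 := h.inv (z + l) hz (-l) (Λ.neg_mem hl)
    rwa [add_neg_cancel_right] at h1
  · intro hz
    exact h.inv z hz l hl

/-- the other bad points are far away -/
private theorem DyA_far (h : BadSet B Λ δ) {z b b' : ℂ} {r : ℝ} (hb : b ∈ B) (hb' : b' ∈ B) (hne : b' ≠ b) (hr : ‖z - b‖ < r) :
    8 * δ - r < ‖z - b'‖ := by
  have h1 := h.sep b' hb' b hb hne
  have h2 : b' - b = (z - b) - (z - b') := by ring
  rw [h2] at h1
  have h3 := norm_sub_le (z - b) (z - b')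
  linarith

theorem BadSet.exists_gd (h : BadSet B Λ δ) {z : ℂ} (hz : z ∉ B) : ∃ δ' : ℝ, 0 < δ' ∧ z ∈ Gd B δ' := by
  have hδ := h.pos
  by_cases h1 : ∃ b ∈ B, ‖z - b‖ < 2 * δ
  · obtain ⟨b, hb, hb2⟩ := h1
    have hpos : 0 < ‖z - b‖ := by
      rw [norm_pos_iff, sub_ne_zero]
      rintro rfl
      exact hz hb
    refine ⟨min (2 * δ) ‖z - b‖, lt_min (by linarith) hpos, ?_⟩
    intro b' hb'
    by_cases hbb : b' = b
    · rw [hbb]
      exact min_le_right _ _
    · have h2 := DyA_far h hb hb' hbb hb2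
      exact (min_le_left _ _).trans (by linarith)
  · push Not at h1
    exact ⟨2 * δ, by linarith, h1⟩

theorem BadSet.perfect (h : BadSet B Λ δ) {z : ℂ} (hz : z ∈ Gd B (2 * δ)) : ∃ᶠ w in 𝓝[≠] z, w ∈ Gd B (2 * δ) := by
  have hδ := h.pos
  by_cases h1 : ∃ b ∈ B, ‖z - b‖ < 3 * δ
  · obtain ⟨b, hb, hb3⟩ := h1
    have hzb : z ≠ b := by
      rintro rfl
      exact gd_notMem (by linarith) hz hb
    have hzb' : z - b ≠ 0 := sub_ne_zero.2 hzb
    have htend : Tendsto (fun s : ℝ => z + (s : ℂ) * (z - b)) (𝓝[>] 0) (𝓝[≠] z) := by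
      refine tendsto_nhdsWithin_iff.2 ⟨?_, ?_⟩
      · have hc : Continuous (fun s : ℝ => z + (s : ℂ) * (z - b)) := by fun_prop
        have h2 := hc.tendsto 0
        simp only [Complex.ofReal_zero, zero_mul, add_zero] at h2
        exact h2.mono_left nhdsWithin_le_nhds
      · filter_upwards [self_mem_nhdsWithin] with s hs
        have hs' : (0 : ℝ) < s := hs
        show z + (s : ℂ) * (z - b) ≠ z
        intro heq
        have h3 : (s : ℂ) * (z - b) = 0 := by
          rwa [add_eq_left] at heq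
        rcases mul_eq_zero.1 h3 with h4 | h4
        · exact hs'.ne' (Complex.ofReal_eq_zero.1 h4)
        · exact hzb' h4
    refine htend.frequently (Eventually.frequently ?_)
    have h5 : ∀ᶠ s : ℝ in 𝓝[>] 0, s < 1 := nhdsWithin_le_nhds (Iio_mem_nhds one_pos)
    filter_upwards [self_mem_nhdsWithin, h5] with s hs hs1
    have hs' : (0 : ℝ) < s := hs
    intro b' hb'
    have hnorm : ‖(s : ℂ) * (z - b)‖ = s * ‖z - b‖ := by
      rw [norm_mul, Complex.norm_real, Real.norm_of_nonneg hs'.le]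
    by_cases hbb : b' = b
    · rw [hbb]
      have h6 : z + (s : ℂ) * (z - b) - b = ((1 + s : ℝ) : ℂ) * (z - b) := by
        push_cast
        ring
      rw [h6, norm_mul, Complex.norm_real, Real.norm_of_nonneg (by linarith)]
      have h7 := hz b hb
      nlinarith [norm_nonneg (z - b)]
    · have h6 := DyA_far h hb hb' hbb hb3
      have h7 : z - b' = (z + (s : ℂ) * (z - b) - b') - (s : ℂ) * (z - b) := by ring
      rw [h7] at h6
      have h8 := norm_sub_le (z + (s : ℂ) * (z - b) - b') ((s : ℂ) * (z - b))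
      rw [hnorm] at h8
      have h9 : s * ‖z - b‖ ≤ 1 * (3 * δ) :=
        mul_le_mul hs1.le hb3.le (norm_nonneg _) zero_le_one
      linarith
  · push Not at h1
    refine Eventually.frequently ?_
    refine nhdsWithin_le_nhds ?_
    filter_upwards [ball_mem_nhds z hδ] with w hw b hb
    have h2 := h1 b hb
    rw [mem_ball, dist_eq_norm] at hw
    have h3 : z - b = (w - b) - (w - z) := by ring
    rw [h3] at h2
    have h4 := norm_sub_le (w - b) (w - z)
    linarith

theorem BadSet.nonempty (h : BadSet B Λ δ) : (Gd B (2 * δ)).Nonempty := by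
  have hδ := h.pos
  by_cases hB : B.Nonempty
  · obtain ⟨b, hb⟩ := hB
    refine ⟨b + ((4 * δ : ℝ) : ℂ), ?_⟩
    intro b' hb'
    have hn : ‖(((4 * δ : ℝ)) : ℂ)‖ = 4 * δ := by
      rw [Complex.norm_real, Real.norm_of_nonneg (by linarith)]
    by_cases hbb : b' = b
    · rw [hbb, add_sub_cancel_left, hn]
      linarith
    · have h1 := h.sep b' hb' b hb hbb
      have h2 : b' - b = ((4 * δ : ℝ) : ℂ) - (b + ((4 * δ : ℝ) : ℂ) - b') := by ring
      rw [h2] at h1
      have h3 := norm_sub_le ((4 * δ : ℝ) : ℂ) (b + ((4 * δ : ℝ) : ℂ) - b')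
      rw [hn] at h3
      linarith
  · refine ⟨0, fun b hb => ?_⟩
    exact absurd ⟨b, hb⟩ hB

end Pool.Agent.H62.EL
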