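import Pool.Agent.H62.EL.ChN
import Pool.Agent.H62.EF.DUl
import Pool.Agent.H62.BU.Inv

/-!
# EL StC: straight charts

Let `DU X Λ u x w 1`.  By `exists_adm` (EF DUl) there are a chart `χ₀` with `x ∈ χ₀.U`, `χ₀.q x = 0` and an analytic lift `υ` of `u` in it
with `fderiv ℂ υ 0 ≠ 0`; `x = a • χ₀.σ 0`.  Choose a linear form `l` on `ℂ × ℂ` such that `Φ p = (υ p - υ 0, l p)` has an invertible derivative at `0`;
inverse function theorem (analytic): `Θ` analytic at `0`, `Θ 0 = 0`, `Φ (Θ p) = p` and `Θ (Φ p) = p` near `0`.  Germ chart: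
`σ = a • χ₀.σ ∘ Θ`, `τ = Φ ∘ χ₀.q` (near `x`; `χ₀.q` is scale invariant, so `inv` is clear; `left`: `χ₀.q (a • χ₀.σ (Θ p)) = Θ p`;
`right`: `y ∈ X` near `x`: `y = c • χ₀.σ (χ₀.q y)`).  `u (σ p) = υ (Θ p) = υ 0 + p.1` and `υ 0 = u (χ₀.σ 0) = u x = z` modulo `Λ`.
So `IsGermChart X σ τ`, `σ 0 = x`, `u (σ p) - (z + p.1) ∈ Λ`: apply `exists_nc_chart` (proof) with `i = 1`, `j = 0`
(`IsNC X Λ u x z` with these exponents; to keep the exponents repeat its proof from `exists_small_chart`: `ρ = r`).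

`exists_str_of_lift`: a section `F` (or a holomorphic curve `Ψ` near `z₀` with `u (Ψ z) = z`) has `DU X Λ u (Ψ z₀) (deriv Ψ z₀) 1`.
-/

set_option autoImplicit false

open Topology Filter Metric

namespace Pool.Agent.H62.EL

open Pool.Agent.H36.BP (EN fs wd IsGermChart)
open Pool.Agent.H14.PP (IsCone Chart Tan CurveAt)
open Pool.Agent.H62.EF (Lat MN pr TorusMap Sec Charts DU)

variable {N : ℕ} {X : Set (EN N)} {Λ : AddSubgroup ℂ} {u : EN N → ℂ}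

private lemma StC_inj {L : ℂ × ℂ →L[ℂ] ℂ} (hL : L ≠ 0) :
    ∃ l : ℂ × ℂ →L[ℂ] ℂ, ∀ v, L v = 0 → l v = 0 → v = 0 := by
  have hdec : ∀ v : ℂ × ℂ, L v = v.1 * L (1, 0) + v.2 * L (0, 1) := by
    intro v
    have h1 : v = v.1 • ((1, 0) : ℂ × ℂ) + v.2 • ((0, 1) : ℂ × ℂ) := by
      ext <;> simp
    conv_lhs => rw [h1]
    rw [map_add, map_smul, map_smul, smul_eq_mul, smul_eq_mul]
  by_cases h1 : L (1, 0) = 0
  · have h2 : L (0, 1) ≠ 0 := by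
      intro h2
      apply hL
      ext
      · simpa using h1
      · simpa using h2
    refine ⟨ContinuousLinearMap.fst ℂ ℂ ℂ, fun v hv hl => ?_⟩
    have h3 : v.1 = 0 := hl
    rw [hdec v, h3, zero_mul, zero_add] at hv
    have h4 : v.2 = 0 := (mul_eq_zero.1 hv).resolve_right h2
    exact Prod.ext h3 h4
  · refine ⟨ContinuousLinearMap.snd ℂ ℂ ℂ, fun v hv hl => ?_⟩
    have h3 : v.2 = 0 := hl
    rw [hdec v, h3, zero_mul, add_zero] at hv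
    have h4 : v.1 = 0 := (mul_eq_zero.1 hv).resolve_right h1
    exact Prod.ext h4 h3

private lemma StC_germ (hX : IsCone X) (hu : TorusMap X Λ u) {x : EN N} (hx : x ∈ X) (χ₀ : Chart X) (hxU : x ∈ χ₀.U)
    (hq : χ₀.q x = 0) {υ : ℂ × ℂ → ℂ} (hυ : AnalyticAt ℂ υ 0) (hυl : ∀ᶠ p in 𝓝 (0 : ℂ × ℂ), u (χ₀.σ p) - υ p ∈ Λ)
    (hd : fderiv ℂ υ 0 ≠ 0) {z : ℂ} (hz : u x - z ∈ Λ) :
    ∃ (σ : ℂ × ℂ → EN N) (τ : EN N → ℂ × ℂ), IsGermChart X σ τ ∧ σ 0 = x ∧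
      ∀ᶠ p in 𝓝 (0 : ℂ × ℂ), u (σ p) - (z + p.1) ∈ Λ := by
  obtain ⟨-, a, ha, hxa⟩ := χ₀.surj x hx hxU
  rw [hq] at hxa
  have h02 : (0 : ℂ × ℂ) ∈ ball (0 : ℂ × ℂ) 2 := mem_ball_self two_pos
  have hm0 := χ₀.σ_mem 0 h02
  obtain ⟨l, hl⟩ := StC_inj hd
  set Φ : ℂ × ℂ → ℂ × ℂ := fun p => (υ p - υ 0, l p) with hΦ
  have hΦ0 : Φ 0 = 0 := by
    rw [hΦ]
    simp
  have hΦa : AnalyticAt ℂ Φ 0 := (hυ.sub analyticAt_const).prod (l.analyticAt 0)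
  have hΦd : ∀ v, fderiv ℂ Φ 0 v = (fderiv ℂ υ 0 v, l v) := by
    intro v
    have h1 : HasFDerivAt Φ ((fderiv ℂ υ 0).prod l) 0 :=
      (hυ.differentiableAt.hasFDerivAt.sub_const (υ 0)).prodMk l.hasFDerivAt
    rw [h1.fderiv]
    rfl
  obtain ⟨Θ, hΘa, hΘl, hΘr, hΘ0⟩ := Pool.Agent.H62.BU.local_inverse hΦa (by
    intro v hv
    rw [hΦd v] at hv
    exact hl v (congrArg Prod.fst hv) (congrArg Prod.snd hv))
  rw [hΦ0] at hΘa hΘr hΘ0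
  have hΘc : Tendsto Θ (𝓝 (0 : ℂ × ℂ)) (𝓝 (0 : ℂ × ℂ)) := by
    have h1 := hΘa.continuousAt.tendsto
    rwa [hΘ0] at h1
  have hb2 : ∀ᶠ p in 𝓝 (0 : ℂ × ℂ), Θ p ∈ ball (0 : ℂ × ℂ) 2 := hΘc.eventually (isOpen_ball.mem_nhds h02)
  set σ : ℂ × ℂ → EN N := fun p => a • χ₀.σ (Θ p) with hσ
  set τ : EN N → ℂ × ℂ := fun y => Φ (χ₀.q y) with hτ
  have hσ0 : σ 0 = x := by
    rw [hσ]
    simp only
    rw [hΘ0, ← hxa]
  have hqc : Tendsto χ₀.q (𝓝 x) (𝓝 (0 : ℂ × ℂ)) := by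
    have h1 := (χ₀.q_an x hxU).continuousAt.tendsto
    rwa [hq] at h1
  have hU : ∀ᶠ y in 𝓝 x, y ∈ χ₀.U := χ₀.isOpen_U.mem_nhds hxU
  have hmem : ∀ᶠ p in 𝓝 (0 : ℂ × ℂ), σ p ∈ X := by
    filter_upwards [hb2] with p hp
    exact hX.smul_mem _ (χ₀.σ_mem _ hp).1 _ ha
  refine ⟨σ, τ, ⟨?_, hmem, ?_, ?_, ?_, ?_⟩, hσ0, ?_⟩
  · have h1 : AnalyticAt ℂ (fun p => χ₀.σ (Θ p)) 0 := by
      have h2 : AnalyticAt ℂ χ₀.σ (Θ 0) := by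
        rw [hΘ0]
        exact χ₀.σ_an 0 h02
      exact AnalyticAt.fun_comp h2 hΘa
    exact analyticAt_const.fun_smul h1
  · rw [hσ0]
    have h2 : AnalyticAt ℂ Φ (χ₀.q x) := by
      rw [hq]
      exact hΦa
    exact AnalyticAt.fun_comp h2 (χ₀.q_an x hxU)
  · filter_upwards [hb2, hΘr] with p hp hp2
    have h1 := χ₀.σ_mem _ hp
    rw [hτ, hσ]
    simp only
    rw [χ₀.q_smul _ h1.2.1 a ha, h1.2.2, hp2]
  · rw [hσ0]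
    filter_upwards [hU, hqc.eventually hΘl] with y hy hy2 hyX
    obtain ⟨-, c, hc, hyc⟩ := χ₀.surj y hyX hy
    refine ⟨c * a⁻¹, mul_ne_zero hc (inv_ne_zero ha), ?_⟩
    rw [hτ, hσ]
    simp only
    rw [hy2, smul_smul, mul_assoc, inv_mul_cancel₀ ha, mul_one]
    exact hyc
  · rw [hσ0]
    have h1 : ∀ᶠ w in 𝓝 (x, (1 : ℂ)), w.1 ∈ χ₀.U := continuousAt_fst.tendsto.eventually hU
    have h20 : ∀ᶠ c in 𝓝 (1 : ℂ), c ≠ 0 := eventually_ne_nhds one_ne_zero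
    have h2 : ∀ᶠ w in 𝓝 (x, (1 : ℂ)), w.2 ≠ 0 := by
      have h21 : Tendsto (Prod.snd : EN N × ℂ → ℂ) (𝓝 (x, (1 : ℂ))) (𝓝 1) := continuousAt_snd
      exact h21.eventually h20
    filter_upwards [h1, h2] with w hw1 hw2
    rw [hτ]
    simp only
    rw [χ₀.q_smul _ hw1 _ hw2]
  · have hυ0 : υ 0 - z ∈ Λ := by
      have h1 := hυl.self_of_nhds
      have h2 := hu.smul (χ₀.σ 0) hm0.1 a ha
      rw [← hxa] at h2
      have h3 := Λ.sub_mem hz (Λ.add_mem h2 h1)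
      have h4 : u x - z - (u x - u (χ₀.σ 0) + (u (χ₀.σ 0) - υ 0)) = υ 0 - z := by ring
      rwa [h4] at h3
    filter_upwards [hb2, hΘr, hΘc.eventually hυl] with p hp hp2 hp3
    have h1 := hu.smul (χ₀.σ (Θ p)) (χ₀.σ_mem _ hp).1 a ha
    have h2 : υ (Θ p) - υ 0 = p.1 := congrArg Prod.fst hp2
    have h3 := Λ.add_mem (Λ.add_mem h1 hp3) hυ0
    have h4 : u (a • χ₀.σ (Θ p)) - u (χ₀.σ (Θ p)) + (u (χ₀.σ (Θ p)) - υ (Θ p)) + (υ 0 - z) = u (σ p) - (z + p.1) := by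
      rw [← h2, hσ]
      ring
    rwa [h4] at h3

theorem exists_str_chart (hX : IsCone X) (hch : Charts X) (hu : TorusMap X Λ u) (hΛ : Lat Λ) {x w : EN N} (hx : x ∈ X)
    (hw : DU X Λ u x w 1) {z : ℂ} (hz : u x - z ∈ Λ) {η : ℝ} (hη : 0 < η) :
    ∃ (χ : Chart X) (ρ : ℝ), x ∈ χ.U ∧ χ.q x = 0 ∧ Mon Λ u χ z ρ 1 0 ∧
      ∀ p ∈ ball (0 : ℂ × ℂ) 2, dist (pr (χ.σ p)) (pr x) < η ∧ ‖mo z ρ 1 0 p - z‖ < η := by
  obtain ⟨χ₀, υ, s, hxU, hq, hadm⟩ := Pool.Agent.H62.EF.exists_adm hX hch hu hΛ hx one_ne_zero hw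
  have h0s : (0 : ℂ × ℂ) ∈ ball (0 : ℂ × ℂ) s := mem_ball_self hadm.pos
  have hυl : ∀ᶠ p in 𝓝 (0 : ℂ × ℂ), u (χ₀.σ p) - υ p ∈ Λ := by
    filter_upwards [isOpen_ball.mem_nhds h0s] with p hp
    exact hadm.lift p hp
  obtain ⟨σ, τ, hG, hσ0, hσl⟩ := StC_germ hX hu hx χ₀ hxU hq (hadm.an 0 h0s) hυl (hadm.ne 0 h0s) hz
  obtain ⟨η', hη', hall⟩ := Metric.eventually_nhds_iff_ball.1 (hG.σ_mem.and hσl)
  obtain ⟨χ, r, hr, hσU, hq0, hχ⟩ := exists_small_chart hX hG (lt_min hη hη')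
  rw [hσ0] at hσU hq0
  have hmo : ∀ p : ℂ × ℂ, mo z r 1 0 p = z + (r : ℂ) * p.1 := by
    intro p
    rw [mo, pow_one, pow_zero, mul_one]
  refine ⟨χ, r, hσU, hq0, ⟨hr, by norm_num, fun p hp => ?_⟩, fun p hp => ⟨?_, ?_⟩⟩
  · obtain ⟨h1, -, b, hb, h3⟩ := hχ p hp
    have h4 := hall ((r : ℂ) • p) (mem_ball_zero_iff.2 (h1.trans_le (min_le_right _ _)))
    have h5 := Λ.add_mem (hu.smul _ h4.1 b hb) h4.2
    have h6 : u (b • σ ((r : ℂ) • p)) - u (σ ((r : ℂ) • p)) + (u (σ ((r : ℂ) • p)) - (z + ((r : ℂ) • p).1)) =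
        u (χ.σ p) - mo z r 1 0 p := by
      rw [h3, hmo, Prod.smul_fst, smul_eq_mul]
      ring
    rwa [h6] at h5
  · have h2 := (hχ p hp).2.1
    rw [hσ0] at h2
    exact h2.trans_le (min_le_left _ _)
  · rw [hmo, add_sub_cancel_left]
    have h1 := (hχ p hp).1
    have h2 : ‖(r : ℂ) * p.1‖ ≤ ‖(r : ℂ) • p‖ := norm_fst_le ((r : ℂ) • p)
    exact h2.trans_lt (h1.trans_le (min_le_left _ _))

theorem exists_str_of_lift (hX : IsCone X) (hch : Charts X) (hu : TorusMap X Λ u) (hΛ : Lat Λ) {Ψ : ℂ → EN N} {z₀ : ℂ} {r : ℝ}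
    (hr : 0 < r) (hΨ : DifferentiableOn ℂ Ψ (ball z₀ r)) (hΨX : ∀ z ∈ ball z₀ r, Ψ z ∈ X ∧ u (Ψ z) - z ∈ Λ) {η : ℝ} (hη : 0 < η) :
    ∃ (χ : Chart X) (ρ : ℝ), Ψ z₀ ∈ χ.U ∧ χ.q (Ψ z₀) = 0 ∧ Mon Λ u χ z₀ ρ 1 0 ∧
      ∀ p ∈ ball (0 : ℂ × ℂ) 2, dist (pr (χ.σ p)) (pr (Ψ z₀)) < η ∧ ‖mo z₀ ρ 1 0 p - z₀‖ < η := by
  have h0 : ball z₀ r ∈ 𝓝 z₀ := ball_mem_nhds z₀ hr
  have hΨa : AnalyticAt ℂ Ψ z₀ := hΨ.analyticAt h0
  have hm := hΨX z₀ (mem_ball_self hr)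
  have hc : Tendsto (fun z : ℂ => z₀ + z) (𝓝 0) (𝓝 z₀) := by
    have h1 : ContinuousAt (fun z : ℂ => z₀ + z) 0 := by fun_prop
    have h2 := h1.tendsto
    rwa [add_zero] at h2
  have hev : ∀ᶠ z in 𝓝 (0 : ℂ), z₀ + z ∈ ball z₀ r := hc.eventually h0
  have hl : AnalyticAt ℂ (fun z : ℂ => z₀ + z) 0 := analyticAt_const.add analyticAt_id
  have hDU : DU X Λ u (Ψ z₀) (deriv Ψ z₀) 1 := by
    refine ⟨fun z => Ψ (z₀ + z), fun z => z₀ + z, ?_, ?_, ?_, ?_, hl, ?_, ?_⟩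
    · have h1 : AnalyticAt ℂ Ψ ((fun z : ℂ => z₀ + z) 0) := by
        simp only [add_zero]
        exact hΨa
      exact AnalyticAt.fun_comp h1 hl
    · filter_upwards [hev] with z hz
      exact (hΨX _ hz).1
    · simp only [add_zero]
    · rw [deriv_comp_const_add, add_zero]
    · filter_upwards [hev] with z hz
      exact (hΨX _ hz).2
    · rw [deriv_const_add, deriv_id'']
  exact exists_str_chart hX hch hu hΛ hm.1 hDU hm.2 hη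

end Pool.Agent.H62.EL
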