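import Pool.Agent.H62.EL.Tc
import Pool.Agent.H62.EF.PrA

/-!
# EL Un: the integral along short paths in the fibres

`cap_mem`: `Cap` at `(z₀, y₀)` of radius `r`: `x ∈ X` over `z ∈ closedBall z₀ r` with `dist (pr x) y₀ ≤ r`.

`IRel.eq_cap`: let `χ', c', ρ', A', p, p'` be from `IRel`; `v = (A' p' - A' p) / ρ'`.  Let `γ θ = χ'.σ (p + θ (p' - p))`, `θ ∈ [0, 1]`: points of `X`; the first coordinate of `p + θ (p' - p)` is
constant, `u (γ θ) - z ∈ Λ` (`Mon.lift`, `mo c' ρ' 1 0 (p + θ (p' - p)) = c' + ρ' p.1 = z`), `dist (pr (γ θ)) y₀ ≤ ε + dist y y₀ ≤ r`.  By `Cap` `γ θ ∈ χ.U`, `τ = χ.q ∘ χ'.σ` is analytic near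
these points, with values in `closedBall 0 1`, and `c + ρ (τ ..).1 = z`.  Near each point `p_θ = p + θ (p' - p)` we even have `c + ρ (τ y).1 = c' + ρ' y.1` [only at `p_θ` known from `Cap`;
for the derivative: for `y` near `p_θ` with `c' + ρ' y.1 ∈ closedBall z₀ r` the point `χ'.σ y` may leave the ball of radius `r`; use instead: both sides are analytic near `p_θ`, equal at
`p_θ`, and their difference is in `Λ` (`Mon.lift` of both charts, `τ y ∈ ball 0 2` by `Chart.surj`), which is discrete, so it is `0` near `p_θ`].  So `ρ ∂₁ τ₁ = ρ'`, `∂₂ τ₁ = 0` at `p_θ`, and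
`tc_trans` (`υ = mo c ρ 1 0`, `υ' = mo c' ρ' 1 0`): `tc' (p_θ) = tc (τ p_θ) (∂₁τ₁ ∂₂τ₂) = tc (τ p_θ) (ρ' / ρ) ∂₂τ₂`.  Hence the functions `θ ↦ A' (p_θ) / ρ'` and `θ ↦ A (τ p_θ) / ρ` have the
same derivative on `[0, 1]`: `tc' (p_θ) (p'.2 - p.2) / ρ'` and `(∂₂A) (τ p_θ) ∂₂τ₂ (p'.2 - p.2) / ρ` (`(p' - p).1 = 0` and `∂₂ τ₁ = 0`).  So `v = (A (τ p') - A (τ p)) / ρ`, and `τ p = χ.q x`, because
`χ'.σ p` and `x` are proportional (`pr` equal, `pr_eq_iff`, `q_smul`); same for `p'`, `x'`.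

`II_eq`: `II = h.choose`, which satisfies `IRel`.
`IRel.mulPow`: the same chart and points, `A₁ q = (mo c ρ 1 0 q - b)^n * A q` (`mo c ρ 1 0 q` does not depend on `q.2`, so `∂₂ A₁ = (mo - b)^n ∂₂ A`, and `tc (α.mulPow b n) = (mo - b)^n tc α`); at
`p, p'`: `mo = z`.
`II_mulPow`: if there is `v` with `IRel α ε z y y' v` then both sides are the unique values (`eq_cap` for the two forms with the primitives `A`, `A₁`).
-/

set_option autoImplicit false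

open Topology Filter Metric

namespace Pool.Agent.H62.EL

open Pool.Agent.H36.BP (EN fs wd IsGermChart)
open Pool.Agent.H14.PP (IsCone Chart Tan CurveAt jac)
open Pool.Agent.H62.EF (Lat MN pr TorusMap Sec Charts DU)

variable {N : ℕ} {X : Set (EN N)} {Λ : AddSubgroup ℂ} {u : EN N → ℂ}

/-- The point of the segment. -/
private noncomputable def Un_P (p p' : ℂ × ℂ) (t : ℂ) : ℂ × ℂ := p + t • (p' - p)

private theorem Un_mo (c : ℂ) (ρ : ℝ) (p : ℂ × ℂ) : mo c ρ 1 0 p = c + ρ * p.1 := by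
  simp [mo]

private theorem Un_P_mem {p p' : ℂ × ℂ} (hp : p ∈ ball (0 : ℂ × ℂ) 2) (hp' : p' ∈ ball (0 : ℂ × ℂ) 2) {θ : ℝ} (hθ : θ ∈ Set.Icc (0 : ℝ) 1) :
    Un_P p p' (θ : ℂ) ∈ ball (0 : ℂ × ℂ) 2 := by
  have hc : Convex ℝ (ball (0 : ℂ × ℂ) 2) := convex_ball _ _
  have h1 := hc.add_smul_sub_mem hp hp' hθ
  have h2 : Un_P p p' (θ : ℂ) = p + θ • (p' - p) := by
    unfold Un_P
    congr 1
  rwa [h2]

private theorem Un_vert (L : ℂ × ℂ →L[ℂ] ℂ) (d : ℂ × ℂ) (hd : d.1 = 0) : L d = d.2 * L (0, 1) := by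
  have h1 : d = d.2 • ((0, 1) : ℂ × ℂ) := by
    ext
    · simp [hd]
    · simp
  conv_lhs => rw [h1]
  rw [map_smul, smul_eq_mul]

/-- The change of charts along the segment. -/
private theorem Un_trans (hX : IsCone X) (hu : TorusMap X Λ u) (hΛ : Lat Λ) {χ χ' : Chart X} {c c' : ℂ} {ρ ρ' : ℝ}
    (hm : Mon Λ u χ c ρ 1 0) (hm' : Mon Λ u χ' c' ρ' 1 0) {q : ℂ × ℂ} (hq : q ∈ ball (0 : ℂ × ℂ) 2) (hU : χ'.σ q ∈ χ.U)
    (he : c + ρ * (χ.q (χ'.σ q)).1 = c' + ρ' * q.1) :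
    ∀ᶠ y in 𝓝 q, c + ρ * (χ.q (χ'.σ y)).1 = c' + ρ' * y.1 := by
  obtain ⟨δ, hδ, hdisc⟩ := hΛ.discrete
  have hσ : ContinuousAt χ'.σ q := (χ'.σ_an q hq).continuousAt
  have hτ : ContinuousAt (fun y => χ.q (χ'.σ y)) q := (χ.q_an _ hU).continuousAt.comp hσ
  have hτ1 : ContinuousAt (fun y => (χ.q (χ'.σ y)).1) q := continuous_fst.continuousAt.comp hτ
  have hcont : ContinuousAt (fun y : ℂ × ℂ => c + ρ * (χ.q (χ'.σ y)).1 - (c' + ρ' * y.1)) q := by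
    refine (continuousAt_const.add (continuousAt_const.mul hτ1)).sub ?_
    exact continuousAt_const.add (continuousAt_const.mul continuous_fst.continuousAt)
  have hsmall : ∀ᶠ y in 𝓝 q, ‖c + ρ * (χ.q (χ'.σ y)).1 - (c' + ρ' * y.1)‖ < δ := by
    have h1 := hcont.norm
    have h2 : ‖c + ρ * (χ.q (χ'.σ q)).1 - (c' + ρ' * q.1)‖ < δ := by
      rw [he, sub_self, norm_zero]
      exact hδ
    exact h1.eventually_lt_const h2
  filter_upwards [hsmall, isOpen_ball.mem_nhds hq, hσ (χ.isOpen_U.mem_nhds hU)] with y h1 h2 h3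
  have hyX := (χ'.σ_mem y h2).1
  obtain ⟨hb, a, ha, hay⟩ := χ.surj _ hyX h3
  have h4 := hm'.lift y h2
  have h5 := hm.lift _ hb
  have h6 : u (χ'.σ y) - u (χ.σ (χ.q (χ'.σ y))) ∈ Λ := by
    have := hu.smul _ (χ.σ_mem _ hb).1 a ha
    rwa [← hay] at this
  rw [Un_mo] at h4 h5
  have h7 : c + ρ * (χ.q (χ'.σ y)).1 - (c' + ρ' * y.1) ∈ Λ := by
    have h8 := Λ.sub_mem (Λ.sub_mem h4 h6) h5
    convert h8 using 1
    ring
  exact sub_eq_zero.mp (hdisc _ h7 h1)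

/-- The derivatives of the two primitives agree. -/
private theorem Un_deriv (hX : IsCone X) (hu : TorusMap X Λ u) (hΛ : Lat Λ) (α : TForm X Λ u) {χ χ' : Chart X} {c c' : ℂ} {ρ ρ' : ℝ}
    (hm : Mon Λ u χ c ρ 1 0) (hm' : Mon Λ u χ' c' ρ' 1 0) {A A' : ℂ × ℂ → ℂ} (hA : IsPrim α χ (mo c ρ 1 0) A)
    (hA' : IsPrim α χ' (mo c' ρ' 1 0) A') {q : ℂ × ℂ} (hq : q ∈ ball (0 : ℂ × ℂ) 2) (hU : χ'.σ q ∈ χ.U)
    (he : c + ρ * (χ.q (χ'.σ q)).1 = c' + ρ' * q.1) {d : ℂ × ℂ} (hd : d.1 = 0) :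
    HasFDerivAt (fun y => A (χ.q (χ'.σ y))) (fderiv ℂ (fun y => A (χ.q (χ'.σ y))) q) q ∧
      fderiv ℂ A' q d / ρ' = fderiv ℂ (fun y => A (χ.q (χ'.σ y))) q d / ρ := by
  have hρ : (ρ : ℂ) ≠ 0 := by exact_mod_cast hm.pos.ne'
  have hρ' : (ρ' : ℂ) ≠ 0 := by exact_mod_cast hm'.pos.ne'
  have hσ : HasFDerivAt χ'.σ (fderiv ℂ χ'.σ q) q := (χ'.σ_an q hq).differentiableAt.hasFDerivAt
  have hb : χ.q (χ'.σ q) ∈ ball (0 : ℂ × ℂ) 2 := (χ.surj _ (χ'.σ_mem q hq).1 hU).1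
  have hτ : HasFDerivAt (fun y => χ.q (χ'.σ y)) (fderiv ℂ (fun y => χ.q (χ'.σ y)) q) q :=
    ((χ.q_an _ hU).differentiableAt.comp q (χ'.σ_an q hq).differentiableAt).hasFDerivAt
  have hAd : HasFDerivAt A (fderiv ℂ A (χ.q (χ'.σ q))) (χ.q (χ'.σ q)) := (hA.an _ hb).differentiableAt.hasFDerivAt
  have hcomp : HasFDerivAt (fun y => A (χ.q (χ'.σ y))) ((fderiv ℂ A (χ.q (χ'.σ q))).comp (fderiv ℂ (fun y => χ.q (χ'.σ y)) q)) q :=
    hAd.comp q hτ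
  set D := fderiv ℂ (fun y => χ.q (χ'.σ y)) q with hD
  have hfst : ∀ w : ℂ × ℂ, ρ * (D w).1 = ρ' * w.1 := by
    intro w
    have h1 := Un_trans hX hu hΛ hm hm' hq hU he
    have h2 : HasFDerivAt (fun y : ℂ × ℂ => c + ρ * (χ.q (χ'.σ y)).1)
        ((ρ : ℂ) • ((ContinuousLinearMap.fst ℂ ℂ ℂ).comp D)) q := by
      have h3 : HasFDerivAt (fun y => (χ.q (χ'.σ y)).1) ((ContinuousLinearMap.fst ℂ ℂ ℂ).comp D) q :=
        (ContinuousLinearMap.fst ℂ ℂ ℂ).hasFDerivAt.comp q hτ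
      exact (h3.const_mul (ρ : ℂ)).const_add c
    have h4 : HasFDerivAt (fun y : ℂ × ℂ => c' + ρ' * y.1) ((ρ' : ℂ) • (ContinuousLinearMap.fst ℂ ℂ ℂ)) q :=
      ((ContinuousLinearMap.fst ℂ ℂ ℂ).hasFDerivAt.const_mul (ρ' : ℂ)).const_add c'
    have h5 : HasFDerivAt (fun y : ℂ × ℂ => c + ρ * (χ.q (χ'.σ y)).1) ((ρ' : ℂ) • (ContinuousLinearMap.fst ℂ ℂ ℂ)) q :=
      h4.congr_of_eventuallyEq h1
    have h6 := h2.unique h5
    have h7 := congrArg (fun L : ℂ × ℂ →L[ℂ] ℂ => L w) h6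
    simpa using h7
  have hDd : (D d).1 = 0 := by
    have h1 := hfst d
    rw [hd, mul_zero] at h1
    exact (mul_eq_zero.mp h1).resolve_left hρ
  have hD01 : (D (0, 1)).1 = 0 := by
    have h1 := hfst (0, 1)
    simp only [mul_zero] at h1
    exact (mul_eq_zero.mp h1).resolve_left hρ
  have hD10 : (D (1, 0)).1 = ρ' / ρ := by
    have h1 := hfst (1, 0)
    simp only [mul_one] at h1
    field_simp
    rw [← h1]
    ring
  have hD2 : (D d).2 = d.2 * (D (0, 1)).2 := by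
    have h1 := Un_vert ((ContinuousLinearMap.snd ℂ ℂ ℂ).comp D) d hd
    simpa using h1
  have htc := tc_trans hX hu α χ χ' (υ := mo c ρ 1 0) (υ' := mo c' ρ' 1 0) hq hU (hm'.lift q hq)
    (by rw [Un_mo, Un_mo]; exact he)
  have hjac : jac (fun y => χ.q (χ'.σ y)) q = ρ' / ρ * (D (0, 1)).2 := by
    unfold jac
    rw [← hD, hD10, hD01]
    ring
  refine ⟨by rw [hcomp.fderiv]; exact hcomp, ?_⟩
  rw [hcomp.fderiv, ContinuousLinearMap.comp_apply, Un_vert _ _ hDd, hA.der _ hb, hD2, Un_vert _ _ hd, hA'.der _ hq, htc, hjac]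
  field_simp

theorem IRel.eq_cap (hX : IsCone X) (hu : TorusMap X Λ u) (hΛ : Lat Λ) {α : TForm X Λ u} {ε : ℝ} {z v : ℂ} {y y' : MN N}
    (h : IRel α ε z y y' v) {χ : Chart X} {c : ℂ} {ρ : ℝ} {z₀ : ℂ} {y₀ : MN N} {r : ℝ} (hc : Cap Λ u χ c ρ z₀ y₀ r)
    {A : ℂ × ℂ → ℂ} (hA : IsPrim α χ (mo c ρ 1 0) A) (hz : z ∈ closedBall z₀ r) (hy : dist y y₀ + ε ≤ r) {x x' : EN N}
    (hx : x ∈ X) (hx' : x' ∈ X) (hxy : pr x = y) (hxy' : pr x' = y') : v = (A (χ.q x') - A (χ.q x)) / ρ := by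
  obtain ⟨χ', c', ρ', A', p, p', hm', hA', hp, hp', hpz, hpz', hpy, hpy', hseg, hv⟩ := h
  have hm := hc.mon
  have hρ : (ρ : ℂ) ≠ 0 := by exact_mod_cast hm.pos.ne'
  have hρ' : (ρ' : ℂ) ≠ 0 := by exact_mod_cast hm'.pos.ne'
  have hd : (p' - p).1 = 0 := by
    have h1 : (ρ' : ℂ) * (p'.1 - p.1) = 0 := by linear_combination hpz' - hpz
    exact (mul_eq_zero.mp h1).resolve_left hρ'
  have hP1 : ∀ t : ℂ, (Un_P p p' t).1 = p.1 := by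
    intro t
    have h1 : (Un_P p p' t).1 = p.1 + t * (p' - p).1 := rfl
    rw [h1, hd, mul_zero, add_zero]
  have hcap : ∀ θ ∈ Set.Icc (0 : ℝ) 1, χ'.σ (Un_P p p' (θ : ℂ)) ∈ χ.U ∧
      c + ρ * (χ.q (χ'.σ (Un_P p p' (θ : ℂ)))).1 = c' + ρ' * (Un_P p p' (θ : ℂ)).1 := by
    intro θ hθ
    have hb := Un_P_mem hp hp' hθ
    have h1 : u (χ'.σ (Un_P p p' (θ : ℂ))) - z ∈ Λ := by
      have h2 := hm'.lift _ hb
      rwa [Un_mo, hP1, hpz] at h2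
    have h2 : dist (pr (χ'.σ (Un_P p p' (θ : ℂ)))) y₀ ≤ r := by
      have h3 : dist (pr (χ'.σ (Un_P p p' (θ : ℂ)))) y ≤ ε := hseg θ hθ
      linarith [dist_triangle (pr (χ'.σ (Un_P p p' (θ : ℂ)))) y y₀]
    obtain ⟨h3, _, h4⟩ := hc.cap z hz _ (χ'.σ_mem _ hb).1 h1 h2
    exact ⟨h3, by rw [h4, hP1, hpz]⟩
  set f : ℝ → ℂ := fun θ => A' (Un_P p p' (θ : ℂ)) / ρ' - A (χ.q (χ'.σ (Un_P p p' (θ : ℂ)))) / ρ with hf
  have hder : ∀ θ ∈ Set.Icc (0 : ℝ) 1, HasDerivAt f 0 θ := by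
    intro θ hθ
    have hb := Un_P_mem hp hp' hθ
    obtain ⟨h1, h2⟩ := Un_deriv hX hu hΛ α hm hm' hA hA' hb (hcap θ hθ).1 (hcap θ hθ).2 hd
    have hPd : HasDerivAt (fun t : ℂ => Un_P p p' t) (p' - p) (θ : ℂ) := by
      have h3 := ((hasDerivAt_id (θ : ℂ)).smul_const (p' - p)).const_add p
      rw [one_smul] at h3
      exact h3
    have h4 : HasDerivAt (fun t : ℂ => A' (Un_P p p' t)) (fderiv ℂ A' (Un_P p p' (θ : ℂ)) (p' - p)) (θ : ℂ) :=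
      (hA'.an _ hb).differentiableAt.hasFDerivAt.comp_hasDerivAt (θ : ℂ) hPd
    have h5 : HasDerivAt (fun t : ℂ => A (χ.q (χ'.σ (Un_P p p' t))))
        (fderiv ℂ (fun y => A (χ.q (χ'.σ y))) (Un_P p p' (θ : ℂ)) (p' - p)) (θ : ℂ) :=
      h1.comp_hasDerivAt (θ : ℂ) hPd
    have h6 := ((h4.div_const (ρ' : ℂ)).sub (h5.div_const (ρ : ℂ))).comp_ofReal
    rw [h2, sub_self] at h6
    exact h6
  have hconst := constant_of_has_deriv_right_zero (f := f) (a := 0) (b := 1)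
    (fun θ hθ => (hder θ hθ).continuousAt.continuousWithinAt)
    (fun θ hθ => (hder θ ⟨hθ.1, hθ.2.le⟩).hasDerivWithinAt) 1 ⟨zero_le_one, le_rfl⟩
  have hP0 : Un_P p p' ((0 : ℝ) : ℂ) = p := by
    unfold Un_P
    simp
  have hP1' : Un_P p p' ((1 : ℝ) : ℂ) = p' := by
    unfold Un_P
    simp
  have hX0 : ∀ w ∈ X, w ≠ 0 := fun w hw h => hX.zero_notMem (h ▸ hw)
  have hq : χ.q x = χ.q (χ'.σ p) := by
    have hU := (hcap 0 ⟨le_rfl, zero_le_one⟩).1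
    rw [hP0] at hU
    obtain ⟨a, ha, hax⟩ := (Pool.Agent.H62.EF.pr_eq_iff (hX0 x hx) (hX0 _ (χ'.σ_mem p hp).1)).mp (hxy.trans hpy.symm)
    rw [hax]
    exact χ.q_smul _ hU a ha
  have hq' : χ.q x' = χ.q (χ'.σ p') := by
    have hU := (hcap 1 ⟨zero_le_one, le_rfl⟩).1
    rw [hP1'] at hU
    obtain ⟨a, ha, hax⟩ := (Pool.Agent.H62.EF.pr_eq_iff (hX0 x' hx') (hX0 _ (χ'.σ_mem p' hp').1)).mp (hxy'.trans hpy'.symm)
    rw [hax]
    exact χ.q_smul _ hU a ha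
  simp only [hf] at hconst
  rw [hP0, hP1'] at hconst
  rw [hv, hq, hq']
  rw [sub_div, sub_div]
  linear_combination hconst

theorem II_eq (hX : IsCone X) (hu : TorusMap X Λ u) (hΛ : Lat Λ) {α : TForm X Λ u} {ε : ℝ} {z : ℂ} {y y' : MN N}
    (h : ∃ v, IRel α ε z y y' v) {χ : Chart X} {c : ℂ} {ρ : ℝ} {z₀ : ℂ} {y₀ : MN N} {r : ℝ} (hc : Cap Λ u χ c ρ z₀ y₀ r)
    {A : ℂ × ℂ → ℂ} (hA : IsPrim α χ (mo c ρ 1 0) A) (hz : z ∈ closedBall z₀ r) (hy : dist y y₀ + ε ≤ r) {x x' : EN N}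
    (hx : x ∈ X) (hx' : x' ∈ X) (hxy : pr x = y) (hxy' : pr x' = y') : II α ε z y y' = (A (χ.q x') - A (χ.q x)) / ρ := by
  have h1 : II α ε z y y' = h.choose := by
    unfold II
    rw [dif_pos h]
  rw [h1]
  exact IRel.eq_cap hX hu hΛ h.choose_spec hc hA hz hy hx hx' hxy hxy'

private theorem Un_prim {α : TForm X Λ u} {χ : Chart X} {c : ℂ} {ρ : ℝ} {A : ℂ × ℂ → ℂ} (hA : IsPrim α χ (mo c ρ 1 0) A) (b : ℂ) (n : ℕ) :
    IsPrim (α.mulPow b n) χ (mo c ρ 1 0) (fun q => (mo c ρ 1 0 q - b) ^ n * A q) := by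
  refine ⟨fun p hp => ?_, fun p hp => ?_, fun s hs => ?_⟩
  · exact (((mo_an c ρ 1 0 p).sub analyticAt_const).pow n).mul (hA.an p hp)
  · have h1 : HasFDerivAt (fun q : ℂ × ℂ => mo c ρ 1 0 q - b) ((ρ : ℂ) • (ContinuousLinearMap.fst ℂ ℂ ℂ)) p := by
      have h2 : (fun q : ℂ × ℂ => mo c ρ 1 0 q - b) = fun q => c + ρ * q.1 - b := by
        funext q
        rw [Un_mo]
      rw [h2]
      exact (((ContinuousLinearMap.fst ℂ ℂ ℂ).hasFDerivAt.const_mul (ρ : ℂ)).const_add c).sub_const b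
    have h3 := h1.pow n
    have h4 := h3.mul (hA.an p hp).differentiableAt.hasFDerivAt
    have h5 : fderiv ℂ (fun q => (mo c ρ 1 0 q - b) ^ n * A q) p = _ := h4.fderiv
    rw [h5]
    simp only [ContinuousLinearMap.add_apply, ContinuousLinearMap.smul_apply, ContinuousLinearMap.coe_fst', smul_eq_mul, mul_zero,
      add_zero, hA.der p hp]
    rfl
  · simp only [hA.zero s hs, mul_zero]

theorem IRel.mulPow {α : TForm X Λ u} {ε : ℝ} {z v : ℂ} {y y' : MN N} (h : IRel α ε z y y' v) (b : ℂ) (n : ℕ) :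
    IRel (α.mulPow b n) ε z y y' ((z - b) ^ n * v) := by
  obtain ⟨χ', c', ρ', A', p, p', hm', hA', hp, hp', hpz, hpz', hpy, hpy', hseg, hv⟩ := h
  refine ⟨χ', c', ρ', fun q => (mo c' ρ' 1 0 q - b) ^ n * A' q, p, p', hm', Un_prim hA' b n, hp, hp', hpz, hpz', hpy, hpy', hseg, ?_⟩
  simp only [Un_mo]
  rw [hpz, hpz', hv]
  ring

theorem II_mulPow (hX : IsCone X) (hu : TorusMap X Λ u) (hΛ : Lat Λ) {α : TForm X Λ u} {ε : ℝ} {z : ℂ} {y y' : MN N}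
    (h : ∃ v, IRel α ε z y y' v) {χ : Chart X} {c : ℂ} {ρ : ℝ} {z₀ : ℂ} {y₀ : MN N} {r : ℝ} (hc : Cap Λ u χ c ρ z₀ y₀ r)
    (hz : z ∈ closedBall z₀ r) (hy : dist y y₀ + ε ≤ r) (b : ℂ) (n : ℕ) :
    II (α.mulPow b n) ε z y y' = (z - b) ^ n * II α ε z y y' := by
  obtain ⟨v, hv⟩ := h
  obtain ⟨A, hA⟩ := exists_prim α χ hc.mon
  obtain ⟨x, hx, hxy, x', hx', hxy'⟩ : ∃ x ∈ X, pr x = y ∧ ∃ x' ∈ X, pr x' = y' := by
    obtain ⟨χ', c', ρ', A', p, p', _, _, hp, hp', _, _, hpy, hpy', _, _⟩ := hv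
    exact ⟨_, (χ'.σ_mem p hp).1, hpy, _, (χ'.σ_mem p' hp').1, hpy'⟩
  rw [II_eq hX hu hΛ ⟨v, hv⟩ hc hA hz hy hx hx' hxy hxy',
    II_eq hX hu hΛ ⟨_, hv.mulPow b n⟩ hc (Un_prim hA b n) hz hy hx hx' hxy hxy',
    ← IRel.eq_cap hX hu hΛ hv hc hA hz hy hx hx' hxy hxy',
    ← IRel.eq_cap hX hu hΛ (hv.mulPow b n) hc (Un_prim hA b n) hz hy hx hx' hxy hxy']

end Pool.Agent.H62.EL
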