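import Pool.Agent.H62.EL.SbB
import Pool.Agent.H62.EL.StC
import Pool.Agent.H62.EL.Un

/-!
# EL Cp: uniform charts along the limits of the sections (Lebesgue numbers)

`cap_of_small` (auxiliary, used several times): let `Ψ z₀ ∈ X`, `u (Ψ z₀) - z₀ ∈ Λ`, and `χ, ρ` a straight chart (`Mon Λ u χ z₀ ρ 1 0`) with `Ψ z₀ ∈ χ.U`, `χ.q (Ψ z₀) = 0` and
`‖mo z₀ ρ 1 0 p - z₀‖ < η` on `ball 0 2`, where no nonzero element of `Λ` has norm `< 2η`.  Then `Cap Λ u χ z₀ ρ z₀ (pr (Ψ z₀)) r` for some `r > 0`: by `near_of_pr` (the cone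
`{x ∈ χ.U : ‖χ.q x‖ < 1}` is a neighbourhood of `Ψ z₀`) there is `r < η` such that `x ∈ X`, `dist (pr x) (pr (Ψ z₀)) ≤ r` implies `x ∈ χ.U`, `‖χ.q x‖ ≤ 1`; and then for `z ∈ closedBall z₀ r`,
`u x - z ∈ Λ`: `mo z₀ ρ 1 0 (χ.q x) - z ∈ Λ` (`Mon.lift`, `x = a • χ.σ (χ.q x)`), of norm `< η + r ≤ 2η`, so it is `0`.

`exists_cap_P`: suppose not: for every `n` there are `z_n ∈ Gd B δ'`, `‖z_n‖ ≤ R`, `f_n ∈ Sb` without such a chart for `r = 1/(n+1)`.  Along `𝒰 = hyperfilter ℕ`: `z_n → z ∈ Gd B δ'`,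
`f_n → f ∈ Sb` (`sb_exists_lim`), `f_n z_n → f z` (`sb_along`).  Let `Ψ` be a lift of `f` near `z` (`sb_lift`), `η` from `hP z f`, and a straight chart of size `< η` (and small with respect to
`Λ`) at `Ψ z` (`exists_str_of_lift`); `P χ` holds.  By `cap_of_small` `Cap ... z (f z) r`, so `Cap ... z_n (f_n z_n) (r/2)` as soon as `‖z_n - z‖ ≤ r/2`, `dist (f_n z_n) (f z) ≤ r/2`, and then also
with `1/(n+1) ≤ r/2`: contradiction.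

`exists_cap`: `exists_cap_P` with `P = True` and `R` the covering radius of `Λ`; for arbitrary `z₀ ∈ Gd B δ'` choose `l ∈ Λ` with `‖z₀ - l‖ ≤ R` and use the chart for `(z₀ - l, f (· + l))` with `c + l` instead
of `c`.

`exists_irel`: suppose not: `f_n, g_n ∈ Sb`, `z_n ∈ Gd B δ'`, `dist (f_n z_n) (g_n z_n) ≤ 1/(n+1)`, `α_n` without `v`.  Translate by `Λ`: `z_n` bounded [here the form changes: `α'_n` with
`toFun z = α_n.toFun (z + l_n)` is again a `TForm`; `IRel α'_n ε (z_n - l_n) ..` implies `IRel α_n ε z_n ..` with `c + l_n`.  To avoid this: prove first the statement for the relation without `α`: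
`∃ χ c ρ p p', Mon .. ∧ p, p' ∈ ball 0 2 ∧ c + ρ p.1 = z ∧ ... ∧ (∀ θ, dist ..)`, which is invariant under translation, and add a primitive `A` at the end by `exists_prim`].  Limits `z`, `f`, `f_n z_n → f z`,
`g_n z_n → f z`.  A straight chart `χ` at the lift `Ψ z`, `Cap` of radius `r` at `(z, f z)`: for large `n` the lifts `x_n, x'_n ∈ X` of `f_n z_n`, `g_n z_n` (`sb_mem`; with `u x_n - z_n ∈ Λ`, from `sb_lift`) are in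
`χ.U`; `p_n = χ.q x_n`, `p'_n = χ.q x'_n` tend to `0`; `c + ρ (p_n).1 = z_n = c + ρ (p'_n).1`, and `dist (pr (χ.σ (p_n + θ (p'_n - p_n)))) (f_n z_n) ≤ ε` for large `n` by continuity at `0`: contradiction.
-/

set_option autoImplicit false

open Topology Filter Metric

namespace Pool.Agent.H62.EL

open Pool.Agent.H36.BP (EN fs wd IsGermChart)
open Pool.Agent.H14.PP (IsCone Chart Tan CurveAt jac)
open Pool.Agent.H62.EF (Lat MN pr TorusMap Sec Charts DU)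

variable {N : ℕ} {X : Set (EN N)} {Λ : AddSubgroup ℂ} {u : EN N → ℂ}

variable {Γ : AddSubgroup ℂ} {B : Set ℂ} {δ : ℝ}

private lemma cp_q_small (hX : IsCone X) {χ : Chart X} {x₀ : EN N} (hx₀ : x₀ ∈ X) (hU : x₀ ∈ χ.U) (hq : χ.q x₀ = 0)
    {s : ℝ} (hs : 0 < s) : ∃ d : ℝ, 0 < d ∧ ∀ x ∈ X, dist (pr x) (pr x₀) < d → x ∈ χ.U ∧ ‖χ.q x‖ < s := by
  have hx0 : x₀ ≠ 0 := fun h => hX.zero_notMem (h ▸ hx₀)
  have hV : {x | x ∈ χ.U ∧ ‖χ.q x‖ < s} ∈ 𝓝 x₀ := by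
    have h1 : ∀ᶠ x in 𝓝 x₀, x ∈ χ.U := χ.isOpen_U.mem_nhds hU
    have h2 : ∀ᶠ x in 𝓝 x₀, ‖χ.q x‖ < s := by
      have hc : ContinuousAt (fun x => ‖χ.q x‖) x₀ := (χ.q_an x₀ hU).continuousAt.norm
      have h3 : (fun x => ‖χ.q x‖) x₀ < s := by simpa [hq] using hs
      exact hc.tendsto.eventually_lt_const h3
    exact h1.and h2
  obtain ⟨d, hd, h⟩ := Pool.Agent.H62.EF.near_of_pr hx0 hV
  refine ⟨d, hd, fun x hx hxd => ?_⟩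
  obtain ⟨c, hc, hcU, hcq⟩ := h x (fun h0 => hX.zero_notMem (h0 ▸ hx)) hxd
  have e : x = c⁻¹ • (c • x) := by rw [smul_smul, inv_mul_cancel₀ hc, one_smul]
  have hxU : x ∈ χ.U := by rw [e]; exact χ.smul_U _ hcU _ (inv_ne_zero hc)
  refine ⟨hxU, ?_⟩
  rw [← χ.q_smul x hxU c hc]
  exact hcq

private lemma cp_mo (b : ℂ) (ρ : ℝ) (p : ℂ × ℂ) : mo b ρ 1 0 p = b + ρ * p.1 := by
  simp [mo]

private lemma cp_pr_q {χ : Chart X} {x : EN N} (hx : x ∈ X) (hU : x ∈ χ.U) : pr (χ.σ (χ.q x)) = pr x := by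
  obtain ⟨hb, c, hc, e⟩ := χ.surj x hx hU
  conv_rhs => rw [e]
  exact (Pool.Agent.H62.EF.pr_smul _ hc).symm

/-- translation of the value of `u` -/
private lemma cp_mon_add {χ : Chart X} {c : ℂ} {ρ : ℝ} (h : Mon Λ u χ c ρ 1 0) {l : ℂ} (hl : l ∈ Λ) : Mon Λ u χ (c + l) ρ 1 0 where
  pos := h.pos
  ij := h.ij
  lift := fun p hp => by
    have h1 := Λ.sub_mem (h.lift p hp) hl
    rw [cp_mo] at h1 ⊢
    have e : u (χ.σ p) - (c + l + ρ * p.1) = u (χ.σ p) - (c + ρ * p.1) - l := by ring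
    rw [e]
    exact h1

private lemma cp_cap_mono {χ : Chart X} {c : ℂ} {ρ : ℝ} {z₀ : ℂ} {y₀ : MN N} {r : ℝ} (h : Cap Λ u χ c ρ z₀ y₀ r) {z₁ : ℂ} {y₁ : MN N}
    {r₁ : ℝ} (hr : r₁ ≤ r / 2) (hz : dist z₁ z₀ ≤ r / 2) (hy : dist y₁ y₀ ≤ r / 2) : Cap Λ u χ c ρ z₁ y₁ r₁ where
  mon := h.mon
  cap := fun z hz' x hx hxz hd => by
    refine h.cap z ?_ x hx hxz ?_
    · rw [mem_closedBall] at hz' ⊢
      have := dist_triangle z z₁ z₀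
      linarith
    · have := dist_triangle (pr x) y₁ y₀
      linarith

theorem cap_of_small (hX : IsCone X) (hu : TorusMap X Λ u) {x₀ : EN N} (hx₀ : x₀ ∈ X) {z₀ : ℂ} (hz₀ : u x₀ - z₀ ∈ Λ)
    {χ : Chart X} {ρ η : ℝ} (hm : Mon Λ u χ z₀ ρ 1 0) (hU : x₀ ∈ χ.U) (hq : χ.q x₀ = 0) (hinj : ∀ l ∈ Λ, ‖l‖ < 2 * η → l = 0)
    (hr : ∀ p ∈ ball (0 : ℂ × ℂ) 2, ‖mo z₀ ρ 1 0 p - z₀‖ < η) : ∃ r : ℝ, 0 < r ∧ Cap Λ u χ z₀ ρ z₀ (pr x₀) r := by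
  obtain ⟨d, hd, h⟩ := cp_q_small hX hx₀ hU hq (zero_lt_one' ℝ)
  have hη : 0 < η := lt_of_le_of_lt (norm_nonneg _) (hr 0 (mem_ball_self two_pos))
  have hr0 : 0 < min (d / 2) (η / 2) := lt_min (by linarith) (by linarith)
  refine ⟨min (d / 2) (η / 2), hr0, hm, fun z hz x hx hxz hxd => ?_⟩
  have h1 : min (d / 2) (η / 2) ≤ d / 2 := min_le_left _ _
  have h2 : min (d / 2) (η / 2) ≤ η / 2 := min_le_right _ _
  obtain ⟨hxU, hxq⟩ := h x hx (by linarith)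
  refine ⟨hxU, ?_, ?_⟩
  · rw [mem_closedBall, dist_zero_right]
    exact hxq.le
  · obtain ⟨hb, c, hc, e⟩ := χ.surj x hx hxU
    have h3 : u x - u (χ.σ (χ.q x)) ∈ Λ := by
      have h3' := hu.smul _ (χ.σ_mem _ hb).1 c hc
      rw [← e] at h3'
      exact h3'
    have h4 := hm.lift _ hb
    have h5 : mo z₀ ρ 1 0 (χ.q x) - z ∈ Λ := by
      have h6 := Λ.sub_mem (Λ.sub_mem hxz h3) h4
      have e2 : mo z₀ ρ 1 0 (χ.q x) - z =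
          u x - z - (u x - u (χ.σ (χ.q x))) - (u (χ.σ (χ.q x)) - mo z₀ ρ 1 0 (χ.q x)) := by ring
      rw [e2]
      exact h6
    have h7 : ‖mo z₀ ρ 1 0 (χ.q x) - z‖ < 2 * η := by
      have e3 : mo z₀ ρ 1 0 (χ.q x) - z = (mo z₀ ρ 1 0 (χ.q x) - z₀) - (z - z₀) := by ring
      have h8 := norm_sub_le (mo z₀ ρ 1 0 (χ.q x) - z₀) (z - z₀)
      have h9 := hr _ hb
      rw [mem_closedBall, dist_eq_norm] at hz
      rw [e3]
      linarith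
    have h10 := hinj _ h5 h7
    rw [cp_mo] at h10
    exact sub_eq_zero.1 h10

/-- a straight chart at a point of a member of `Sb` -/
private lemma cp_chart (E : EData X Λ u Γ B δ) {f : ℂ → MN N} (hf : f ∈ Sb X Λ u B) {w : ℂ} (hw : w ∉ B) {η : ℝ} (hη : 0 < η) :
    ∃ (x₀ : EN N) (χ : Chart X) (ρ r : ℝ), x₀ ∈ X ∧ pr x₀ = f w ∧ x₀ ∈ χ.U ∧ χ.q x₀ = 0 ∧ 0 < r ∧ Cap Λ u χ w ρ w (f w) r ∧
      ∀ p ∈ ball (0 : ℂ × ℂ) 2, dist (pr (χ.σ p)) (f w) < η := by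
  obtain ⟨r₀, Ψ, hr₀, hΨ, hΨX⟩ := sb_lift E hf hw
  obtain ⟨d, hd, hdis⟩ := E.lat.discrete
  have hη' : 0 < min η (d / 2) := lt_min hη (by linarith)
  obtain ⟨χ, ρ, hU, hq, hm, hr⟩ := exists_str_of_lift E.cone E.charts E.tor E.lat hr₀ hΨ
    (fun z hz => ⟨(hΨX z hz).1, (hΨX z hz).2.1⟩) hη'
  obtain ⟨hx, hux, hpr⟩ := hΨX w (mem_ball_self hr₀)
  obtain ⟨r, hr1, hcap⟩ := cap_of_small E.cone E.tor hx hux hm hU hq
    (fun l hl hl' => hdis l hl (lt_of_lt_of_le hl' (by have := min_le_right η (d / 2); linarith))) (fun p hp => (hr p hp).2)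
  rw [hpr] at hcap hr
  exact ⟨Ψ w, χ, ρ, r, hx, hpr, hU, hq, hr1, hcap, fun p hp => lt_of_lt_of_le (hr p hp).1 (min_le_left _ _)⟩

/-- limits along an ultrafilter -/
private lemma cp_limit (E : EData X Λ u Γ B δ) {δ' R : ℝ} (hδ' : 0 < δ') (𝒰 : Ultrafilter ℕ) (z : ℕ → ℂ)
    (hz : ∀ n, z n ∈ Gd B δ') (hR : ∀ n, ‖z n‖ ≤ R) (F : ℕ → ℂ → MN N) (hF : ∀ n, F n ∈ Sb X Λ u B) :
    ∃ (w : ℂ) (f : ℂ → MN N), w ∈ Gd B δ' ∧ ‖w‖ ≤ R ∧ f ∈ Sb X Λ u B ∧ Tendsto z 𝒰 (𝓝 w) ∧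
      Tendsto (fun n => F n (z n)) 𝒰 (𝓝 (f w)) := by
  have hK : IsCompact (closedBall (0 : ℂ) R ∩ Gd B δ') := (isCompact_closedBall 0 R).inter_right (isClosed_gd δ')
  have hle : ((𝒰.map z : Ultrafilter ℂ) : Filter ℂ) ≤ 𝓟 (closedBall (0 : ℂ) R ∩ Gd B δ') := by
    rw [le_principal_iff]
    exact Filter.mem_map.2 (Filter.univ_mem' fun n => ⟨by rw [mem_closedBall, dist_zero_right]; exact hR n, hz n⟩)
  obtain ⟨w, hw, hlim⟩ := hK.ultrafilter_le_nhds (𝒰.map z) hle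
  obtain ⟨f, hf, hff⟩ := sb_exists_lim E 𝒰 F (Filter.Eventually.of_forall hF)
  have hzw : Tendsto z 𝒰 (𝓝 w) := hlim
  refine ⟨w, f, hw.2, ?_, hf, hzw, ?_⟩
  · have := hw.1
    rwa [mem_closedBall, dist_zero_right] at this
  · exact sb_along E 𝒰 F (Filter.Eventually.of_forall hF) hff (gd_notMem hδ' hw.2) hzw

private lemma cp_eps (𝒰 : Ultrafilter ℕ) (h𝒰 : (𝒰 : Filter ℕ) ≤ atTop) {s : ℝ} (hs : 0 < s) :
    ∀ᶠ n : ℕ in (𝒰 : Filter ℕ), 1 / ((n : ℝ) + 1) ≤ s := by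
  have h := tendsto_one_div_add_atTop_nhds_zero_nat (𝕜 := ℝ)
  exact h𝒰 (h.eventually_le_const hs)

theorem exists_cap_P (E : EData X Λ u Γ B δ) {δ' R : ℝ} (hδ' : 0 < δ') (P : Chart X → Prop)
    (hP : ∀ z₀ ∈ Gd B δ', ‖z₀‖ ≤ R → ∀ f ∈ Sb X Λ u B, ∃ η : ℝ, 0 < η ∧
      ∀ χ : Chart X, (∀ p ∈ ball (0 : ℂ × ℂ) 2, dist (pr (χ.σ p)) (f z₀) < η) → P χ) :
    ∃ r : ℝ, 0 < r ∧ ∀ z₀ ∈ Gd B δ', ‖z₀‖ ≤ R → ∀ f ∈ Sb X Λ u B, ∃ (χ : Chart X) (c : ℂ) (ρ : ℝ),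
      Cap Λ u χ c ρ z₀ (f z₀) r ∧ P χ := by
  by_contra hcon
  push Not at hcon
  choose z hz hR F hF hno using fun n : ℕ => hcon (1 / ((n : ℝ) + 1)) (by positivity)
  have h𝒰 : ((hyperfilter ℕ : Ultrafilter ℕ) : Filter ℕ) ≤ atTop := Nat.hyperfilter_le_atTop
  obtain ⟨w, f, hw, hwR, hf, hzw, hFw⟩ := cp_limit E hδ' (hyperfilter ℕ) z hz hR F hF
  obtain ⟨η, hη, hPη⟩ := hP w hw hwR f hf
  obtain ⟨x₀, χ, ρ, r, -, -, -, -, hr, hcap, hχ⟩ := cp_chart E hf (gd_notMem hδ' hw) hη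
  have h1 : ∀ᶠ n in ((hyperfilter ℕ : Ultrafilter ℕ) : Filter ℕ), dist (z n) w < r / 2 :=
    hzw.eventually (ball_mem_nhds w (half_pos hr))
  have h2 : ∀ᶠ n in ((hyperfilter ℕ : Ultrafilter ℕ) : Filter ℕ), dist (F n (z n)) (f w) < r / 2 :=
    hFw.eventually (ball_mem_nhds (f w) (half_pos hr))
  have h3 := cp_eps (hyperfilter ℕ) h𝒰 (half_pos hr)
  obtain ⟨n, hn1, hn2, hn3⟩ := (h1.and (h2.and h3)).exists
  exact hno n χ w ρ (cp_cap_mono hcap hn3 hn1.le hn2.le) (hPη χ hχ)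

theorem exists_cap (E : EData X Λ u Γ B δ) {δ' : ℝ} (hδ' : 0 < δ') : ∃ r : ℝ, 0 < r ∧ ∀ z₀ ∈ Gd B δ', ∀ f ∈ Sb X Λ u B,
    ∃ (χ : Chart X) (c : ℂ) (ρ : ℝ), Cap Λ u χ c ρ z₀ (f z₀) r := by
  obtain ⟨R, -, hR⟩ := E.lat.cocompact
  obtain ⟨r, hr, h⟩ := exists_cap_P E (R := R) hδ' (fun _ => True) (fun _ _ _ _ _ => ⟨1, one_pos, fun _ _ => trivial⟩)
  refine ⟨r, hr, fun z₀ hz₀ f hf => ?_⟩
  obtain ⟨l, hl, hzl⟩ := hR z₀
  have h1 : z₀ - l ∈ Gd B δ' := by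
    rw [sub_eq_add_neg]
    exact (E.bad.gd_add δ' (Λ.neg_mem hl)).2 hz₀
  obtain ⟨χ, c, ρ, hc, -⟩ := h (z₀ - l) h1 hzl _ (sb_trans E hf hl)
  refine ⟨χ, c + l, ρ, cp_mon_add hc.mon hl, fun z hz x hx hxz hd => ?_⟩
  have h2 := hc.cap (z - l) ?_ x hx ?_ ?_
  · refine ⟨h2.1, h2.2.1, ?_⟩
    linear_combination h2.2.2
  · rw [mem_closedBall, dist_eq_norm] at hz ⊢
    have e : z - l - (z₀ - l) = z - z₀ := by ring
    rw [e]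
    exact hz
  · have e : u x - (z - l) = (u x - z) + l := by ring
    rw [e]
    exact Λ.add_mem hxz hl
  · simpa using hd

/-- the relation without the form -/
private def cpRel (X : Set (EN N)) (Λ : AddSubgroup ℂ) (u : EN N → ℂ) (ε : ℝ) (z : ℂ) (y y' : MN N) : Prop :=
  ∃ (χ : Chart X) (c : ℂ) (ρ : ℝ) (p p' : ℂ × ℂ), Mon Λ u χ c ρ 1 0 ∧
    p ∈ ball (0 : ℂ × ℂ) 2 ∧ p' ∈ ball (0 : ℂ × ℂ) 2 ∧ c + ρ * p.1 = z ∧ c + ρ * p'.1 = z ∧ pr (χ.σ p) = y ∧ pr (χ.σ p') = y' ∧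
    (∀ θ ∈ Set.Icc (0 : ℝ) 1, dist (pr (χ.σ (p + (θ : ℂ) • (p' - p)))) y ≤ ε)

private lemma cp_rel_bdd (E : EData X Λ u Γ B δ) {δ' ε : ℝ} (R : ℝ) (hδ' : 0 < δ') (hε : 0 < ε) : ∃ ε₀ : ℝ, 0 < ε₀ ∧
    ∀ f ∈ Sb X Λ u B, ∀ g ∈ Sb X Λ u B, ∀ z ∈ Gd B δ', ‖z‖ ≤ R → dist (f z) (g z) ≤ ε₀ → cpRel X Λ u ε z (f z) (g z) := by
  by_contra hcon
  push Not at hcon
  choose F hF G hG z hz hR hFG hno using fun n : ℕ => hcon (1 / ((n : ℝ) + 1)) (by positivity)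
  have h𝒰 : ((hyperfilter ℕ : Ultrafilter ℕ) : Filter ℕ) ≤ atTop := Nat.hyperfilter_le_atTop
  obtain ⟨w, f, hw, hwR, hf, hzw, hFw⟩ := cp_limit E hδ' (hyperfilter ℕ) z hz hR F hF
  obtain ⟨x₀, χ, ρ, r, hx₀, hpr, hU, hq, hr, hcap, -⟩ := cp_chart E hf (gd_notMem hδ' hw) one_pos
  -- continuity of the chart at `0`
  have hσ0 : pr (χ.σ 0) = f w := by
    rw [← hpr, ← cp_pr_q hx₀ hU, hq]
  have h0 : (0 : ℂ × ℂ) ∈ ball (0 : ℂ × ℂ) 2 := mem_ball_self two_pos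
  have hcont : ContinuousAt (fun p => pr (χ.σ p)) (0 : ℂ × ℂ) := by
    have h1 : ContinuousAt pr (χ.σ 0) :=
      Pool.Agent.H62.EF.continuousAt_pr (fun h => E.cone.zero_notMem (h ▸ (χ.σ_mem 0 h0).1))
    exact ContinuousAt.comp (f := χ.σ) h1 (χ.σ_an 0 h0).continuousAt
  obtain ⟨s₀, hs₀, hs⟩ := Metric.continuousAt_iff.1 hcont (ε / 2) (half_pos hε)
  rw [hσ0] at hs
  have hs2 : 0 < min s₀ 2 := lt_min hs₀ two_pos
  obtain ⟨d, hd, hqs⟩ := cp_q_small E.cone hx₀ hU hq hs2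
  rw [hpr] at hqs
  set m : ℝ := min (min r d) ε / 4 with hm
  have hm0 : 0 < m := by
    have : 0 < min (min r d) ε := lt_min (lt_min hr hd) hε
    linarith
  have hmr : 4 * m ≤ r := by
    have := (min_le_left (min r d) ε).trans (min_le_left r d)
    linarith
  have hmd : 4 * m ≤ d := by
    have := (min_le_left (min r d) ε).trans (min_le_right r d)
    linarith
  have hmε : 4 * m ≤ ε := by
    have := min_le_right (min r d) ε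
    linarith
  have h1 : ∀ᶠ n in ((hyperfilter ℕ : Ultrafilter ℕ) : Filter ℕ), dist (z n) w < m :=
    hzw.eventually (ball_mem_nhds w hm0)
  have h2 : ∀ᶠ n in ((hyperfilter ℕ : Ultrafilter ℕ) : Filter ℕ), dist (F n (z n)) (f w) < m :=
    hFw.eventually (ball_mem_nhds (f w) hm0)
  have h3 := cp_eps (hyperfilter ℕ) h𝒰 hm0
  obtain ⟨n, hn1, hn2, hn3⟩ := (h1.and (h2.and h3)).exists
  refine hno n ?_
  have hznB : z n ∉ B := gd_notMem hδ' (hz n)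
  obtain ⟨r₁, Ψ, hr₁, -, hΨ⟩ := sb_lift E (hF n) hznB
  obtain ⟨r₂, Φ, hr₂, -, hΦ⟩ := sb_lift E (hG n) hznB
  obtain ⟨hx, hux, hprx⟩ := hΨ (z n) (mem_ball_self hr₁)
  obtain ⟨hx', hux', hprx'⟩ := hΦ (z n) (mem_ball_self hr₂)
  have hd1 : dist (pr (Ψ (z n))) (f w) < m := by rw [hprx]; exact hn2
  have hd2 : dist (pr (Φ (z n))) (f w) < 2 * m := by
    rw [hprx']
    have h4 := dist_triangle (G n (z n)) (F n (z n)) (f w)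
    have h5 : dist (G n (z n)) (F n (z n)) ≤ 1 / ((n : ℝ) + 1) := by rw [dist_comm]; exact hFG n
    linarith
  have hzc : z n ∈ closedBall w r := by rw [mem_closedBall]; linarith
  obtain ⟨hU1, hq1, hc1⟩ := hcap.cap (z n) hzc _ hx hux (by linarith)
  obtain ⟨hU2, hq2, hc2⟩ := hcap.cap (z n) hzc _ hx' hux' (by linarith)
  have hs1 := (hqs _ hx (by linarith)).2
  have hs2' := (hqs _ hx' (by linarith)).2
  refine ⟨χ, w, ρ, χ.q (Ψ (z n)), χ.q (Φ (z n)), hcap.mon, (χ.surj _ hx hU1).1, (χ.surj _ hx' hU2).1, hc1, hc2, ?_, ?_, ?_⟩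
  · rw [cp_pr_q hx hU1, hprx]
  · rw [cp_pr_q hx' hU2, hprx']
  · intro θ hθ
    have hmem : χ.q (Ψ (z n)) + (θ : ℂ) • (χ.q (Φ (z n)) - χ.q (Ψ (z n))) ∈ ball (0 : ℂ × ℂ) (min s₀ 2) := by
      have e : χ.q (Ψ (z n)) + (θ : ℂ) • (χ.q (Φ (z n)) - χ.q (Ψ (z n))) =
          (1 - θ) • χ.q (Ψ (z n)) + θ • χ.q (Φ (z n)) := by
        have e1 : ∀ v : ℂ × ℂ, (θ : ℂ) • v = θ • v := fun v => by
          ext <;> simp
        rw [e1, smul_sub, sub_smul, one_smul]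
        abel
      rw [e]
      exact (convex_ball (0 : ℂ × ℂ) (min s₀ 2)) (by rw [mem_ball, dist_zero_right]; exact hs1)
        (by rw [mem_ball, dist_zero_right]; exact hs2') (by linarith [hθ.2]) hθ.1 (by ring)
    have h6 := hs (lt_of_lt_of_le (mem_ball.1 hmem) (min_le_left _ _))
    have h7 := dist_triangle (pr (χ.σ (χ.q (Ψ (z n)) + (θ : ℂ) • (χ.q (Φ (z n)) - χ.q (Ψ (z n)))))) (f w) (F n (z n))
    rw [dist_comm (f w)] at h7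
    linarith

theorem exists_irel (E : EData X Λ u Γ B δ) {δ' ε : ℝ} (hδ' : 0 < δ') (hε : 0 < ε) : ∃ ε₀ : ℝ, 0 < ε₀ ∧
    ∀ f ∈ Sb X Λ u B, ∀ g ∈ Sb X Λ u B, ∀ z ∈ Gd B δ', dist (f z) (g z) ≤ ε₀ → ∀ α : TForm X Λ u, ∃ v, IRel α ε z (f z) (g z) v := by
  obtain ⟨R, -, hR⟩ := E.lat.cocompact
  obtain ⟨ε₀, hε₀, h⟩ := cp_rel_bdd E R hδ' hε
  refine ⟨ε₀, hε₀, fun f hf g hg z hz hd α => ?_⟩
  obtain ⟨l, hl, hzl⟩ := hR z
  have h1 : z - l ∈ Gd B δ' := by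
    rw [sub_eq_add_neg]
    exact (E.bad.gd_add δ' (Λ.neg_mem hl)).2 hz
  obtain ⟨χ, c, ρ, p, p', hm, hp, hp', hc, hc', hpr, hpr', hθ⟩ := h _ (sb_trans E hf hl) _ (sb_trans E hg hl) (z - l) h1 hzl
    (by simpa using hd)
  obtain ⟨A, hA⟩ := exists_prim α χ (cp_mon_add hm hl)
  simp only [sub_add_cancel] at hpr hpr' hθ
  exact ⟨_, χ, c + l, ρ, A, p, p', cp_mon_add hm hl, hA, hp, hp', by linear_combination hc, by linear_combination hc', hpr, hpr', hθ, rfl⟩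

end Pool.Agent.H62.EL
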