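import Mathlib

/-!
# EL Prm: primitives of analytic functions of two variables on a bidisc

`exists_prim_snd`: for `a` analytic on `ball 0 R` (a bidisc: the norm of `ℂ × ℂ` is the maximum) put
`A (s, t) = ∫ θ in 0..1, t * a (s, θ t)`.  Analyticity and `∂A/∂t = a`: e.g. by differentiation under the integral sign (the integrand is
analytic in `(s, t)`, continuous in `(θ, s, t)`; a function which is complex differentiable on an open set is analytic:
`DifferentiableOn.analyticAt` for one variable; for two variables one may use that `A` is differentiable with continuous partial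
derivatives, or the theorem on analytic functions of several variables (Osgood / Hartogs) in Mathlib or on main).  Alternative without
integrals: power series.  On each smaller bidisc `a (s, t) = Σ a_{mn} s^m t^n` ...; or `A (s, ·)` is the primitive on the disc
`‖t‖ < R` of `a (s, ·)` with value `0` at `0` (`DifferentiableOn.isExactOn_ball`), and analytic dependence on `s` by the integral formula.
Look for parametric integrals of analytic functions in Mathlib and in `Pool/Agent` (grep for `hasDerivAt_integral_of_dominated_loc_of_deriv_le`,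
`hasFDerivAt_integral_of_dominated_of_fderiv_le`, `DifferentiableOn.analyticAt`).

`exists_potential`: `b₁, b₂` analytic on the bidisc, `∂b₂/∂s = ∂b₁/∂t`.  Let `B₂` be the primitive of `b₂` in the direction of `t` with
`B₂ (s, 0) = 0` (first theorem) and `B₁` the primitive of `s ↦ b₁ (s, 0)` with `B₁ 0 = 0`.  `ψ (s, t) = B₁ s + B₂ (s, t)`: `∂ψ/∂t = b₂`;
`∂ψ/∂s = b₁ (s, 0) + ∂B₂/∂s =: g`, `∂g/∂t = ∂²B₂/∂t∂s = ∂b₂/∂s = ∂b₁/∂t` (mixed derivatives of analytic functions are symmetric) and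
`g (s, 0) = b₁ (s, 0)` (`B₂ (·, 0) = 0`), so `g = b₁` (for fixed `s` both are functions of `t` on a disc with the same derivative).
Alternatively use the Poincaré lemma of Mathlib (`Mathlib/MeasureTheory/Integral/CurveIntegral/Poincare.lean`).
-/

set_option autoImplicit false

open Topology Filter Metric

namespace Pool.Agent.H62.EL

private theorem prm_pi : (0 : ℝ) ≤ 2 * Real.pi := by positivity

/-- the parameter interval of the circle -/
private abbrev PrmT : Type := Set.Icc (0 : ℝ) (2 * Real.pi)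

private noncomputable def prmP (θ : ℝ) : PrmT := Set.projIcc 0 (2 * Real.pi) prm_pi θ

private theorem prmP_cont : Continuous prmP := continuous_projIcc (h := prm_pi)

private theorem prmP_of_mem {θ : ℝ} (h : θ ∈ Set.uIcc 0 (2 * Real.pi)) : ((prmP θ : PrmT) : ℝ) = θ := by
  rw [Set.uIcc_of_le prm_pi] at h
  rw [prmP, Set.projIcc_of_mem prm_pi h]

private theorem prm_cont2 (f : C(PrmT × PrmT, ℂ)) : Continuous fun x : ℝ × ℝ => f (prmP x.1, prmP x.2) :=
  f.continuous.comp ((prmP_cont.comp continuous_fst).prodMk (prmP_cont.comp continuous_snd))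

private theorem prm_cont_in (f : C(PrmT × PrmT, ℂ)) (θ : ℝ) : Continuous fun φ : ℝ => f (prmP θ, prmP φ) :=
  (prm_cont2 f).comp (continuous_const.prodMk continuous_id)

private theorem prm_cont_out (f : C(PrmT × PrmT, ℂ)) :
    Continuous fun θ : ℝ => ∫ φ in (0 : ℝ)..(2 * Real.pi), f (prmP θ, prmP φ) :=
  intervalIntegral.continuous_parametric_intervalIntegral_of_continuous' (f := fun θ φ : ℝ => f (prmP θ, prmP φ))
    (prm_cont2 f) _ _

/-- the double integral as a continuous functional -/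
private noncomputable def prmJ : C(PrmT × PrmT, ℂ) →L[ℂ] ℂ :=
  LinearMap.mkContinuous
    { toFun := fun f => ∫ θ in (0 : ℝ)..(2 * Real.pi), ∫ φ in (0 : ℝ)..(2 * Real.pi), f (prmP θ, prmP φ)
      map_add' := by
        intro f g
        rw [← intervalIntegral.integral_add ((prm_cont_out f).intervalIntegrable _ _)
          ((prm_cont_out g).intervalIntegrable _ _)]
        congr 1
        funext θ
        rw [← intervalIntegral.integral_add ((prm_cont_in f θ).intervalIntegrable _ _)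
          ((prm_cont_in g θ).intervalIntegrable _ _)]
        rfl
      map_smul' := by
        intro c f
        simp only [ContinuousMap.coe_smul, Pi.smul_apply, intervalIntegral.integral_smul, RingHom.id_apply] }
    ((2 * Real.pi) * (2 * Real.pi)) (by
      intro f
      have h1 : ∀ θ : ℝ, ‖∫ φ in (0 : ℝ)..(2 * Real.pi), f (prmP θ, prmP φ)‖ ≤ ‖f‖ * (2 * Real.pi) := by
        intro θ
        have h2 := intervalIntegral.norm_integral_le_of_norm_le_const (a := 0) (b := 2 * Real.pi) (C := ‖f‖)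
          (f := fun φ => f (prmP θ, prmP φ)) (fun φ _ => f.norm_coe_le_norm _)
        rwa [sub_zero, abs_of_nonneg prm_pi] at h2
      have h2 := intervalIntegral.norm_integral_le_of_norm_le_const (a := 0) (b := 2 * Real.pi)
        (C := ‖f‖ * (2 * Real.pi))
        (f := fun θ => ∫ φ in (0 : ℝ)..(2 * Real.pi), f (prmP θ, prmP φ)) (fun θ _ => h1 θ)
      rw [sub_zero, abs_of_nonneg prm_pi] at h2
      refine h2.trans (le_of_eq ?_)
      ring)

private theorem prmJ_apply (f : C(PrmT × PrmT, ℂ)) :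
    prmJ f = ∫ θ in (0 : ℝ)..(2 * Real.pi), ∫ φ in (0 : ℝ)..(2 * Real.pi), f (prmP θ, prmP φ) := rfl

private theorem prm_unit {Q : Type} [TopologicalSpace Q] (G : C(Q, ℂ)) {s : ℂ} (h : ∀ q, G q ≠ s) :
    IsUnit (G - s • (1 : C(Q, ℂ))) := by
  rw [ContinuousMap.isUnit_iff_forall_ne_zero]
  intro q hq
  apply h q
  have h1 : (G - s • (1 : C(Q, ℂ))) q = G q - s := by simp
  rw [h1, sub_eq_zero] at hq
  exact hq

private theorem prm_inv_apply {Q : Type} [TopologicalSpace Q] (G : C(Q, ℂ)) {s : ℂ} (h : ∀ q, G q ≠ s) (q : Q) :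
    (Ring.inverse (G - s • (1 : C(Q, ℂ)))) q = (G q - s)⁻¹ := by
  have h1 := Ring.mul_inverse_cancel _ (prm_unit G h)
  have h2 := congrArg (fun f : C(Q, ℂ) => f q) h1
  have h3 : (G q - s) * (Ring.inverse (G - s • (1 : C(Q, ℂ)))) q = 1 := by
    simpa using h2
  exact (eq_inv_of_mul_eq_one_right h3)

private theorem prm_inv_an {Q : Type} [TopologicalSpace Q] [CompactSpace Q] (G : C(Q, ℂ)) {s : ℂ} (h : ∀ q, G q ≠ s) :
    AnalyticAt ℂ (fun s : ℂ => Ring.inverse (G - s • (1 : C(Q, ℂ)))) s := by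
  obtain ⟨u, hu⟩ := prm_unit G h
  have h1 : AnalyticAt ℂ (Ring.inverse : C(Q, ℂ) → C(Q, ℂ)) (G - s • (1 : C(Q, ℂ))) := by
    rw [← hu]
    exact analyticAt_inverse u
  have h2 : AnalyticAt ℂ (fun s : ℂ => G - s • (1 : C(Q, ℂ))) s :=
    analyticAt_const.sub (analyticAt_id.smul analyticAt_const)
  exact AnalyticAt.fun_comp (g := (Ring.inverse : C(Q, ℂ) → C(Q, ℂ))) (f := fun s : ℂ => G - s • (1 : C(Q, ℂ))) h1 h2

private theorem prm_loc {R r : ℝ} (hr : 0 < r) (hrR : r < R) {a : ℂ × ℂ → ℂ}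
    (ha : ∀ p ∈ ball (0 : ℂ × ℂ) R, AnalyticAt ℂ a p) :
    ∃ A : ℂ × ℂ → ℂ, (∀ p ∈ ball (0 : ℂ × ℂ) r, AnalyticAt ℂ A p ∧ HasDerivAt (fun t => A (p.1, t)) (a p) p.2) ∧
      ∀ s : ℂ, A (s, 0) = 0 := by
  have hmem : ∀ s t : ℂ, ‖s‖ ≤ r → ‖t‖ ≤ r → (s, t) ∈ ball (0 : ℂ × ℂ) R := by
    intro s t hs ht
    rw [mem_ball_zero_iff, Prod.norm_def]
    exact (max_le hs ht).trans_lt hrR
  have hγn : ∀ θ : ℝ, ‖circleMap 0 r θ‖ = r := by
    intro θ
    rw [norm_circleMap_zero, abs_of_pos hr]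
  have hac : ContinuousOn a (ball (0 : ℂ × ℂ) R) := fun p hp => (ha p hp).continuousAt.continuousWithinAt
  set γ : ℝ → ℂ := circleMap 0 r with hγ
  have hγc : Continuous γ := continuous_circleMap 0 r
  set γ' : ℝ → ℂ := fun θ => γ θ * Complex.I with hγ'
  have hγ'c : Continuous γ' := hγc.mul continuous_const
  have hTc1 : Continuous fun q : PrmT × PrmT => γ (q.1 : ℝ) := hγc.comp (continuous_subtype_val.comp continuous_fst)
  have hTc2 : Continuous fun q : PrmT × PrmT => γ (q.2 : ℝ) := hγc.comp (continuous_subtype_val.comp continuous_snd)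
  have hWc : Continuous fun q : PrmT × PrmT => (2 * Real.pi * Complex.I)⁻¹ * (2 * Real.pi * Complex.I)⁻¹ *
      (γ' (q.1 : ℝ) * γ' (q.2 : ℝ)) * a (γ (q.1 : ℝ), γ (q.2 : ℝ)) := by
    refine (continuous_const.mul ((hγ'c.comp (continuous_subtype_val.comp continuous_fst)).mul
      (hγ'c.comp (continuous_subtype_val.comp continuous_snd)))).mul ?_
    refine hac.comp_continuous (hTc1.prodMk hTc2) fun q => ?_
    exact hmem _ _ (hγn _).le (hγn _).le
  let W : C(PrmT × PrmT, ℂ) := ⟨_, hWc⟩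
  let G1 : C(PrmT × PrmT, ℂ) := ⟨_, hTc1⟩
  let G2 : C(PrmT × PrmT, ℂ) := ⟨_, hTc2⟩
  have hG1 : ∀ s : ℂ, ‖s‖ < r → ∀ q, G1 q ≠ s := by
    intro s hs q hq
    have h1 : ‖G1 q‖ = r := hγn _
    rw [hq] at h1
    linarith
  have hG2 : ∀ s : ℂ, ‖s‖ < r → ∀ q, G2 q ≠ s := by
    intro s hs q hq
    have h1 : ‖G2 q‖ = r := hγn _
    rw [hq] at h1
    linarith
  let K1 : ℂ → C(PrmT × PrmT, ℂ) := fun s => Ring.inverse (G1 - s • (1 : C(PrmT × PrmT, ℂ)))
  let K2 : ℂ → C(PrmT × PrmT, ℂ) := fun s => Ring.inverse (G2 - s • (1 : C(PrmT × PrmT, ℂ)))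
  have hK1 : ∀ s : ℂ, ‖s‖ < r → AnalyticAt ℂ K1 s := fun s hs => prm_inv_an G1 (hG1 s hs)
  have hK2 : ∀ s : ℂ, ‖s‖ < r → AnalyticAt ℂ K2 s := fun s hs => prm_inv_an G2 (hG2 s hs)
  have hK2d : DifferentiableOn ℂ K2 (ball 0 r) := fun s hs =>
    (hK2 s (by simpa using hs)).differentiableAt.differentiableWithinAt
  obtain ⟨L, hL0, hL⟩ := hK2d.isExactOn_ball.with_val_at 0 0
  have hLa : ∀ s : ℂ, ‖s‖ < r → AnalyticAt ℂ L s := by
    intro s hs
    have h1 : DifferentiableOn ℂ L (ball 0 r) := fun z hz => (hL z hz).differentiableAt.differentiableWithinAt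
    exact h1.analyticAt (isOpen_ball.mem_nhds (by simpa using hs))
  have key : ∀ s t : ℂ, ‖s‖ < r → ‖t‖ < r → prmJ (W * K1 s * K2 t) = a (s, t) := by
    intro s t hs ht
    have hin : ∀ u : ℂ, ‖u‖ ≤ r →
        ∫ φ in (0 : ℝ)..(2 * Real.pi), γ' φ * ((γ φ - t)⁻¹ * a (u, γ φ)) = (2 * Real.pi * Complex.I) * a (u, t) := by
      intro u hu
      have h1 : DifferentiableOn ℂ (fun z => a (u, z)) (closedBall 0 r) := by
        intro z hz
        have h2 := (ha (u, z) (hmem u z hu (by simpa using hz))).differentiableAt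
        exact (h2.comp z ((differentiableAt_const u).prodMk differentiableAt_id)).differentiableWithinAt
      have h3 := h1.circleIntegral_sub_inv_smul (w := t) (by simpa using ht)
      rw [circleIntegral] at h3
      simpa only [deriv_circleMap, smul_eq_mul] using h3
    have hout : ∫ θ in (0 : ℝ)..(2 * Real.pi), γ' θ * ((γ θ - s)⁻¹ * a (γ θ, t)) =
        (2 * Real.pi * Complex.I) * a (s, t) := by
      have h1 : DifferentiableOn ℂ (fun z => a (z, t)) (closedBall 0 r) := by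
        intro z hz
        have h2 := (ha (z, t) (hmem z t (by simpa using hz) ht.le)).differentiableAt
        exact (h2.comp z (differentiableAt_id.prodMk (differentiableAt_const t))).differentiableWithinAt
      have h3 := h1.circleIntegral_sub_inv_smul (w := s) (by simpa using hs)
      rw [circleIntegral] at h3
      simpa only [deriv_circleMap, smul_eq_mul] using h3
    have hpi : (2 * Real.pi * Complex.I : ℂ) ≠ 0 := Complex.two_pi_I_ne_zero
    rw [prmJ_apply]
    have e1 : ∀ θ ∈ Set.uIcc (0 : ℝ) (2 * Real.pi),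
        (∫ φ in (0 : ℝ)..(2 * Real.pi), (W * K1 s * K2 t) (prmP θ, prmP φ)) =
        (2 * Real.pi * Complex.I)⁻¹ * (γ' θ * ((γ θ - s)⁻¹ * a (γ θ, t))) := by
      intro θ hθ
      have e2 : (∫ φ in (0 : ℝ)..(2 * Real.pi), (W * K1 s * K2 t) (prmP θ, prmP φ)) =
          ∫ φ in (0 : ℝ)..(2 * Real.pi), ((2 * Real.pi * Complex.I)⁻¹ * (2 * Real.pi * Complex.I)⁻¹ *
            (γ' θ * (γ θ - s)⁻¹)) * (γ' φ * ((γ φ - t)⁻¹ * a (γ θ, γ φ))) := by
        apply intervalIntegral.integral_congr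
        intro φ hφ
        have e3 : (W * K1 s * K2 t) (prmP θ, prmP φ) =
            W (prmP θ, prmP φ) * (K1 s (prmP θ, prmP φ)) * (K2 t (prmP θ, prmP φ)) := rfl
        have e4 : K1 s (prmP θ, prmP φ) = (γ θ - s)⁻¹ := by
          have h1 := prm_inv_apply G1 (hG1 s hs) (prmP θ, prmP φ)
          have h2 : G1 (prmP θ, prmP φ) = γ θ := by
            change γ ((prmP θ : PrmT) : ℝ) = γ θ
            rw [prmP_of_mem hθ]
          rw [h2] at h1
          exact h1
        have e5 : K2 t (prmP θ, prmP φ) = (γ φ - t)⁻¹ := by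
          have h1 := prm_inv_apply G2 (hG2 t ht) (prmP θ, prmP φ)
          have h2 : G2 (prmP θ, prmP φ) = γ φ := by
            change γ ((prmP φ : PrmT) : ℝ) = γ φ
            rw [prmP_of_mem hφ]
          rw [h2] at h1
          exact h1
        have e6 : W (prmP θ, prmP φ) = (2 * Real.pi * Complex.I)⁻¹ * (2 * Real.pi * Complex.I)⁻¹ *
            (γ' θ * γ' φ) * a (γ θ, γ φ) := by
          change (2 * Real.pi * Complex.I)⁻¹ * (2 * Real.pi * Complex.I)⁻¹ *
            (γ' ((prmP θ : PrmT) : ℝ) * γ' ((prmP φ : PrmT) : ℝ)) *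
              a (γ ((prmP θ : PrmT) : ℝ), γ ((prmP φ : PrmT) : ℝ)) = _
          rw [prmP_of_mem hθ, prmP_of_mem hφ]
        simp only [e3, e4, e5, e6]
        ring
      rw [e2, intervalIntegral.integral_const_mul, hin _ (hγn θ).le]
      field_simp
    rw [intervalIntegral.integral_congr e1, intervalIntegral.integral_const_mul, hout]
    field_simp
  refine ⟨fun p => prmJ (W * K1 p.1 * L p.2), ?_, ?_⟩
  · intro p hp
    rw [mem_ball_zero_iff, Prod.norm_def, max_lt_iff] at hp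
    constructor
    · have h1 : AnalyticAt ℂ (fun p : ℂ × ℂ => K1 p.1) p := (hK1 p.1 hp.1).comp analyticAt_fst
      have h2 : AnalyticAt ℂ (fun p : ℂ × ℂ => L p.2) p := (hLa p.2 hp.2).comp analyticAt_snd
      exact (prmJ.analyticAt _).comp ((analyticAt_const.mul h1).mul h2)
    · have h1 := hL p.2 (by simpa using hp.2)
      have h2 := (h1.const_mul (W * K1 p.1))
      have h3 := (prmJ.hasFDerivAt (x := W * K1 p.1 * L p.2)).comp_hasDerivAt p.2 h2
      rw [key p.1 p.2 hp.1 hp.2] at h3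
      exact h3
  · intro s
    change prmJ (W * K1 s * L 0) = 0
    rw [hL0, mul_zero, map_zero]

private theorem prm_const {R : ℝ} {f g : ℂ → ℂ} {h : ℂ → ℂ} (hf : ∀ z ∈ ball (0 : ℂ) R, HasDerivAt f (h z) z)
    (hg : ∀ z ∈ ball (0 : ℂ) R, HasDerivAt g (h z) z) (h0 : f 0 = g 0) {z : ℂ} (hz : z ∈ ball (0 : ℂ) R) : f z = g z := by
  have hR : (0 : ℂ) ∈ ball (0 : ℂ) R := by
    rw [mem_ball_zero_iff] at hz ⊢
    rw [norm_zero]
    exact (norm_nonneg z).trans_lt hz
  have h1 : ∀ z ∈ ball (0 : ℂ) R, HasDerivAt (fun z => f z - g z) 0 z := by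
    intro z hz
    have h2 := (hf z hz).sub (hg z hz)
    rwa [sub_self] at h2
  have h2 : (fun z => f z - g z) z = (fun z => f z - g z) 0 := by
    refine (convex_ball (0 : ℂ) R).is_const_of_fderivWithin_eq_zero (𝕜 := ℂ)
      (fun w hw => (h1 w hw).differentiableAt.differentiableWithinAt) ?_ hz hR
    intro w hw
    rw [fderivWithin_of_isOpen isOpen_ball hw]
    have h3 := (h1 w hw).hasFDerivAt.fderiv
    rw [h3]
    ext
    simp
  simp only [h0, sub_self] at h2
  exact sub_eq_zero.1 h2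

theorem exists_prim_snd {R : ℝ} {a : ℂ × ℂ → ℂ} (ha : ∀ p ∈ ball (0 : ℂ × ℂ) R, AnalyticAt ℂ a p) :
    ∃ A : ℂ × ℂ → ℂ, (∀ p ∈ ball (0 : ℂ × ℂ) R, AnalyticAt ℂ A p ∧ fderiv ℂ A p (0, 1) = a p) ∧
      ∀ s : ℂ, ‖s‖ < R → A (s, 0) = 0 := by
  have hmem : ∀ s t : ℂ, ‖s‖ < R → ‖t‖ < R → (s, t) ∈ ball (0 : ℂ × ℂ) R := by
    intro s t hs ht
    rw [mem_ball_zero_iff, Prod.norm_def]
    exact max_lt hs ht
  have hex : ∀ s : ℂ, ∃ g : ℂ → ℂ, ‖s‖ < R → g 0 = 0 ∧ ∀ t ∈ ball (0 : ℂ) R, HasDerivAt g (a (s, t)) t := by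
    intro s
    by_cases hs : ‖s‖ < R
    · have h1 : DifferentiableOn ℂ (fun t => a (s, t)) (ball 0 R) := by
        intro t ht
        have h2 := (ha (s, t) (hmem s t hs (by simpa using ht))).differentiableAt
        exact (h2.comp t ((differentiableAt_const s).prodMk differentiableAt_id)).differentiableWithinAt
      obtain ⟨g, hg0, hg⟩ := h1.isExactOn_ball.with_val_at 0 0
      exact ⟨g, fun _ => ⟨hg0, hg⟩⟩
    · exact ⟨0, fun h => absurd h hs⟩
  choose g hg using hex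
  have hloc : ∀ r : ℝ, 0 < r → r < R → ∃ A : ℂ × ℂ → ℂ, ∀ p ∈ ball (0 : ℂ × ℂ) r, AnalyticAt ℂ A p ∧
      HasDerivAt (fun t => A (p.1, t)) (a p) p.2 ∧ A p = g p.1 p.2 := by
    intro r hr hrR
    obtain ⟨A, hA, hA0⟩ := prm_loc hr hrR ha
    refine ⟨A, fun p hp => ⟨(hA p hp).1, (hA p hp).2, ?_⟩⟩
    rw [mem_ball_zero_iff, Prod.norm_def, max_lt_iff] at hp
    have h1 := hg p.1 (hp.1.trans hrR)
    refine prm_const (R := r) (f := fun t => A (p.1, t)) (g := g p.1) (h := fun t => a (p.1, t)) ?_ ?_ ?_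
      (z := p.2) (by simpa using hp.2)
    · intro t ht
      have h2 : (p.1, t) ∈ ball (0 : ℂ × ℂ) r := by
        rw [mem_ball_zero_iff, Prod.norm_def]
        exact max_lt hp.1 (by simpa using ht)
      exact (hA (p.1, t) h2).2
    · intro t ht
      exact h1.2 t (ball_subset_ball hrR.le ht)
    · rw [hA0, h1.1]
  refine ⟨fun p => g p.1 p.2, ?_, ?_⟩
  · intro p hp
    have hpR : ‖p‖ < R := by simpa using hp
    have hR : 0 < R := (norm_nonneg p).trans_lt hpR
    obtain ⟨r, hr1, hr2⟩ := exists_between hpR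
    have hr0 : 0 < r := (norm_nonneg p).trans_lt hr1
    obtain ⟨A, hA⟩ := hloc r hr0 hr2
    have hpr : p ∈ ball (0 : ℂ × ℂ) r := by simpa using hr1
    have hev : A =ᶠ[𝓝 p] fun p => g p.1 p.2 := by
      filter_upwards [isOpen_ball.mem_nhds hpr] with q hq
      exact (hA q hq).2.2
    obtain ⟨h1, h2, -⟩ := hA p hpr
    refine ⟨h1.congr hev, ?_⟩
    rw [← hev.fderiv_eq]
    have h3 : HasDerivAt (fun t : ℂ => ((p.1, t) : ℂ × ℂ)) (0, 1) p.2 :=
      (hasDerivAt_const p.2 p.1).prodMk (hasDerivAt_id p.2)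
    have h4 := h1.differentiableAt.hasFDerivAt.comp_hasDerivAt p.2 h3
    exact h4.unique h2
  · intro s hs
    exact (hg s hs).1

theorem exists_potential {R : ℝ} {b₁ b₂ : ℂ × ℂ → ℂ} (h₁ : ∀ p ∈ ball (0 : ℂ × ℂ) R, AnalyticAt ℂ b₁ p)
    (h₂ : ∀ p ∈ ball (0 : ℂ × ℂ) R, AnalyticAt ℂ b₂ p)
    (hc : ∀ p ∈ ball (0 : ℂ × ℂ) R, fderiv ℂ b₂ p (1, 0) = fderiv ℂ b₁ p (0, 1)) :
    ∃ ψ : ℂ × ℂ → ℂ, ψ 0 = 0 ∧ ∀ p ∈ ball (0 : ℂ × ℂ) R, AnalyticAt ℂ ψ p ∧ fderiv ℂ ψ p (1, 0) = b₁ p ∧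
      fderiv ℂ ψ p (0, 1) = b₂ p := by
  by_cases hR : 0 < R
  swap
  · refine ⟨0, rfl, fun p hp => ?_⟩
    rw [ball_eq_empty.2 (not_lt.1 hR)] at hp
    exact absurd hp (Set.notMem_empty p)
  have hmem : ∀ s t : ℂ, ‖s‖ < R → ‖t‖ < R → (s, t) ∈ ball (0 : ℂ × ℂ) R := by
    intro s t hs ht
    rw [mem_ball_zero_iff, Prod.norm_def]
    exact max_lt hs ht
  obtain ⟨B₂, hB₂, hB₂0⟩ := exists_prim_snd h₂
  have hd1 : DifferentiableOn ℂ (fun s => b₁ (s, 0)) (ball 0 R) := by
    intro s hs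
    have h2 := (h₁ (s, 0) (hmem s 0 (by simpa using hs) (by simpa using hR))).differentiableAt
    exact (h2.comp s (differentiableAt_id.prodMk (differentiableAt_const (0 : ℂ)))).differentiableWithinAt
  obtain ⟨B₁, hB₁0, hB₁⟩ := hd1.isExactOn_ball.with_val_at 0 0
  have hB₁a : ∀ s : ℂ, ‖s‖ < R → AnalyticAt ℂ B₁ s := by
    intro s hs
    have h1 : DifferentiableOn ℂ B₁ (ball 0 R) := fun z hz => (hB₁ z hz).differentiableAt.differentiableWithinAt
    exact h1.analyticAt (isOpen_ball.mem_nhds (by simpa using hs))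
  have hfst : ∀ p : ℂ × ℂ, p ∈ ball (0 : ℂ × ℂ) R → HasFDerivAt (fun p : ℂ × ℂ => B₁ p.1)
      (b₁ (p.1, 0) • ContinuousLinearMap.fst ℂ ℂ ℂ) p := by
    intro p hp
    rw [mem_ball_zero_iff, Prod.norm_def, max_lt_iff] at hp
    have h1 := (hB₁ p.1 (by simpa using hp.1)).hasFDerivAt.comp p (hasFDerivAt_fst (𝕜 := ℂ) (p := p))
    convert! h1 using 1
    ext <;> simp
  refine ⟨fun p => B₁ p.1 + B₂ p, ?_, ?_⟩
  · change B₁ 0 + B₂ (0, 0) = 0
    rw [hB₁0, hB₂0 0 (by simpa using hR), add_zero]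
  · intro p hp
    have hp' := hp
    rw [mem_ball_zero_iff, Prod.norm_def, max_lt_iff] at hp'
    have hfd : ∀ q ∈ ball (0 : ℂ × ℂ) R, HasFDerivAt (fun p : ℂ × ℂ => B₁ p.1 + B₂ p)
        (b₁ (q.1, 0) • ContinuousLinearMap.fst ℂ ℂ ℂ + fderiv ℂ B₂ q) q := fun q hq =>
      (hfst q hq).add (hB₂ q hq).1.differentiableAt.hasFDerivAt
    refine ⟨((hB₁a p.1 hp'.1).comp analyticAt_fst).add (hB₂ p hp).1, ?_, ?_⟩
    · rw [(hfd p hp).fderiv]
      have h1 : (b₁ (p.1, 0) • ContinuousLinearMap.fst ℂ ℂ ℂ + fderiv ℂ B₂ p) (1, 0) =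
          b₁ (p.1, 0) + fderiv ℂ B₂ p (1, 0) := by simp
      rw [h1]
      -- both sides have the same derivative in the direction of t
      have hline : ∀ t : ℂ, HasDerivAt (fun t : ℂ => ((p.1, t) : ℂ × ℂ)) (0, 1) t := fun t =>
        (hasDerivAt_const t p.1).prodMk (hasDerivAt_id t)
      have hmt : ∀ t ∈ ball (0 : ℂ) R, (p.1, t) ∈ ball (0 : ℂ × ℂ) R := fun t ht =>
        hmem p.1 t hp'.1 (by simpa using ht)
      refine prm_const (R := R) (f := fun t => b₁ (p.1, 0) + fderiv ℂ B₂ (p.1, t) (1, 0)) (g := fun t => b₁ (p.1, t))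
        (h := fun t => fderiv ℂ b₁ (p.1, t) (0, 1)) ?_ ?_ ?_ (z := p.2) (by simpa using hp'.2)
      · intro t ht
        have hq := hmt t ht
        have h2 : HasFDerivAt (fderiv ℂ B₂) (fderiv ℂ (fderiv ℂ B₂) (p.1, t)) (p.1, t) :=
          (hB₂ _ hq).1.fderiv.differentiableAt.hasFDerivAt
        have h3 := h2.comp_hasDerivAt t (hline t)
        have h4 : HasDerivAt (fun t => fderiv ℂ B₂ (p.1, t) (1, 0))
            (fderiv ℂ (fderiv ℂ B₂) (p.1, t) (0, 1) (1, 0)) t :=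
          (ContinuousLinearMap.apply ℂ ℂ ((1, 0) : ℂ × ℂ)).hasFDerivAt.comp_hasDerivAt t h3
        have h5 : fderiv ℂ (fderiv ℂ B₂) (p.1, t) (0, 1) (1, 0) = fderiv ℂ (fderiv ℂ B₂) (p.1, t) (1, 0) (0, 1) :=
          ((hB₂ _ hq).1.contDiffAt (n := ⊤)).isSymmSndFDerivAt_of_omega (0, 1) (1, 0)
        have h6 : fderiv ℂ (fderiv ℂ B₂) (p.1, t) (1, 0) (0, 1) = fderiv ℂ b₂ (p.1, t) (1, 0) := by
          have h7 : (fun q => fderiv ℂ B₂ q (0, 1)) =ᶠ[𝓝 (p.1, t)] b₂ := by
            filter_upwards [isOpen_ball.mem_nhds hq] with q hq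
            exact (hB₂ q hq).2
          rw [← h7.fderiv_eq]
          have h8 : HasFDerivAt (fun q => fderiv ℂ B₂ q (0, 1))
              ((ContinuousLinearMap.apply ℂ ℂ ((0, 1) : ℂ × ℂ)).comp (fderiv ℂ (fderiv ℂ B₂) (p.1, t))) (p.1, t) :=
            (ContinuousLinearMap.apply ℂ ℂ ((0, 1) : ℂ × ℂ)).hasFDerivAt.comp (p.1, t) h2
          rw [h8.fderiv]
          rfl
        rw [h5, h6, hc _ hq] at h4
        exact h4.const_add _
      · intro t ht
        have hq := hmt t ht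
        exact (h₁ _ hq).differentiableAt.hasFDerivAt.comp_hasDerivAt t (hline t)
      · have h2 : fderiv ℂ B₂ (p.1, 0) (1, 0) = 0 := by
          have hq : (p.1, (0 : ℂ)) ∈ ball (0 : ℂ × ℂ) R := hmem p.1 0 hp'.1 (by simpa using hR)
          have h3 : HasDerivAt (fun s : ℂ => ((s, 0) : ℂ × ℂ)) (1, 0) p.1 :=
            (hasDerivAt_id p.1).prodMk (hasDerivAt_const p.1 (0 : ℂ))
          have h4 := (hB₂ _ hq).1.differentiableAt.hasFDerivAt.comp_hasDerivAt p.1 h3
          have h5 : HasDerivAt (fun _ : ℂ => (0 : ℂ)) 0 p.1 := hasDerivAt_const _ _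
          have h6 : (B₂ ∘ fun s : ℂ => ((s, 0) : ℂ × ℂ)) =ᶠ[𝓝 p.1] fun _ => (0 : ℂ) := by
            have h7 : p.1 ∈ ball (0 : ℂ) R := by simpa using hp'.1
            filter_upwards [isOpen_ball.mem_nhds h7] with s hs
            exact hB₂0 s (by simpa using hs)
          exact h4.unique (h5.congr_of_eventuallyEq h6)
        rw [h2, add_zero]
    · rw [(hfd p hp).fderiv]
      have h1 : (b₁ (p.1, 0) • ContinuousLinearMap.fst ℂ ℂ ℂ + fderiv ℂ B₂ p) (0, 1) = fderiv ℂ B₂ p (0, 1) := by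
        simp
      rw [h1, (hB₂ p hp).2]

end Pool.Agent.H62.EL
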