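import Pool.Agent.H62.EL.Un

/-!
# EL JanA: periodicity and zeros of the integral

`II_per`: `IRel α ε (z + l) y y' v ↔ IRel α ε z y y' v` (so the two functions of `v` are equal and `II` is the same): use the same chart and `A` with `c - l` (resp. `c + l`) instead of `c`; `Mon` holds
because `l ∈ Λ`; `tc α χ (mo (c - l) ρ 1 0) p = tc α χ (mo c ρ 1 0) p` by `Per` (`mo c = mo (c - l) + l`; the point `χ.σ p` and its tangent vectors, see `Chart.tan`).

`II_zero`: let `IRel α ε l y y' v`, `v = (A p' - A p) / ρ`, `c + ρ p.1 = l = c + ρ p'.1`, so `p.1 = p'.1`.  For `q = (p.1, t)`, `|t| < 2`: `∂₂ A q = tc α χ _ q = α.toFun l (χ.σ q) ∂₁ ∂₂ = α.toFun 0 .. = 0`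
(`Per`, `VanZero`; `u (χ.σ q) ∈ Λ`).  So `A` is constant on this disc, `v = 0`.
-/

set_option autoImplicit false

open Topology Filter Metric

namespace Pool.Agent.H62.EL

open Pool.Agent.H36.BP (EN fs wd IsGermChart)
open Pool.Agent.H14.PP (IsCone Chart Tan CurveAt jac)
open Pool.Agent.H62.EF (Lat MN pr TorusMap Sec Charts DU)

variable {N : ℕ} {X : Set (EN N)} {Λ : AddSubgroup ℂ} {u : EN N → ℂ}

variable {Γ : AddSubgroup ℂ} {B : Set ℂ} {δ : ℝ}

private theorem JanA_tan (χ : Chart X) {p : ℂ × ℂ} (hp : p ∈ ball (0 : ℂ × ℂ) 2) (w : ℂ × ℂ) :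
    Tan X (χ.σ p) (fderiv ℂ χ.σ p w) := by
  have hl : AnalyticAt ℂ (fun z : ℂ => p + z • w) 0 := by fun_prop
  have h0 : p + (0 : ℂ) • w = p := by simp
  have hσ : AnalyticAt ℂ χ.σ (p + (0 : ℂ) • w) := by rw [h0]; exact χ.σ_an p hp
  have hF : AnalyticAt ℂ (fun z : ℂ => χ.σ (p + z • w)) 0 :=
    AnalyticAt.comp (g := χ.σ) (f := fun z : ℂ => p + z • w) hσ hl
  refine ⟨fun z => χ.σ (p + z • w), ⟨hF, ?_⟩, by simp, ?_⟩
  · have h6 : ∀ᶠ z : ℂ in 𝓝 0, p + z • w ∈ ball (0 : ℂ × ℂ) 2 := by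
      have h7 := hl.continuousAt
      apply h7.eventually_mem
      rw [h0]
      exact isOpen_ball.mem_nhds hp
    filter_upwards [h6] with z hz'
    exact (χ.σ_mem _ hz').1
  · have h1 : HasFDerivAt χ.σ (fderiv ℂ χ.σ p) (p + (0 : ℂ) • w) := by
      rw [h0]
      exact (χ.σ_an p hp).differentiableAt.hasFDerivAt
    have h2 : HasDerivAt (fun z : ℂ => p + z • w) w 0 := by
      have h3 : HasDerivAt (fun z : ℂ => z • w) ((1 : ℂ) • w) 0 :=
        (hasDerivAt_id (0 : ℂ)).smul_const w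
      rw [one_smul] at h3
      exact h3.const_add p
    exact (h1.comp_hasDerivAt (0 : ℂ) h2).deriv

private theorem JanA_shift {α : TForm X Λ u} (hle : Γ ≤ Λ) (hper : Per α Γ) {l : ℂ} (hl : l ∈ Γ) {ε : ℝ} {z : ℂ}
    {y y' : MN N} {v : ℂ} (h : IRel α ε z y y' v) : IRel α ε (z + l) y y' v := by
  obtain ⟨χ, c, ρ, A, p, p', hm, hA, hp, hp', h1, h2, h3, h4, h5, h6⟩ := h
  have hmo : ∀ q, mo (c + l) ρ 1 0 q = mo c ρ 1 0 q + l := by
    intro q
    unfold mo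
    ring
  refine ⟨χ, c + l, ρ, A, p, p', ⟨hm.pos, hm.ij, fun q hq => ?_⟩, ⟨hA.an, fun q hq => ?_, hA.zero⟩, hp, hp', ?_, ?_,
    h3, h4, h5, h6⟩
  · rw [hmo, show u (χ.σ q) - (mo c ρ 1 0 q + l) = (u (χ.σ q) - mo c ρ 1 0 q) - l by ring]
    exact Λ.sub_mem (hm.lift q hq) (hle hl)
  · rw [hA.der q hq]
    unfold tc
    rw [hmo]
    exact (hper _ l hl _ (χ.σ_mem q hq).1 (hm.lift q hq) _ _ (JanA_tan χ hq _) (JanA_tan χ hq _)).symm
  · rw [← h1]
    ring
  · rw [← h2]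
    ring

private theorem JanA_zero {α : TForm X Λ u} (hvan : VanZero α) {ε : ℝ} {y y' : MN N} {v : ℂ}
    (h : IRel α ε 0 y y' v) : v = 0 := by
  obtain ⟨χ, c, ρ, A, p, p', hm, hA, hp, hp', h1, h2, -, -, -, h6⟩ := h
  have hρ : (ρ : ℂ) ≠ 0 := by
    have := hm.pos
    exact_mod_cast this.ne'
  have hpp : p'.1 = p.1 := by
    have h7 : (ρ : ℂ) * p'.1 = ρ * p.1 := by linear_combination h2 - h1
    exact mul_left_cancel₀ hρ h7
  have hball : ∀ {q : ℂ × ℂ}, q ∈ ball (0 : ℂ × ℂ) 2 ↔ ‖q.1‖ < 2 ∧ ‖q.2‖ < 2 := by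
    intro q
    rw [mem_ball_zero_iff, Prod.norm_def, max_lt_iff]
  have hder : ∀ t ∈ ball (0 : ℂ) 2, HasDerivAt (fun t => A (p.1, t)) 0 t := by
    intro t ht
    have hq : (p.1, t) ∈ ball (0 : ℂ × ℂ) 2 := hball.2 ⟨(hball.1 hp).1, mem_ball_zero_iff.1 ht⟩
    have h7 : HasFDerivAt A (fderiv ℂ A (p.1, t)) (p.1, t) := (hA.an _ hq).differentiableAt.hasFDerivAt
    have h8 : HasDerivAt (fun t : ℂ => (p.1, t)) ((0, 1) : ℂ × ℂ) t :=
      (hasDerivAt_const t p.1).prodMk (hasDerivAt_id t)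
    have h9 := h7.comp_hasDerivAt t h8
    have h10 : fderiv ℂ A (p.1, t) (0, 1) = 0 := by
      rw [hA.der _ hq]
      have h11 : mo c ρ 1 0 (p.1, t) = 0 := by
        unfold mo
        rw [← h1]
        ring
      have h12 := hm.lift _ hq
      rw [h11, sub_zero] at h12
      unfold tc
      rw [h11]
      exact hvan _ (χ.σ_mem _ hq).1 h12 _ _ (JanA_tan χ hq _) (JanA_tan χ hq _)
    rw [h10] at h9
    exact h9
  have hconst : A (p.1, p'.2) = A (p.1, p.2) := by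
    refine isOpen_ball.is_const_of_deriv_eq_zero (s := ball (0 : ℂ) 2) (f := fun t => A (p.1, t))
      (convex_ball (0 : ℂ) 2).isPreconnected (fun t ht => (hder t ht).differentiableAt.differentiableWithinAt)
      (fun t ht => (hder t ht).deriv) (mem_ball_zero_iff.2 (hball.1 hp').2) (mem_ball_zero_iff.2 (hball.1 hp).2)
  have e1 : p' = (p.1, p'.2) := by rw [← hpp]
  rw [h6, e1, hconst]
  simp

theorem II_per (hu : TorusMap X Λ u) {α : TForm X Λ u} (hle : Γ ≤ Λ) (hper : Per α Γ) {l : ℂ} (hl : l ∈ Γ) (ε : ℝ) (z : ℂ)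
    (y y' : MN N) : II α ε (z + l) y y' = II α ε z y y' := by
  have key : IRel α ε (z + l) y y' = IRel α ε z y y' := by
    funext v
    refine propext ⟨fun h => ?_, fun h => JanA_shift hle hper hl h⟩
    have h1 := JanA_shift hle hper (Γ.neg_mem hl) h
    rwa [add_neg_cancel_right] at h1
  unfold II
  rw [key]

theorem II_zero (hu : TorusMap X Λ u) {α : TForm X Λ u} (hle : Γ ≤ Λ) (hper : Per α Γ) (hvan : VanZero α) {l : ℂ} (hl : l ∈ Γ)
    (ε : ℝ) (y y' : MN N) : II α ε l y y' = 0 := by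
  have h1 := II_per hu hle hper hl ε 0 y y'
  rw [zero_add] at h1
  rw [h1]
  unfold II
  split_ifs with h
  · exact JanA_zero hvan h.choose_spec
  · rfl

end Pool.Agent.H62.EL
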