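import Pool.Agent.H62.EL.Cp
import Pool.Agent.H62.EL.JanA

/-!
# EL Jan: properties of the integral

`II_analytic`: lifts `Ψ`, `Φ` of `f`, `g` near `z₀` (`sb_lift`); for `z` near `z₀`: `z ∈ closedBall z₀ r`, `dist (f z) (f z₀) + ε ≤ r` (continuity of `f` at `z₀`, from the lift), so `II_eq` (`A` from
`exists_prim`): `II = (A (χ.q (Φ z)) - A (χ.q (Ψ z))) / ρ`; `Ψ z₀, Φ z₀ ∈ χ.U` and `χ.q _ ∈ closedBall 0 1` (`Cap`; `dist (g z₀) (f z₀) ≤ ε` by `IRel` with `θ = 1`).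

`II_bdd`: suppose not: `f_n, g_n ∈ Sb`, `z_n ∈ Gd B δ'`, `‖II α ε z_n (f_n z_n) (g_n z_n)‖ > n`.  Translate by `Γ` (`II_per`, `sb_trans`, `gd_add`): `z_n` bounded; along an ultrafilter `z_n → z ∈ Gd B δ'`,
`f_n → f`, `f_n z_n → f z` (`sb_exists_lim`, `sb_along`).  `Cap χ c ρ z (f z) r`.  For large `n`: `II ≠ 0`, so there is `v` with `IRel`; `z_n ∈ closedBall z r`, `dist (f_n z_n) (f z) + ε ≤ r`: `II_eq`:
`‖II‖ ≤ 2 M / ρ`, `M` the maximum of `‖A‖` on `closedBall 0 1` (`Cap.cap`): contradiction.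

`II_lim`: `II_eq` for `(F n z, G n z)` and `(f z, g z)`: the lifts in `X` (`sb_lift` at `z`, or `sb_mem`) of `F n z` converge, suitably rescaled, to a lift of `f z` (`near_of_pr`), so `χ.q _` converges
(`q_smul`); `A` is continuous.
-/

set_option autoImplicit false

open Topology Filter Metric

namespace Pool.Agent.H62.EL

open Pool.Agent.H36.BP (EN fs wd IsGermChart)
open Pool.Agent.H14.PP (IsCone Chart Tan CurveAt jac)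
open Pool.Agent.H62.EF (Lat MN pr TorusMap Sec Charts DU)

variable {N : ℕ} {X : Set (EN N)} {Λ : AddSubgroup ℂ} {u : EN N → ℂ}

variable {Γ : AddSubgroup ℂ} {B : Set ℂ} {δ : ℝ}

private theorem ne_zero_of_mem (hX : IsCone X) {x : EN N} (hx : x ∈ X) : x ≠ 0 := fun h => hX.zero_notMem (h ▸ hx)

private theorem IRel.eps {α : TForm X Λ u} {ε : ℝ} {z v : ℂ} {y y' : MN N} (h : IRel α ε z y y' v) : 0 ≤ ε ∧ dist y' y ≤ ε := by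
  obtain ⟨χ, c, ρ, A, p, p', -, -, -, -, -, -, hy, hy', hθ, -⟩ := h
  constructor
  · exact dist_nonneg.trans (hθ 0 ⟨le_refl _, zero_le_one⟩)
  · have h1 := hθ 1 ⟨zero_le_one, le_refl _⟩
    have h2 : p + ((1 : ℝ) : ℂ) • (p' - p) = p' := by
      rw [Complex.ofReal_one, one_smul]
      abel
    rw [h2, hy'] at h1
    exact h1

private theorem tendsto_q (χ : Chart X) {x : EN N} (hx : x ∈ χ.U) (hx0 : x ≠ 0) {ι : Type} {l : Filter ι} {y : ι → EN N}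
    (hy : ∀ᶠ n in l, y n ≠ 0) (h : Tendsto (fun n => pr (y n)) l (𝓝 (pr x))) :
    Tendsto (fun n => χ.q (y n)) l (𝓝 (χ.q x)) := by
  intro V hV
  have hU : χ.U ∩ χ.q ⁻¹' V ∈ 𝓝 x := inter_mem (χ.isOpen_U.mem_nhds hx) ((χ.q_an x hx).continuousAt hV)
  obtain ⟨δ, hδ, hn⟩ := Pool.Agent.H62.EF.near_of_pr hx0 hU
  have h1 : ∀ᶠ n in l, dist (pr (y n)) (pr x) < δ := h.eventually (ball_mem_nhds _ hδ)
  rw [mem_map]
  filter_upwards [hy, h1] with n h2 h3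
  obtain ⟨c, hc, h4, h5⟩ := hn (y n) h2 h3
  have h6 : y n ∈ χ.U := by
    have := χ.smul_U _ h4 c⁻¹ (inv_ne_zero hc)
    rwa [smul_smul, inv_mul_cancel₀ hc, one_smul] at this
  have h7 : χ.q (c • y n) ∈ V := h5
  rw [χ.q_smul _ h6 c hc] at h7
  exact h7

private theorem lift_at (E : EData X Λ u Γ B δ) {f : ℂ → MN N} (hf : f ∈ Sb X Λ u B) {z : ℂ} (hz : z ∉ B) :
    ∃ x ∈ X, u x - z ∈ Λ ∧ pr x = f z := by
  obtain ⟨r, Ψ, hr, -, h⟩ := sb_lift E hf hz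
  obtain ⟨h1, h2, h3⟩ := h z (mem_ball_self hr)
  exact ⟨Ψ z, h1, h2, h3⟩

private theorem closed_sub : closedBall (0 : ℂ × ℂ) 1 ⊆ ball (0 : ℂ × ℂ) 2 := closedBall_subset_ball (by norm_num)

theorem II_analytic (E : EData X Λ u Γ B δ) {α : TForm X Λ u} {ε r : ℝ} {f g : ℂ → MN N} (hf : f ∈ Sb X Λ u B)
    (hg : g ∈ Sb X Λ u B) {z₀ : ℂ} (hz₀ : z₀ ∉ B) {χ : Chart X} {c : ℂ} {ρ : ℝ} (hc : Cap Λ u χ c ρ z₀ (f z₀) r) (hr : ε < r)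
    (hrel : ∀ᶠ z in 𝓝 z₀, ∃ v, IRel α ε z (f z) (g z) v) : AnalyticAt ℂ (fun z => II α ε z (f z) (g z)) z₀ := by
  obtain ⟨r₁, Ψ, hr₁, hΨ, hΨ'⟩ := sb_lift E hf hz₀
  obtain ⟨r₂, Φ, hr₂, hΦ, hΦ'⟩ := sb_lift E hg hz₀
  obtain ⟨A, hA⟩ := exists_prim α χ hc.mon
  obtain ⟨v₀, hv₀⟩ := hrel.self_of_nhds
  obtain ⟨hε, hfg⟩ := hv₀.eps
  have hr0 : 0 < r := lt_of_le_of_lt hε hr
  obtain ⟨hΨX, hΨu, hΨf⟩ := hΨ' z₀ (mem_ball_self hr₁)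
  obtain ⟨hΦX, hΦu, hΦg⟩ := hΦ' z₀ (mem_ball_self hr₂)
  have hz₀r : z₀ ∈ closedBall z₀ r := mem_closedBall_self hr0.le
  obtain ⟨hΨU, hΨq, -⟩ := hc.cap z₀ hz₀r (Ψ z₀) hΨX hΨu (by rw [hΨf, dist_self]; exact hr0.le)
  obtain ⟨hΦU, hΦq, -⟩ := hc.cap z₀ hz₀r (Φ z₀) hΦX hΦu (by rw [hΦg]; exact hfg.trans hr.le)
  have hΨa : AnalyticAt ℂ Ψ z₀ := hΨ.analyticAt (ball_mem_nhds _ hr₁)
  have hΦa : AnalyticAt ℂ Φ z₀ := hΦ.analyticAt (ball_mem_nhds _ hr₂)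
  have a1 : AnalyticAt ℂ (fun z => A (χ.q (Ψ z))) z₀ :=
    AnalyticAt.comp (f := fun z => χ.q (Ψ z)) (g := A) (hA.an _ (closed_sub hΨq))
      (AnalyticAt.comp (f := Ψ) (g := χ.q) (χ.q_an _ hΨU) hΨa)
  have a2 : AnalyticAt ℂ (fun z => A (χ.q (Φ z))) z₀ :=
    AnalyticAt.comp (f := fun z => χ.q (Φ z)) (g := A) (hA.an _ (closed_sub hΦq))
      (AnalyticAt.comp (f := Φ) (g := χ.q) (χ.q_an _ hΦU) hΦa)
  have hρ : (ρ : ℂ) ≠ 0 := by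
    have := hc.mon.pos
    exact_mod_cast this.ne'
  have a3 : AnalyticAt ℂ (fun z => (A (χ.q (Φ z)) - A (χ.q (Ψ z))) / (ρ : ℂ)) z₀ := (a2.sub a1).div analyticAt_const hρ
  refine a3.congr ?_
  have e1 : ∀ᶠ z in 𝓝 z₀, z ∈ ball z₀ r₁ := ball_mem_nhds _ hr₁
  have e2 : ∀ᶠ z in 𝓝 z₀, z ∈ ball z₀ r₂ := ball_mem_nhds _ hr₂
  have e3 : ∀ᶠ z in 𝓝 z₀, z ∈ closedBall z₀ r := closedBall_mem_nhds _ hr0
  have e4 : ∀ᶠ z in 𝓝 z₀, dist (pr (Ψ z)) (pr (Ψ z₀)) < r - ε := by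
    have h1 : ContinuousAt (fun z => pr (Ψ z)) z₀ := ContinuousAt.comp (f := Ψ) (g := pr)
      (Pool.Agent.H62.EF.continuousAt_pr (ne_zero_of_mem E.cone hΨX)) hΨa.continuousAt
    exact h1.eventually (ball_mem_nhds _ (by linarith))
  filter_upwards [e1, e2, e3, e4, hrel] with z h1 h2 h3 h4 h5
  obtain ⟨k1, -, k3⟩ := hΨ' z h1
  obtain ⟨m1, -, m3⟩ := hΦ' z h2
  have h6 : dist (f z) (f z₀) + ε ≤ r := by
    rw [k3, hΨf] at h4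
    linarith
  exact (II_eq E.cone E.tor E.lat h5 hc hA h3 h6 k1 m1 k3 m3).symm

theorem II_bdd (E : EData X Λ u Γ B δ) {α : TForm X Λ u} (hper : Per α Γ) {δ' ε r : ℝ} (hδ' : 0 < δ') (hr : ε < r)
    (hcap : ∀ z₀ ∈ Gd B δ', ∀ f ∈ Sb X Λ u B, ∃ (χ : Chart X) (c : ℂ) (ρ : ℝ), Cap Λ u χ c ρ z₀ (f z₀) r) :
    ∃ C : ℝ, 0 ≤ C ∧ ∀ f ∈ Sb X Λ u B, ∀ g ∈ Sb X Λ u B, ∀ z ∈ Gd B δ', ‖II α ε z (f z) (g z)‖ ≤ C := by
  by_contra hcon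
  push Not at hcon
  obtain ⟨R, hR, hcov⟩ := E.latΓ.cocompact
  have hseq : ∀ n : ℕ, ∃ (f g : ℂ → MN N) (z : ℂ), f ∈ Sb X Λ u B ∧ g ∈ Sb X Λ u B ∧ z ∈ Gd B δ' ∧ ‖z‖ ≤ R ∧
      (n : ℝ) < ‖II α ε z (f z) (g z)‖ := by
    intro n
    obtain ⟨f, hf, g, hg, z, hz, hn⟩ := hcon n (Nat.cast_nonneg n)
    obtain ⟨l, hl, hzl⟩ := hcov z
    have hlΛ : l ∈ Λ := E.le hl
    refine ⟨fun w => f (w + l), fun w => g (w + l), z - l, sb_trans E hf hlΛ, sb_trans E hg hlΛ, ?_, hzl, ?_⟩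
    · rw [← E.bad.gd_add δ' hlΛ, sub_add_cancel]
      exact hz
    · have h1 := II_per E.tor E.le hper hl ε (z - l) (f z) (g z)
      rw [sub_add_cancel] at h1
      simp only [sub_add_cancel]
      rw [← h1]
      exact hn
  choose f g z hf hg hz hzR hn using hseq
  have hex : ∀ n, ∃ v, IRel α ε (z n) (f n (z n)) (g n (z n)) v := by
    intro n
    by_contra hno
    have h1 : II α ε (z n) (f n (z n)) (g n (z n)) = 0 := by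
      unfold II
      rw [dif_neg hno]
    have h2 := hn n
    rw [h1, norm_zero] at h2
    exact absurd h2 (not_lt.2 (Nat.cast_nonneg n))
  have hε : 0 ≤ ε := by
    obtain ⟨v, hv⟩ := hex 0
    exact hv.eps.1
  have hr0 : 0 < r := lt_of_le_of_lt hε hr
  set 𝒰 : Ultrafilter ℕ := hyperfilter ℕ with h𝒰
  obtain ⟨z₀, -, hz₀⟩ := (isCompact_closedBall (0 : ℂ) R).ultrafilter_le_nhds (𝒰.map z) (by
    rw [Ultrafilter.coe_map, le_principal_iff, mem_map]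
    refine univ_mem' fun n => ?_
    simpa using hzR n)
  have hzt : Tendsto z 𝒰 (𝓝 z₀) := hz₀
  have hz₀G : z₀ ∈ Gd B δ' := (isClosed_gd δ').mem_of_tendsto hzt (Eventually.of_forall hz)
  have hz₀B : z₀ ∉ B := gd_notMem hδ' hz₀G
  obtain ⟨f₀, hf₀, hf₀t⟩ := sb_exists_lim E 𝒰 f (Eventually.of_forall hf)
  have hft := sb_along E 𝒰 f (Eventually.of_forall hf) hf₀t hz₀B hzt
  obtain ⟨χ, c, ρ, hc⟩ := hcap z₀ hz₀G f₀ hf₀
  obtain ⟨A, hA⟩ := exists_prim α χ hc.mon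
  have hAc : ContinuousOn A (closedBall (0 : ℂ × ℂ) 1) := fun p hp => (hA.an p (closed_sub hp)).continuousAt.continuousWithinAt
  obtain ⟨M, hM⟩ := (isCompact_closedBall (0 : ℂ × ℂ) 1).exists_bound_of_continuousOn hAc
  have e1 : ∀ᶠ n in (𝒰 : Filter ℕ), z n ∈ closedBall z₀ r := hzt.eventually (closedBall_mem_nhds _ hr0)
  have e2 : ∀ᶠ n in (𝒰 : Filter ℕ), dist (f n (z n)) (f₀ z₀) < r - ε := hft.eventually (ball_mem_nhds _ (by linarith))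
  have e3 : ∀ᶠ n : ℕ in (𝒰 : Filter ℕ), 2 * M / ρ ≤ (n : ℝ) := by
    have h1 : ∀ᶠ n : ℕ in atTop, 2 * M / ρ ≤ (n : ℝ) := tendsto_natCast_atTop_atTop.eventually_ge_atTop _
    exact Nat.hyperfilter_le_atTop h1
  obtain ⟨n, h1, h2, h3⟩ := (e1.and (e2.and e3)).exists
  have hznB : z n ∉ B := gd_notMem hδ' (hz n)
  obtain ⟨x, hxX, hxu, hxf⟩ := lift_at E (hf n) hznB
  obtain ⟨x', hxX', hxu', hxg⟩ := lift_at E (hg n) hznB
  obtain ⟨v, hv⟩ := hex n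
  obtain ⟨-, hq, -⟩ := hc.cap (z n) h1 x hxX hxu (by rw [hxf]; linarith)
  obtain ⟨-, hq', -⟩ := hc.cap (z n) h1 x' hxX' hxu' (by
    rw [hxg]
    have := dist_triangle (g n (z n)) (f n (z n)) (f₀ z₀)
    linarith [hv.eps.2])
  have hII := II_eq E.cone E.tor E.lat ⟨v, hv⟩ hc hA h1 (by linarith) hxX hxX' hxf hxg
  have hρ := hc.mon.pos
  have h4 := hn n
  rw [hII, norm_div, Complex.norm_real, Real.norm_of_nonneg hρ.le] at h4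
  have h5 : ‖A (χ.q x') - A (χ.q x)‖ ≤ 2 * M := by
    have h6 := norm_sub_le (A (χ.q x')) (A (χ.q x))
    have h7 := hM _ hq
    have h8 := hM _ hq'
    linarith
  have h9 : ‖A (χ.q x') - A (χ.q x)‖ / ρ ≤ 2 * M / ρ := div_le_div_of_nonneg_right h5 hρ.le
  linarith

theorem II_lim (E : EData X Λ u Γ B δ) {α : TForm X Λ u} {ε r : ℝ} (𝒰 : Ultrafilter ℕ) (F G : ℕ → ℂ → MN N) {f g : ℂ → MN N}
    (hF : ∀ᶠ n in (𝒰 : Filter ℕ), F n ∈ Sb X Λ u B ∧ G n ∈ Sb X Λ u B) (hf : f ∈ Sb X Λ u B) (hg : g ∈ Sb X Λ u B) {z : ℂ} (hz : z ∉ B)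
    (hFf : Tendsto (fun n => F n z) 𝒰 (𝓝 (f z))) (hGg : Tendsto (fun n => G n z) 𝒰 (𝓝 (g z)))
    {χ : Chart X} {c : ℂ} {ρ : ℝ} (hc : Cap Λ u χ c ρ z (f z) r) (hr : ε < r)
    (hrel : ∀ᶠ n in (𝒰 : Filter ℕ), ∃ v, IRel α ε z (F n z) (G n z) v) (hrel' : ∃ v, IRel α ε z (f z) (g z) v) :
    Tendsto (fun n => II α ε z (F n z) (G n z)) 𝒰 (𝓝 (II α ε z (f z) (g z))) := by
  obtain ⟨A, hA⟩ := exists_prim α χ hc.mon
  obtain ⟨v₀, hv₀⟩ := hrel'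
  obtain ⟨hε, hfg⟩ := hv₀.eps
  have hr0 : 0 < r := lt_of_le_of_lt hε hr
  have hzr : z ∈ closedBall z r := mem_closedBall_self hr0.le
  obtain ⟨x, hxX, hxu, hxf⟩ := lift_at E hf hz
  obtain ⟨x', hxX', hxu', hxg⟩ := lift_at E hg hz
  obtain ⟨hU, hq, -⟩ := hc.cap z hzr x hxX hxu (by rw [hxf, dist_self]; exact hr0.le)
  obtain ⟨hU', hq', -⟩ := hc.cap z hzr x' hxX' hxu' (by rw [hxg]; exact hfg.trans hr.le)
  have hch : ∀ n, ∃ y : EN N, F n ∈ Sb X Λ u B → y ∈ X ∧ pr y = F n z := by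
    intro n
    by_cases h : F n ∈ Sb X Λ u B
    · obtain ⟨y, h1, -, h3⟩ := lift_at E h hz
      exact ⟨y, fun _ => ⟨h1, h3⟩⟩
    · exact ⟨0, fun h' => absurd h' h⟩
  have hch' : ∀ n, ∃ y : EN N, G n ∈ Sb X Λ u B → y ∈ X ∧ pr y = G n z := by
    intro n
    by_cases h : G n ∈ Sb X Λ u B
    · obtain ⟨y, h1, -, h3⟩ := lift_at E h hz
      exact ⟨y, fun _ => ⟨h1, h3⟩⟩
    · exact ⟨0, fun h' => absurd h' h⟩
  choose y hy using hch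
  choose y' hy' using hch'
  have t1 : Tendsto (fun n => χ.q (y n)) (𝒰 : Filter ℕ) (𝓝 (χ.q x)) := by
    refine tendsto_q χ hU (ne_zero_of_mem E.cone hxX) (hF.mono fun n h => ne_zero_of_mem E.cone (hy n h.1).1) ?_
    rw [hxf]
    exact hFf.congr' (hF.mono fun n h => (hy n h.1).2.symm)
  have t2 : Tendsto (fun n => χ.q (y' n)) (𝒰 : Filter ℕ) (𝓝 (χ.q x')) := by
    refine tendsto_q χ hU' (ne_zero_of_mem E.cone hxX') (hF.mono fun n h => ne_zero_of_mem E.cone (hy' n h.2).1) ?_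
    rw [hxg]
    exact hGg.congr' (hF.mono fun n h => (hy' n h.2).2.symm)
  have t3 : Tendsto (fun n => A (χ.q (y n))) (𝒰 : Filter ℕ) (𝓝 (A (χ.q x))) := (hA.an _ (closed_sub hq)).continuousAt.tendsto.comp t1
  have t4 : Tendsto (fun n => A (χ.q (y' n))) (𝒰 : Filter ℕ) (𝓝 (A (χ.q x'))) := (hA.an _ (closed_sub hq')).continuousAt.tendsto.comp t2
  have hII := II_eq E.cone E.tor E.lat ⟨v₀, hv₀⟩ hc hA hzr (by rw [dist_self]; linarith) hxX hxX' hxf hxg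
  rw [hII]
  refine Tendsto.congr' ?_ ((t4.sub t3).div_const (ρ : ℂ))
  have e2 : ∀ᶠ n in (𝒰 : Filter ℕ), dist (F n z) (f z) < r - ε := hFf.eventually (ball_mem_nhds _ (by linarith))
  filter_upwards [hF, e2, hrel] with n h1 h2 h3
  exact (II_eq E.cone E.tor E.lat h3 hc hA hzr (by linarith) (hy n h1.1).1 (hy' n h1.2).1 (hy n h1.1).2 (hy' n h1.2).2).symm

end Pool.Agent.H62.EL
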