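import Pool.Agent.H62.EL.SbA

/-!
# EL SbB: the limits of the sections are holomorphic

`sb_lift`: let `z₀ ∉ B`, `z₀ ∈ Gd B (2δ')` for a `δ' > 0` (`BadSet.exists_gd`); `f` is a limit of a sequence `pr ∘ F n`, `F n ∈ Sec`, uniformly on `Gd B δ' ∩ closedBall 0 (‖z₀‖ + δ')`
(definition of `Sb` with `ε = 1/(n+1)`).  With the bound `L` of `sec_bound` for `δ'` and `r ≤ min (δ') (1 / (8 L))` the local part (a) of the proof of
`limit_curves` (EF LimL; copy it: normalisation by `⟨e n, ·⟩`, `montel_ultrafilter`) on `ball z₀ r` gives `φ n = c n • F n → Ψ` locally uniformly, `Ψ` holomorphic without zeros, in `X`,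
`pr (F n z) → pr (Ψ z)`, so `pr (Ψ z) = f z`; `u (F n z) - z ∈ Λ`, so `u (Ψ z) - z ∈ Λ` (`TorusMap.unif`, `Lat.mem_of_close`, as in `sec_lim`).
`sb_uniq`: `f, g ∈ Sb`, frequently `f z = g z` in `𝓝[≠] z₀`, `z₀ ∉ B`.  Local lifts `Ψ, Φ` at a point: the minors `Ψ_i Φ_j - Ψ_j Φ_i` are holomorphic; if they vanish frequently
in `𝓝[≠]` they vanish near the point.  So the set `{z ∉ B : f = g near z}` contains `z₀`, is open and closed in `Bᶜ`; `Bᶜ` is open and connected: `B` is countable (`8δ`-separated) so `Bᶜ` is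
path connected (`Set.Countable.isPathConnected_compl_of_one_lt_rank`), in particular preconnected.
-/

set_option autoImplicit false

open Topology Filter Metric

namespace Pool.Agent.H62.EL

open Pool.Agent.H36.BP (EN fs wd IsGermChart)
open Pool.Agent.H14.PP (IsCone Chart Tan CurveAt jac)
open Pool.Agent.H62.EF (Lat MN pr TorusMap Sec Charts DU)
open Pool.Agent.H62.EF (pr_lipschitz norm_inner_sq continuousAt_pr pr_smul pr_eq_iff)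

variable {N : ℕ} {X : Set (EN N)} {Λ : AddSubgroup ℂ} {u : EN N → ℂ}

variable {Γ : AddSubgroup ℂ} {B : Set ℂ} {δ : ℝ}

private theorem SbB_ne_zero (hX : IsCone X) {x : EN N} (hx : x ∈ X) : x ≠ 0 := by
  rintro rfl
  exact hX.zero_notMem hx

private theorem SbB_local (hX : IsCone X) {L : ℝ} (hL : 0 < L) (𝒰 : Ultrafilter ℕ) (F : ℕ → ℂ → EN N) {z₀ : ℂ} {r₀ : ℝ}
    (hr₀ : 0 < r₀) (hF : ∀ᶠ n in (𝒰 : Filter ℕ), DifferentiableOn ℂ (F n) (ball z₀ r₀) ∧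
      ∀ z ∈ ball z₀ r₀, F n z ∈ X ∧ fs (F n z) (deriv (F n) z) ≤ L) :
    ∃ (r : ℝ) (φ : ℕ → ℂ → EN N) (ψ : ℂ → EN N), 0 < r ∧ r ≤ r₀ ∧
        (∀ᶠ n in (𝒰 : Filter ℕ), ∀ z ∈ ball z₀ r, F n z ∈ X ∧ ∃ c : ℂ, c ≠ 0 ∧ φ n z = c • F n z) ∧
        DifferentiableOn ℂ ψ (ball z₀ r) ∧ (∀ z ∈ ball z₀ r, ψ z ∈ X) ∧
        TendstoLocallyUniformlyOn φ ψ 𝒰 (ball z₀ r) := by
  set r : ℝ := min r₀ (1 / (8 * L)) with hr
  have hr0 : 0 < r := lt_min hr₀ (by positivity)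
  have hrr : r ≤ r₀ := min_le_left _ _
  have hrL : r ≤ 1 / (8 * L) := min_le_right _ _
  have hz₀ : z₀ ∈ ball z₀ r := mem_ball_self hr0
  have hev : ∀ᶠ n in (𝒰 : Filter ℕ), DifferentiableOn ℂ (F n) (ball z₀ r) ∧
      ∀ z ∈ ball z₀ r, F n z ∈ X ∧ ‖F n z₀‖ * ‖F n z‖ ≤ 2 * ‖inner ℂ (F n z₀) (F n z)‖ := by
    filter_upwards [hF] with n h1
    obtain ⟨h1, h3⟩ := h1
    have hsub : ball z₀ r ⊆ ball z₀ r₀ := ball_subset_ball hrr
    refine ⟨h1.mono hsub, fun z hz => ⟨(h3 z (hsub hz)).1, ?_⟩⟩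
    have hx0 : F n z₀ ≠ 0 := SbB_ne_zero hX (h3 z₀ (hsub hz₀)).1
    have hy0 : F n z ≠ 0 := SbB_ne_zero hX (h3 z (hsub hz)).1
    have hlip := pr_lipschitz isOpen_ball (convex_ball z₀ r) (h1.mono hsub)
      (fun w hw => SbB_ne_zero hX (h3 w (hsub hw)).1) (fun w hw => (h3 w (hsub hw)).2) z₀ hz₀ z hz
    have h4 : ‖z₀ - z‖ ≤ r := by
      rw [← dist_eq_norm, dist_comm]
      exact (mem_ball.mp hz).le
    have h5 : dist (pr (F n z₀)) (pr (F n z)) ≤ 1 / 4 := by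
      calc dist (pr (F n z₀)) (pr (F n z)) ≤ 2 * L * ‖z₀ - z‖ := hlip
        _ ≤ 2 * L * (1 / (8 * L)) := by gcongr; exact h4.trans hrL
        _ = 1 / 4 := by field_simp; norm_num
    have h6 := norm_inner_sq hx0 hy0
    have h7 : dist (pr (F n z₀)) (pr (F n z)) ^ 2 ≤ 1 := by
      have := dist_nonneg (x := pr (F n z₀)) (y := pr (F n z))
      nlinarith
    have h8 : (‖F n z₀‖ * ‖F n z‖) ^ 2 ≤ (2 * ‖inner ℂ (F n z₀) (F n z)‖) ^ 2 := by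
      rw [mul_pow, mul_pow, h6]
      have h9 : 0 ≤ ‖F n z₀‖ ^ 2 * ‖F n z‖ ^ 2 := by positivity
      nlinarith
    exact abs_le_of_sq_le_sq' h8 (by positivity) |>.2
  set φ : ℕ → ℂ → EN N := fun n z => (((‖F n z₀‖ : ℝ) : ℂ) / inner ℂ (F n z₀) (F n z)) • F n z with hφ
  have hev2 : ∀ᶠ n in (𝒰 : Filter ℕ), DifferentiableOn ℂ (F n) (ball z₀ r) ∧ DifferentiableOn ℂ (φ n) (ball z₀ r) ∧
      ∀ z ∈ ball z₀ r, F n z ∈ X ∧ (∃ c : ℂ, c ≠ 0 ∧ φ n z = c • F n z) ∧ ‖φ n z‖ ≤ 2 ∧ 1 ≤ ‖φ n z‖ := by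
    filter_upwards [hev] with n h1
    obtain ⟨h1, h2⟩ := h1
    have hx0 : F n z₀ ≠ 0 := SbB_ne_zero hX (h2 z₀ hz₀).1
    have hxn : 0 < ‖F n z₀‖ := norm_pos_iff.mpr hx0
    have hin : ∀ z ∈ ball z₀ r, (inner ℂ (F n z₀) (F n z) : ℂ) ≠ 0 := by
      intro z hz h
      have h3 := (h2 z hz).2
      have hyn : 0 < ‖F n z‖ := norm_pos_iff.mpr (SbB_ne_zero hX (h2 z hz).1)
      rw [h, norm_zero, mul_zero] at h3
      have : 0 < ‖F n z₀‖ * ‖F n z‖ := mul_pos hxn hyn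
      linarith
    refine ⟨h1, ?_, fun z hz => ⟨(h2 z hz).1, ⟨_, ?_, rfl⟩, ?_, ?_⟩⟩
    · have h3 : DifferentiableOn ℂ (fun z => (inner ℂ (F n z₀) (F n z) : ℂ)) (ball z₀ r) :=
        (innerSL ℂ (F n z₀)).differentiable.comp_differentiableOn h1
      have h4 : DifferentiableOn ℂ (fun z => ((‖F n z₀‖ : ℝ) : ℂ) / (inner ℂ (F n z₀) (F n z) : ℂ)) (ball z₀ r) :=
        (differentiableOn_const _).div h3 hin
      exact h4.smul h1
    · exact div_ne_zero (Complex.ofReal_ne_zero.mpr hxn.ne') (hin z hz)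
    · have h3 := (h2 z hz).2
      have h4 : 0 < ‖(inner ℂ (F n z₀) (F n z) : ℂ)‖ := norm_pos_iff.mpr (hin z hz)
      simp only [hφ]
      rw [norm_smul, norm_div, Complex.norm_real, norm_norm, div_mul_eq_mul_div, div_le_iff₀ h4]
      exact h3
    · have h4 : 0 < ‖(inner ℂ (F n z₀) (F n z) : ℂ)‖ := norm_pos_iff.mpr (hin z hz)
      simp only [hφ]
      rw [norm_smul, norm_div, Complex.norm_real, norm_norm, div_mul_eq_mul_div, le_div_iff₀ h4, one_mul]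
      exact norm_inner_le_norm _ _
  obtain ⟨ψ, hψ, hconv⟩ := Pool.Agent.H17.montel_ultrafilter 𝒰 (F := φ) (a := z₀) (r := r) (B := 2)
    (hev2.mono fun n h => h.2.1) (hev2.mono fun n h z hz => ((h.2.2 z hz).2.2.1))
  refine ⟨r, φ, ψ, hr0, hrr, hev2.mono fun n h z hz => ⟨(h.2.2 z hz).1, (h.2.2 z hz).2.1⟩, hψ, ?_, hconv⟩
  intro z hz
  have h1 : Tendsto (fun n => φ n z) 𝒰 (𝓝 (ψ z)) := hconv.tendsto_at hz
  have h2 : ψ z ∈ insert 0 X := by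
    refine hX.closed.mem_of_tendsto h1 ?_
    filter_upwards [hev2] with n h
    obtain ⟨h3, ⟨c, hc, h4⟩, -⟩ := h.2.2 z hz
    rw [h4]
    exact Or.inr (hX.smul_mem _ h3 c hc)
  have h3 : 1 ≤ ‖ψ z‖ := by
    refine ge_of_tendsto h1.norm ?_
    filter_upwards [hev2] with n h
    exact (h.2.2 z hz).2.2.2
  rcases h2 with h2 | h2
  · rw [h2, norm_zero] at h3
    linarith
  · exact h2

theorem sb_lift (E : EData X Λ u Γ B δ) {f : ℂ → MN N} (hf : f ∈ Sb X Λ u B) {z₀ : ℂ} (hz₀ : z₀ ∉ B) :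
    ∃ (r : ℝ) (Ψ : ℂ → EN N), 0 < r ∧ DifferentiableOn ℂ Ψ (ball z₀ r) ∧
      ∀ z ∈ ball z₀ r, Ψ z ∈ X ∧ u (Ψ z) - z ∈ Λ ∧ pr (Ψ z) = f z := by
  obtain ⟨δ₂, hδ₂, hzg⟩ := E.bad.exists_gd hz₀
  set δ' : ℝ := δ₂ / 2 with hδ'
  have hδ'0 : 0 < δ' := half_pos hδ₂
  have hsub : ∀ z ∈ ball z₀ δ', z ∈ Gd B δ' := by
    intro z hz b hb
    have h1 := hzg b hb
    have h2 : ‖z - z₀‖ < δ' := by
      rw [← dist_eq_norm]
      exact mem_ball.1 hz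
    have h3 : ‖z₀ - b‖ ≤ ‖z - z₀‖ + ‖z - b‖ := by
      have h4 : z₀ - b = -(z - z₀) + (z - b) := by ring
      rw [h4]
      refine (norm_add_le _ _).trans ?_
      rw [norm_neg]
    linarith
  obtain ⟨L, hL0, hL⟩ := sec_bound E hδ'0
  have hch : ∀ n : ℕ, ∃ F ∈ Sec X Λ u, ∀ z ∈ Gd B δ', ‖z‖ ≤ ‖z₀‖ + δ' → dist (pr (F z)) (f z) < 1 / ((n : ℝ) + 1) := fun n =>
    hf δ' hδ'0 (‖z₀‖ + δ') (1 / ((n : ℝ) + 1)) (by positivity)
  choose F hF hFd using hch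
  set 𝒰 : Ultrafilter ℕ := hyperfilter ℕ with h𝒰
  have h𝒰t : (𝒰 : Filter ℕ) ≤ atTop := Nat.hyperfilter_le_atTop
  obtain ⟨r, φ, ψ, hr, hrr, hev, hψd, hψX, hconv⟩ := SbB_local E.cone hL0 𝒰 F (z₀ := z₀) hδ'0
    (Filter.Eventually.of_forall fun n => ⟨(hF n).1.differentiableOn, fun z hz => ⟨(hF n).2.1 z, hL _ (hF n) z (hsub z hz)⟩⟩)
  have hball : ball z₀ r ⊆ ball z₀ δ' := ball_subset_ball hrr
  have hlimf : ∀ z ∈ ball z₀ r, Tendsto (fun n => pr (F n z)) 𝒰 (𝓝 (f z)) := by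
    intro z hz
    have h1 : Tendsto (fun n : ℕ => 1 / ((n : ℝ) + 1)) 𝒰 (𝓝 0) := tendsto_one_div_add_atTop_nhds_zero_nat.mono_left h𝒰t
    rw [tendsto_iff_dist_tendsto_zero]
    refine squeeze_zero (fun n => dist_nonneg) (fun n => (hFd n z (hsub z (hball hz)) ?_).le) h1
    have h2 : ‖z - z₀‖ < δ' := by
      rw [← dist_eq_norm]
      exact mem_ball.1 (hball hz)
    have h3 : ‖z‖ ≤ ‖z₀‖ + ‖z - z₀‖ := by
      have h4 : z = z₀ + (z - z₀) := by ring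
      conv_lhs => rw [h4]
      exact norm_add_le _ _
    linarith
  have hlimψ : ∀ z ∈ ball z₀ r, Tendsto (fun n => pr (F n z)) 𝒰 (𝓝 (pr (ψ z))) := by
    intro z hz
    have h1 : Tendsto (fun n => φ n z) 𝒰 (𝓝 (ψ z)) := hconv.tendsto_at hz
    have h2 : Tendsto (fun n => pr (φ n z)) 𝒰 (𝓝 (pr (ψ z))) :=
      (continuousAt_pr (SbB_ne_zero E.cone (hψX z hz))).tendsto.comp h1
    refine h2.congr' ?_
    filter_upwards [hev] with n h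
    obtain ⟨-, c, hc, h4⟩ := h z hz
    rw [h4, pr_smul _ hc]
  refine ⟨r, ψ, hr, hψd, fun z hz => ⟨hψX z hz, ?_, tendsto_nhds_unique (hlimψ z hz) (hlimf z hz)⟩⟩
  apply Lat.mem_of_close E.lat
  intro ε hε
  obtain ⟨δ₁, hδ₁, hδ2⟩ := TorusMap.unif E.cone E.tor hε
  have h1 : ∀ᶠ n in (𝒰 : Filter ℕ), dist (pr (F n z)) (pr (ψ z)) < δ₁ := by
    have := Metric.tendsto_nhds.1 (hlimψ z hz) δ₁ hδ₁
    exact this
  obtain ⟨n, hn1⟩ := h1.exists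
  obtain ⟨l, hl, hl2⟩ := hδ2 (F n z) ((hF n).2.1 z) (ψ z) (hψX z hz) hn1
  refine ⟨(u (F n z) - z) - l, Λ.sub_mem ((hF n).2.2 z) hl, ?_⟩
  have h2 : u (ψ z) - z - ((u (F n z) - z) - l) = -(u (F n z) - u (ψ z) - l) := by ring
  rw [h2, norm_neg]
  exact hl2

private theorem SbB_uniq_loc (E : EData X Λ u Γ B δ) {f g : ℂ → MN N} (hf : f ∈ Sb X Λ u B) (hg : g ∈ Sb X Λ u B) {z₁ : ℂ}
    (hz₁ : z₁ ∉ B) (h : ∃ᶠ z in 𝓝[≠] z₁, f z = g z) : ∀ᶠ z in 𝓝 z₁, f z = g z := by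
  obtain ⟨r, Ψ, hr, hΨd, hΨ⟩ := sb_lift E hf hz₁
  obtain ⟨s, Φ, hs, hΦd, hΦ⟩ := sb_lift E hg hz₁
  have hbr : ball z₁ r ∈ 𝓝 z₁ := isOpen_ball.mem_nhds (mem_ball_self hr)
  have hbs : ball z₁ s ∈ 𝓝 z₁ := isOpen_ball.mem_nhds (mem_ball_self hs)
  have hΨa : AnalyticAt ℂ Ψ z₁ := hΨd.analyticAt hbr
  have hΦa : AnalyticAt ℂ Φ z₁ := hΦd.analyticAt hbs
  have hco : ∀ (H : ℂ → EN N), AnalyticAt ℂ H z₁ → ∀ i, AnalyticAt ℂ (fun z => H z i) z₁ := by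
    intro H hH i
    exact ((EuclideanSpace.proj (𝕜 := ℂ) i : EN N →L[ℂ] ℂ).analyticAt _).comp hH
  have hmin : ∀ i j, ∀ᶠ z in 𝓝 z₁, Ψ z i * Φ z j - Ψ z j * Φ z i = 0 := by
    intro i j
    have ha : AnalyticAt ℂ (fun z => Ψ z i * Φ z j - Ψ z j * Φ z i) z₁ :=
      ((hco Ψ hΨa i).mul (hco Φ hΦa j)).sub ((hco Ψ hΨa j).mul (hco Φ hΦa i))
    refine ha.frequently_zero_iff_eventually_zero.1 ?_
    have h1 : ∀ᶠ z in 𝓝[≠] z₁, z ∈ ball z₁ r ∧ z ∈ ball z₁ s :=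
      mem_nhdsWithin_of_mem_nhds (Filter.inter_mem hbr hbs)
    refine (h.and_eventually h1).mono ?_
    rintro z ⟨hfg, hzr, hzs⟩
    obtain ⟨hX1, -, h2⟩ := hΨ z hzr
    obtain ⟨hX2, -, h3⟩ := hΦ z hzs
    have h4 : pr (Ψ z) = pr (Φ z) := by rw [h2, h3, hfg]
    obtain ⟨c, _, hc⟩ := (pr_eq_iff (SbB_ne_zero E.cone hX1) (SbB_ne_zero E.cone hX2)).1 h4
    have h5 : ∀ k, Ψ z k = c * Φ z k := by
      intro k
      rw [hc]
      simp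
    rw [h5 i, h5 j]
    ring
  have hall : ∀ᶠ z in 𝓝 z₁, ∀ i j, Ψ z i * Φ z j - Ψ z j * Φ z i = 0 :=
    Filter.eventually_all.2 fun i => Filter.eventually_all.2 fun j => hmin i j
  filter_upwards [hall, hbr, hbs] with z hz hzr hzs
  obtain ⟨hX1, -, h2⟩ := hΨ z hzr
  obtain ⟨hX2, -, h3⟩ := hΦ z hzs
  have h10 : Ψ z ≠ 0 := SbB_ne_zero E.cone hX1
  have h20 : Φ z ≠ 0 := SbB_ne_zero E.cone hX2
  obtain ⟨j, hj⟩ : ∃ j, Φ z j ≠ 0 := by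
    by_contra hcon
    push Not at hcon
    apply h20
    ext k
    simpa using hcon k
  have hFc : Ψ z = (Ψ z j / Φ z j) • Φ z := by
    ext k
    have h1 := hz k j
    simp only [PiLp.smul_apply, smul_eq_mul]
    field_simp
    linear_combination h1
  have hne : Ψ z j / Φ z j ≠ 0 := by
    intro h'
    rw [h', zero_smul] at hFc
    exact h10 hFc
  rw [← h2, ← h3]
  exact (pr_eq_iff h10 h20).2 ⟨_, hne, hFc⟩

private theorem SbB_countable (h : BadSet B Λ δ) : B.Countable := by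
  have hd : B.PairwiseDisjoint (fun b => ball b (4 * δ)) := by
    intro b hb b' hb' hne
    refine ball_disjoint_ball ?_
    rw [dist_eq_norm]
    have := h.sep b hb b' hb' hne
    linarith
  exact hd.countable_of_isOpen (fun _ _ => isOpen_ball) fun b _ => ⟨b, mem_ball_self (by linarith [h.pos])⟩

theorem sb_uniq (E : EData X Λ u Γ B δ) {f g : ℂ → MN N} (hf : f ∈ Sb X Λ u B) (hg : g ∈ Sb X Λ u B) {z₀ : ℂ} (hz₀ : z₀ ∉ B)
    (h : ∃ᶠ z in 𝓝[≠] z₀, f z = g z) : Ag B f g := by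
  have hcon : IsPreconnected (Bᶜ : Set ℂ) := by
    have h1 : 1 < Module.rank ℝ ℂ := by
      rw [Complex.rank_real_complex]
      exact Cardinal.one_lt_two
    exact ((SbB_countable E.bad).isPathConnected_compl_of_one_lt_rank h1).isConnected.isPreconnected
  set U : Set ℂ := {z | ∀ᶠ w in 𝓝 z, f w = g w} with hU
  have hUo : IsOpen U := by
    rw [isOpen_iff_mem_nhds]
    intro z hz
    exact hz.eventually_nhds
  have hz₀U : z₀ ∈ U := SbB_uniq_loc E hf hg hz₀ h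
  have hsub : (Bᶜ : Set ℂ) ⊆ U := by
    refine hcon.subset_of_closure_inter_subset hUo ⟨z₀, hz₀, hz₀U⟩ ?_
    rintro z ⟨hzc, hzB⟩
    refine SbB_uniq_loc E hf hg hzB ?_
    intro hcontra
    have h1 : ∀ᶠ w in 𝓝 z, w ≠ z → ¬ f w = g w := by
      rw [eventually_nhdsWithin_iff] at hcontra
      exact hcontra
    obtain ⟨V, hV, hVo, hzV⟩ := _root_.mem_nhds_iff.1 h1
    obtain ⟨w, hwV, hwU⟩ := _root_.mem_closure_iff.1 hzc V hVo hzV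
    have h2 : ∀ᶠ x in 𝓝 w, x ∈ V ∧ f x = g x := Filter.Eventually.and (hVo.mem_nhds hwV) hwU
    have h3 : ∃ᶠ x in 𝓝[≠] w, x ∈ V ∧ f x = g x := (h2.filter_mono nhdsWithin_le_nhds).frequently
    have h4 : ∃ x, (x ∈ V ∧ f x = g x) ∧ x ≠ z := by
      by_cases hwz : w = z
      · obtain ⟨x, hx, hxw⟩ := (h3.and_eventually (self_mem_nhdsWithin : ∀ᶠ x in 𝓝[≠] w, x ∈ ({w}ᶜ : Set ℂ))).exists
        refine ⟨x, hx, ?_⟩
        rw [← hwz]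
        exact hxw
      · exact ⟨w, ⟨hwV, hwU.self_of_nhds⟩, hwz⟩
    obtain ⟨x, ⟨hxV, hx⟩, hxz⟩ := h4
    exact hV hxV hxz hx
  intro z hz
  exact (hsub hz : z ∈ U).self_of_nhds

end Pool.Agent.H62.EL
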