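import Pool.Agent.H62.EL.Db

/-!
# EL Ps: the primitive of `β - β'` in the witness chart

`τ = χ.q ∘ χ'.σ : ball 0 2 → ball 0 2`, `b₁ = bc χ A χ' (1, 0)`, `b₂ = bc χ A χ' (0, 1)`.  Lifts: for `p ∈ ball 0 2`,
`mo b ρ i j (τ p) = mo b ρ' i' j' p`: both are `u (χ'.σ p)` modulo `Λ` (`Mon.lift`, `TorusMap.smul`) and within `η` of `b`, and `hinj`.
`β' = - A' ds` has the coefficients `(-A', 0)` in the chart `χ'`.  The form with coefficients `(b₁ + A', b₂)` is closed: `∂₁ b₂ - ∂₂ b₁ = tc α χ'`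
(`bc_closed`) `= ∂₂ A'`.  Let `ψ` be the potential of `exists_potential` (`R = 2`), `ψ 0 = 0`.
`der`: near `ζ`, `γ ξ ∈ χ'.U` and `χ'.q (γ ξ) ∈ ball 0 2`; with `(s, t) = χ'.q ∘ γ`: `(ψ (s, t))' = (b₁ + A') s' + b₂ t' = bt χ A γ ζ + A' s' = bt χ A γ ζ -
bt χ' A' γ ζ` (`bt_eq` for the charts `χ`, `χ'`; `bt χ' A' γ ζ = - A' s'` by definition).
`zero`: let `p.1 ^ i' * p.2 ^ j' = 0`.
Case `i' > 0`, `p.1 = 0`: for `|t| < 2` the function `t ↦ ψ (0, t)` has the derivative `b₂ (0, t) = - A (τ (0, t)) (∂₂ τ₁) (0, t)`.  Let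
`s t = τ₁ (0, t)`, `t' t = τ₂ (0, t)`, analytic on the disc `|t| < 2`; `ρ (s t)^i (t' t)^j = mo .. - b = mo b ρ' i' j' (0, t) - b = 0`.  So `i > 0` and `s ≡ 0`,
or `j > 0` and `t' ≡ 0` on the disc (a product of analytic functions on a connected set which vanishes: one factor vanishes identically; `i + j > 0`, if
`i = 0` the first factor is `1`).  If `s ≡ 0` then `∂₂ τ₁ (0, t) = s' t = 0`; if `t' ≡ 0` then `A (s t, 0) = 0` (`IsPrim.zero`).  So `ψ (0, t) = ψ 0 = 0`.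
Case `j' > 0`, `p.2 = 0`: `s ↦ ψ (s, 0)` has the derivative `b₁ (s, 0) + A' (s, 0) = b₁ (s, 0)`, which vanishes by the same argument.
-/

set_option autoImplicit false

open Topology Filter Metric

namespace Pool.Agent.H62.EL

open Pool.Agent.H36.BP (EN fs wd IsGermChart)
open Pool.Agent.H14.PP (IsCone Chart Tan CurveAt jac)
open Pool.Agent.H62.EF (Lat MN pr TorusMap Sec Charts DU)

variable {N : ℕ} {X : Set (EN N)} {Λ : AddSubgroup ℂ} {u : EN N → ℂ}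

/-- a product of powers of analytic functions which vanishes on a disc -/
private theorem ps_prod {S T : ℂ → ℂ} {i j : ℕ} (hS : ∀ t ∈ ball (0 : ℂ) 2, AnalyticAt ℂ S t)
    (hT : ∀ t ∈ ball (0 : ℂ) 2, AnalyticAt ℂ T t) (h : ∀ t ∈ ball (0 : ℂ) 2, S t ^ i * T t ^ j = 0) :
    (∀ t ∈ ball (0 : ℂ) 2, S t = 0) ∨ ∀ t ∈ ball (0 : ℂ) 2, T t = 0 := by
  have h1 : AnalyticOnNhd ℂ (fun t => S t ^ i) (ball (0 : ℂ) 2) := fun t ht => (hS t ht).fun_pow i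
  have h2 : AnalyticOnNhd ℂ (fun t => T t ^ j) (ball (0 : ℂ) 2) := fun t ht => (hT t ht).fun_pow j
  have hpre : IsPreconnected (ball (0 : ℂ) 2) := (convex_ball (0 : ℂ) 2).isPreconnected
  rcases h1.eq_zero_or_eq_zero_of_mul_eq_zero h2 h hpre with h3 | h3
  · left
    intro t ht
    exact eq_zero_of_pow_eq_zero (h3 t ht)
  · right
    intro t ht
    exact eq_zero_of_pow_eq_zero (h3 t ht)

private theorem ps_mem (χ χ' : Chart X) {p : ℂ × ℂ} (hp : p ∈ ball (0 : ℂ × ℂ) 2) (hU : χ'.σ p ∈ χ.U) :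
    χ.q (χ'.σ p) ∈ ball (0 : ℂ × ℂ) 2 :=
  (χ.surj _ (χ'.σ_mem p hp).1 hU).1

private theorem ps_an (χ χ' : Chart X) {p : ℂ × ℂ} (hp : p ∈ ball (0 : ℂ × ℂ) 2) (hU : χ'.σ p ∈ χ.U) :
    AnalyticAt ℂ (fun y => χ.q (χ'.σ y)) p :=
  AnalyticAt.comp (g := χ.q) (f := χ'.σ) (χ.q_an _ hU) (χ'.σ_an p hp)

/-- the lifts of `u` agree -/
private theorem ps_lift (hu : TorusMap X Λ u) {b : ℂ} {η : ℝ} (hinj : ∀ l ∈ Λ, ‖l‖ < 2 * η → l = 0)
    {χ χ' : Chart X} {ρ ρ' : ℝ} {i j i' j' : ℕ} (hm : Mon Λ u χ b ρ i j) (hm' : Mon Λ u χ' b ρ' i' j')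
    (hr : ∀ p ∈ ball (0 : ℂ × ℂ) 2, ‖mo b ρ i j p - b‖ < η) (hr' : ∀ p ∈ ball (0 : ℂ × ℂ) 2, ‖mo b ρ' i' j' p - b‖ < η)
    {p : ℂ × ℂ} (hp : p ∈ ball (0 : ℂ × ℂ) 2) (hU : χ'.σ p ∈ χ.U) :
    mo b ρ i j (χ.q (χ'.σ p)) = mo b ρ' i' j' p := by
  obtain ⟨hτ, c, hc, hx⟩ := χ.surj _ (χ'.σ_mem p hp).1 hU
  have h1 := hm'.lift p hp
  have h2 := hm.lift _ hτ
  have h3 := hu.smul (χ.σ (χ.q (χ'.σ p))) (χ.σ_mem _ hτ).1 c hc
  rw [← hx] at h3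
  have h4 : mo b ρ i j (χ.q (χ'.σ p)) - mo b ρ' i' j' p ∈ Λ := by
    have h5 := Λ.sub_mem h1 (Λ.add_mem h3 h2)
    have h6 : u (χ'.σ p) - mo b ρ' i' j' p - (u (χ'.σ p) - u (χ.σ (χ.q (χ'.σ p))) +
        (u (χ.σ (χ.q (χ'.σ p))) - mo b ρ i j (χ.q (χ'.σ p)))) =
        mo b ρ i j (χ.q (χ'.σ p)) - mo b ρ' i' j' p := by ring
    rwa [h6] at h5
  have h5 : ‖mo b ρ i j (χ.q (χ'.σ p)) - mo b ρ' i' j' p‖ < 2 * η := by
    have h6 : mo b ρ i j (χ.q (χ'.σ p)) - mo b ρ' i' j' p =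
        (mo b ρ i j (χ.q (χ'.σ p)) - b) - (mo b ρ' i' j' p - b) := by ring
    rw [h6]
    have h7 := norm_sub_le (mo b ρ i j (χ.q (χ'.σ p)) - b) (mo b ρ' i' j' p - b)
    have h8 := hr _ hτ
    have h9 := hr' p hp
    linarith
  exact sub_eq_zero.1 (hinj _ h4 h5)

/-- the coefficient of `β` along a coordinate axis on which `u = b` vanishes -/
private theorem ps_axis (α : TForm X Λ u) {b : ℂ} {χ χ' : Chart X} {ρ : ℝ} {i j : ℕ} (hm : Mon Λ u χ b ρ i j)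
    {A : ℂ × ℂ → ℂ} (hA : IsPrim α χ (mo b ρ i j) A) (hsub : ∀ p ∈ ball (0 : ℂ × ℂ) 2, χ'.σ p ∈ χ.U) (e : ℂ × ℂ)
    (he : ∀ t ∈ ball (0 : ℂ) 2, t • e ∈ ball (0 : ℂ × ℂ) 2)
    (h0 : ∀ t ∈ ball (0 : ℂ) 2, mo b ρ i j (χ.q (χ'.σ (t • e))) = b) :
    ∀ t ∈ ball (0 : ℂ) 2, bc χ A χ' e (t • e) = 0 := by
  have hl : ∀ t : ℂ, HasDerivAt (fun t : ℂ => t • e) e t := fun t => by
    simpa using (hasDerivAt_id t).smul_const e
  have hlan : ∀ t : ℂ, AnalyticAt ℂ (fun t : ℂ => t • e) t := fun t => by fun_prop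
  have hτ : ∀ t ∈ ball (0 : ℂ) 2, AnalyticAt ℂ (fun t : ℂ => χ.q (χ'.σ (t • e))) t := fun t ht =>
    AnalyticAt.comp (g := fun y => χ.q (χ'.σ y)) (f := fun t : ℂ => t • e)
      (ps_an χ χ' (he t ht) (hsub _ (he t ht))) (hlan t)
  have hd : ∀ t ∈ ball (0 : ℂ) 2, HasDerivAt (fun t : ℂ => χ.q (χ'.σ (t • e)))
      (fderiv ℂ (fun y => χ.q (χ'.σ y)) (t • e) e) t := fun t ht =>
    HasFDerivAt.comp_hasDerivAt (l := fun y => χ.q (χ'.σ y)) t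
      (ps_an χ χ' (he t ht) (hsub _ (he t ht))).differentiableAt.hasFDerivAt (hl t)
  have hS : ∀ t ∈ ball (0 : ℂ) 2, AnalyticAt ℂ (fun t : ℂ => (χ.q (χ'.σ (t • e))).1) t := fun t ht =>
    AnalyticAt.comp (g := fun y : ℂ × ℂ => y.1) (f := fun t : ℂ => χ.q (χ'.σ (t • e))) analyticAt_fst (hτ t ht)
  have hT : ∀ t ∈ ball (0 : ℂ) 2, AnalyticAt ℂ (fun t : ℂ => (χ.q (χ'.σ (t • e))).2) t := fun t ht =>
    AnalyticAt.comp (g := fun y : ℂ × ℂ => y.2) (f := fun t : ℂ => χ.q (χ'.σ (t • e))) analyticAt_snd (hτ t ht)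
  have hST : ∀ t ∈ ball (0 : ℂ) 2, (χ.q (χ'.σ (t • e))).1 ^ i * (χ.q (χ'.σ (t • e))).2 ^ j = 0 := by
    intro t ht
    have h1 := h0 t ht
    unfold mo at h1
    have h2 : (ρ : ℂ) * ((χ.q (χ'.σ (t • e))).1 ^ i * (χ.q (χ'.σ (t • e))).2 ^ j) = 0 := by
      linear_combination h1
    have h3 : (ρ : ℂ) ≠ 0 := by
      exact_mod_cast hm.pos.ne'
    exact (mul_eq_zero.1 h2).resolve_left h3
  intro t ht
  unfold bc
  rw [neg_eq_zero, mul_eq_zero]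
  rcases ps_prod hS hT hST with h | h
  · right
    have h1 : HasDerivAt (fun t : ℂ => (χ.q (χ'.σ (t • e))).1)
        (fderiv ℂ (fun y => χ.q (χ'.σ y)) (t • e) e).1 t :=
      HasFDerivAt.comp_hasDerivAt (l := fun y : ℂ × ℂ => y.1) t hasFDerivAt_fst (hd t ht)
    have h2 : (fun t : ℂ => (χ.q (χ'.σ (t • e))).1) =ᶠ[𝓝 t] fun _ => 0 := by
      filter_upwards [isOpen_ball.mem_nhds ht] with s hs
      exact h s hs
    exact h1.unique ((hasDerivAt_const t (0 : ℂ)).congr_of_eventuallyEq h2)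
  · left
    have h1 : χ.q (χ'.σ (t • e)) = ((χ.q (χ'.σ (t • e))).1, 0) := Prod.ext rfl (h t ht)
    have h2 := ps_mem χ χ' (he t ht) (hsub _ (he t ht))
    rw [h1]
    refine hA.zero _ ?_
    rw [mem_ball_zero_iff] at h2
    exact (norm_fst_le _).trans_lt h2

/-- a function with derivative `0` along the axis -/
private theorem ps_const {ψ : ℂ × ℂ → ℂ} (hψ : ∀ p ∈ ball (0 : ℂ × ℂ) 2, AnalyticAt ℂ ψ p) (e : ℂ × ℂ)
    (he : ∀ t ∈ ball (0 : ℂ) 2, t • e ∈ ball (0 : ℂ × ℂ) 2)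
    (h0 : ∀ t ∈ ball (0 : ℂ) 2, fderiv ℂ ψ (t • e) e = 0) {t : ℂ} (ht : t ∈ ball (0 : ℂ) 2) :
    ψ (t • e) = ψ 0 := by
  have hl : ∀ t : ℂ, HasDerivAt (fun t : ℂ => t • e) e t := fun t => by
    simpa using (hasDerivAt_id t).smul_const e
  have hd : ∀ t ∈ ball (0 : ℂ) 2, HasDerivAt (fun t : ℂ => ψ (t • e)) 0 t := fun t ht => by
    have h1 : HasDerivAt (fun t : ℂ => ψ (t • e)) (fderiv ℂ ψ (t • e) e) t :=
      HasFDerivAt.comp_hasDerivAt (l := ψ) t (hψ _ (he t ht)).differentiableAt.hasFDerivAt (hl t)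
    rwa [h0 t ht] at h1
  have h2 := isOpen_ball.is_const_of_deriv_eq_zero (𝕜 := ℂ) (convex_ball (0 : ℂ) 2).isPreconnected
    (f := fun t : ℂ => ψ (t • e)) (fun t ht => (hd t ht).differentiableAt.differentiableWithinAt)
    (fun t ht => (hd t ht).deriv) ht (mem_ball_self two_pos)
  simpa using h2

theorem exists_psi (hX : IsCone X) (hu : TorusMap X Λ u) (α : TForm X Λ u) {b : ℂ} {η : ℝ} (hinj : ∀ l ∈ Λ, ‖l‖ < 2 * η → l = 0)
    {χ χ' : Chart X} {ρ ρ' : ℝ} {i j i' j' : ℕ} (hm : Mon Λ u χ b ρ i j) (hm' : Mon Λ u χ' b ρ' i' j')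
    (hr : ∀ p ∈ ball (0 : ℂ × ℂ) 2, ‖mo b ρ i j p - b‖ < η) (hr' : ∀ p ∈ ball (0 : ℂ × ℂ) 2, ‖mo b ρ' i' j' p - b‖ < η)
    {A A' : ℂ × ℂ → ℂ} (hA : IsPrim α χ (mo b ρ i j) A) (hA' : IsPrim α χ' (mo b ρ' i' j') A')
    (hsub : ∀ p ∈ ball (0 : ℂ × ℂ) 2, χ'.σ p ∈ χ.U) : ∃ ψ : ℂ × ℂ → ℂ, PsiP χ A χ' A' i' j' ψ := by
  have hτ : ∀ p ∈ ball (0 : ℂ × ℂ) 2, mo b ρ i j (χ.q (χ'.σ p)) = mo b ρ' i' j' p := fun p hp =>
    ps_lift hu hinj hm hm' hr hr' hp (hsub p hp)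
  have hb1 : ∀ p ∈ ball (0 : ℂ × ℂ) 2, AnalyticAt ℂ (bc χ A χ' (1, 0)) p := fun p hp =>
    bc_an χ χ' hA.an hp (hsub p hp) (1, 0)
  have hb2 : ∀ p ∈ ball (0 : ℂ × ℂ) 2, AnalyticAt ℂ (bc χ A χ' (0, 1)) p := fun p hp =>
    bc_an χ χ' hA.an hp (hsub p hp) (0, 1)
  obtain ⟨ψ, hψ0, hψ⟩ := exists_potential (R := 2) (b₁ := fun p => bc χ A χ' (1, 0) p + A' p)
    (b₂ := bc χ A χ' (0, 1)) (fun p hp => (hb1 p hp).fun_add (hA'.an p hp)) hb2 (by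
      intro p hp
      have h1 := bc_closed hX hu α χ χ' hA hp (hsub p hp) (hm'.lift p hp) (hτ p hp)
      have h2 := hA'.der p hp
      have h3 : fderiv ℂ (fun p => bc χ A χ' (1, 0) p + A' p) p =
          fderiv ℂ (bc χ A χ' (1, 0)) p + fderiv ℂ A' p :=
        fderiv_fun_add (hb1 p hp).differentiableAt (hA'.an p hp).differentiableAt
      rw [h3, _root_.add_apply, h2, ← h1]
      ring)
  refine ⟨ψ, ⟨?_, ?_⟩⟩
  · intro p hp h0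
    rcases mul_eq_zero.1 h0 with h1 | h1
    · -- the axis `s = 0`
      have hp1 : p.1 = 0 := eq_zero_of_pow_eq_zero h1
      have hi' : i' ≠ 0 := by
        rintro rfl
        simp at h1
      have he : ∀ t ∈ ball (0 : ℂ) 2, t • ((0, 1) : ℂ × ℂ) ∈ ball (0 : ℂ × ℂ) 2 := by
        intro t ht
        rw [mem_ball_zero_iff] at ht ⊢
        simpa [Prod.norm_def] using ht
      have h2 : ∀ t ∈ ball (0 : ℂ) 2, mo b ρ i j (χ.q (χ'.σ (t • ((0, 1) : ℂ × ℂ)))) = b := by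
        intro t ht
        rw [hτ _ (he t ht)]
        simp [mo, hi']
      have h3 := ps_axis α hm hA hsub (0, 1) he h2
      have h4 : p = p.2 • ((0, 1) : ℂ × ℂ) := by
        refine Prod.ext ?_ ?_
        · simp [hp1]
        · simp
      have h5 : p.2 ∈ ball (0 : ℂ) 2 := by
        rw [mem_ball_zero_iff] at hp ⊢
        exact (norm_snd_le _).trans_lt hp
      rw [h4, ps_const (fun q hq => (hψ q hq).1) (0, 1) he
        (fun t ht => by rw [(hψ _ (he t ht)).2.2]; exact h3 t ht) h5, hψ0]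
    · -- the axis `t = 0`
      have hp1 : p.2 = 0 := eq_zero_of_pow_eq_zero h1
      have hj' : j' ≠ 0 := by
        rintro rfl
        simp at h1
      have he : ∀ t ∈ ball (0 : ℂ) 2, t • ((1, 0) : ℂ × ℂ) ∈ ball (0 : ℂ × ℂ) 2 := by
        intro t ht
        rw [mem_ball_zero_iff] at ht ⊢
        simpa [Prod.norm_def] using ht
      have h2 : ∀ t ∈ ball (0 : ℂ) 2, mo b ρ i j (χ.q (χ'.σ (t • ((1, 0) : ℂ × ℂ)))) = b := by
        intro t ht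
        rw [hτ _ (he t ht)]
        simp [mo, hj']
      have h3 := ps_axis α hm hA hsub (1, 0) he h2
      have h4 : p = p.1 • ((1, 0) : ℂ × ℂ) := by
        refine Prod.ext ?_ ?_
        · simp
        · simp [hp1]
      have h5 : p.1 ∈ ball (0 : ℂ) 2 := by
        rw [mem_ball_zero_iff] at hp ⊢
        exact (norm_fst_le _).trans_lt hp
      rw [h4, ps_const (fun q hq => (hψ q hq).1) (1, 0) he
        (fun t ht => by
          rw [(hψ _ (he t ht)).2.1]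
          have h6 : A' (t • ((1, 0) : ℂ × ℂ)) = 0 := by
            have h7 : t • ((1, 0) : ℂ × ℂ) = (t, 0) := by simp
            rw [h7]
            exact hA'.zero t (mem_ball_zero_iff.1 ht)
          rw [h6, h3 t ht, add_zero]) h5, hψ0]
  · intro γ ζ hγ hU'
    obtain ⟨hw, -, c, -, hc0, hev⟩ := χ'.curve hX hγ hU'
    obtain ⟨hwm, hγζ⟩ := hev.self_of_nhds
    have hU : γ ζ ∈ χ.U := by
      rw [hγζ]
      exact χ.smul_U _ (hsub _ hwm) _ hc0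
    have h1 : HasDerivAt (fun ξ => ψ (χ'.q (γ ξ)))
        (fderiv ℂ ψ (χ'.q (γ ζ)) (deriv (fun ξ => χ'.q (γ ξ)) ζ)) ζ :=
      HasFDerivAt.comp_hasDerivAt (l := ψ) ζ (hψ _ hwm).1.differentiableAt.hasFDerivAt
        hw.differentiableAt.hasDerivAt
    have h2 : fderiv ℂ ψ (χ'.q (γ ζ)) (deriv (fun ξ => χ'.q (γ ξ)) ζ) =
        bt χ A γ ζ - bt χ' A' γ ζ := by
      have h3 : deriv (fun ξ => χ'.q (γ ξ)) ζ = (deriv (fun ξ => χ'.q (γ ξ)) ζ).1 • ((1, 0) : ℂ × ℂ) +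
          (deriv (fun ξ => χ'.q (γ ξ)) ζ).2 • ((0, 1) : ℂ × ℂ) := by
        refine Prod.ext ?_ ?_
        · simp
        · simp
      rw [bt_eq χ χ' A hγ hU' hU]
      unfold bt
      conv_lhs => rw [h3, map_add, map_smul, map_smul, (hψ _ hwm).2.1, (hψ _ hwm).2.2, smul_eq_mul, smul_eq_mul]
      ring
    rwa [h2] at h1

end Pool.Agent.H62.EL
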