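import Pool.Agent.H62.EL.Defs

/-!
# EL Tw: the differences of the primitives do not depend on the witness chart

Fix `p ∈ ball 0 r` and consider the curve `γ ξ = χ''.σ (ξ • p)`, defined for `ξ` in the open convex set `{ξ : ‖ξ • p‖ < r}` which contains `[0, 1]`.  Let
`Φ ξ = ψ₁' (χ'.q (γ ξ)) - ψ₂' (χ'.q (γ ξ)) - (ψ₁'' (χ''.q (γ ξ)) - ψ₂'' (χ''.q (γ ξ)))`, `χ''.q (γ ξ) = ξ • p`.  By `PsiP.der` (four times; `γ ξ ∈ χ'.U` by `hsub`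
and `γ ξ ∈ χ''.U`) its derivative is `(bt χ₁ - bt χ') - (bt χ₂ - bt χ') - ((bt χ₁ - bt χ'') - (bt χ₂ - bt χ'')) = 0`, so `Φ 1 = Φ 0`.  `Φ 0 = 0`: `ψ₁'' 0 = ψ₂'' 0 = 0`
(`PsiP.zero`, `0 ^ i'' * 0 ^ j'' = 0` as `i'' + j'' > 0`), and the point `q = χ'.q (χ''.σ 0)` satisfies `ρ' q.1^i' q.2^j' = 0`, because `mo b ρ' i' j' q = b`: both
sides are `u (χ''.σ 0)` modulo `Λ` (`mo b ρ'' i'' j'' 0 = b`), and `‖mo b ρ' i' j' q - b‖ < η`, `hinj`; so `ψ₁' q = ψ₂' q = 0`.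
[`χ''.σ 0 = c • χ'.σ q` by `Chart.surj`, `TorusMap.smul`.]
-/

set_option autoImplicit false

open Topology Filter Metric

namespace Pool.Agent.H62.EL

open Pool.Agent.H36.BP (EN fs wd IsGermChart)
open Pool.Agent.H14.PP (IsCone Chart Tan CurveAt jac)
open Pool.Agent.H62.EF (Lat MN pr TorusMap Sec Charts DU)

variable {N : ℕ} {X : Set (EN N)} {Λ : AddSubgroup ℂ} {u : EN N → ℂ}

theorem two_witness (hX : IsCone X) (hu : TorusMap X Λ u) {b : ℂ} {η : ℝ} (hinj : ∀ l ∈ Λ, ‖l‖ < 2 * η → l = 0)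
    {χ₁ χ₂ χ' χ'' : Chart X} {A₁ A₂ A' A'' : ℂ × ℂ → ℂ} {ρ' ρ'' : ℝ} {i' j' i'' j'' : ℕ} (hm' : Mon Λ u χ' b ρ' i' j')
    (hm'' : Mon Λ u χ'' b ρ'' i'' j'') (hr' : ∀ p ∈ ball (0 : ℂ × ℂ) 2, ‖mo b ρ' i' j' p - b‖ < η)
    {ψ₁' ψ₂' ψ₁'' ψ₂'' : ℂ × ℂ → ℂ} (h₁' : PsiP χ₁ A₁ χ' A' i' j' ψ₁') (h₂' : PsiP χ₂ A₂ χ' A' i' j' ψ₂')
    (h₁'' : PsiP χ₁ A₁ χ'' A'' i'' j'' ψ₁'') (h₂'' : PsiP χ₂ A₂ χ'' A'' i'' j'' ψ₂'') {r : ℝ} (hr0 : 0 < r) (hr : r ≤ 2)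
    (hsub : ∀ p ∈ ball (0 : ℂ × ℂ) r, χ''.σ p ∈ χ'.U) : ∀ p ∈ ball (0 : ℂ × ℂ) r,
      ψ₁' (χ'.q (χ''.σ p)) - ψ₂' (χ'.q (χ''.σ p)) = ψ₁'' p - ψ₂'' p := by
  have hball : ∀ y ∈ ball (0 : ℂ × ℂ) r, y ∈ ball (0 : ℂ × ℂ) 2 := fun y hy => ball_subset_ball hr hy
  have h0r : (0 : ℂ × ℂ) ∈ ball (0 : ℂ × ℂ) r := mem_ball_self hr0
  -- the value at the centre
  have hmo0 : mo b ρ'' i'' j'' 0 = b := by
    have h1 : (0 : ℂ) ^ i'' * (0 : ℂ) ^ j'' = 0 := by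
      rw [← pow_add]
      exact zero_pow hm''.ij.ne'
    show b + (ρ'' : ℂ) * ((0 : ℂ) ^ i'' * (0 : ℂ) ^ j'') = b
    rw [h1, mul_zero, add_zero]
  have hz'' : (0 : ℂ × ℂ).1 ^ i'' * (0 : ℂ × ℂ).2 ^ j'' = 0 := by
    show (0 : ℂ) ^ i'' * (0 : ℂ) ^ j'' = 0
    rw [← pow_add]
    exact zero_pow hm''.ij.ne'
  obtain ⟨hX0, -, hq0⟩ := χ''.σ_mem 0 (hball 0 h0r)
  have hU0 : χ''.σ 0 ∈ χ'.U := hsub 0 h0r
  obtain ⟨hq2, c, hc, hceq⟩ := χ'.surj (χ''.σ 0) hX0 hU0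
  set q : ℂ × ℂ := χ'.q (χ''.σ 0) with hq
  have hqz : q.1 ^ i' * q.2 ^ j' = 0 := by
    have h1 : u (χ''.σ 0) - mo b ρ'' i'' j'' 0 ∈ Λ := hm''.lift 0 (hball 0 h0r)
    have h2 : u (c • χ'.σ q) - u (χ'.σ q) ∈ Λ := hu.smul _ (χ'.σ_mem q hq2).1 c hc
    have h3 : u (χ'.σ q) - mo b ρ' i' j' q ∈ Λ := hm'.lift q hq2
    rw [hmo0] at h1
    rw [← hceq] at h2
    have h4 : mo b ρ' i' j' q - b ∈ Λ := by
      have h5 : mo b ρ' i' j' q - b = (u (χ''.σ 0) - b) - (u (χ''.σ 0) - u (χ'.σ q)) - (u (χ'.σ q) - mo b ρ' i' j' q) := by ring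
      rw [h5]
      exact Λ.sub_mem (Λ.sub_mem h1 h2) h3
    have h6 := hr' q hq2
    have h7 : mo b ρ' i' j' q - b = 0 := by
      refine hinj _ h4 ?_
      have h8 := norm_nonneg (mo b ρ' i' j' q - b)
      linarith
    have h9 : (ρ' : ℂ) * (q.1 ^ i' * q.2 ^ j') = 0 := by
      have h10 : mo b ρ' i' j' q - b = (ρ' : ℂ) * (q.1 ^ i' * q.2 ^ j') := by
        unfold mo
        ring
      rw [← h10, h7]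
    exact (mul_eq_zero.mp h9).resolve_left (by exact_mod_cast hm'.pos.ne')
  intro p hp
  -- the curve
  set γ : ℂ → EN N := fun ξ => χ''.σ (ξ • p) with hγ
  set D : Set ℂ := {ξ | ξ • p ∈ ball (0 : ℂ × ℂ) r} with hD
  have hDopen : IsOpen D := isOpen_ball.preimage (continuous_id.smul continuous_const)
  have hDconv : Convex ℝ D := by
    intro x hx y hy a a' ha ha' haa
    have hx' : x • p ∈ ball (0 : ℂ × ℂ) r := hx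
    have hy' : y • p ∈ ball (0 : ℂ × ℂ) r := hy
    have h1 := convex_ball (0 : ℂ × ℂ) r hx' hy' ha ha' haa
    show (a • x + a' • y) • p ∈ ball (0 : ℂ × ℂ) r
    rwa [add_smul, smul_assoc, smul_assoc]
  have h0D : (0 : ℂ) ∈ D := by
    show (0 : ℂ) • p ∈ ball (0 : ℂ × ℂ) r
    rw [zero_smul]
    exact h0r
  have h1D : (1 : ℂ) ∈ D := by
    show (1 : ℂ) • p ∈ ball (0 : ℂ × ℂ) r
    rw [one_smul]
    exact hp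
  have hcurve : ∀ ξ ∈ D, CurveAt X γ ξ := by
    intro ξ hξ
    refine ⟨?_, ?_⟩
    · exact AnalyticAt.fun_comp (χ''.σ_an (ξ • p) (hball _ hξ)) (analyticAt_id.fun_smul analyticAt_const)
    · filter_upwards [hDopen.mem_nhds hξ] with y hy
      exact (χ''.σ_mem (y • p) (hball _ hy)).1
  have hU'' : ∀ ξ ∈ D, γ ξ ∈ χ''.U := fun ξ hξ => (χ''.σ_mem (ξ • p) (hball _ hξ)).2.1
  have hU' : ∀ ξ ∈ D, γ ξ ∈ χ'.U := fun ξ hξ => hsub (ξ • p) hξ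
  have hqq : ∀ ξ ∈ D, χ''.q (γ ξ) = ξ • p := fun ξ hξ => (χ''.σ_mem (ξ • p) (hball _ hξ)).2.2
  set Φ : ℂ → ℂ := fun ξ => ψ₁' (χ'.q (γ ξ)) - ψ₂' (χ'.q (γ ξ)) - (ψ₁'' (χ''.q (γ ξ)) - ψ₂'' (χ''.q (γ ξ))) with hΦ
  have hder : ∀ ξ ∈ D, HasDerivAt Φ 0 ξ := by
    intro ξ hξ
    have h1 := h₁'.der γ ξ (hcurve ξ hξ) (hU' ξ hξ)
    have h2 := h₂'.der γ ξ (hcurve ξ hξ) (hU' ξ hξ)
    have h3 := h₁''.der γ ξ (hcurve ξ hξ) (hU'' ξ hξ)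
    have h4 := h₂''.der γ ξ (hcurve ξ hξ) (hU'' ξ hξ)
    have h5 := (h1.sub h2).sub (h3.sub h4)
    have h6 : bt χ₁ A₁ γ ξ - bt χ' A' γ ξ - (bt χ₂ A₂ γ ξ - bt χ' A' γ ξ) -
        (bt χ₁ A₁ γ ξ - bt χ'' A'' γ ξ - (bt χ₂ A₂ γ ξ - bt χ'' A'' γ ξ)) = 0 := by ring
    rw [h6] at h5
    exact h5
  have hconst : Φ 1 = Φ 0 := by
    refine hDopen.is_const_of_deriv_eq_zero hDconv.isPreconnected
      (fun ξ hξ => (hder ξ hξ).differentiableAt.differentiableWithinAt) ?_ h1D h0D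
    intro ξ hξ
    exact (hder ξ hξ).deriv
  have hΦ0 : Φ 0 = 0 := by
    have h1 : γ 0 = χ''.σ 0 := by
      show χ''.σ ((0 : ℂ) • p) = χ''.σ 0
      rw [zero_smul]
    show ψ₁' (χ'.q (γ 0)) - ψ₂' (χ'.q (γ 0)) - (ψ₁'' (χ''.q (γ 0)) - ψ₂'' (χ''.q (γ 0))) = 0
    rw [h1, hq0, ← hq, h₁'.zero q hq2 hqz, h₂'.zero q hq2 hqz, h₁''.zero 0 (hball 0 h0r) hz'', h₂''.zero 0 (hball 0 h0r) hz'']
    ring
  have hΦ1 : Φ 1 = ψ₁' (χ'.q (χ''.σ p)) - ψ₂' (χ'.q (χ''.σ p)) - (ψ₁'' p - ψ₂'' p) := by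
    have h1 : γ 1 = χ''.σ p := by
      show χ''.σ ((1 : ℂ) • p) = χ''.σ p
      rw [one_smul]
    have h2 : χ''.q (γ 1) = p := by
      rw [hqq 1 h1D, one_smul]
    show ψ₁' (χ'.q (γ 1)) - ψ₂' (χ'.q (γ 1)) - (ψ₁'' (χ''.q (γ 1)) - ψ₂'' (χ''.q (γ 1))) = _
    rw [h2, h1]
  rw [hΦ0, hΦ1] at hconst
  exact sub_eq_zero.mp hconst

end Pool.Agent.H62.EL
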