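import Pool.Agent.H62.EL.TbA
import Pool.Agent.H62.EL.Ps
import Pool.Agent.H62.EL.Tw

/-!
# EL TbB: tubes exist

Let `T, s, η, 𝒲` be from `exists_tube_geo`.  Let `α` and the primitives `A k` be given.  For every `w ∈ 𝒲` choose a primitive `A' w` (`exists_prim`), and for every `k`
such that `∀ p ∈ ball 0 2, w.χ.σ p ∈ (T.χ k).U` a function `ψ w k` with `PsiP (T.χ k) (A k) w.χ (A' w) w.i w.j (ψ w k)` (`exists_psi`).
For every `y ∈ MN N` choose, if possible, `w y ∈ 𝒲` such that every (equivalently one) `x ∈ X` with `pr x = y` is in `(w y).χ.U` with `(w y).χ.q x ∈ ball 0 (w y).r`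
(both conditions are invariant under scaling), and define `lam k x = ψ (w (pr x)) k ((w (pr x)).χ.q x)` (any value if there is no `w`, or if `ψ` is not defined).
Scaling: `pr (c • x) = pr x`, `q (c • x) = q x`.
Derivative: let `γ, ζ, k, l` be as in `Split`, `x₀ = γ ζ`, `w₀ = w (pr x₀)` (`WitG.cover`).  By `WitG.sub` with the point `p₀ = w₀.χ.q x₀` (`w₀.χ.σ p₀` is a multiple of `x₀`, so
in `T.W k` and in `T.W l`) `ψ w₀ k` and `ψ w₀ l` are defined.  Claim: for `ξ` near `ζ`, with `x = γ ξ`,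
`lam k x - lam l x = ψ w₀ k (w₀.χ.q x) - ψ w₀ l (w₀.χ.q x)`.  [`x ∈ X`, `x ∈ T.W k ∩ T.W l`, `x ∈ w₀.χ.U`, `w₀.χ.q x ∈ ball 0 w₀.r`, and `x` is over `ball b s` (the
value `u x` modulo `Λ` varies continuously: `TorusMap.loc`), so `w₁ = w (pr x)` exists and `ψ w₁ k`, `ψ w₁ l` are defined.  The points `p = w₀.χ.q x`, `p' = w₁.χ.q x` have
`pr (w₀.χ.σ p) = pr x = pr (w₁.χ.σ p')`.  By `WitG.nest` one of the two parts is contained in the other chart; apply `two_witness`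
with `χ'' = w₁.χ`, `r = w₁.r`, `χ' = w₀.χ` at the point `p'` (`w₀.χ.q (w₁.χ.σ p') = w₀.χ.q x` by `q_smul`), or with the roles exchanged.]
By `PsiP.der` for `ψ w₀ k` and `ψ w₀ l` the derivative is `(bt k - bt w₀) - (bt l - bt w₀) = bt k - bt l`.
-/

set_option autoImplicit false

open Topology Filter Metric

namespace Pool.Agent.H62.EL

open Pool.Agent.H36.BP (EN fs wd IsGermChart)
open Pool.Agent.H14.PP (IsCone Chart Tan CurveAt jac)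
open Pool.Agent.H62.EF (Lat MN pr TorusMap Sec Charts DU)

variable {N : ℕ} {X : Set (EN N)} {Λ : AddSubgroup ℂ} {u : EN N → ℂ}

open Classical in
/-- choice of a witness with the property `P` -/
private noncomputable def pickW (P : Wit X → Prop) (f : Wit X → ℂ) : ℂ := if h : ∃ w, P w then f h.choose else 0

private theorem pickW_congr {P P' : Wit X → Prop} {f f' : Wit X → ℂ} (hP : ∀ w, P w ↔ P' w) (hf : ∀ w, P w → f w = f' w) :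
    pickW P f = pickW P' f' := by
  have hPP : P = P' := funext fun w => propext (hP w)
  subst hPP
  unfold pickW
  by_cases h : ∃ w, P w
  · rw [dif_pos h, dif_pos h]
    exact hf _ h.choose_spec
  · rw [dif_neg h, dif_neg h]

private theorem pickW_eq {P : Wit X → Prop} (h : ∃ w, P w) : ∃ w, P w ∧ ∀ f : Wit X → ℂ, pickW P f = f w :=
  ⟨h.choose, h.choose_spec, fun f => by unfold pickW; rw [dif_pos h]⟩

private theorem pr_chart (χ : Chart X) {x : EN N} (hx : x ∈ X) (hU : x ∈ χ.U) : pr (χ.σ (χ.q x)) = pr x := by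
  obtain ⟨-, c, hc, hxc⟩ := χ.surj x hx hU
  conv_rhs => rw [hxc]
  exact (Pool.Agent.H62.EF.pr_smul _ hc).symm

private theorem q_chart {χ χ' : Chart X} {x : EN N} (hx : x ∈ X) (hU : x ∈ χ.U) (hs : χ.σ (χ.q x) ∈ χ'.U) :
    χ'.q (χ.σ (χ.q x)) = χ'.q x := by
  obtain ⟨-, c, hc, hxc⟩ := χ.surj x hx hU
  conv_rhs => rw [hxc]
  exact (χ'.q_smul _ hs c hc).symm

private theorem mem_W_chart {χ : Chart X} {W : Set (EN N)} (hW : ∀ x ∈ W, ∀ c : ℂ, c ≠ 0 → c • x ∈ W) {x : EN N} (hx : x ∈ X)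
    (hU : x ∈ χ.U) (hxW : x ∈ W) : χ.σ (χ.q x) ∈ W := by
  obtain ⟨-, c, hc, hxc⟩ := χ.surj x hx hU
  have h1 : χ.σ (χ.q x) = c⁻¹ • x := by
    conv_rhs => rw [hxc]
    rw [smul_smul, inv_mul_cancel₀ hc, one_smul]
  rw [h1]
  exact hW x hxW _ (inv_ne_zero hc)

theorem exists_tube {Γ : AddSubgroup ℂ} {B : Set ℂ} {δ : ℝ} (E : EData X Λ u Γ B δ) {b : ℂ} (hb : b ∈ B) :
    ∃ (T : TubeData X) (s η : ℝ), Tube Λ u b s η T := by
  classical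
  obtain ⟨T, s, η, 𝒲, hT, hW⟩ := exists_tube_geo E hb
  refine ⟨T, s, η, hT, ?_⟩
  intro α A hA
  have hprim : ∀ w : Wit X, ∃ A' : ℂ × ℂ → ℂ, w ∈ 𝒲 → IsPrim α w.χ (mo b w.ρ w.i w.j) A' := by
    intro w
    by_cases hw : w ∈ 𝒲
    · obtain ⟨A', hA'⟩ := exists_prim α w.χ (hW.mon w hw)
      exact ⟨A', fun _ => hA'⟩
    · exact ⟨fun _ => 0, fun h => absurd h hw⟩
  choose A' hA' using hprim
  have hpsi : ∀ (w : Wit X) (k : Fin T.m), ∃ ψ : ℂ × ℂ → ℂ, w ∈ 𝒲 → (∀ p ∈ ball (0 : ℂ × ℂ) 2, w.χ.σ p ∈ (T.χ k).U) →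
      PsiP (T.χ k) (A k) w.χ (A' w) w.i w.j ψ := by
    intro w k
    by_cases hw : w ∈ 𝒲 ∧ ∀ p ∈ ball (0 : ℂ × ℂ) 2, w.χ.σ p ∈ (T.χ k).U
    · obtain ⟨ψ, hψ⟩ := exists_psi E.cone E.tor α hT.inj (hT.mon k) (hW.mon w hw.1) (hT.range k) (hW.range w hw.1) (hA k)
        (hA' w hw.1) hw.2
      exact ⟨ψ, fun _ _ => hψ⟩
    · exact ⟨fun _ => 0, fun h1 h2 => absurd ⟨h1, h2⟩ hw⟩
  choose ψ hψ using hpsi
  set Good : EN N → Wit X → Prop := fun x w => w ∈ 𝒲 ∧ x ∈ w.χ.U ∧ w.χ.q x ∈ ball (0 : ℂ × ℂ) w.r with hGood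
  set lam : Fin T.m → EN N → ℂ := fun k x => pickW (Good x) fun w => ψ w k (w.χ.q x) with hlam
  -- the functions are defined at the points of `W k`
  have hdef : ∀ (w : Wit X) (x : EN N) (k : Fin T.m), x ∈ X → Good x w → x ∈ T.W k →
      PsiP (T.χ k) (A k) w.χ (A' w) w.i w.j (ψ w k) := by
    intro w x k hx hg hk
    refine hψ w k hg.1 (hW.sub w hg.1 k ⟨w.χ.q x, hg.2.2, ?_⟩)
    exact mem_W_chart (hT.W_smul k) hx hg.2.1 hk
  refine ⟨lam, ?_, ?_⟩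
  · intro k x hx c hc
    simp only [hlam]
    refine pickW_congr (fun w => ?_) fun w hw => ?_
    · simp only [hGood]
      constructor
      · rintro ⟨h1, h2, h3⟩
        have h4 : x ∈ w.χ.U := by
          have := w.χ.smul_U _ h2 c⁻¹ (inv_ne_zero hc)
          rwa [smul_smul, inv_mul_cancel₀ hc, one_smul] at this
        refine ⟨h1, h4, ?_⟩
        rwa [w.χ.q_smul x h4 c hc] at h3
      · rintro ⟨h1, h2, h3⟩
        refine ⟨h1, w.χ.smul_U x h2 c hc, ?_⟩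
        rwa [w.χ.q_smul x h2 c hc]
    · have h4 : x ∈ w.χ.U := by
        have := w.χ.smul_U _ hw.2.1 c⁻¹ (inv_ne_zero hc)
        rwa [smul_smul, inv_mul_cancel₀ hc, one_smul] at this
      rw [w.χ.q_smul x h4 c hc]
  · intro k l γ ζ hγ hz hk hl
    obtain ⟨z₀, hz₀, hzu⟩ := hz
    have hx₀ : γ ζ ∈ X := hγ.2.self_of_nhds
    obtain ⟨w₀, hw₀, hU₀, hq₀⟩ := hW.cover z₀ hz₀ (γ ζ) hx₀ hzu
    have hg₀ : Good (γ ζ) w₀ := ⟨hw₀, hU₀, hq₀⟩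
    have hk₀ := hdef w₀ (γ ζ) k hx₀ hg₀ hk
    have hl₀ := hdef w₀ (γ ζ) l hx₀ hg₀ hl
    have hd := (hk₀.der γ ζ hγ hU₀).sub (hl₀.der γ ζ hγ hU₀)
    have hval : bt (T.χ k) (A k) γ ζ - bt w₀.χ (A' w₀) γ ζ - (bt (T.χ l) (A l) γ ζ - bt w₀.χ (A' w₀) γ ζ) =
        bt (T.χ k) (A k) γ ζ - bt (T.χ l) (A l) γ ζ := by ring
    rw [hval] at hd
    refine hd.congr_of_eventuallyEq ?_
    -- neighbourhoods
    have hγc : ContinuousAt γ ζ := hγ.1.continuousAt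
    have e1 : ∀ᶠ ξ in 𝓝 ζ, γ ξ ∈ T.W k := hγc.eventually_mem ((hT.W_open k).mem_nhds hk)
    have e2 : ∀ᶠ ξ in 𝓝 ζ, γ ξ ∈ T.W l := hγc.eventually_mem ((hT.W_open l).mem_nhds hl)
    have e3 : ∀ᶠ ξ in 𝓝 ζ, γ ξ ∈ w₀.χ.U := hγc.eventually_mem (w₀.χ.isOpen_U.mem_nhds hU₀)
    have e4 : ∀ᶠ ξ in 𝓝 ζ, w₀.χ.q (γ ξ) ∈ ball (0 : ℂ × ℂ) w₀.r := by
      have h1 : ContinuousAt (fun ξ => w₀.χ.q (γ ξ)) ζ :=
        ContinuousAt.comp (f := γ) (g := w₀.χ.q) (w₀.χ.q_an _ hU₀).continuousAt hγc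
      exact h1.eventually_mem (isOpen_ball.mem_nhds hq₀)
    have e5 : ∀ᶠ ξ in 𝓝 ζ, γ ξ ∈ X → ∃ z ∈ ball b s, u (γ ξ) - z ∈ Λ := by
      obtain ⟨v, hv, hvu⟩ := E.tor.loc (γ ζ) hx₀
      have h1 : v (γ ζ) - z₀ ∈ Λ := by
        have h2 := hvu.self_of_nhds hx₀
        have h3 := Λ.sub_mem hzu h2
        have h4 : u (γ ζ) - z₀ - (u (γ ζ) - v (γ ζ)) = v (γ ζ) - z₀ := by ring
        rwa [h4] at h3
      have h5 : ContinuousAt (fun ξ => v (γ ξ) - (v (γ ζ) - z₀)) ζ :=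
        (ContinuousAt.comp (f := γ) (g := v) hv.continuousAt hγc).sub continuousAt_const
      have h6 : ∀ᶠ ξ in 𝓝 ζ, v (γ ξ) - (v (γ ζ) - z₀) ∈ ball b s := by
        apply h5.eventually_mem
        apply isOpen_ball.mem_nhds
        simpa using hz₀
      filter_upwards [h6, hγc.eventually hvu] with ξ h7 h8 h9
      refine ⟨_, h7, ?_⟩
      have h10 := Λ.add_mem (h8 h9) h1
      have h11 : u (γ ξ) - v (γ ξ) + (v (γ ζ) - z₀) = u (γ ξ) - (v (γ ξ) - (v (γ ζ) - z₀)) := by ring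
      rwa [h11] at h10
    filter_upwards [e1, e2, e3, e4, e5, hγ.2] with ξ f1 f2 f3 f4 f5 f6
    obtain ⟨z, hz, hzx⟩ := f5 f6
    obtain ⟨w', hw', hU', hq'⟩ := hW.cover z hz (γ ξ) f6 hzx
    obtain ⟨w₁, hg₁, hpick⟩ := pickW_eq (P := Good (γ ξ)) ⟨w', hw', hU', hq'⟩
    have hk₁ := hdef w₁ (γ ξ) k f6 hg₁ f1
    have hl₁ := hdef w₁ (γ ξ) l f6 hg₁ f2
    simp only [hlam, hpick, Pi.sub_apply]
    obtain ⟨hw₁, hU₁, hq₁⟩ := hg₁
    have hpr : pr (w₀.χ.σ (w₀.χ.q (γ ξ))) = pr (w₁.χ.σ (w₁.χ.q (γ ξ))) := by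
      rw [pr_chart w₀.χ f6 f3, pr_chart w₁.χ f6 hU₁]
    rcases hW.nest w₀ hw₀ w₁ hw₁ ⟨_, f4, _, hq₁, hpr⟩ with hn | hn
    · have h1 := two_witness E.cone E.tor hT.inj (hW.mon w₁ hw₁) (hW.mon w₀ hw₀) (hW.range w₁ hw₁) hk₁ hl₁ hk₀ hl₀
        (hW.pos w₀ hw₀).1 (hW.pos w₀ hw₀).2 hn (w₀.χ.q (γ ξ)) f4
      rw [q_chart f6 f3 (hn _ f4)] at h1
      exact h1
    · have h1 := two_witness E.cone E.tor hT.inj (hW.mon w₀ hw₀) (hW.mon w₁ hw₁) (hW.range w₀ hw₀) hk₀ hl₀ hk₁ hl₁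
        (hW.pos w₁ hw₁).1 (hW.pos w₁ hw₁).2 hn (w₁.χ.q (γ ξ)) hq₁
      rw [q_chart f6 hU₁ (hn _ hq₁)] at h1
      exact h1.symm

end Pool.Agent.H62.EL
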