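import Pool.Agent.H62.EL.Kz
import Pool.Agent.H62.EL.Jan
import Pool.Agent.H62.EL.Ext
import Pool.Agent.H62.EL.TbB

/-!
# EL Cr: crossing a bad fibre

Let `J z = II α ε z (pr (F z)) (pr (G z))`.  It is differentiable at the points of the annulus (`II_analytic` with `r = 3 ε`; `hrel` at the nearby points of the annulus; `pr ∘ F ∈ Sb` by `sec_sb`).  `ext_annulus`: for `n` and
`r₁ < r < r₂`: `∮ z in C(b, r), (z - b)^n * J z = ∮ II (α.mulPow b n) ε z ..` (`II_mulPow`) `= 0`, because `II (α.mulPow b n) ..` has a primitive `K` on the annulus (`exists_K` with primitives from `exists_prim` and `lam` from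
`Tube.split`; `hrel` for `α.mulPow b n` by `IRel.mulPow`): `circleIntegral.integral_eq_zero_of_hasDerivWithinAt`.
-/

set_option autoImplicit false

open Topology Filter Metric

namespace Pool.Agent.H62.EL

open Pool.Agent.H36.BP (EN fs wd IsGermChart)
open Pool.Agent.H14.PP (IsCone Chart Tan CurveAt jac)
open Pool.Agent.H62.EF (Lat MN pr TorusMap Sec Charts DU)

variable {N : ℕ} {X : Set (EN N)} {Λ : AddSubgroup ℂ} {u : EN N → ℂ}

variable {Γ : AddSubgroup ℂ} {B : Set ℂ} {δ : ℝ}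

theorem crossing (E : EData X Λ u Γ B δ) {b : ℂ} {s η : ℝ} {T : TubeData X} (hT : Tube Λ u b s η T) {α : TForm X Λ u}
    {r₁ r₂ ε : ℝ} (hr₁ : 0 < r₁) (hr : r₁ < r₂) (hr₂ : r₂ < s) (hε : 0 < ε) (hB : ∀ z, r₁ < ‖z - b‖ → ‖z - b‖ < r₂ → z ∉ B)
    {F G : ℂ → EN N} (hF : F ∈ Sec X Λ u) (hG : G ∈ Sec X Λ u)
    (hcap : ∀ z₀, r₁ < ‖z₀ - b‖ → ‖z₀ - b‖ < r₂ → ∃ (χ : Chart X) (c : ℂ) (ρ : ℝ) (k : Fin T.m),
      Cap Λ u χ c ρ z₀ (pr (F z₀)) (3 * ε) ∧ ∀ p ∈ ball (0 : ℂ × ℂ) 2, χ.σ p ∈ T.W k)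
    (hrel : ∀ z₀, r₁ < ‖z₀ - b‖ → ‖z₀ - b‖ < r₂ → ∃ v, IRel α ε z₀ (pr (F z₀)) (pr (G z₀)) v) :
    ∃ J : ℂ → ℂ, DifferentiableOn ℂ J (ball b r₂) ∧ ∀ z, r₁ < ‖z - b‖ → ‖z - b‖ < r₂ → J z = II α ε z (pr (F z)) (pr (G z)) := by
  have hopen : IsOpen {z : ℂ | r₁ < ‖z - b‖ ∧ ‖z - b‖ < r₂} := by
    have h1 : IsOpen {z : ℂ | r₁ < ‖z - b‖} := isOpen_lt continuous_const (by fun_prop)
    have h2 : IsOpen {z : ℂ | ‖z - b‖ < r₂} := isOpen_lt (by fun_prop) continuous_const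
    exact h1.inter h2
  refine ext_annulus hr₁ hr (J := fun z => II α ε z (pr (F z)) (pr (G z))) ?_ ?_
  · intro z₀ hz₀
    obtain ⟨χ, c, ρ, k, hc, _⟩ := hcap z₀ hz₀.1 hz₀.2
    have h := II_analytic E (α := α) (ε := ε) (r := 3 * ε) (f := fun z => pr (F z)) (g := fun z => pr (G z))
      (sec_sb hF) (sec_sb hG) (hB z₀ hz₀.1 hz₀.2) hc (by linarith)
      (Filter.mem_of_superset (hopen.mem_nhds hz₀) fun z hz => hrel z hz.1 hz.2)
    exact h.differentiableAt.differentiableWithinAt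
  · intro n r hr₁r hrr₂
    choose A hA using fun k : Fin T.m => exists_prim (α.mulPow b n) (T.χ k) (hT.geo.mon k)
    obtain ⟨lam, hlam⟩ := hT.split (α.mulPow b n) A hA
    obtain ⟨K, hK⟩ := exists_K E.cone E.tor E.lat hT.geo hA hlam hF hG (r₁ := r₁) hr₂ hε hcap
      (fun z h₁ h₂ => by
        obtain ⟨v, hv⟩ := hrel z h₁ h₂
        exact ⟨_, hv.mulPow b n⟩)
    refine circleIntegral.integral_eq_zero_of_hasDerivWithinAt (f := K) (by linarith) fun z hz => ?_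
    have hz' : ‖z - b‖ = r := by rwa [mem_sphere, dist_eq_norm] at hz
    have h₁ : r₁ < ‖z - b‖ := by rw [hz']; exact hr₁r
    have h₂ : ‖z - b‖ < r₂ := by rw [hz']; exact hrr₂
    obtain ⟨χ, c, ρ, k, hc, _⟩ := hcap z h₁ h₂
    have h := II_mulPow E.cone E.tor E.lat (hrel z h₁ h₂) hc (mem_closedBall_self (by linarith))
      (by rw [dist_self]; linarith) b n
    have h3 := hK z h₁ h₂
    rw [h] at h3
    exact h3.hasDerivWithinAt

end Pool.Agent.H62.EL
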