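import Pool.Agent.H62.EL.Cr

/-!
# EL Cst: the constants

`exists_reps`: `ℬ = B ∩ closedBall 0 R`, `R` the covering radius of `Γ`; finite because its points are `8δ`-separated.

`exists_cst`: let `ℬ` be the finite set of representatives.  For `b ∈ ℬ` let `T, s, η` be the tube, `3 δ < s`, and
`P_b χ := (∃ p ∈ ball 0 2, ∃ z ∈ closedBall b (3δ), u (χ.σ p) - z ∈ Λ) → ∃ k, ∀ p ∈ ball 0 2, χ.σ p ∈ T.W k`.
`hP` of `exists_cap_P` (with `δ' = δ`, `R = ‖b‖ + 3 δ`): let `z₀ ∈ Gd B δ`, `f ∈ Sb`, `Ψ` a lift of `f` near `z₀` (`sb_lift`).  If `z₀ - z ∈ Λ` for some `z ∈ closedBall b (3δ) ⊆ ball b s`: `u (Ψ z₀) - z ∈ Λ`, so `Ψ z₀ ∈ T.W k` for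
some `k` (`TubeG.cover`), and all `x ∈ X` with `pr x` near `f z₀` are in `T.W k` (`near_of_pr`, `W_smul`).  Otherwise the distance of `z₀` to the closed set `closedBall b (3δ) + Λ` is positive, and for `x ∈ X` with `pr x` near
`f z₀` the value `u x` modulo `Λ` is near `z₀` (`TorusMap.loc` at `Ψ z₀`, `TorusMap.smul`), so the premise of `P_b χ` fails for charts with all points near `f z₀`.
So there is `r_b > 0`.  Let `r > 0` be `≤` all `r_b` (`b ∈ ℬ`) and `≤` the `r` of `exists_cap` (`δ' = δ`); `Cap` is monotone in `r`.  `ε = r / 3`; `ε₀` from `exists_irel` (`δ' = δ`, `ε`); `C` from `II_bdd`.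
`cross`: let first `b ∈ ℬ`: `crossing` with `r₁ = δ`, `r₂ = 3δ`: points `z₀` of the annulus are in `Gd B δ` (`sep`: the other points of `B` are at distance `≥ 8δ - 3δ`), in particular not in `B`; `hcap`: the chart of `exists_cap_P`
at `z₀` (`‖z₀‖ ≤ R`) for `f = pr ∘ F` satisfies `P_b`, and the premise holds with the point `p = χ.q (F z₀)` (`Cap`: `F z₀ ∈ χ.U`; `u (χ.σ p) - z₀ ∈ Λ`).  `hrel`: closeness `≤ ε₀`.  For `b = b' + l`, `b' ∈ ℬ`, `l ∈ Γ`: apply the case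
`b'` to `F (· + l)`, `G (· + l)` (`sec_trans`), and `J z = J' (z - l)` (`II_per`).
-/

set_option autoImplicit false

open Topology Filter Metric Pointwise

namespace Pool.Agent.H62.EL

open Pool.Agent.H36.BP (EN fs wd IsGermChart)
open Pool.Agent.H14.PP (IsCone Chart Tan CurveAt jac)
open Pool.Agent.H62.EF (Lat MN pr TorusMap Sec Charts DU)

variable {N : ℕ} {X : Set (EN N)} {Λ : AddSubgroup ℂ} {u : EN N → ℂ}

variable {Γ : AddSubgroup ℂ} {B : Set ℂ} {δ : ℝ}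

theorem exists_reps (hΓ : Lat Γ) (hB : BadSet B Λ δ) (hle : Γ ≤ Λ) :
    ∃ ℬ : Set ℂ, ℬ.Finite ∧ ℬ ⊆ B ∧ ∀ b ∈ B, ∃ b' ∈ ℬ, ∃ l ∈ Γ, b = b' + l := by
  obtain ⟨R, hR, hcov⟩ := hΓ.cocompact
  refine ⟨B ∩ closedBall 0 R, ?_, Set.inter_subset_left, ?_⟩
  · have hsep : (B ∩ closedBall (0 : ℂ) R).Pairwise fun x y => 8 * δ ≤ dist x y := by
      intro x hx y hy hxy
      rw [dist_eq_norm]
      exact hB.sep x hx.1 y hy.1 hxy
    have h8 : 0 < 8 * δ := by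
      have := hB.pos
      positivity
    have hcl : IsClosed (B ∩ closedBall (0 : ℂ) R) := Metric.isClosed_of_pairwise_le_dist h8 hsep
    have hco : IsCompact (B ∩ closedBall (0 : ℂ) R) :=
      (isCompact_closedBall (0 : ℂ) R).of_isClosed_subset hcl Set.inter_subset_right
    have hdis : DiscreteTopology ↥(B ∩ closedBall (0 : ℂ) R) := by
      refine DiscreteTopology.of_forall_le_dist h8 ?_
      intro x y hxy
      exact hsep x.2 y.2 fun h => hxy (Subtype.ext h)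
    exact hco.finite (isDiscrete_iff_discreteTopology.mpr hdis)
  · intro b hb
    obtain ⟨l, hl, hbl⟩ := hcov b
    refine ⟨b + -l, ⟨hB.inv b hb _ (hle (Γ.neg_mem hl)), ?_⟩, l, hl, by ring⟩
    rw [mem_closedBall_zero_iff, ← sub_eq_add_neg]
    exact hbl

/-- the constants -/
structure Cst (X : Set (EN N)) (Λ : AddSubgroup ℂ) (u : EN N → ℂ) (B : Set ℂ) (δ : ℝ) (α : TForm X Λ u) (ε ε₀ C : ℝ) : Prop where
  ε_pos : 0 < ε
  ε₀_pos : 0 < ε₀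
  C_nonneg : 0 ≤ C
  cap : ∀ z₀ ∈ Gd B δ, ∀ f ∈ Sb X Λ u B, ∃ (χ : Chart X) (c : ℂ) (ρ : ℝ), Cap Λ u χ c ρ z₀ (f z₀) (3 * ε)
  rel : ∀ f ∈ Sb X Λ u B, ∀ g ∈ Sb X Λ u B, ∀ z ∈ Gd B δ, dist (f z) (g z) ≤ ε₀ → ∃ v, IRel α ε z (f z) (g z) v
  bdd : ∀ f ∈ Sb X Λ u B, ∀ g ∈ Sb X Λ u B, ∀ z ∈ Gd B δ, ‖II α ε z (f z) (g z)‖ ≤ C
  cross : ∀ b ∈ B, ∀ F ∈ Sec X Λ u, ∀ G ∈ Sec X Λ u, (∀ z, δ ≤ ‖z - b‖ → ‖z - b‖ ≤ 3 * δ → dist (pr (F z)) (pr (G z)) ≤ ε₀) →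
    ∃ J : ℂ → ℂ, DifferentiableOn ℂ J (ball b (3 * δ)) ∧
      ∀ z, δ < ‖z - b‖ → ‖z - b‖ < 3 * δ → J z = II α ε z (pr (F z)) (pr (G z))

private theorem Cap.mono {χ : Chart X} {c : ℂ} {ρ : ℝ} {z₀ : ℂ} {y₀ : MN N} {r r' : ℝ} (h : Cap Λ u χ c ρ z₀ y₀ r)
    (hr : r' ≤ r) : Cap Λ u χ c ρ z₀ y₀ r' :=
  ⟨h.mon, fun z hz x hx hxz hd => h.cap z (closedBall_subset_closedBall hr hz) x hx hxz (hd.trans hr)⟩

private theorem ne_zero (hX : IsCone X) {x : EN N} (hx : x ∈ X) : x ≠ 0 := fun h => hX.zero_notMem (h ▸ hx)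

private theorem isClosed_lat (hΛ : Lat Λ) : IsClosed (Λ : Set ℂ) := by
  obtain ⟨δ, hδ, h⟩ := hΛ.discrete
  refine Metric.isClosed_of_pairwise_le_dist hδ ?_
  intro x hx y hy hxy
  by_contra hlt
  push Not at hlt
  rw [dist_eq_norm] at hlt
  exact hxy (sub_eq_zero.mp (h _ (Λ.sub_mem hx hy) hlt))

private theorem notMem_of_gd (hδ : 0 < δ) {z : ℂ} (hz : z ∈ Gd B δ) : z ∉ B := by
  intro h
  have := hz z h
  rw [sub_self, norm_zero] at this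
  linarith

/-- charts with all points near a point over `z₀`: in one of the cones, or nothing is over the disc -/
private theorem near_tube (E : EData X Λ u Γ B δ) {b : ℂ} {T : TubeData X} {s η r : ℝ} (hT : TubeG Λ u b s η T) (hs : r < s)
    {x₀ : EN N} (hx₀ : x₀ ∈ X) {z₀ : ℂ} (hz₀ : u x₀ - z₀ ∈ Λ) : ∃ η' : ℝ, 0 < η' ∧ ∀ χ : Chart X,
      (∀ p ∈ ball (0 : ℂ × ℂ) 2, dist (pr (χ.σ p)) (pr x₀) < η') →
      (∃ p ∈ ball (0 : ℂ × ℂ) 2, ∃ z ∈ closedBall b r, u (χ.σ p) - z ∈ Λ) → ∃ k, ∀ p ∈ ball (0 : ℂ × ℂ) 2, χ.σ p ∈ T.W k := by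
  have hX := E.cone
  have hx0 := ne_zero hX hx₀
  by_cases hc : ∃ z ∈ closedBall b r, z₀ - z ∈ Λ
  · obtain ⟨z, hz, hzz⟩ := hc
    have h1 : u x₀ - z ∈ Λ := by
      have h2 : u x₀ - z = (u x₀ - z₀) + (z₀ - z) := by ring
      rw [h2]
      exact Λ.add_mem hz₀ hzz
    obtain ⟨k, hk⟩ := hT.cover z (closedBall_subset_ball hs hz) x₀ hx₀ h1
    obtain ⟨η', hη', h⟩ := Pool.Agent.H62.EF.near_of_pr hx0 ((hT.W_open k).mem_nhds hk)
    refine ⟨η', hη', fun χ hχ _ => ⟨k, fun p hp => ?_⟩⟩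
    obtain ⟨c, hc, hcp⟩ := h _ (ne_zero hX (χ.σ_mem p hp).1) (hχ p hp)
    have := hT.W_smul k _ hcp c⁻¹ (inv_ne_zero hc)
    rwa [smul_smul, inv_mul_cancel₀ hc, one_smul] at this
  · push Not at hc
    -- the closed set
    have hcl : IsClosed (closedBall b r + (Λ : Set ℂ)) := IsClosed.add_left_of_isCompact (isClosed_lat E.lat) (isCompact_closedBall b r)
    have hz₀C : z₀ ∉ closedBall b r + (Λ : Set ℂ) := by
      rintro ⟨z, hz, l, hl, hzl⟩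
      refine hc z hz ?_
      have : z₀ - z = l := by
        rw [← hzl]
        simp
      rw [this]
      exact hl
    obtain ⟨v, hv, hv'⟩ := E.tor.loc x₀ hx₀
    have hl₁ : v x₀ - z₀ ∈ Λ := by
      have h2 : v x₀ - z₀ = (u x₀ - z₀) - (u x₀ - v x₀) := by ring
      rw [h2]
      exact Λ.sub_mem hz₀ (hv'.self_of_nhds hx₀)
    have h3 : ∀ᶠ y in 𝓝 x₀, v y - (v x₀ - z₀) ∈ (closedBall b r + (Λ : Set ℂ))ᶜ := by
      have hcont : ContinuousAt (fun y => v y - (v x₀ - z₀)) x₀ := hv.continuousAt.sub continuousAt_const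
      refine hcont.eventually (hcl.isOpen_compl.mem_nhds ?_)
      have : v x₀ - (v x₀ - z₀) = z₀ := by ring
      show v x₀ - (v x₀ - z₀) ∈ (closedBall b r + (Λ : Set ℂ))ᶜ
      rw [this]
      exact hz₀C
    obtain ⟨η', hη', h⟩ := Pool.Agent.H62.EF.near_of_pr hx0 (hv'.and h3)
    refine ⟨η', hη', fun χ hχ => ?_⟩
    rintro ⟨p, hp, z, hz, hpz⟩
    exfalso
    have hpX := (χ.σ_mem p hp).1
    obtain ⟨c, hc0, hcp1, hcp2⟩ := h _ (ne_zero hX hpX) (hχ p hp)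
    have hcpX := hX.smul_mem _ hpX c hc0
    have e1 := hcp1 hcpX
    have e2 := E.tor.smul _ hpX c hc0
    refine hcp2 ⟨z, hz, v (c • χ.σ p) - (v x₀ - z₀) - z, ?_, by simp⟩
    have e3 : v (c • χ.σ p) - (v x₀ - z₀) - z =
        (u (χ.σ p) - z) + (u (c • χ.σ p) - u (χ.σ p)) - (u (c • χ.σ p) - v (c • χ.σ p)) - (v x₀ - z₀) := by ring
    rw [SetLike.mem_coe, e3]
    exact Λ.sub_mem (Λ.sub_mem (Λ.add_mem hpz e2) e1) hl₁

private theorem sec_shift {F : ℂ → EN N} (hF : F ∈ Sec X Λ u) {l : ℂ} (hl : l ∈ Λ) : (fun z => F (z + l)) ∈ Sec X Λ u := by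
  refine ⟨hF.1.comp (differentiable_id.add_const l), fun z => hF.2.1 _, fun z => ?_⟩
  have h1 : u (F (z + l)) - z = (u (F (z + l)) - (z + l)) + l := by ring
  show u (F (z + l)) - z ∈ Λ
  rw [h1]
  exact Λ.add_mem (hF.2.2 _) hl

theorem exists_cst (E : EData X Λ u Γ B δ) {α : TForm X Λ u} (hper : Per α Γ) {ℬ : Set ℂ} (hfin : ℬ.Finite) (hsub : ℬ ⊆ B)
    (hrep : ∀ b ∈ B, ∃ b' ∈ ℬ, ∃ l ∈ Γ, b = b' + l)
    (hT : ∀ b ∈ ℬ, ∃ (T : TubeData X) (s η : ℝ), Tube Λ u b s η T ∧ 3 * δ < s) :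
    ∃ ε ε₀ C : ℝ, Cst X Λ u B δ α ε ε₀ C := by
  have hδ : 0 < δ := E.bad.pos
  -- charts at the bad fibres
  have h1 : ∀ b ∈ ℬ, ∀ᶠ r in 𝓝[>] (0 : ℝ), ∃ (T : TubeData X) (s η : ℝ), Tube Λ u b s η T ∧ 3 * δ < s ∧
      ∀ z₀ ∈ Gd B δ, ‖z₀‖ ≤ ‖b‖ + 3 * δ → ∀ f ∈ Sb X Λ u B, ∃ (χ : Chart X) (c : ℂ) (ρ : ℝ), Cap Λ u χ c ρ z₀ (f z₀) r ∧
        ((∃ p ∈ ball (0 : ℂ × ℂ) 2, ∃ z ∈ closedBall b (3 * δ), u (χ.σ p) - z ∈ Λ) →
          ∃ k, ∀ p ∈ ball (0 : ℂ × ℂ) 2, χ.σ p ∈ T.W k) := by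
    intro b hb
    obtain ⟨T, s, η, hTb, hs⟩ := hT b hb
    obtain ⟨r, hr, h⟩ := exists_cap_P E (R := ‖b‖ + 3 * δ) hδ
      (fun χ => (∃ p ∈ ball (0 : ℂ × ℂ) 2, ∃ z ∈ closedBall b (3 * δ), u (χ.σ p) - z ∈ Λ) →
        ∃ k, ∀ p ∈ ball (0 : ℂ × ℂ) 2, χ.σ p ∈ T.W k) (by
      intro z₀ hz₀ _ f hf
      obtain ⟨r', Ψ, hr', -, hΨ⟩ := sb_lift E hf (notMem_of_gd hδ hz₀)
      obtain ⟨hΨX, hΨu, hΨf⟩ := hΨ z₀ (mem_ball_self hr')
      obtain ⟨η', hη', h⟩ := near_tube E hTb.geo hs hΨX hΨu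
      exact ⟨η', hη', fun χ hχ => h χ fun p hp => by rw [hΨf]; exact hχ p hp⟩)
    have e1 : ∀ᶠ r' in 𝓝[>] (0 : ℝ), r' ≤ r := mem_nhdsWithin_of_mem_nhds (ge_mem_nhds hr)
    filter_upwards [e1] with r' hr'
    refine ⟨T, s, η, hTb, hs, fun z₀ hz₀ hz₀R f hf => ?_⟩
    obtain ⟨χ, c, ρ, hcap, hP⟩ := h z₀ hz₀ hz₀R f hf
    exact ⟨χ, c, ρ, hcap.mono hr', hP⟩
  obtain ⟨r₁, hr₁, hcap₁⟩ := exists_cap E hδ
  have e2 : ∀ᶠ r' in 𝓝[>] (0 : ℝ), r' ≤ r₁ := mem_nhdsWithin_of_mem_nhds (ge_mem_nhds hr₁)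
  obtain ⟨r, ⟨hrℬ, hrr₁⟩, hr⟩ := ((((Set.Finite.eventually_all hfin).mpr h1).and e2).and self_mem_nhdsWithin).exists
  have hr0 : 0 < r := hr
  have hcap : ∀ z₀ ∈ Gd B δ, ∀ f ∈ Sb X Λ u B, ∃ (χ : Chart X) (c : ℂ) (ρ : ℝ), Cap Λ u χ c ρ z₀ (f z₀) r := by
    intro z₀ hz₀ f hf
    obtain ⟨χ, c, ρ, h⟩ := hcap₁ z₀ hz₀ f hf
    exact ⟨χ, c, ρ, h.mono hrr₁⟩
  have hε : 0 < r / 3 := by positivity
  have h3ε : 3 * (r / 3) = r := by ring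
  obtain ⟨ε₀, hε₀, hirel⟩ := exists_irel E hδ hε
  obtain ⟨C, hC, hbdd⟩ := II_bdd E hper hδ (by linarith : r / 3 < r) hcap
  have hgd : ∀ b ∈ B, ∀ z : ℂ, δ ≤ ‖z - b‖ → ‖z - b‖ ≤ 3 * δ → z ∈ Gd B δ := by
    intro b hb z h1 h2 b' hb'
    by_cases hbb : b = b'
    · rw [← hbb]
      exact h1
    · have h8 := E.bad.sep b hb b' hb' hbb
      have h9 : ‖b - b'‖ ≤ ‖z - b'‖ + ‖z - b‖ := by
        have : b - b' = (z - b') - (z - b) := by ring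
        rw [this]
        exact norm_sub_le _ _
      linarith
  -- the case of a representative
  have hcross : ∀ b ∈ ℬ, ∀ F ∈ Sec X Λ u, ∀ G ∈ Sec X Λ u,
      (∀ z, δ ≤ ‖z - b‖ → ‖z - b‖ ≤ 3 * δ → dist (pr (F z)) (pr (G z)) ≤ ε₀) →
      ∃ J : ℂ → ℂ, DifferentiableOn ℂ J (ball b (3 * δ)) ∧
        ∀ z, δ < ‖z - b‖ → ‖z - b‖ < 3 * δ → J z = II α (r / 3) z (pr (F z)) (pr (G z)) := by
    intro b hb F hF G hG hFG
    obtain ⟨T, s, η, hTb, hs, hch⟩ := hrℬ b hb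
    refine crossing E hTb hδ (by linarith) hs hε ?_ hF hG ?_ ?_
    · intro z hz1 hz2
      exact notMem_of_gd hδ (hgd b (hsub hb) z hz1.le hz2.le)
    · intro z₀ hz1 hz2
      have hz₀R : ‖z₀‖ ≤ ‖b‖ + 3 * δ := by
        have : z₀ = b + (z₀ - b) := by ring
        rw [this]
        exact (norm_add_le _ _).trans (by linarith)
      obtain ⟨χ, c, ρ, hcap', hP⟩ := hch z₀ (hgd b (hsub hb) z₀ hz1.le hz2.le) hz₀R _ (sec_sb (B := B) hF)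
      obtain ⟨hU, hq, hcρ⟩ := hcap'.cap z₀ (mem_closedBall_self hr0.le) (F z₀) (hF.2.1 z₀) (hF.2.2 z₀)
        (by rw [dist_self]; exact hr0.le)
      obtain ⟨hq2, -⟩ := χ.surj (F z₀) (hF.2.1 z₀) hU
      obtain ⟨k, hk⟩ := hP ⟨χ.q (F z₀), hq2, z₀, by rw [mem_closedBall, dist_eq_norm]; exact hz2.le, by
        have := hcap'.mon.lift _ hq2
        have e : mo c ρ 1 0 (χ.q (F z₀)) = z₀ := by
          unfold mo
          rw [pow_one, pow_zero, mul_one]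
          exact hcρ
        rw [e] at this
        exact this⟩
      refine ⟨χ, c, ρ, k, ?_, hk⟩
      rw [h3ε]
      exact hcap'
    · intro z₀ hz1 hz2
      exact hirel _ (sec_sb (B := B) hF) _ (sec_sb (B := B) hG) z₀ (hgd b (hsub hb) z₀ hz1.le hz2.le) (hFG z₀ hz1.le hz2.le) α
  refine ⟨r / 3, ε₀, C, hε, hε₀, hC, ?_, ?_, hbdd, ?_⟩
  · intro z₀ hz₀ f hf
    rw [h3ε]
    exact hcap z₀ hz₀ f hf
  · intro f hf g hg z hz hd
    exact hirel f hf g hg z hz hd α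
  · intro b hb F hF G hG hFG
    obtain ⟨b', hb', l, hl, rfl⟩ := hrep b hb
    obtain ⟨J, hJ, hJz⟩ := hcross b' hb' (fun z => F (z + l)) (sec_shift hF (E.le hl)) (fun z => G (z + l)) (sec_shift hG (E.le hl)) (by
      intro z hz1 hz2
      refine hFG (z + l) ?_ ?_
      · have : z + l - (b' + l) = z - b' := by ring
        rw [this]
        exact hz1
      · have : z + l - (b' + l) = z - b' := by ring
        rw [this]
        exact hz2)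
    refine ⟨fun z => J (z - l), ?_, ?_⟩
    · refine hJ.comp (differentiable_id.sub_const l).differentiableOn ?_
      intro z hz
      rw [mem_ball, dist_eq_norm] at hz ⊢
      have : z - l - b' = z - (b' + l) := by ring
      show ‖z - l - b'‖ < 3 * δ
      rw [this]
      exact hz
    · intro z hz1 hz2
      have e : z - l - b' = z - (b' + l) := by ring
      have h2 := hJz (z - l) (by rw [e]; exact hz1) (by rw [e]; exact hz2)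
      have h3 := II_per E.tor E.le hper hl (r / 3) (z - l) (pr (F z)) (pr (G z))
      rw [sub_add_cancel] at h2 h3
      show J (z - l) = _
      rw [h2, h3]

end Pool.Agent.H62.EL
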