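import Pool.Agent.H62.EL.Tc

/-!
# EL Db: the form `β = - A ds` in another chart

Let `τ = χ.q ∘ χ'.σ`, analytic near `p` if `χ'.σ p ∈ χ.U`, with values in `ball 0 2` (`Chart.surj`).  `bc χ A χ' e = - A(τ) ∂_e τ₁`.
`bc_an`: clear (`fderiv` of an analytic function is analytic).
`bc_closed`: `∂₁ b₂ - ∂₂ b₁ = -(A_s ∂₁τ₁ + A_t ∂₁τ₂) ∂₂τ₁ + (A_s ∂₂τ₁ + A_t ∂₂τ₂) ∂₁τ₁ - A (∂₁∂₂τ₁ - ∂₂∂₁τ₁) = A_t (τ) (∂₁τ₁ ∂₂τ₂ - ∂₂τ₁ ∂₁τ₂)`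
(mixed derivatives are symmetric), `A_t (τ p) = tc α χ υ (τ p)` and `tc α χ υ (τ p) * jac τ p = tc α χ' υ' p` (`tc_trans`).
`bt_eq`: near `ζ`, `χ.q (γ ξ) = τ (χ'.q (γ ξ))` (`γ ξ = c • χ'.σ (χ'.q (γ ξ))`, `q_smul`); chain rule; at `ζ`: `χ.q (γ ζ) = τ (χ'.q (γ ζ))`.
-/

set_option autoImplicit false

open Topology Filter Metric

namespace Pool.Agent.H62.EL

open Pool.Agent.H36.BP (EN fs wd IsGermChart)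
open Pool.Agent.H14.PP (IsCone Chart Tan CurveAt jac)
open Pool.Agent.H62.EF (Lat MN pr TorusMap Sec Charts DU)

variable {N : ℕ} {X : Set (EN N)} {Λ : AddSubgroup ℂ} {u : EN N → ℂ}

private theorem Db_tau_an (χ χ' : Chart X) {p : ℂ × ℂ} (hp : p ∈ ball (0 : ℂ × ℂ) 2) (hU : χ'.σ p ∈ χ.U) :
    AnalyticAt ℂ (fun y => χ.q (χ'.σ y)) p :=
  AnalyticAt.comp (g := χ.q) (f := χ'.σ) (χ.q_an _ hU) (χ'.σ_an p hp)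

private theorem Db_pair {E : Type*} [NormedAddCommGroup E] [NormedSpace ℂ E] (L : (ℂ × ℂ) →L[ℂ] E) (w : ℂ × ℂ) :
    L w = w.1 • L (1, 0) + w.2 • L (0, 1) := by
  rw [← map_smul, ← map_smul, ← map_add]
  congr 1
  ext
  · simp
  · simp

theorem bc_an (χ χ' : Chart X) {A : ℂ × ℂ → ℂ} (hA : ∀ p ∈ ball (0 : ℂ × ℂ) 2, AnalyticAt ℂ A p) {p : ℂ × ℂ}
    (hp : p ∈ ball (0 : ℂ × ℂ) 2) (hU : χ'.σ p ∈ χ.U) (e : ℂ × ℂ) : AnalyticAt ℂ (bc χ A χ' e) p := by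
  have hτ : AnalyticAt ℂ (fun y => χ.q (χ'.σ y)) p := Db_tau_an χ χ' hp hU
  have hτb : χ.q (χ'.σ p) ∈ ball (0 : ℂ × ℂ) 2 := (χ.surj _ (χ'.σ_mem p hp).1 hU).1
  have h1 : AnalyticAt ℂ (fun y => A (χ.q (χ'.σ y))) p :=
    AnalyticAt.comp (g := A) (f := fun y => χ.q (χ'.σ y)) (hA _ hτb) hτ
  have h2 : AnalyticAt ℂ (fun y => fderiv ℂ (fun y => χ.q (χ'.σ y)) y e) p :=
    AnalyticAt.comp (g := fun L : (ℂ × ℂ) →L[ℂ] (ℂ × ℂ) => ContinuousLinearMap.apply ℂ (ℂ × ℂ) e L)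
      (f := fderiv ℂ (fun y => χ.q (χ'.σ y))) ((ContinuousLinearMap.apply ℂ (ℂ × ℂ) e).analyticAt _) hτ.fderiv
  have h3 : AnalyticAt ℂ (fun y => (fderiv ℂ (fun y => χ.q (χ'.σ y)) y e).1) p :=
    AnalyticAt.comp (g := fun v : ℂ × ℂ => v.1) (f := fun y => fderiv ℂ (fun y => χ.q (χ'.σ y)) y e)
      ((ContinuousLinearMap.fst ℂ ℂ ℂ).analyticAt _) h2
  exact (h1.mul h3).neg

private theorem Db_fderiv_bc (χ χ' : Chart X) {A : ℂ × ℂ → ℂ} (hA : ∀ p ∈ ball (0 : ℂ × ℂ) 2, AnalyticAt ℂ A p) {p : ℂ × ℂ}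
    (hp : p ∈ ball (0 : ℂ × ℂ) 2) (hU : χ'.σ p ∈ χ.U) (e w : ℂ × ℂ) :
    fderiv ℂ (bc χ A χ' e) p w =
      -(A (χ.q (χ'.σ p)) * (fderiv ℂ (fderiv ℂ (fun y => χ.q (χ'.σ y))) p w e).1 +
        (fderiv ℂ (fun y => χ.q (χ'.σ y)) p e).1 * fderiv ℂ A (χ.q (χ'.σ p)) (fderiv ℂ (fun y => χ.q (χ'.σ y)) p w)) := by
  have hτ : AnalyticAt ℂ (fun y => χ.q (χ'.σ y)) p := Db_tau_an χ χ' hp hU
  have hτb : χ.q (χ'.σ p) ∈ ball (0 : ℂ × ℂ) 2 := (χ.surj _ (χ'.σ_mem p hp).1 hU).1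
  have h1 : HasFDerivAt (fun y => A (χ.q (χ'.σ y)))
      ((fderiv ℂ A (χ.q (χ'.σ p))).comp (fderiv ℂ (fun y => χ.q (χ'.σ y)) p)) p :=
    HasFDerivAt.comp (g := A) (f := fun y => χ.q (χ'.σ y)) p (hA _ hτb).differentiableAt.hasFDerivAt
      hτ.differentiableAt.hasFDerivAt
  have h2 : HasFDerivAt (fun y => fderiv ℂ (fun y => χ.q (χ'.σ y)) y e)
      ((ContinuousLinearMap.apply ℂ (ℂ × ℂ) e).comp (fderiv ℂ (fderiv ℂ (fun y => χ.q (χ'.σ y))) p)) p :=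
    HasFDerivAt.comp (g := fun L : (ℂ × ℂ) →L[ℂ] (ℂ × ℂ) => ContinuousLinearMap.apply ℂ (ℂ × ℂ) e L) p
      (ContinuousLinearMap.apply ℂ (ℂ × ℂ) e).hasFDerivAt hτ.fderiv.differentiableAt.hasFDerivAt
  have h3 : HasFDerivAt (fun y => (fderiv ℂ (fun y => χ.q (χ'.σ y)) y e).1)
      ((ContinuousLinearMap.fst ℂ ℂ ℂ).comp
        ((ContinuousLinearMap.apply ℂ (ℂ × ℂ) e).comp (fderiv ℂ (fderiv ℂ (fun y => χ.q (χ'.σ y))) p))) p :=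
    HasFDerivAt.comp (g := fun v : ℂ × ℂ => ContinuousLinearMap.fst ℂ ℂ ℂ v) p
      (ContinuousLinearMap.fst ℂ ℂ ℂ).hasFDerivAt h2
  have h4 : HasFDerivAt (bc χ A χ' e) _ p := (h1.mul h3).neg
  rw [h4.fderiv]
  simp

theorem bc_closed (hX : IsCone X) (hu : TorusMap X Λ u) (α : TForm X Λ u) (χ χ' : Chart X) {υ υ' A : ℂ × ℂ → ℂ}
    (hA : IsPrim α χ υ A) {p : ℂ × ℂ} (hp : p ∈ ball (0 : ℂ × ℂ) 2) (hU : χ'.σ p ∈ χ.U) (hl : u (χ'.σ p) - υ' p ∈ Λ)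
    (he : υ (χ.q (χ'.σ p)) = υ' p) :
    fderiv ℂ (bc χ A χ' (0, 1)) p (1, 0) - fderiv ℂ (bc χ A χ' (1, 0)) p (0, 1) = tc α χ' υ' p := by
  have hτ : AnalyticAt ℂ (fun y => χ.q (χ'.σ y)) p := Db_tau_an χ χ' hp hU
  have hτb : χ.q (χ'.σ p) ∈ ball (0 : ℂ × ℂ) 2 := (χ.surj _ (χ'.σ_mem p hp).1 hU).1
  have hsym : fderiv ℂ (fderiv ℂ (fun y => χ.q (χ'.σ y))) p (1, 0) (0, 1) =
      fderiv ℂ (fderiv ℂ (fun y => χ.q (χ'.σ y))) p (0, 1) (1, 0) :=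
    (ContDiffAt.isSymmSndFDerivAt_of_omega (hτ.contDiffAt)).eq _ _
  rw [Db_fderiv_bc χ χ' hA.an hp hU, Db_fderiv_bc χ χ' hA.an hp hU, hsym,
    Db_pair (fderiv ℂ A (χ.q (χ'.σ p))) (fderiv ℂ (fun y => χ.q (χ'.σ y)) p (1, 0)),
    Db_pair (fderiv ℂ A (χ.q (χ'.σ p))) (fderiv ℂ (fun y => χ.q (χ'.σ y)) p (0, 1)), hA.der _ hτb,
    tc_trans hX hu α χ χ' hp hU hl he]
  simp only [smul_eq_mul, jac]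
  ring

theorem bt_eq (χ χ' : Chart X) (A : ℂ × ℂ → ℂ) {γ : ℂ → EN N} {ζ : ℂ} (hγ : CurveAt X γ ζ) (hU' : γ ζ ∈ χ'.U) (hU : γ ζ ∈ χ.U) :
    bt χ A γ ζ = bc χ A χ' (1, 0) (χ'.q (γ ζ)) * (deriv (fun ξ => χ'.q (γ ξ)) ζ).1 +
      bc χ A χ' (0, 1) (χ'.q (γ ζ)) * (deriv (fun ξ => χ'.q (γ ξ)) ζ).2 := by
  have hkey : ∀ x ∈ X, x ∈ χ'.U → x ∈ χ.U → χ'.σ (χ'.q x) ∈ χ.U ∧ χ.q x = χ.q (χ'.σ (χ'.q x)) := by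
    intro x hx hx' hxU
    obtain ⟨-, c, hc, hxc⟩ := χ'.surj x hx hx'
    have h1 : χ'.σ (χ'.q x) = c⁻¹ • x := by
      conv_rhs => rw [hxc]
      rw [smul_smul, inv_mul_cancel₀ hc, one_smul]
    have h2 : χ'.σ (χ'.q x) ∈ χ.U := by
      rw [h1]
      exact χ.smul_U x hxU _ (inv_ne_zero hc)
    refine ⟨h2, ?_⟩
    rw [h1, χ.q_smul x hxU _ (inv_ne_zero hc)]
  have hγX : γ ζ ∈ X := hγ.mem
  obtain ⟨hq', -⟩ := χ'.surj _ hγX hU'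
  obtain ⟨hσU, hq⟩ := hkey _ hγX hU' hU
  have hτ : AnalyticAt ℂ (fun y => χ.q (χ'.σ y)) (χ'.q (γ ζ)) := Db_tau_an χ χ' hq' hσU
  have hq'an : AnalyticAt ℂ (fun ξ => χ'.q (γ ξ)) ζ :=
    AnalyticAt.comp (g := χ'.q) (f := γ) (χ'.q_an _ hU') hγ.1
  have hev : (fun ξ => χ.q (γ ξ)) =ᶠ[𝓝 ζ] fun ξ => χ.q (χ'.σ (χ'.q (γ ξ))) := by
    have h1 : ∀ᶠ ξ in 𝓝 ζ, γ ξ ∈ χ'.U := hγ.1.continuousAt.eventually (χ'.isOpen_U.mem_nhds hU')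
    have h2 : ∀ᶠ ξ in 𝓝 ζ, γ ξ ∈ χ.U := hγ.1.continuousAt.eventually (χ.isOpen_U.mem_nhds hU)
    filter_upwards [hγ.2, h1, h2] with ξ h3 h4 h5
    exact (hkey _ h3 h4 h5).2
  have hd : HasDerivAt (fun ξ => χ.q (χ'.σ (χ'.q (γ ξ))))
      (fderiv ℂ (fun y => χ.q (χ'.σ y)) (χ'.q (γ ζ)) (deriv (fun ξ => χ'.q (γ ξ)) ζ)) ζ :=
    HasFDerivAt.comp_hasDerivAt (l := fun y => χ.q (χ'.σ y)) (f := fun ξ => χ'.q (γ ξ)) ζ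
      hτ.differentiableAt.hasFDerivAt hq'an.differentiableAt.hasDerivAt
  have hd' : deriv (fun ξ => χ.q (γ ξ)) ζ =
      fderiv ℂ (fun y => χ.q (χ'.σ y)) (χ'.q (γ ζ)) (deriv (fun ξ => χ'.q (γ ξ)) ζ) := by
    rw [hev.deriv_eq, hd.deriv]
  unfold bt bc
  rw [hd', Db_pair (fderiv ℂ (fun y => χ.q (χ'.σ y)) (χ'.q (γ ζ))) (deriv (fun ξ => χ'.q (γ ξ)) ζ), ← hq]
  simp only [Prod.fst_add, Prod.smul_fst, smul_eq_mul]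
  ring

end Pool.Agent.H62.EL
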