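import Pool.Agent.H62.EL.Cst
import Pool.Agent.H62.EL.Bl

/-!
# EL Dc: decay for the sections

`decay_sec`: let `κ, r₀` be from `lattice_decay hΓ`, `r₁ = r₀ + 6 δ`.  Let `F, G` be `ε₀`-close on `Gd B δ ∩ closedBall c R`, `R' = R - 6δ ≥ r₀` (there is a `z` with `‖z - c‖ ≤ R - r₁`, so `R ≥ r₁`).  For `b ∈ B` with `‖b - c‖ < R' + 2δ` the annulus
`δ ≤ ‖z - b‖ ≤ 3δ` is inside `Gd B δ ∩ closedBall c R` (`sep`), so `Cst.cross` gives `J_b`.  Define `J z = J_b z` if `‖z - b‖ < 2δ` for a (unique) `b ∈ B`, and `J z = II α ε z (pr (F z)) (pr (G z))` otherwise (`z ∈ Gd B (2δ)`).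
`J` is differentiable on `ball c R'`: near a point `z` with `‖z - b‖ < 2δ` it is `J_b`; near a point with `‖z - b‖ = 2δ` (`b` unique within `3δ`) it is also `J_b` (`J_b = II` for `δ < ‖z - b‖ < 3δ`); near a point with
`‖z - b‖ > 2δ` for all `b` (the distances to `B` are bounded below near `z`: `Gd B (2δ)` contains a neighbourhood) it is `II`, analytic by `II_analytic` (`Cst.cap`, `Cst.rel` at the nearby points of `ball c R`, which are in
`Gd B δ`).  Bound: `‖J z‖ ≤ C` for `z ∈ Gd B (2δ)` (`Cst.bdd`, `sec_sb`); for `‖z - b‖ < 2δ`: maximum principle for `J_b` on `closedBall b (5δ/2)`, on whose boundary `J_b = II`, `‖II‖ ≤ C` (points of `Gd B δ`).  `J l = 0` for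
`l ∈ Γ`: `l ∈ Gd B (2δ)` (`‖l - b‖ = ‖b - l‖ ≥ 4δ` by `E.zero` for `b - l ∈ B`), `II_zero`.  `lattice_decay` on `ball c R'`: `‖J z‖ ≤ C exp (-κ ((R' - r₀)² - ‖z - c‖²))`, `R' - r₀ = R - r₁`.

`decay_sb`: with `ε₀' = ε₀ / 2`.  Let `f, g ∈ Sb` be `ε₀/2`-close on `Gd B δ ∩ closedBall c R`.  For every `n` choose `F n, G n ∈ Sec` (definition of `Sb` with `δ' = 1/(n+1)`, `R = n`, `ε = 1/(n+1)`) near `f`, `g`.  For large `n`, `δ ≥ 1/(n+1)`,
`n ≥ ‖c‖ + R`, `2/(n+1) ≤ ε₀/2`: `F n, G n` are `ε₀`-close on `Gd B δ ∩ closedBall c R`, so the inequality holds for them; `II_lim` (any ultrafilter `≤ atTop`; for `z ∈ Gd B (2δ)`, `‖z - c‖ ≤ R`: `Cst.cap`, `Cst.rel`;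
`F n z → f z`) gives it for `f, g`.
-/

set_option autoImplicit false

open Topology Filter Metric

namespace Pool.Agent.H62.EL

open Pool.Agent.H36.BP (EN fs wd IsGermChart)
open Pool.Agent.H14.PP (IsCone Chart Tan CurveAt jac)
open Pool.Agent.H62.EF (Lat MN pr TorusMap Sec Charts DU)

variable {N : ℕ} {X : Set (EN N)} {Λ : AddSubgroup ℂ} {u : EN N → ℂ}

variable {Γ : AddSubgroup ℂ} {B : Set ℂ} {δ : ℝ}

/-- the integral for two sections near a point far from `B` -/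
private lemma dc_an (E : EData X Λ u Γ B δ) {α : TForm X Λ u} {ε ε₀ C : ℝ} (hc : Cst X Λ u B δ α ε ε₀ C) {F G : ℂ → EN N}
    (hF : F ∈ Sec X Λ u) (hG : G ∈ Sec X Λ u) {z : ℂ} (hz : ∀ b ∈ B, 3 * δ ≤ ‖z - b‖)
    (hcl : ∀ᶠ w in 𝓝 z, w ∈ Gd B δ → dist (pr (F w)) (pr (G w)) ≤ ε₀) :
    AnalyticAt ℂ (fun z => II α ε z (pr (F z)) (pr (G z))) z := by
  have hδ := E.bad.pos
  have hzδ : z ∈ Gd B δ := fun b hb => by linarith [hz b hb]
  obtain ⟨χ, c', ρ, hcap⟩ := hc.cap z hzδ (fun z => pr (F z)) (sec_sb hF)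
  refine II_analytic E (f := fun z => pr (F z)) (g := fun z => pr (G z)) (sec_sb hF) (sec_sb hG) (gd_notMem hδ hzδ) hcap
    (by linarith [hc.ε_pos]) ?_
  have h1 : ∀ᶠ w in 𝓝 z, w ∈ ball z δ := isOpen_ball.mem_nhds (mem_ball_self hδ)
  filter_upwards [h1, hcl] with w hw1 hw2
  have hw : w ∈ Gd B δ := fun b hb => by
    have h3 := hz b hb
    rw [mem_ball, dist_eq_norm] at hw1
    have h4 : ‖z - b‖ ≤ ‖w - b‖ + ‖w - z‖ := by
      have e : z - b = (w - b) - (w - z) := by ring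
      rw [e]
      exact norm_sub_le _ _
    linarith
  exact hc.rel (fun z => pr (F z)) (sec_sb hF) (fun z => pr (G z)) (sec_sb hG) w hw (hw2 hw)

theorem decay_sec (E : EData X Λ u Γ B δ) {α : TForm X Λ u} (hper : Per α Γ) (hvan : VanZero α) {ε ε₀ C : ℝ}
    (hc : Cst X Λ u B δ α ε ε₀ C) : ∃ κ r₁ : ℝ, 0 < κ ∧ 0 < r₁ ∧ ∀ F ∈ Sec X Λ u, ∀ G ∈ Sec X Λ u, ∀ (c : ℂ) (R : ℝ),
      (∀ z ∈ Gd B δ, ‖z - c‖ ≤ R → dist (pr (F z)) (pr (G z)) ≤ ε₀) →
      ∀ z ∈ Gd B (2 * δ), ‖z - c‖ ≤ R - r₁ →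
        ‖II α ε z (pr (F z)) (pr (G z))‖ ≤ C * Real.exp (-κ * ((R - r₁) ^ 2 - ‖z - c‖ ^ 2)) := by
  classical
  have hδ := E.bad.pos
  obtain ⟨κ, r₀, hκ, hr₀, hdec⟩ := lattice_decay E.latΓ
  refine ⟨κ, r₀ + 6 * δ, hκ, by linarith, fun F hF G hG c R hcl z₁ hz₁ hz₁c => ?_⟩
  have hn0 := norm_nonneg (z₁ - c)
  -- the other points of `B` are far
  have hfar : ∀ b ∈ B, ∀ z : ℂ, ‖z - b‖ < 3 * δ → ∀ b' ∈ B, b' ≠ b → 5 * δ ≤ ‖z - b'‖ := by
    intro b hb z hz b' hb' hne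
    have h1 := E.bad.sep b hb b' hb' (Ne.symm hne)
    have h2 : ‖b - b'‖ ≤ ‖z - b'‖ + ‖z - b‖ := by
      have e : b - b' = (z - b') - (z - b) := by ring
      rw [e]
      exact norm_sub_le _ _
    linarith
  have hfar' : ∀ b ∈ B, ∀ z : ℂ, ‖z - b‖ ≤ 3 * δ → ∀ b' ∈ B, b' ≠ b → 5 * δ ≤ ‖z - b'‖ := by
    intro b hb z hz b' hb' hne
    have h1 := E.bad.sep b hb b' hb' (Ne.symm hne)
    have h2 : ‖b - b'‖ ≤ ‖z - b'‖ + ‖z - b‖ := by
      have e : b - b' = (z - b') - (z - b) := by ring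
      rw [e]
      exact norm_sub_le _ _
    linarith
  have hann : ∀ b ∈ B, ∀ z : ℂ, δ ≤ ‖z - b‖ → ‖z - b‖ ≤ 3 * δ → z ∈ Gd B δ := by
    intro b hb z h1 h2 b' hb'
    by_cases hbb : b' = b
    · rw [hbb]; exact h1
    · have := hfar' b hb z h2 b' hb' hbb
      linarith
  have hann2 : ∀ b ∈ B, ∀ z : ℂ, 2 * δ ≤ ‖z - b‖ → ‖z - b‖ ≤ 3 * δ → z ∈ Gd B (2 * δ) := by
    intro b hb z h1 h2 b' hb'
    by_cases hbb : b' = b
    · rw [hbb]; exact h1
    · have := hfar' b hb z h2 b' hb' hbb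
      linarith
  -- the functions near the points of `B`
  have hJex : ∀ b, b ∈ B → ‖b - c‖ < R - 3 * δ → ∃ J : ℂ → ℂ, DifferentiableOn ℂ J (ball b (3 * δ)) ∧
      ∀ z, δ < ‖z - b‖ → ‖z - b‖ < 3 * δ → J z = II α ε z (pr (F z)) (pr (G z)) := by
    intro b hb hbc
    refine hc.cross b hb F hF G hG fun z h1 h2 => hcl z (hann b hb z h1 h2) ?_
    have h3 : ‖z - c‖ ≤ ‖z - b‖ + ‖b - c‖ := by
      have e : z - c = (z - b) + (b - c) := by ring
      rw [e]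
      exact norm_add_le _ _
    linarith
  choose! JJ hJd hJe using hJex
  set J : ℂ → ℂ := fun z => if h : ∃ b ∈ B, ‖z - b‖ < 2 * δ then JJ h.choose z else II α ε z (pr (F z)) (pr (G z)) with hJ
  have hJa : ∀ b ∈ B, ∀ z : ℂ, ‖z - b‖ < 2 * δ → J z = JJ b z := by
    intro b hb z hz
    have h : ∃ b ∈ B, ‖z - b‖ < 2 * δ := ⟨b, hb, hz⟩
    have hch : h.choose = b := by
      by_contra hne
      have := hfar b hb z (by linarith) h.choose h.choose_spec.1 hne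
      linarith [h.choose_spec.2]
    simp only [hJ]
    rw [dif_pos h, hch]
  have hJb : ∀ z ∈ Gd B (2 * δ), J z = II α ε z (pr (F z)) (pr (G z)) := by
    intro z hz
    have h : ¬ ∃ b ∈ B, ‖z - b‖ < 2 * δ := by
      rintro ⟨b, hb, hzb⟩
      exact absurd (hz b hb) (not_le.2 hzb)
    simp only [hJ]
    rw [dif_neg h]
  have hJc : ∀ b ∈ B, ‖b - c‖ < R - 3 * δ → ∀ z : ℂ, ‖z - b‖ < 3 * δ → J z = JJ b z := by
    intro b hb hbc z hz
    rcases lt_or_ge ‖z - b‖ (2 * δ) with h | h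
    · exact hJa b hb z h
    · rw [hJb z (hann2 b hb z h hz.le), hJe b hb hbc z (by linarith) hz]
  have hbd : ∀ z ∈ Gd B δ, ‖II α ε z (pr (F z)) (pr (G z))‖ ≤ C := fun z hz =>
    hc.bdd (fun z => pr (F z)) (sec_sb hF) (fun z => pr (G z)) (sec_sb hG) z hz
  have hdiff : DifferentiableOn ℂ J (ball c (R - 6 * δ)) := by
    intro z hz
    rw [mem_ball, dist_eq_norm] at hz
    refine DifferentiableAt.differentiableWithinAt ?_
    by_cases hex : ∃ b ∈ B, ‖z - b‖ < 3 * δ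
    · obtain ⟨b, hb, hzb⟩ := hex
      have hbc : ‖b - c‖ < R - 3 * δ := by
        have h3 : ‖b - c‖ ≤ ‖z - c‖ + ‖z - b‖ := by
          have e : b - c = (z - c) - (z - b) := by ring
          rw [e]
          exact norm_sub_le _ _
        linarith
      have hmem : ball b (3 * δ) ∈ 𝓝 z := isOpen_ball.mem_nhds (by rw [mem_ball, dist_eq_norm]; exact hzb)
      refine ((hJd b hb hbc).differentiableAt hmem).congr_of_eventuallyEq ?_
      filter_upwards [hmem] with w hw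
      rw [mem_ball, dist_eq_norm] at hw
      exact hJc b hb hbc w hw
    · push Not at hex
      have hzn : ball z δ ∈ 𝓝 z := isOpen_ball.mem_nhds (mem_ball_self hδ)
      have hcn : ball c (R - 6 * δ) ∈ 𝓝 z := isOpen_ball.mem_nhds (by rw [mem_ball, dist_eq_norm]; exact hz)
      refine (dc_an E hc hF hG hex ?_).differentiableAt.congr_of_eventuallyEq ?_
      · filter_upwards [hcn] with w hw hwG
        rw [mem_ball, dist_eq_norm] at hw
        exact hcl w hwG (by linarith)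
      · filter_upwards [hzn] with w hw
        refine hJb w fun b hb => ?_
        rw [mem_ball, dist_eq_norm] at hw
        have h3 := hex b hb
        have h4 : ‖z - b‖ ≤ ‖w - b‖ + ‖w - z‖ := by
          have e : z - b = (w - b) - (w - z) := by ring
          rw [e]
          exact norm_sub_le _ _
        linarith
  have hbound : ∀ z ∈ ball c (R - 6 * δ), ‖J z‖ ≤ C := by
    intro z hz
    rw [mem_ball, dist_eq_norm] at hz
    by_cases hex : ∃ b ∈ B, ‖z - b‖ < 2 * δ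
    · obtain ⟨b, hb, hzb⟩ := hex
      have hbc : ‖b - c‖ < R - 3 * δ := by
        have h3 : ‖b - c‖ ≤ ‖z - c‖ + ‖z - b‖ := by
          have e : b - c = (z - c) - (z - b) := by ring
          rw [e]
          exact norm_sub_le _ _
        linarith
      rw [hJa b hb z hzb]
      have hcl5 : closure (ball b (5 / 2 * δ)) ⊆ ball b (3 * δ) := by
        refine closure_ball_subset_closedBall.trans (closedBall_subset_ball (by linarith))
      refine Complex.norm_le_of_forall_mem_frontier_norm_le (U := ball b (5 / 2 * δ)) isBounded_ball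
        ((hJd b hb hbc).mono hcl5).diffContOnCl ?_ (subset_closure ?_)
      · intro w hw
        rw [frontier_ball b (by positivity : (5 / 2 * δ) ≠ 0)] at hw
        rw [mem_sphere, dist_eq_norm] at hw
        rw [hJe b hb hbc w (by rw [hw]; linarith) (by rw [hw]; linarith)]
        exact hbd w (hann b hb w (by rw [hw]; linarith) (by rw [hw]; linarith))
      · rw [mem_ball, dist_eq_norm]
        linarith
    · push Not at hex
      rw [hJb z hex]
      exact hbd z fun b hb => by linarith [hex b hb]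
  have hzero : ∀ l ∈ Γ, l ∈ ball c (R - 6 * δ) → J l = 0 := by
    intro l hl _
    rw [hJb l fun b hb => ?_]
    · exact II_zero E.tor E.le hper hvan hl ε _ _
    · have h1 : b + -l ∈ B := E.bad.inv b hb (-l) (Λ.neg_mem (E.le hl))
      have h2 := E.zero _ h1
      have e : ‖l - b‖ = ‖b + -l‖ := by
        rw [← norm_neg (l - b)]
        congr 1
        ring
      rw [e]
      linarith
  have hmain := hdec J c (R - 6 * δ) C (by linarith) hdiff hbound hzero z₁ (by rw [mem_ball, dist_eq_norm]; linarith)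
  rw [hJb z₁ hz₁] at hmain
  have e : R - 6 * δ - r₀ = R - (r₀ + 6 * δ) := by ring
  rw [e] at hmain
  exact hmain

theorem decay_sb (E : EData X Λ u Γ B δ) {α : TForm X Λ u} (hper : Per α Γ) (hvan : VanZero α) {ε ε₀ C : ℝ}
    (hc : Cst X Λ u B δ α ε ε₀ C) : ∃ κ r₁ : ℝ, 0 < κ ∧ 0 < r₁ ∧ ∀ f ∈ Sb X Λ u B, ∀ g ∈ Sb X Λ u B, ∀ (c : ℂ) (R : ℝ),
      (∀ z ∈ Gd B δ, ‖z - c‖ ≤ R → dist (f z) (g z) ≤ ε₀ / 2) →
      ∀ z ∈ Gd B (2 * δ), ‖z - c‖ ≤ R - r₁ →
        ‖II α ε z (f z) (g z)‖ ≤ C * Real.exp (-κ * ((R - r₁) ^ 2 - ‖z - c‖ ^ 2)) := by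
  have hδ := E.bad.pos
  have hε₀ := hc.ε₀_pos
  obtain ⟨κ, r₁, hκ, hr₁, hdec⟩ := decay_sec E hper hvan hc
  refine ⟨κ, r₁, hκ, hr₁, fun f hf g hg c R hcl z hz hzc => ?_⟩
  have hpos : ∀ n : ℕ, 0 < min (1 / ((n : ℝ) + 1)) (ε₀ / 4) := fun n => lt_min (by positivity) (by linarith)
  choose F hF hFf using fun n : ℕ => hf δ hδ (‖c‖ + R) (min (1 / ((n : ℝ) + 1)) (ε₀ / 4)) (hpos n)
  choose G hG hGg using fun n : ℕ => hg δ hδ (‖c‖ + R) (min (1 / ((n : ℝ) + 1)) (ε₀ / 4)) (hpos n)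
  have hnorm : ∀ w : ℂ, ‖w - c‖ ≤ R → ‖w‖ ≤ ‖c‖ + R := by
    intro w hw
    have e : w = c + (w - c) := by ring
    calc ‖w‖ = ‖c + (w - c)‖ := by rw [← e]
      _ ≤ ‖c‖ + ‖w - c‖ := norm_add_le _ _
      _ ≤ ‖c‖ + R := by linarith
  have hclose : ∀ n, ∀ w ∈ Gd B δ, ‖w - c‖ ≤ R → dist (pr (F n w)) (pr (G n w)) ≤ ε₀ := by
    intro n w hw hwc
    have h1 := (hFf n w hw (hnorm w hwc)).trans_le (min_le_right _ _)
    have h2 := (hGg n w hw (hnorm w hwc)).trans_le (min_le_right _ _)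
    have h3 := hcl w hw hwc
    have h4 := dist_triangle4 (pr (F n w)) (f w) (g w) (pr (G n w))
    rw [dist_comm (g w)] at h4
    linarith
  have hzδ : z ∈ Gd B δ := fun b hb => by linarith [hz b hb]
  have hzR : ‖z - c‖ ≤ R := by linarith
  have hineq : ∀ n, ‖II α ε z (pr (F n z)) (pr (G n z))‖ ≤ C * Real.exp (-κ * ((R - r₁) ^ 2 - ‖z - c‖ ^ 2)) :=
    fun n => hdec (F n) (hF n) (G n) (hG n) c R (hclose n) z hz hzc
  have h𝒰 : ((hyperfilter ℕ : Ultrafilter ℕ) : Filter ℕ) ≤ atTop := Nat.hyperfilter_le_atTop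
  have hlim : ∀ (H : ℕ → ℂ → EN N) (h : ℂ → MN N), (∀ n, ∀ w ∈ Gd B δ, ‖w‖ ≤ ‖c‖ + R →
      dist (pr (H n w)) (h w) < min (1 / ((n : ℝ) + 1)) (ε₀ / 4)) →
      Tendsto (fun n => pr (H n z)) ((hyperfilter ℕ : Ultrafilter ℕ) : Filter ℕ) (𝓝 (h z)) := by
    intro H h hH
    refine Tendsto.mono_left ?_ h𝒰
    refine tendsto_iff_dist_tendsto_zero.2 ?_
    refine squeeze_zero (fun _ => dist_nonneg) (fun n => ?_) (tendsto_one_div_add_atTop_nhds_zero_nat (𝕜 := ℝ))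
    exact ((hH n z hzδ (hnorm z hzR)).le).trans (min_le_left _ _)
  obtain ⟨χ, c', ρ, hcap⟩ := hc.cap z hzδ f hf
  have hT := II_lim E (α := α) (ε := ε) (hyperfilter ℕ) (fun n w => pr (F n w)) (fun n w => pr (G n w))
    (Filter.Eventually.of_forall fun n => ⟨sec_sb (hF n), sec_sb (hG n)⟩) hf hg (gd_notMem hδ hzδ) (hlim F f hFf) (hlim G g hGg)
    hcap (by linarith [hc.ε_pos])
    (Filter.Eventually.of_forall fun n => hc.rel (fun w => pr (F n w)) (sec_sb (hF n)) (fun w => pr (G n w)) (sec_sb (hG n)) z hzδ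
      (hclose n z hzδ hzR))
    (hc.rel f hf g hg z hzδ (by linarith [hcl z hzδ hzR]))
  exact le_of_tendsto hT.norm (Filter.Eventually.of_forall hineq)

end Pool.Agent.H62.EL
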