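import Pool.Agent.H62.EL.DyL

/-!
# EL DyB: the members of `S` inside `Zr` are uniformly separated

By contradiction: for every `n` there are `e_n`, `g_n` in `ZS`, not in agreement, and `a_n` with `dist (e_n z) (g_n z) ≤ 1/(n+1)` for
`z ∈ Gd B δ`, `‖z - a_n‖ ≤ n`.  Choose `l_n ∈ Λ`, `‖a_n - l_n‖ ≤ R` (lattice) and translate: `e'_n = e_n (· + l_n)`, `g'_n`; they are in
`ZS` (`zs_trans`: `trans`, `Z_inv`, `gd_add`), and `1/(n+1)`-close at the points of `Gd B δ` with `‖z‖ ≤ n - R`.  Let `𝒰` be an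
ultrafilter `≤ atTop` and `e ∈ S` the limit of `e'_n` (`exists_lim`); `e ∈ ZS` by `Z_lim`; `g'_n` has the same limit.  Let `z₀, r, ε` be
from `iso e`.  By `unif` (`ball z₀ (r/2)` is bounded and inside `Gd B (2δ)`), eventually `dist (e'_n z) (e z) < ε` and
`dist (g'_n z) (e z) < ε` on `ball z₀ (r/2)`, so `e'_n z = e z = g'_n z` there (`iso`, second alternative; `e'_n, g'_n ∈ ZS`).  By `uniq`
(`z₀ ∉ B`) `Ag B e'_n g'_n`, so `Ag B e_n g_n` (translate back): contradiction.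
-/

set_option autoImplicit false

open Topology Filter Metric

namespace Pool.Agent.H62.EL

open Pool.Agent.H62.EF (Lat)

variable {Y : Type} [MetricSpace Y] {K : Set Y} {Λ : AddSubgroup ℂ} {B : Set ℂ} {δ : ℝ} {S : Set (ℂ → Y)}
  {Zr : ℂ → Y → Prop} {N : ℂ → Y → Y → ℝ}

theorem Dyn.zs_trans (h : Dyn K Λ B δ S Zr N) {e : ℂ → Y} (he : e ∈ ZS B δ S Zr) {l : ℂ} (hl : l ∈ Λ) :
    (fun z => e (z + l)) ∈ ZS B δ S Zr := by
  refine ⟨h.trans e he.1 l hl, fun z hz => ?_⟩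
  exact (h.Z_inv z l hl _).1 (he.2 (z + l) ((h.bad.gd_add (2 * δ) hl).2 hz))

theorem Dyn.zs_lim (h : Dyn K Λ B δ S Zr N) (𝒰 : Ultrafilter ℕ) (F : ℕ → ℂ → Y) (hF : ∀ᶠ n in (𝒰 : Filter ℕ), F n ∈ ZS B δ S Zr)
    {f : ℂ → Y} (hf : ∀ z, z ∉ B → Tendsto (fun n => F n z) 𝒰 (𝓝 (f z))) : f ∈ ZS B δ S Zr := by
  have h1 : ∀ᶠ n in (𝒰 : Filter ℕ), F n ∈ S := hF.mono fun n hn => hn.1
  have h2 : f ∈ S := h.lim 𝒰 F f h1 hf
  refine ⟨h2, fun z hz => ?_⟩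
  exact h.Z_lim 𝒰 F f h2 h1 hf z hz (hF.mono fun n hn => hn.2 z hz)

theorem Dyn.ag_trans (h : Dyn K Λ B δ S Zr N) {f g : ℂ → Y} {l : ℂ} (hl : l ∈ Λ) :
    Ag B (fun z => f (z + l)) (fun z => g (z + l)) ↔ Ag B f g := by
  constructor
  · intro h1 z hz
    have h2 : z - l ∉ B := by
      have h3 := (h.bad.notMem_add (z := z - l) hl).1
      rw [sub_add_cancel] at h3
      exact h3 hz
    have h4 : f (z - l + l) = g (z - l + l) := h1 (z - l) h2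
    rwa [sub_add_cancel] at h4
  · intro h1 z hz
    exact h1 (z + l) ((h.bad.notMem_add hl).2 hz)

theorem Dyn.sep (h : Dyn K Λ B δ S Zr N) : ∃ ε₁ n₁ : ℝ, 0 < ε₁ ∧ 0 < n₁ ∧ ∀ e ∈ ZS B δ S Zr, ∀ g ∈ ZS B δ S Zr, ∀ a : ℂ,
    (∀ z ∈ Gd B δ, ‖z - a‖ ≤ n₁ → dist (e z) (g z) ≤ ε₁) → Ag B e g := by
  by_contra hcon
  have hcon' : ∀ n : ℕ, ∃ e ∈ ZS B δ S Zr, ∃ g ∈ ZS B δ S Zr, ∃ a : ℂ,
      (∀ z ∈ Gd B δ, ‖z - a‖ ≤ (n : ℝ) + 1 → dist (e z) (g z) ≤ 1 / ((n : ℝ) + 1)) ∧ ¬ Ag B e g := by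
    intro n
    by_contra h1
    apply hcon
    refine ⟨1 / ((n : ℝ) + 1), (n : ℝ) + 1, by positivity, by positivity, ?_⟩
    intro e he g hg a h2
    by_contra h3
    exact h1 ⟨e, he, g, hg, a, h2, h3⟩
  choose e he g hg a hclose hne using hcon'
  obtain ⟨R, hR, hlat⟩ := h.lat.cocompact
  choose l hl hla using fun n => hlat (a n)
  have hpos := h.bad.pos
  obtain ⟨𝒰, h𝒰⟩ : ∃ 𝒰 : Ultrafilter ℕ, (𝒰 : Filter ℕ) ≤ atTop := ⟨Ultrafilter.of atTop, Ultrafilter.of_le _⟩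
  have he' : ∀ n, (fun z => e n (z + l n)) ∈ ZS B δ S Zr := fun n => h.zs_trans (he n) (hl n)
  have hg' : ∀ n, (fun z => g n (z + l n)) ∈ ZS B δ S Zr := fun n => h.zs_trans (hg n) (hl n)
  have hclose' : ∀ n : ℕ, ∀ z ∈ Gd B δ, ‖z‖ + R ≤ (n : ℝ) + 1 →
      dist (e n (z + l n)) (g n (z + l n)) ≤ 1 / ((n : ℝ) + 1) := by
    intro n z hz hzn
    refine hclose n (z + l n) ((h.bad.gd_add δ (hl n)).2 hz) ?_
    have h1 : z + l n - a n = z - (a n - l n) := by ring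
    rw [h1]
    exact (norm_sub_le _ _).trans (by linarith [hla n])
  obtain ⟨f, hfS, hf⟩ := h.exists_lim 𝒰 (fun n z => e n (z + l n)) (Filter.Eventually.of_forall fun n => (he' n).1)
  obtain ⟨f₂, hf₂S, hf₂⟩ := h.exists_lim 𝒰 (fun n z => g n (z + l n)) (Filter.Eventually.of_forall fun n => (hg' n).1)
  have hfZ : f ∈ ZS B δ S Zr := h.zs_lim 𝒰 (fun n z => e n (z + l n)) (Filter.Eventually.of_forall he') hf
  -- the two limits agree
  have heq : ∀ z ∈ Gd B δ, f z = f₂ z := by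
    intro z hz
    have hzB : z ∉ B := gd_notMem hpos hz
    have h1 : Tendsto (fun n : ℕ => dist (e n (z + l n)) (g n (z + l n))) 𝒰 (𝓝 0) := by
      have h2 : Tendsto (fun n : ℕ => 1 / ((n : ℝ) + 1)) 𝒰 (𝓝 0) :=
        tendsto_one_div_add_atTop_nhds_zero_nat.mono_left h𝒰
      refine tendsto_of_tendsto_of_tendsto_of_le_of_le' tendsto_const_nhds h2
        (Filter.Eventually.of_forall fun n => dist_nonneg) ?_
      have h3 : ∀ᶠ n : ℕ in atTop, ‖z‖ + R ≤ (n : ℝ) + 1 := by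
        filter_upwards [tendsto_natCast_atTop_atTop.eventually_ge_atTop (‖z‖ + R)] with n hn
        linarith
      filter_upwards [h𝒰 h3] with n hn
      exact hclose' n z hz hn
    exact tendsto_nhds_unique ((tendsto_iff_of_dist h1).1 (hf z hzB)) (hf₂ z hzB)
  obtain ⟨z₀, r, ε, hr, hε, hball, hiso⟩ := h.iso f hfS hfZ.2
  have hz₀ : z₀ ∈ ball z₀ r := mem_ball_self hr
  have hz₀B : z₀ ∉ B := gd_notMem (by positivity) (hball hz₀)
  have hAg : Ag B f f₂ := by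
    refine h.uniq f hfS f₂ hf₂S z₀ hz₀B (Filter.Eventually.frequently ?_)
    have h1 : ∀ᶠ z in 𝓝 z₀, f z = f₂ z := by
      filter_upwards [isOpen_ball.mem_nhds hz₀] with z hz
      exact heq z (gd_mono (by linarith) (hball hz))
    exact h1.filter_mono nhdsWithin_le_nhds
  have hf₂' : ∀ z, z ∉ B → Tendsto (fun n => g n (z + l n)) 𝒰 (𝓝 (f z)) := by
    intro z hz
    rw [hAg z hz]
    exact hf₂ z hz
  have hu1 := h.unif 𝒰 (fun n z => e n (z + l n)) (Filter.Eventually.of_forall fun n => (he' n).1) hfS hf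
    (δ' := 2 * δ) (by positivity) (‖z₀‖ + r) ε hε
  have hu2 := h.unif 𝒰 (fun n z => g n (z + l n)) (Filter.Eventually.of_forall fun n => (hg' n).1) hfS hf₂'
    (δ' := 2 * δ) (by positivity) (‖z₀‖ + r) ε hε
  obtain ⟨n, h1, h2⟩ := (hu1.and hu2).exists
  refine hne n ((h.ag_trans (hl n)).1 ?_)
  refine h.uniq _ (he' n).1 _ (hg' n).1 z₀ hz₀B (Filter.Eventually.frequently ?_)
  have h3 : ∀ᶠ z in 𝓝 z₀, e n (z + l n) = g n (z + l n) := by
    filter_upwards [isOpen_ball.mem_nhds hz₀] with z hz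
    have hzn : ‖z‖ ≤ ‖z₀‖ + r := by
      rw [mem_ball, dist_eq_norm] at hz
      have h4 : z = z₀ + (z - z₀) := by ring
      calc ‖z‖ = ‖z₀ + (z - z₀)‖ := by rw [← h4]
        _ ≤ ‖z₀‖ + ‖z - z₀‖ := norm_add_le _ _
        _ ≤ ‖z₀‖ + r := by linarith
    have h5 : e n (z + l n) = f z :=
      hiso _ (he' n).1 z hz (h1 z (hball hz) hzn) (Or.inr ((he' n).2 z (hball hz)))
    have h6 : g n (z + l n) = f z :=
      hiso _ (hg' n).1 z hz (h2 z (hball hz) hzn) (Or.inr ((hg' n).2 z (hball hz)))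
    rw [h5, h6]
  exact h3.filter_mono nhdsWithin_le_nhds

end Pool.Agent.H62.EL
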