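import Pool.Agent.H62.EL.DyB

/-!
# EL DyC: near pairs with `N = 0` are near a member of `ZS`

By contradiction: for every `n` there are `f_n, g_n ∈ S`, not in agreement, and `a_n`, with `dist (f_n z) (g_n z) ≤ 1/(n+1)` for
`z ∈ Gd B δ`, `‖z - a_n‖ ≤ n`, and `N z (f_n z) (g_n z) = 0` for `z ∈ Gd B (2δ)`, `‖z - a_n‖ ≤ n`, but no `e ∈ ZS` is `ε'`-close to
both on `Gd B δ ∩ closedBall a_n n₂`.  Translate by `l_n ∈ Λ`, `‖a_n - l_n‖ ≤ R`: `f'_n = f_n (· + l_n)`, `g'_n`.  Let `f ∈ S` be the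
limit of the `f'_n` along an ultrafilter `≤ atTop`; it is also the limit of the `g'_n` (a point `z ∉ B` is in `Gd B δ'` for some `δ'`,
BUT closeness is known only on `Gd B δ`: let `g ∈ S` be the limit of the `g'_n`; `f = g` on `Gd B δ`, hence `Ag B f g` by `uniq`,
as `Gd B (2δ)` is nonempty and its points are interior points of `Gd B δ`).  Claim `f ∈ ZS`: let `z ∈ Gd B (2δ)`.  By `exists_ne` choose
`w_n ∈ Gd B (2δ)`, `‖w_n - z‖ < 1/(n+1)`, `f'_n w_n ≠ g'_n w_n`; eventually `‖w_n + l_n - a_n‖ ≤ n`, so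
`N w_n (f'_n w_n) (g'_n w_n) = N (w_n + l_n) ... = 0` (`N_inv`); by `near`, `Zr z (f z)`.  By `unif`, for large `n`, `f'_n` and `g'_n` are
`ε'`-close to `f` on the points of `Gd B δ` of norm `≤ n₂ + R`; so `e := f (· - l_n) ∈ ZS` is `ε'`-close to `f_n`, `g_n` at the points of
`Gd B δ` with `‖z - a_n‖ ≤ n₂`: contradiction.
[If `Gd B (2δ)` were empty there is nothing to prove for the claim; nonempty: `b + 4δ` for `b ∈ B`, or `0` if `B = ∅`.]
-/

set_option autoImplicit false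

open Topology Filter Metric

namespace Pool.Agent.H62.EL

open Pool.Agent.H62.EF (Lat)

variable {Y : Type} [MetricSpace Y] {K : Set Y} {Λ : AddSubgroup ℂ} {B : Set ℂ} {δ : ℝ} {S : Set (ℂ → Y)}
  {Zr : ℂ → Y → Prop} {N : ℂ → Y → Y → ℝ}

theorem Dyn.near_zs (h : Dyn K Λ B δ S Zr N) {ε' : ℝ} (hε' : 0 < ε') (n₂ : ℝ) : ∃ ε₃ R₃ : ℝ, 0 < ε₃ ∧ 0 < R₃ ∧
    ∀ f ∈ S, ∀ g ∈ S, ¬ Ag B f g → ∀ a : ℂ, (∀ z ∈ Gd B δ, ‖z - a‖ ≤ R₃ → dist (f z) (g z) ≤ ε₃) →
      (∀ z ∈ Gd B (2 * δ), ‖z - a‖ ≤ R₃ → N z (f z) (g z) = 0) →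
      ∃ e ∈ ZS B δ S Zr, ∀ z ∈ Gd B δ, ‖z - a‖ ≤ n₂ → dist (f z) (e z) ≤ ε' ∧ dist (g z) (e z) ≤ ε' := by
  by_contra hcon
  push Not at hcon
  choose f hf g hg hne a hcl hN hbad using fun n : ℕ =>
    hcon (1 / ((n : ℝ) + 1)) ((n : ℝ) + 1) (by positivity) (by positivity)
  obtain ⟨R, hR, hRl⟩ := h.lat.cocompact
  choose l hl hla using fun n => hRl (a n)
  have hδ : 0 < δ := h.bad.pos
  set 𝒰 : Ultrafilter ℕ := Filter.hyperfilter ℕ with h𝒰
  have hle : (𝒰 : Filter ℕ) ≤ atTop := by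
    rw [h𝒰, ← Nat.cofinite_eq_atTop]
    exact Filter.hyperfilter_le_cofinite
  have hlarge : ∀ c : ℝ, ∀ᶠ n : ℕ in (𝒰 : Filter ℕ), c ≤ (n : ℝ) + 1 := by
    intro c
    have h1 : ∀ᶠ n : ℕ in atTop, c ≤ (n : ℝ) := tendsto_natCast_atTop_atTop.eventually_ge_atTop c
    filter_upwards [hle h1] with n hn
    linarith
  have hzero : Tendsto (fun n : ℕ => 1 / ((n : ℝ) + 1)) 𝒰 (𝓝 0) :=
    Tendsto.mono_left (tendsto_one_div_add_atTop_nhds_zero_nat (𝕜 := ℝ)) hle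
  set F : ℕ → ℂ → Y := fun n z => f n (z + l n) with hFdef
  set G : ℕ → ℂ → Y := fun n z => g n (z + l n) with hGdef
  have hFS : ∀ n, F n ∈ S := fun n => h.trans _ (hf n) _ (hl n)
  have hGS : ∀ n, G n ∈ S := fun n => h.trans _ (hg n) _ (hl n)
  have hFGne : ∀ n, ¬ Ag B (F n) (G n) := fun n hAg => hne n ((h.ag_trans (hl n)).mp hAg)
  obtain ⟨f₀, hf₀, hflim⟩ := h.exists_lim 𝒰 F (Filter.Eventually.of_forall hFS)
  obtain ⟨g₀, hg₀, hglim⟩ := h.exists_lim 𝒰 G (Filter.Eventually.of_forall hGS)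
  have hnorm : ∀ (z : ℂ) (n : ℕ), ‖z + l n - a n‖ ≤ ‖z‖ + R := by
    intro z n
    have h1 : z + l n - a n = z - (a n - l n) := by ring
    rw [h1]
    exact (norm_sub_le _ _).trans (by linarith [hla n])
  -- the two limits agree
  have heq : ∀ z ∈ Gd B δ, f₀ z = g₀ z := by
    intro z hz
    have hzB : z ∉ B := gd_notMem hδ hz
    have h1 : Tendsto (fun n => dist (F n z) (G n z)) 𝒰 (𝓝 (dist (f₀ z) (g₀ z))) := (hflim z hzB).dist (hglim z hzB)
    have h2 : Tendsto (fun n => dist (F n z) (G n z)) 𝒰 (𝓝 0) := by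
      refine squeeze_zero' (Filter.Eventually.of_forall fun n => dist_nonneg) ?_ hzero
      filter_upwards [hlarge (‖z‖ + R)] with n hn
      exact hcl n (z + l n) ((h.bad.gd_add δ (hl n)).mpr hz) ((hnorm z n).trans hn)
    exact dist_eq_zero.mp (tendsto_nhds_unique h1 h2)
  have hAg : Ag B f₀ g₀ := by
    obtain ⟨z₀, hz₀⟩ := h.bad.nonempty
    have h2δ : (0 : ℝ) < 2 * δ := by positivity
    refine h.uniq f₀ hf₀ g₀ hg₀ z₀ (gd_notMem h2δ hz₀) ?_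
    have h1 : ∀ᶠ z in 𝓝 z₀, f₀ z = g₀ z := by
      filter_upwards [ball_mem_nhds z₀ hδ] with z hz
      refine heq z fun b hb => ?_
      have h3 := hz₀ b hb
      have h4 : ‖z - z₀‖ < δ := by rwa [← mem_ball_iff_norm]
      have h5 : ‖z₀ - b‖ ≤ ‖z - z₀‖ + ‖z - b‖ := by
        have h6 : z₀ - b = -(z - z₀) + (z - b) := by ring
        rw [h6]
        exact (norm_add_le _ _).trans (by rw [norm_neg])
      linarith
    exact (h1.filter_mono nhdsWithin_le_nhds).frequently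
  have hGlim : ∀ z, z ∉ B → Tendsto (fun n => G n z) 𝒰 (𝓝 (f₀ z)) := by
    intro z hz
    rw [hAg z hz]
    exact hglim z hz
  -- the limit is in `ZS`
  have hZS : f₀ ∈ ZS B δ S Zr := by
    refine ⟨hf₀, fun z hz => ?_⟩
    choose w hw hwz hwne using fun n : ℕ =>
      h.exists_ne (hFS n) (hGS n) (hFGne n) hz (ε := 1 / ((n : ℝ) + 1)) (by positivity)
    have hwlim : Tendsto w 𝒰 (𝓝 z) := by
      rw [tendsto_iff_norm_sub_tendsto_zero]
      exact squeeze_zero (fun n => norm_nonneg _) (fun n => (hwz n).le) hzero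
    refine h.near 𝒰 F G w f₀ hf₀ z hz (Filter.Eventually.of_forall fun n => ⟨hFS n, hGS n⟩) hflim hGlim hwlim ?_
    filter_upwards [hlarge (1 + ‖z‖ + R)] with n hn
    refine ⟨hw n, hwne n, ?_⟩
    have h1 : ‖w n‖ ≤ 1 + ‖z‖ := by
      have h2 : ‖w n‖ ≤ ‖w n - z‖ + ‖z‖ := by
        have h3 : w n = (w n - z) + z := by ring
        calc ‖w n‖ = ‖(w n - z) + z‖ := by rw [← h3]
          _ ≤ ‖w n - z‖ + ‖z‖ := norm_add_le _ _
      have h4 : 1 / ((n : ℝ) + 1) ≤ 1 := by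
        rw [div_le_one (by positivity)]
        have : (0 : ℝ) ≤ (n : ℝ) := Nat.cast_nonneg n
        linarith
      linarith [hwz n]
    have h5 := hN n (w n + l n) ((h.bad.gd_add (2 * δ) (hl n)).mpr (hw n)) ((hnorm (w n) n).trans (by linarith))
    rw [h.N_inv (w n) (l n) (hl n)] at h5
    exact h5
  -- the contradiction
  have hu1 := h.unif 𝒰 F (Filter.Eventually.of_forall hFS) hf₀ hflim hδ (n₂ + R) ε' hε'
  have hu2 := h.unif 𝒰 G (Filter.Eventually.of_forall hGS) hf₀ hGlim hδ (n₂ + R) ε' hε'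
  obtain ⟨n, hn1, hn2⟩ := (hu1.and hu2).exists
  have hneg : -l n ∈ Λ := Λ.neg_mem (hl n)
  obtain ⟨z, hz, hza, hzc⟩ := hbad n (fun z => f₀ (z + -l n)) (h.zs_trans hZS hneg)
  have h1 : z + -l n ∈ Gd B δ := (h.bad.gd_add δ hneg).mpr hz
  have h2 : ‖z + -l n‖ ≤ n₂ + R := by
    have h3 : z + -l n = (z - a n) + (a n - l n) := by ring
    rw [h3]
    exact (norm_add_le _ _).trans (by linarith [hla n])
  have h4 : z + -l n + l n = z := by ring
  have h5 := hn1 _ h1 h2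
  have h6 := hn2 _ h1 h2
  simp only [hFdef, hGdef, h4] at h5 h6
  exact absurd (hzc h5.le) (not_lt.mpr h6.le)

end Pool.Agent.H62.EL
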