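import Pool.Agent.H62.EL.DyB

/-!
# EL DyD: rigidity of the members of `ZS`

By contradiction: `e_n ∈ ZS`, `g_n ∈ S`, `a_n`, not `Ag B e_n g_n`, `dist (g_n z) (e_n z) ≤ 1/(n+1)` on `Gd B δ ∩ closedBall a_n n` and
`N z (e_n z) (g_n z) = 0` on `Gd B (2δ) ∩ closedBall a_n n`.  Translate by `l_n`: `e'_n, g'_n`; limit `e` of the `e'_n`, `e ∈ ZS` (`zs_lim`),
and `g'_n → e` on `Gd B δ`.  By `unif` (for the `e'_n`) and `sep`: `e'_n` is `ε₁`-close to `e` on `Gd B δ ∩ closedBall 0 n₁` for large `n`, so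
`Ag B e'_n e`.  Let `z₀, r, ε` be from `iso e`.  For large `n`, `dist (g'_n z) (e z) ≤ 1/(n+1) < ε` for `z ∈ ball z₀ r` (there `e'_n z = e z`,
and `‖z + l_n - a_n‖ ≤ n`), and `N z (e z) (g'_n z) = N (z + l_n) (e_n (z + l_n)) (g_n (z + l_n)) = 0`.  So `g'_n z = e z = e'_n z` on `ball z₀ r`;
`uniq`: `Ag B g'_n e'_n`, so `Ag B e_n g_n`: contradiction.
-/

set_option autoImplicit false

open Topology Filter Metric

namespace Pool.Agent.H62.EL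

open Pool.Agent.H62.EF (Lat)

variable {Y : Type} [MetricSpace Y] {K : Set Y} {Λ : AddSubgroup ℂ} {B : Set ℂ} {δ : ℝ} {S : Set (ℂ → Y)}
  {Zr : ℂ → Y → Prop} {N : ℂ → Y → Y → ℝ}

theorem Dyn.rigid (h : Dyn K Λ B δ S Zr N) : ∃ ε₂ R₂ : ℝ, 0 < ε₂ ∧ 0 < R₂ ∧ ∀ e ∈ ZS B δ S Zr, ∀ g ∈ S, ∀ a : ℂ,
    (∀ z ∈ Gd B δ, ‖z - a‖ ≤ R₂ → dist (g z) (e z) ≤ ε₂) → (∀ z ∈ Gd B (2 * δ), ‖z - a‖ ≤ R₂ → N z (e z) (g z) = 0) →
    Ag B e g := by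
  by_contra hcon
  have hδ : 0 < δ := h.bad.pos
  have hex : ∀ n : ℕ, ∃ e ∈ ZS B δ S Zr, ∃ g ∈ S, ∃ a : ℂ,
      (∀ z ∈ Gd B δ, ‖z - a‖ ≤ (n : ℝ) + 1 → dist (g z) (e z) ≤ 1 / ((n : ℝ) + 1)) ∧
      (∀ z ∈ Gd B (2 * δ), ‖z - a‖ ≤ (n : ℝ) + 1 → N z (e z) (g z) = 0) ∧ ¬ Ag B e g := by
    intro n
    by_contra hn
    refine hcon ⟨1 / ((n : ℝ) + 1), (n : ℝ) + 1, by positivity, by positivity, ?_⟩
    intro e he g hg a h1 h2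
    by_contra h3
    exact hn ⟨e, he, g, hg, a, h1, h2, h3⟩
  choose e he g hg a h1 h2 h3 using hex
  obtain ⟨RL, _, hRL⟩ := h.lat.cocompact
  have hex2 : ∀ n : ℕ, ∃ l ∈ Λ, ‖a n - l‖ ≤ RL := fun n => hRL (a n)
  choose l hl hal using hex2
  obtain ⟨𝒰, h𝒰⟩ : ∃ 𝒰 : Ultrafilter ℕ, (𝒰 : Filter ℕ) ≤ atTop := ⟨Ultrafilter.of atTop, Ultrafilter.of_le atTop⟩
  have he' : ∀ n, (fun z => e n (z + l n)) ∈ ZS B δ S Zr := fun n => h.zs_trans (he n) (hl n)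
  have hg' : ∀ n, (fun z => g n (z + l n)) ∈ S := fun n => h.trans _ (hg n) _ (hl n)
  obtain ⟨e₀, he₀S, he₀⟩ := h.exists_lim 𝒰 (fun n z => e n (z + l n)) (Eventually.of_forall fun n => (he' n).1)
  have he₀Z : e₀ ∈ ZS B δ S Zr := h.zs_lim 𝒰 (fun n z => e n (z + l n)) (Eventually.of_forall he') he₀
  obtain ⟨ε₁, n₁, hε₁, hn₁, hsep⟩ := h.sep
  obtain ⟨z₀, r, ε, hr, hε, hball, hiso⟩ := h.iso e₀ he₀S he₀Z.2
  have ev1 : ∀ᶠ n in (𝒰 : Filter ℕ), ∀ z ∈ Gd B δ, ‖z‖ ≤ n₁ → dist (e n (z + l n)) (e₀ z) < ε₁ :=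
    h.unif 𝒰 (fun n z => e n (z + l n)) (Eventually.of_forall fun n => (he' n).1) he₀S he₀ hδ n₁ ε₁ hε₁
  have hinv : Tendsto (fun n : ℕ => 1 / ((n : ℝ) + 1)) atTop (𝓝 0) := tendsto_one_div_add_atTop_nhds_zero_nat
  have ev2 : ∀ᶠ n : ℕ in (𝒰 : Filter ℕ), 1 / ((n : ℝ) + 1) < ε := (hinv.eventually_lt_const hε).filter_mono h𝒰
  have ev3 : ∀ᶠ n : ℕ in (𝒰 : Filter ℕ), ‖z₀‖ + r + RL ≤ (n : ℝ) + 1 := by
    have : Tendsto (fun n : ℕ => (n : ℝ) + 1) atTop atTop :=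
      tendsto_atTop_add_const_right _ _ tendsto_natCast_atTop_atTop
    exact (this.eventually_ge_atTop _).filter_mono h𝒰
  obtain ⟨n, hn1, hn2, hn3⟩ := (ev1.and (ev2.and ev3)).exists
  have hag : Ag B (fun z => e n (z + l n)) e₀ :=
    hsep _ (he' n) _ he₀Z 0 (fun z hz hz' => (hn1 z hz (by rwa [sub_zero] at hz')).le)
  have key : ∀ z ∈ ball z₀ r, g n (z + l n) = e n (z + l n) := by
    intro z hz
    have hzG := hball hz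
    have hzG1 : z ∈ Gd B δ := gd_mono (by linarith) hzG
    have hzB : z ∉ B := gd_notMem (by linarith) hzG
    have hez : e n (z + l n) = e₀ z := hag z hzB
    have hz' : ‖z - z₀‖ < r := by rwa [mem_ball, dist_eq_norm] at hz
    have hnorm : ‖z + l n - a n‖ ≤ (n : ℝ) + 1 := by
      calc ‖z + l n - a n‖ = ‖(z - z₀) + z₀ - (a n - l n)‖ := by congr 1; ring
        _ ≤ ‖(z - z₀) + z₀‖ + ‖a n - l n‖ := norm_sub_le _ _
        _ ≤ ‖z - z₀‖ + ‖z₀‖ + ‖a n - l n‖ := by linarith [norm_add_le (z - z₀) z₀]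
        _ ≤ (n : ℝ) + 1 := by linarith [hal n]
    have hd := h1 n (z + l n) ((h.bad.gd_add δ (hl n)).2 hzG1) hnorm
    have hN := h2 n (z + l n) ((h.bad.gd_add (2 * δ) (hl n)).2 hzG) hnorm
    rw [h.N_inv z (l n) (hl n)] at hN
    rw [hez] at hd hN ⊢
    exact hiso _ (hg' n) z hz (lt_of_le_of_lt hd hn2) (Or.inl hN)
  have hz₀B : z₀ ∉ B := gd_notMem (by linarith) (hball (mem_ball_self hr))
  have hfreq : ∃ᶠ z in 𝓝[≠] z₀, (fun z => e n (z + l n)) z = (fun z => g n (z + l n)) z := by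
    have hev : ∀ᶠ z in 𝓝[≠] z₀, (fun z => e n (z + l n)) z = (fun z => g n (z + l n)) z :=
      nhdsWithin_le_nhds (mem_of_superset (ball_mem_nhds z₀ hr) fun z hz => (key z hz).symm)
    exact hev.frequently
  have hAg := h.uniq _ (he' n).1 _ (hg' n) z₀ hz₀B hfreq
  exact h3 n ((h.ag_trans (hl n)).1 hAg)

end Pool.Agent.H62.EL
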