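import Pool.Agent.H62.EL.DyC
import Pool.Agent.H62.EL.DyD

/-!
# EL DyE: two members of `S` which are close on a half plane agree

`half_zero`: with `C, κ, r₁, ε₀` from `decay`; let `f, g` be `ε₀`-close on `Gd B δ ∩ {re (conj ζ z) ≤ t}`, `z ∈ Gd B (2δ)`,
`re (conj ζ z) ≤ t - (r₁ + 1)`.  For `s > 0` put `c = z - s ζ`, `R = s + r₁ + 1`: the disc `‖w - c‖ ≤ R` is in the half plane
[`re (conj ζ w) ≤ re (conj ζ c) + R = re (conj ζ z) - s + R ≤ t`], and `‖z - c‖ = s ≤ R - r₁ = s + 1`.  So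
`N z (f z) (g z) ≤ C exp (-κ ((s+1)² - s²)) ≤ C exp (-κ (2s + 1))` for all `s`: it is `0`.

`chain`: a transitive relation which holds for pairs of points of a convex set of distance `≤ 1` holds for all pairs (subdivide).

`half_plane`: let `ε₁, n₁` be from `sep`, `ε₂, R₂` from `rigid`, `r₁', ε₀` from `half_zero`; `ε' = min (min (ε₁/2) ε₂) ε₀`, `n₂ = n₁ + 1`;
`ε₃, R₃` from `near_zs ε' n₂`.  `ε* = min ε₃ ε₀`.  Let `f, g` be `ε*`-close on `Gd B δ ∩ {re (conj ζ z) ≤ t}` and suppose not `Ag B f g`.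
(1) `N z (f z) (g z) = 0` for `z ∈ Gd B (2δ)`, `re (conj ζ z) ≤ t - r₁'`.
(2) For every `a` in `H' = {re (conj ζ a) ≤ t - r₁' - R₃}` there is `e_a ∈ ZS` with `f`, `g` `ε'`-close to `e_a` on `Gd B δ ∩ closedBall a n₂`.
(3) for `a, a' ∈ H'`, `‖a - a'‖ ≤ 1`: `e_a`, `e_a'` are `2ε' ≤ ε₁`-close on `Gd B δ ∩ closedBall a n₁`, so `Ag B e_a e_a'` (`sep`); by `chain` this
holds for all `a, a' ∈ H'`.  Fix `a₀ = (t - r₁' - R₃) ζ` and `e = e_{a₀}`.  So (take `a = z`; `Gd B δ` is disjoint from `B`) `f` and `g` are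
`ε'`-close to `e` on `Gd B δ ∩ H'`.
(4) `half_zero` for `(e, f)` and `(e, g)` on `H'`: `N z (e z) (f z) = 0 = N z (e z) (g z)` for `z ∈ Gd B (2δ)`, `re (conj ζ z) ≤ t - 2r₁' - R₃`.
(5) `rigid` with `a = (t - 2r₁' - R₃ - R₂) ζ`: `Ag B e f` and `Ag B e g`.  So `Ag B f g`: contradiction.
-/

set_option autoImplicit false

open Topology Filter Metric

namespace Pool.Agent.H62.EL

open Pool.Agent.H62.EF (Lat)

variable {Y : Type} [MetricSpace Y] {K : Set Y} {Λ : AddSubgroup ℂ} {B : Set ℂ} {δ : ℝ} {S : Set (ℂ → Y)}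
  {Zr : ℂ → Y → Prop} {N : ℂ → Y → Y → ℝ}

private theorem dyE_re {ζ : ℂ} (hζ : ‖ζ‖ = 1) (z a : ℂ) :
    ((starRingEnd ℂ) ζ * z).re ≤ ((starRingEnd ℂ) ζ * a).re + ‖z - a‖ := by
  have h1 : (starRingEnd ℂ) ζ * z = (starRingEnd ℂ) ζ * a + (starRingEnd ℂ) ζ * (z - a) := by ring
  have h2 : ((starRingEnd ℂ) ζ * (z - a)).re ≤ ‖z - a‖ := by
    refine (Complex.re_le_norm _).trans ?_
    rw [norm_mul, RCLike.norm_conj, hζ, one_mul]
  rw [h1, Complex.add_re]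
  linarith

private theorem dyE_mul {ζ : ℂ} (hζ : ‖ζ‖ = 1) (s : ℝ) : ((starRingEnd ℂ) ζ * ((s : ℂ) * ζ)).re = s := by
  have h1 : (starRingEnd ℂ) ζ * ((s : ℂ) * ζ) = (s : ℂ) * (ζ * (starRingEnd ℂ) ζ) := by ring
  have h2 : ζ * (starRingEnd ℂ) ζ = 1 := by
    rw [Complex.mul_conj, Complex.normSq_eq_norm_sq, hζ]
    norm_num
  rw [h1, h2, mul_one, Complex.ofReal_re]

theorem chain {H : Set ℂ} (hH : Convex ℝ H) {r : ℂ → ℂ → Prop} (htr : ∀ a b c, r a b → r b c → r a c)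
    (h1 : ∀ a ∈ H, ∀ b ∈ H, ‖a - b‖ ≤ 1 → r a b) {a b : ℂ} (ha : a ∈ H) (hb : b ∈ H) : r a b := by
  obtain ⟨n, hn⟩ := exists_nat_ge ‖b - a‖
  have hn0 : (0 : ℝ) < (n : ℝ) + 1 := by positivity
  have hp : ∀ i : ℕ, i ≤ n + 1 → a + (((i : ℝ) / ((n : ℝ) + 1) : ℝ) : ℂ) * (b - a) ∈ H := by
    intro i hi
    have h2 : (i : ℝ) / ((n : ℝ) + 1) ≤ 1 := by
      rw [div_le_one hn0]
      exact_mod_cast hi
    have h3 : 0 ≤ (i : ℝ) / ((n : ℝ) + 1) := by positivity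
    have h4 := hH ha hb (sub_nonneg.mpr h2) h3 (by ring)
    have h5 : a + (((i : ℝ) / ((n : ℝ) + 1) : ℝ) : ℂ) * (b - a) =
        (1 - (i : ℝ) / ((n : ℝ) + 1)) • a + ((i : ℝ) / ((n : ℝ) + 1)) • b := by
      rw [Complex.real_smul, Complex.real_smul]
      push_cast
      ring
    rw [h5]
    exact h4
  have key : ∀ i : ℕ, i ≤ n + 1 → r a (a + (((i : ℝ) / ((n : ℝ) + 1) : ℝ) : ℂ) * (b - a)) := by
    intro i
    induction i with
    | zero =>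
      intro _
      have h2 : a + ((((0 : ℕ) : ℝ) / ((n : ℝ) + 1) : ℝ) : ℂ) * (b - a) = a := by simp
      rw [h2]
      refine h1 a ha a ha ?_
      rw [sub_self, norm_zero]
      exact zero_le_one
    | succ i ih =>
      intro hi
      refine htr _ _ _ (ih (by omega)) (h1 _ (hp i (by omega)) _ (hp (i + 1) hi) ?_)
      have h2 : a + (((i : ℝ) / ((n : ℝ) + 1) : ℝ) : ℂ) * (b - a) -
          (a + ((((i + 1 : ℕ) : ℝ) / ((n : ℝ) + 1) : ℝ) : ℂ) * (b - a)) =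
          (((-1 / ((n : ℝ) + 1) : ℝ)) : ℂ) * (b - a) := by
        push_cast
        ring
      rw [h2, norm_mul, Complex.norm_real, Real.norm_eq_abs, abs_div, abs_neg, abs_one, abs_of_pos hn0,
        div_mul_eq_mul_div, one_mul, div_le_one hn0]
      linarith
  have h2 := key (n + 1) le_rfl
  have h3 : a + ((((n + 1 : ℕ) : ℝ) / ((n : ℝ) + 1) : ℝ) : ℂ) * (b - a) = b := by
    have h4 : (((n + 1 : ℕ) : ℝ) / ((n : ℝ) + 1)) = 1 := by
      push_cast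
      exact div_self hn0.ne'
    rw [h4]
    push_cast
    ring
  rwa [h3] at h2

theorem Dyn.half_zero (h : Dyn K Λ B δ S Zr N) : ∃ r₁ ε₀ : ℝ, 0 < r₁ ∧ 0 < ε₀ ∧ ∀ f ∈ S, ∀ g ∈ S, ∀ (ζ : ℂ) (t : ℝ), ‖ζ‖ = 1 →
    (∀ z ∈ Gd B δ, ((starRingEnd ℂ) ζ * z).re ≤ t → dist (f z) (g z) ≤ ε₀) →
    ∀ z ∈ Gd B (2 * δ), ((starRingEnd ℂ) ζ * z).re ≤ t - r₁ → N z (f z) (g z) = 0 := by
  obtain ⟨C, κ, r₁, ε₀, hC, hκ, hr₁, hε₀, hdec⟩ := h.decay
  refine ⟨r₁ + 1, ε₀, by linarith, hε₀, ?_⟩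
  intro f hf g hg ζ t hζ hclose z hz hzt
  have key : ∀ s : ℕ, N z (f z) (g z) ≤ C * Real.exp (-κ * (2 * (s : ℝ) + 1)) := by
    intro s
    have hsn : ‖((s : ℝ) : ℂ) * ζ‖ = s := by
      rw [norm_mul, hζ, mul_one, Complex.norm_real, Real.norm_eq_abs, abs_of_nonneg (Nat.cast_nonneg s)]
    have h1 := hdec f hf g hg (z - ((s : ℝ) : ℂ) * ζ) ((s : ℝ) + r₁ + 1) (fun w hw hwc => hclose w hw (by
      have h2 := dyE_re hζ w (z - ((s : ℝ) : ℂ) * ζ)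
      rw [mul_sub, Complex.sub_re, dyE_mul hζ] at h2
      linarith)) z hz (by
        rw [sub_sub_cancel, hsn]
        linarith)
    rw [sub_sub_cancel, hsn] at h1
    have h2 : ((s : ℝ) + r₁ + 1 - r₁) ^ 2 - (s : ℝ) ^ 2 = 2 * (s : ℝ) + 1 := by ring
    rwa [h2] at h1
  have hlim : Tendsto (fun s : ℕ => C * Real.exp (-κ * (2 * (s : ℝ) + 1))) atTop (𝓝 (C * 0)) := by
    refine Tendsto.const_mul C ?_
    refine Real.tendsto_exp_atBot.comp ?_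
    have h1 : Tendsto (fun s : ℕ => 2 * (s : ℝ) + 1) atTop atTop :=
      tendsto_atTop_add_const_right _ _ (tendsto_natCast_atTop_atTop.const_mul_atTop two_pos)
    exact h1.const_mul_atTop_of_neg (by linarith)
  rw [mul_zero] at hlim
  exact le_antisymm (ge_of_tendsto' hlim key) (h.N_nonneg _ _ _)

theorem Dyn.half_plane (h : Dyn K Λ B δ S Zr N) : ∃ ε : ℝ, 0 < ε ∧ ∀ f ∈ S, ∀ g ∈ S, ∀ (ζ : ℂ) (t : ℝ), ‖ζ‖ = 1 →
    (∀ z ∈ Gd B δ, ((starRingEnd ℂ) ζ * z).re ≤ t → dist (f z) (g z) ≤ ε) → Ag B f g := by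
  obtain ⟨ε₁, n₁, hε₁, hn₁, hsep⟩ := h.sep
  obtain ⟨ε₂, R₂, hε₂, hR₂, hrig⟩ := h.rigid
  obtain ⟨r', ε₀, hr', hε₀, hzero⟩ := h.half_zero
  obtain ⟨ε', hε'def⟩ : ∃ ε' : ℝ, ε' = min (min (ε₁ / 2) ε₂) ε₀ := ⟨_, rfl⟩
  have hε' : 0 < ε' := by
    rw [hε'def]
    exact lt_min (lt_min (by positivity) hε₂) hε₀
  have hε'1 : ε' ≤ ε₁ / 2 := by
    rw [hε'def]
    exact (min_le_left _ _).trans (min_le_left _ _)
  have hε'2 : ε' ≤ ε₂ := by
    rw [hε'def]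
    exact (min_le_left _ _).trans (min_le_right _ _)
  have hε'0 : ε' ≤ ε₀ := by
    rw [hε'def]
    exact min_le_right _ _
  obtain ⟨ε₃, R₃, hε₃, hR₃, hnear⟩ := h.near_zs hε' (n₁ + 1)
  refine ⟨min ε₃ ε₀, lt_min hε₃ hε₀, ?_⟩
  intro f hf g hg ζ t hζ hclose
  by_contra hag
  -- (1)
  have h1 : ∀ z ∈ Gd B (2 * δ), ((starRingEnd ℂ) ζ * z).re ≤ t - r' → N z (f z) (g z) = 0 :=
    hzero f hf g hg ζ t hζ (fun z hz hzt => (hclose z hz hzt).trans (min_le_right _ _))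
  -- (2)
  have h2 : ∀ a : ℂ, ((starRingEnd ℂ) ζ * a).re ≤ t - r' - R₃ → ∃ e ∈ ZS B δ S Zr, ∀ z ∈ Gd B δ,
      ‖z - a‖ ≤ n₁ + 1 → dist (f z) (e z) ≤ ε' ∧ dist (g z) (e z) ≤ ε' := by
    intro a ha
    refine hnear f hf g hg hag a ?_ ?_
    · intro z hz hza
      refine (hclose z hz ?_).trans (min_le_left _ _)
      have := dyE_re hζ z a
      linarith
    · intro z hz hza
      refine h1 z hz ?_
      have := dyE_re hζ z a
      linarith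
  have : Nonempty (ℂ → Y) := ⟨f⟩
  choose! e heZ he using h2
  -- (3)
  have hconv : Convex ℝ {a : ℂ | ((starRingEnd ℂ) ζ * a).re ≤ t - r' - R₃} := by
    refine convex_halfSpace_le (f := fun a : ℂ => ((starRingEnd ℂ) ζ * a).re) ?_ _
    refine IsLinearMap.mk (fun x y => ?_) (fun c x => ?_)
    · rw [mul_add, Complex.add_re]
    · rw [mul_smul_comm, Complex.real_smul, Complex.re_ofReal_mul, smul_eq_mul]
  have h3 : ∀ a b : ℂ, ((starRingEnd ℂ) ζ * a).re ≤ t - r' - R₃ → ((starRingEnd ℂ) ζ * b).re ≤ t - r' - R₃ →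
      Ag B (e a) (e b) := by
    intro a b ha hb
    refine chain hconv (r := fun a b => Ag B (e a) (e b)) ?_ ?_ ha hb
    · intro a b c hab hbc z hz
      exact (hab z hz).trans (hbc z hz)
    · intro a ha b hb hab
      refine hsep _ (heZ a ha) _ (heZ b hb) a ?_
      intro z hz hza
      have h4 := (he a ha z hz (by linarith)).1
      have h5 : ‖z - b‖ ≤ n₁ + 1 := by
        have h6 : z - b = (z - a) + (a - b) := by ring
        rw [h6]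
        refine (norm_add_le _ _).trans ?_
        linarith
      have h7 := (he b hb z hz h5).1
      have h8 := dist_triangle_left (e a z) (e b z) (f z)
      linarith
  have ha₀ : ((starRingEnd ℂ) ζ * (((t - r' - R₃ : ℝ) : ℂ) * ζ)).re ≤ t - r' - R₃ := (dyE_mul hζ _).le
  obtain ⟨E, hEdef⟩ : ∃ E, E = e (((t - r' - R₃ : ℝ) : ℂ) * ζ) := ⟨_, rfl⟩
  have hEZ : E ∈ ZS B δ S Zr := by
    rw [hEdef]
    exact heZ _ ha₀
  have h4 : ∀ z ∈ Gd B δ, ((starRingEnd ℂ) ζ * z).re ≤ t - r' - R₃ → dist (f z) (E z) ≤ ε' ∧ dist (g z) (E z) ≤ ε' := by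
    intro z hz hzt
    have h5 := he z hzt z hz (by
      rw [sub_self, norm_zero]
      linarith)
    have h6 := h3 z _ hzt ha₀ z (gd_notMem h.bad.pos hz)
    rw [← hEdef] at h6
    rwa [h6] at h5
  -- (4)
  have h5 : ∀ z ∈ Gd B (2 * δ), ((starRingEnd ℂ) ζ * z).re ≤ t - r' - R₃ - r' → N z (E z) (f z) = 0 :=
    hzero E hEZ.1 f hf ζ (t - r' - R₃) hζ (fun z hz hzt => by
      rw [dist_comm]
      exact (h4 z hz hzt).1.trans hε'0)
  have h6 : ∀ z ∈ Gd B (2 * δ), ((starRingEnd ℂ) ζ * z).re ≤ t - r' - R₃ - r' → N z (E z) (g z) = 0 :=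
    hzero E hEZ.1 g hg ζ (t - r' - R₃) hζ (fun z hz hzt => by
      rw [dist_comm]
      exact (h4 z hz hzt).2.trans hε'0)
  -- (5)
  have hre : ∀ z : ℂ, ‖z - (((t - r' - R₃ - r' - R₂ : ℝ) : ℂ) * ζ)‖ ≤ R₂ → ((starRingEnd ℂ) ζ * z).re ≤ t - r' - R₃ - r' := by
    intro z hz
    have h7 := dyE_re hζ z (((t - r' - R₃ - r' - R₂ : ℝ) : ℂ) * ζ)
    rw [dyE_mul hζ] at h7
    linarith
  have h7 : Ag B E f := hrig E hEZ f hf (((t - r' - R₃ - r' - R₂ : ℝ) : ℂ) * ζ)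
    (fun z hz hza => (h4 z hz (by linarith [hre z hza])).1.trans hε'2) (fun z hz hza => h5 z hz (hre z hza))
  have h8 : Ag B E g := hrig E hEZ g hg (((t - r' - R₃ - r' - R₂ : ℝ) : ℂ) * ζ)
    (fun z hz hza => (h4 z hz (by linarith [hre z hza])).2.trans hε'2) (fun z hz hza => h6 z hz (hre z hza))
  exact hag fun z hz => (h7 z hz).symm.trans (h8 z hz)

end Pool.Agent.H62.EL
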