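import Pool.Agent.H62.EL.DyA

/-!
# EL DyL: limits

(1) `exists_lim`: for `z ∉ B` the values `F n z` are eventually in the compact set `K`, so they have a limit along `𝒰`; choose it
(any value, e.g. `F 0 z`, on `B`) and use `lim`.
(2) `unif`: the set `Gd B δ' ∩ closedBall 0 R` is compact (`Gd` is closed).  Let `L` be the constant of `lip` for `δ'`, and
`s = min (δ'/2) (ε / (4L))`.  Cover it by finitely many balls of radius `s` about points `z_i` of the set; eventually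
`dist (F n z_i) (f z_i) < ε/4` for all `i`; for `z` in the ball about `z_i`: `dist (F n z) (f z) ≤ L s + ε/4 + L s ≤ 3ε/4 < ε`
(`lip` for `F n ∈ S` and `f ∈ S`).
(3) `tendsto_along`: `z ∈ Gd B δ'` for some `δ' > 0` (`exists_gd`); `dist (F n (w n)) (f z) ≤ L ‖w n - z‖ + dist (F n z) (f z)`.
(4) `exists_ne`: otherwise `f = g` at all points of `Gd B (2δ)` within `ε` of `z`; by `perfect` frequently in `𝓝[≠] z`; `uniq`.
-/

set_option autoImplicit false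

open Topology Filter Metric

namespace Pool.Agent.H62.EL

open Pool.Agent.H62.EF (Lat)

variable {Y : Type} [MetricSpace Y] {K : Set Y} {Λ : AddSubgroup ℂ} {B : Set ℂ} {δ : ℝ} {S : Set (ℂ → Y)}
  {Zr : ℂ → Y → Prop} {N : ℂ → Y → Y → ℝ}

theorem Dyn.exists_lim (h : Dyn K Λ B δ S Zr N) (𝒰 : Ultrafilter ℕ) (F : ℕ → ℂ → Y) (hF : ∀ᶠ n in (𝒰 : Filter ℕ), F n ∈ S) :
    ∃ f ∈ S, ∀ z, z ∉ B → Tendsto (fun n => F n z) 𝒰 (𝓝 (f z)) := by
  have key : ∀ z, ∃ y : Y, z ∉ B → Tendsto (fun n => F n z) 𝒰 (𝓝 y) := by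
    intro z
    by_cases hz : z ∈ B
    · exact ⟨F 0 z, fun h' => absurd hz h'⟩
    · have h1 : ((𝒰.map fun n => F n z : Ultrafilter Y) : Filter Y) ≤ 𝓟 K := by
        rw [Filter.le_principal_iff]
        show ∀ᶠ n in (𝒰 : Filter ℕ), F n z ∈ K
        filter_upwards [hF] with n hn
        exact h.mem _ hn z hz
      obtain ⟨y, _, hy⟩ := h.compact.ultrafilter_le_nhds _ h1
      exact ⟨y, fun _ => hy⟩
  choose f hf using key
  exact ⟨f, h.lim 𝒰 F f hF hf, hf⟩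

theorem Dyn.unif (h : Dyn K Λ B δ S Zr N) (𝒰 : Ultrafilter ℕ) (F : ℕ → ℂ → Y) (hF : ∀ᶠ n in (𝒰 : Filter ℕ), F n ∈ S)
    {f : ℂ → Y} (hfS : f ∈ S) (hf : ∀ z, z ∉ B → Tendsto (fun n => F n z) 𝒰 (𝓝 (f z))) {δ' : ℝ} (hδ' : 0 < δ') (R ε : ℝ)
    (hε : 0 < ε) : ∀ᶠ n in (𝒰 : Filter ℕ), ∀ z ∈ Gd B δ', ‖z‖ ≤ R → dist (F n z) (f z) < ε := by
  obtain ⟨L, hL, hlip⟩ := h.lip δ' hδ'
  have hcpt : IsCompact (Gd B δ' ∩ closedBall (0 : ℂ) R) := (isCompact_closedBall 0 R).inter_left (isClosed_gd δ')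
  obtain ⟨s, hs⟩ : ∃ s : ℝ, s = min (δ' / 2) (ε / (4 * L)) := ⟨_, rfl⟩
  have hs0 : 0 < s := by
    rw [hs]
    exact lt_min (by positivity) (by positivity)
  have hs1 : s ≤ δ' / 2 := by rw [hs]; exact min_le_left _ _
  have hs2 : L * s ≤ ε / 4 := by
    have h1 : s ≤ ε / (4 * L) := by rw [hs]; exact min_le_right _ _
    calc L * s ≤ L * (ε / (4 * L)) := mul_le_mul_of_nonneg_left h1 hL.le
      _ = ε / 4 := by field_simp
  obtain ⟨t, htC, htf, hcov⟩ := hcpt.finite_cover_balls hs0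
  have hev : ∀ᶠ n in (𝒰 : Filter ℕ), ∀ x ∈ t, dist (F n x) (f x) < ε / 4 := by
    rw [Filter.eventually_all_finite htf]
    intro x hx
    have h1 := hf x (gd_notMem hδ' (htC hx).1)
    exact (tendsto_iff_dist_tendsto_zero.mp h1).eventually_lt_const (by positivity)
  filter_upwards [hF, hev] with n hn hn2 z hz hzR
  have hzC : z ∈ Gd B δ' ∩ closedBall (0 : ℂ) R := ⟨hz, by rwa [mem_closedBall, dist_zero_right]⟩
  obtain ⟨x, hx, hzx⟩ := Set.mem_iUnion₂.mp (hcov hzC)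
  have hxz : ‖x - z‖ < s := by
    rw [mem_ball, dist_comm, dist_eq_norm] at hzx
    exact hzx
  have hzx' : z ∈ closedBall x (δ' / 2) := by
    rw [mem_closedBall, dist_comm, dist_eq_norm]
    linarith
  have h1 := hlip (F n) hn x (htC hx).1 z hzx'
  have h2 := hlip f hfS x (htC hx).1 z hzx'
  have h3 := hn2 x hx
  have h4 : L * ‖x - z‖ ≤ ε / 4 := (mul_le_mul_of_nonneg_left hxz.le hL.le).trans hs2
  have h5 := dist_triangle4 (F n z) (F n x) (f x) (f z)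
  rw [dist_comm (F n z) (F n x)] at h5
  linarith

theorem Dyn.tendsto_along (h : Dyn K Λ B δ S Zr N) (𝒰 : Ultrafilter ℕ) (F : ℕ → ℂ → Y) (hF : ∀ᶠ n in (𝒰 : Filter ℕ), F n ∈ S)
    {f : ℂ → Y} (hf : ∀ z, z ∉ B → Tendsto (fun n => F n z) 𝒰 (𝓝 (f z))) {w : ℕ → ℂ} {z : ℂ} (hz : z ∉ B)
    (hw : Tendsto w 𝒰 (𝓝 z)) : Tendsto (fun n => F n (w n)) 𝒰 (𝓝 (f z)) := by
  obtain ⟨δ', hδ', hzδ⟩ := h.bad.exists_gd hz
  obtain ⟨L, hL, hlip⟩ := h.lip δ' hδ'
  rw [tendsto_iff_dist_tendsto_zero]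
  have h1 : Tendsto (fun n => L * dist z (w n) + dist (F n z) (f z)) 𝒰 (𝓝 (L * 0 + 0)) := by
    refine Tendsto.add (Tendsto.const_mul L ?_) (tendsto_iff_dist_tendsto_zero.mp (hf z hz))
    have h2 := tendsto_iff_dist_tendsto_zero.mp hw
    simp only [dist_comm z]
    exact h2
  rw [mul_zero, add_zero] at h1
  refine squeeze_zero' (Eventually.of_forall fun _ => dist_nonneg) ?_ h1
  have h2 : ∀ᶠ n in (𝒰 : Filter ℕ), w n ∈ closedBall z (δ' / 2) :=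
    hw.eventually (closedBall_mem_nhds z (by positivity))
  filter_upwards [hF, h2] with n hn hn2
  have h3 := hlip (F n) hn z hzδ (w n) hn2
  rw [← dist_eq_norm] at h3
  have h4 := dist_triangle_left (F n (w n)) (f z) (F n z)
  linarith

/-- two different members of `S` differ at points of `Gd B (2δ)` near any point of it -/
theorem Dyn.exists_ne (h : Dyn K Λ B δ S Zr N) {f g : ℂ → Y} (hf : f ∈ S) (hg : g ∈ S) (hne : ¬ Ag B f g) {z : ℂ}
    (hz : z ∈ Gd B (2 * δ)) {ε : ℝ} (hε : 0 < ε) : ∃ w ∈ Gd B (2 * δ), ‖w - z‖ < ε ∧ f w ≠ g w := by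
  by_contra hcon
  push Not at hcon
  apply hne
  refine h.uniq f hf g hg z (gd_notMem (by linarith [h.bad.pos]) hz) ?_
  have h1 : ∀ᶠ w in 𝓝[≠] z, ‖w - z‖ < ε := by
    have h2 : ∀ᶠ w in 𝓝 z, ‖w - z‖ < ε := by
      filter_upwards [ball_mem_nhds z hε] with w hw
      rwa [mem_ball, dist_eq_norm] at hw
    exact h2.filter_mono nhdsWithin_le_nhds
  refine ((h.bad.perfect hz).and_eventually h1).mono ?_
  rintro w ⟨hw1, hw2⟩
  exact hcon w hw1 hw2

end Pool.Agent.H62.EL
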