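import Pool.Agent.H62.EF.Defs

/-!
# EL Dyn: the abstract dynamical situation

`S` is a compact, `Λ`-invariant family of maps `ℂ \ B → Y` (maps `ℂ → Y` whose values on `B` do not matter), `B` is a discrete
`Λ`-invariant set.  `N z y y'` measures the distance of two near points `y`, `y'` over `z`; it may vanish for different points, but
only near the closed set `Zr`.
-/

set_option autoImplicit false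

open Topology Filter Metric

namespace Pool.Agent.H62.EL

open Pool.Agent.H62.EF (Lat)

/-- the points of distance at least `δ` from `B` -/
def Gd (B : Set ℂ) (δ : ℝ) : Set ℂ := {z | ∀ b ∈ B, δ ≤ ‖z - b‖}

/-- the two maps agree outside `B` -/
def Ag {Y : Type} (B : Set ℂ) (f g : ℂ → Y) : Prop := ∀ z, z ∉ B → f z = g z

/-- a discrete `Λ`-invariant set -/
structure BadSet (B : Set ℂ) (Λ : AddSubgroup ℂ) (δ : ℝ) : Prop where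
  pos : 0 < δ
  inv : ∀ b ∈ B, ∀ l ∈ Λ, b + l ∈ B
  sep : ∀ b ∈ B, ∀ b' ∈ B, b ≠ b' → 8 * δ ≤ ‖b - b'‖

/-- the abstract situation -/
structure Dyn {Y : Type} [MetricSpace Y] (K : Set Y) (Λ : AddSubgroup ℂ) (B : Set ℂ) (δ : ℝ) (S : Set (ℂ → Y))
    (Zr : ℂ → Y → Prop) (N : ℂ → Y → Y → ℝ) : Prop where
  compact : IsCompact K
  lat : Lat Λ
  bad : BadSet B Λ δ
  mem : ∀ f ∈ S, ∀ z, z ∉ B → f z ∈ K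
  lip : ∀ δ' : ℝ, 0 < δ' → ∃ L : ℝ, 0 < L ∧ ∀ f ∈ S, ∀ z ∈ Gd B δ', ∀ w ∈ closedBall z (δ' / 2), dist (f z) (f w) ≤ L * ‖z - w‖
  trans : ∀ f ∈ S, ∀ l ∈ Λ, (fun z => f (z + l)) ∈ S
  lim : ∀ (𝒰 : Ultrafilter ℕ) (F : ℕ → ℂ → Y) (f : ℂ → Y), (∀ᶠ n in (𝒰 : Filter ℕ), F n ∈ S) →
    (∀ z, z ∉ B → Tendsto (fun n => F n z) 𝒰 (𝓝 (f z))) → f ∈ S
  uniq : ∀ f ∈ S, ∀ g ∈ S, ∀ z₀, z₀ ∉ B → (∃ᶠ z in 𝓝[≠] z₀, f z = g z) → Ag B f g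
  Z_inv : ∀ z, ∀ l ∈ Λ, ∀ y, Zr (z + l) y ↔ Zr z y
  Z_lim : ∀ (𝒰 : Ultrafilter ℕ) (F : ℕ → ℂ → Y), ∀ f ∈ S, (∀ᶠ n in (𝒰 : Filter ℕ), F n ∈ S) →
    (∀ z, z ∉ B → Tendsto (fun n => F n z) 𝒰 (𝓝 (f z))) → ∀ z ∈ Gd B (2 * δ), (∀ᶠ n in (𝒰 : Filter ℕ), Zr z (F n z)) → Zr z (f z)
  N_nonneg : ∀ z y y', 0 ≤ N z y y'
  N_inv : ∀ z, ∀ l ∈ Λ, ∀ y y', N (z + l) y y' = N z y y'
  decay : ∃ C κ r₁ ε₀ : ℝ, 0 ≤ C ∧ 0 < κ ∧ 0 < r₁ ∧ 0 < ε₀ ∧ ∀ f ∈ S, ∀ g ∈ S, ∀ (c : ℂ) (R : ℝ),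
    (∀ z ∈ Gd B δ, ‖z - c‖ ≤ R → dist (f z) (g z) ≤ ε₀) →
    ∀ z ∈ Gd B (2 * δ), ‖z - c‖ ≤ R - r₁ → N z (f z) (g z) ≤ C * Real.exp (-κ * ((R - r₁) ^ 2 - ‖z - c‖ ^ 2))
  near : ∀ (𝒰 : Ultrafilter ℕ) (F G : ℕ → ℂ → Y) (w : ℕ → ℂ), ∀ f ∈ S, ∀ z ∈ Gd B (2 * δ),
    (∀ᶠ n in (𝒰 : Filter ℕ), F n ∈ S ∧ G n ∈ S) → (∀ z, z ∉ B → Tendsto (fun n => F n z) 𝒰 (𝓝 (f z))) →
    (∀ z, z ∉ B → Tendsto (fun n => G n z) 𝒰 (𝓝 (f z))) → Tendsto w 𝒰 (𝓝 z) →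
    (∀ᶠ n in (𝒰 : Filter ℕ), w n ∈ Gd B (2 * δ) ∧ F n (w n) ≠ G n (w n) ∧ N (w n) (F n (w n)) (G n (w n)) = 0) → Zr z (f z)
  iso : ∀ e ∈ S, (∀ z ∈ Gd B (2 * δ), Zr z (e z)) → ∃ (z₀ : ℂ) (r ε : ℝ), 0 < r ∧ 0 < ε ∧ ball z₀ r ⊆ Gd B (2 * δ) ∧
    ∀ g ∈ S, ∀ z ∈ ball z₀ r, dist (g z) (e z) < ε → (N z (e z) (g z) = 0 ∨ Zr z (g z)) → g z = e z

/-- the members of `S` inside `Zr` -/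
def ZS {Y : Type} (B : Set ℂ) (δ : ℝ) (S : Set (ℂ → Y)) (Zr : ℂ → Y → Prop) : Set (ℂ → Y) :=
  {e | e ∈ S ∧ ∀ z ∈ Gd B (2 * δ), Zr z (e z)}

end Pool.Agent.H62.EL
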