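import Mathlib

/-!
# EL Gl: local solutions on a disc which are unique up to constants give a global solution

`Sol H z` is a property of the function `H` near `z`.  By `hdiff` two solutions on a ball (inside `ball b s`) differ by a constant on it (derivative
`0` on a convex open set).  Let `K = closedBall b s'`, compact, `s' < s` (if `s' < 0` nothing to prove).  Lebesgue number: there is `ε > 0` such that for every
`z ∈ K` there is `H_z` with `Sol H_z w` for all `w ∈ ball z (4 ε)`, `4 ε < s - s'` (so these balls are in `ball b s`).  For `z, z' ∈ K` with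
`‖z - z'‖ < 2ε` put `c (z, z') = H_z z' - H_z z`.
(1) if `z, z', z''` have mutual distances `< 2 ε`: `c (z, z') + c (z', z'') = c (z, z'')`: `H_z - H_z'` is constant on the convex open set
`ball z (4ε) ∩ ball z' (4ε)`, which contains `z, z', z''`; so `c (z', z'') = H_z z'' - H_z z'`.
(2) Let `n ≥ 1` with `s' / n < ε`; for `z ∈ K` put `z_k = b + (k / n) (z - b)`, `k = 0, ..., n`, (in `K`, `‖z_{k+1} - z_k‖ < ε`) and
`H z = Σ_{k<n} c (z_k, z_{k+1})`.
(3) Let `z, z' ∈ K`, `‖z - z'‖ < ε`.  Then `‖z_k - z'_k‖ ≤ ‖z - z'‖ < ε`, and `c (z_k, z_{k+1}) + c (z_{k+1}, z'_{k+1}) = c (z_k, z'_{k+1}) =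
c (z_k, z'_k) + c (z'_k, z'_{k+1})` (mutual distances `< 2ε`).  Sum over `k`: `H z + c (z, z') = H z' + c (b, b) = H z'`.
So near a point `z ∈ ball b s'`: `H w = H z + H_z w - H_z z = H_z w + const`; `Sol H z` by `hcongr`.
-/

set_option autoImplicit false

open Topology Filter Metric

namespace Pool.Agent.H62.EL

/-- Lebesgue number: solutions on balls of a uniform radius around the points of the closed disc. -/
private lemma gl_cover {b : ℂ} {s s' : ℝ} (hs : s' < s) (Sol : (ℂ → ℂ) → ℂ → Prop)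
    (hloc : ∀ z ∈ ball b s, ∃ (r : ℝ) (H : ℂ → ℂ), 0 < r ∧ ∀ w ∈ ball z r, Sol H w) :
    ∃ (ε : ℝ) (HH : ℂ → ℂ → ℂ), 0 < ε ∧ (∀ z ∈ closedBall b s', ∀ w ∈ ball z (4 * ε), Sol (HH z) w) ∧
      ∀ z ∈ closedBall b s', ∀ w ∈ ball z (4 * ε), w ∈ ball b s := by
  choose! r H hr hsol using hloc
  have hcov : closedBall b s' ⊆ ⋃ i : ball b s, ball (i : ℂ) (r i) := by
    intro z hz
    have hz' : z ∈ ball b s := closedBall_subset_ball hs hz
    exact Set.mem_iUnion.2 ⟨⟨z, hz'⟩, mem_ball_self (hr z hz')⟩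
  obtain ⟨δ, hδ, hL⟩ := lebesgue_number_lemma_of_metric (isCompact_closedBall b s')
    (fun i : ball b s => (isOpen_ball : IsOpen (ball (i : ℂ) (r i)))) hcov
  have hL' : ∀ x ∈ closedBall b s', ∃ i : ℂ, i ∈ ball b s ∧ ball x δ ⊆ ball i (r i) :=
    fun x hx => let ⟨i, hi⟩ := hL x hx; ⟨i, i.2, hi⟩
  choose! j hjm hj using hL'
  have hm : 0 < min δ (s - s') := lt_min hδ (by linarith)
  refine ⟨min δ (s - s') / 4, fun z => H (j z), by linarith, ?_, ?_⟩
  · intro z hz w hw
    have h4 : 4 * (min δ (s - s') / 4) ≤ δ := by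
      have := min_le_left δ (s - s'); linarith
    exact hsol _ (hjm z hz) w (hj z hz (ball_subset_ball h4 hw))
  · intro z hz w hw
    rw [mem_closedBall] at hz
    rw [mem_ball] at hw ⊢
    have h4 : 4 * (min δ (s - s') / 4) ≤ s - s' := by
      have := min_le_right δ (s - s'); linarith
    have := dist_triangle w z b
    linarith

theorem glue {b : ℂ} {s s' : ℝ} (hs : s' < s) (Sol : (ℂ → ℂ) → ℂ → Prop)
    (hloc : ∀ z ∈ ball b s, ∃ (r : ℝ) (H : ℂ → ℂ), 0 < r ∧ ∀ w ∈ ball z r, Sol H w)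
    (hdiff : ∀ (H H' : ℂ → ℂ), ∀ z ∈ ball b s, Sol H z → Sol H' z → HasDerivAt (fun w => H w - H' w) 0 z)
    (hcongr : ∀ (H H' : ℂ → ℂ) (z c : ℂ), Sol H z → (∀ᶠ w in 𝓝 z, H' w = H w + c) → Sol H' z) :
    ∃ H : ℂ → ℂ, ∀ z ∈ ball b s', Sol H z := by
  rcases le_or_gt s' 0 with h0 | h0
  · refine ⟨fun _ => 0, fun z hz => ?_⟩
    rw [ball_eq_empty.2 h0] at hz
    exact absurd hz (Set.notMem_empty z)
  obtain ⟨ε, HH, hε, hHH, hsub⟩ := gl_cover hs Sol hloc
  -- the constant difference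
  have hconst : ∀ z ∈ closedBall b s', ∀ z' ∈ closedBall b s', ∀ u ∈ ball z (4 * ε) ∩ ball z' (4 * ε),
      ∀ v ∈ ball z (4 * ε) ∩ ball z' (4 * ε), HH z u - HH z' u = HH z v - HH z' v := by
    intro z hz z' hz' u hu v hv
    have hder : ∀ w ∈ ball z (4 * ε) ∩ ball z' (4 * ε), HasDerivAt (fun w => HH z w - HH z' w) 0 w :=
      fun w hw => hdiff _ _ w (hsub z hz w hw.1) (hHH z hz w hw.1) (hHH z' hz' w hw.2)
    exact (isOpen_ball.inter isOpen_ball).is_const_of_deriv_eq_zero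
      ((convex_ball z (4 * ε)).inter (convex_ball z' (4 * ε))).isPreconnected
      (fun w hw => (hder w hw).differentiableAt.differentiableWithinAt)
      (fun w hw => by simpa using (hder w hw).deriv) hu hv
  -- the cocycle
  have hcoc : ∀ z ∈ closedBall b s', ∀ z' ∈ closedBall b s', ∀ z'' ∈ closedBall b s', ‖z' - z‖ < 2 * ε →
      ‖z'' - z‖ < 2 * ε → ‖z'' - z'‖ < 2 * ε →
      (HH z z' - HH z z) + (HH z' z'' - HH z' z') = HH z z'' - HH z z := by
    intro z hz z' hz' z'' hz'' h1 h2 h3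
    have hu : z' ∈ ball z (4 * ε) ∩ ball z' (4 * ε) :=
      ⟨by rw [mem_ball, dist_eq_norm]; linarith, by rw [mem_ball, dist_self]; linarith⟩
    have hv : z'' ∈ ball z (4 * ε) ∩ ball z' (4 * ε) :=
      ⟨by rw [mem_ball, dist_eq_norm]; linarith, by rw [mem_ball, dist_eq_norm]; linarith⟩
    have := hconst z hz z' hz' z' hu z'' hv
    linear_combination this
  obtain ⟨n, hn⟩ := exists_nat_gt (s' / ε)
  have hn0 : (0 : ℝ) < n := lt_trans (div_pos h0 hε) hn
  have hnC : (n : ℂ) ≠ 0 := by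
    have : (n : ℝ) ≠ 0 := hn0.ne'
    exact_mod_cast this
  have hsn : s' / n < ε := by
    rw [div_lt_iff₀ hn0, mul_comm]
    exact (div_lt_iff₀ hε).1 hn
  set p : ℂ → ℕ → ℂ := fun z k => b + ((k : ℂ) / (n : ℂ)) * (z - b) with hp
  have hfrac : ∀ k : ℕ, k ≤ n → ‖((k : ℂ) / (n : ℂ))‖ ≤ 1 := by
    intro k hk
    rw [norm_div, Complex.norm_natCast, Complex.norm_natCast, div_le_one hn0]
    exact_mod_cast hk
  have hpK : ∀ z ∈ closedBall b s', ∀ k : ℕ, k ≤ n → p z k ∈ closedBall b s' := by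
    intro z hz k hk
    rw [mem_closedBall, dist_eq_norm] at hz ⊢
    have : p z k - b = ((k : ℂ) / (n : ℂ)) * (z - b) := by rw [hp]; ring
    rw [this, norm_mul]
    calc _ ≤ 1 * ‖z - b‖ := mul_le_mul_of_nonneg_right (hfrac k hk) (norm_nonneg _)
      _ ≤ s' := by rw [one_mul]; exact hz
  have hstep : ∀ z ∈ closedBall b s', ∀ k : ℕ, ‖p z (k + 1) - p z k‖ < ε := by
    intro z hz k
    rw [mem_closedBall, dist_eq_norm] at hz
    have : p z (k + 1) - p z k = (z - b) / (n : ℂ) := by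
      rw [hp]; push_cast; field_simp; ring
    rw [this, norm_div, Complex.norm_natCast]
    exact lt_of_le_of_lt (div_le_div_of_nonneg_right hz hn0.le) hsn
  have hside : ∀ z z' : ℂ, ∀ k : ℕ, k ≤ n → ‖p z' k - p z k‖ ≤ ‖z' - z‖ := by
    intro z z' k hk
    have : p z' k - p z k = ((k : ℂ) / (n : ℂ)) * (z' - z) := by rw [hp]; ring
    rw [this, norm_mul]
    calc _ ≤ 1 * ‖z' - z‖ := mul_le_mul_of_nonneg_right (hfrac k hk) (norm_nonneg _)
      _ = ‖z' - z‖ := one_mul _
  have hpn : ∀ z : ℂ, p z n = z := by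
    intro z
    rw [hp]; simp only
    rw [div_self hnC]; ring
  have hp0 : ∀ z : ℂ, p z 0 = b := by
    intro z
    rw [hp]; simp
  set H : ℂ → ℂ := fun z => ∑ k ∈ Finset.range n, (HH (p z k) (p z (k + 1)) - HH (p z k) (p z k)) with hH
  have hlad : ∀ z ∈ closedBall b s', ∀ z' ∈ closedBall b s', ‖z' - z‖ < ε → ∀ m : ℕ, m ≤ n →
      (∑ k ∈ Finset.range m, (HH (p z k) (p z (k + 1)) - HH (p z k) (p z k))) +
        (HH (p z m) (p z' m) - HH (p z m) (p z m)) =
      ∑ k ∈ Finset.range m, (HH (p z' k) (p z' (k + 1)) - HH (p z' k) (p z' k)) := by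
    intro z hz z' hz' hzz m
    induction m with
    | zero =>
      intro _
      simp [hp0]
    | succ m ih =>
      intro hm
      have hm' : m ≤ n := Nat.le_of_succ_le hm
      have e := ih hm'
      rw [Finset.sum_range_succ, Finset.sum_range_succ]
      have a1 := hstep z hz m
      have a2 := hstep z' hz' m
      have a3 := lt_of_le_of_lt (hside z z' m hm') hzz
      have a4 := lt_of_le_of_lt (hside z z' (m + 1) hm) hzz
      have a5 : ‖p z' (m + 1) - p z m‖ < 2 * ε := by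
        have : p z' (m + 1) - p z m = (p z' (m + 1) - p z (m + 1)) + (p z (m + 1) - p z m) := by ring
        rw [this]
        exact lt_of_le_of_lt (norm_add_le _ _) (by linarith)
      have c1 := hcoc (p z m) (hpK z hz m hm') (p z (m + 1)) (hpK z hz (m + 1) hm) (p z' (m + 1))
        (hpK z' hz' (m + 1) hm) (by linarith) a5 (by linarith)
      have c2 := hcoc (p z m) (hpK z hz m hm') (p z' m) (hpK z' hz' m hm') (p z' (m + 1))
        (hpK z' hz' (m + 1) hm) (by linarith) a5 (by linarith)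
      linear_combination e + c1 - c2
  refine ⟨H, fun z hz => ?_⟩
  have hzK : z ∈ closedBall b s' := ball_subset_closedBall hz
  refine hcongr (HH z) H z (H z - HH z z) (hHH z hzK z (mem_ball_self (by linarith))) ?_
  have h1 : ∀ᶠ w in 𝓝 z, w ∈ ball b s' := isOpen_ball.mem_nhds hz
  have h2 : ∀ᶠ w in 𝓝 z, w ∈ ball z ε := isOpen_ball.mem_nhds (mem_ball_self hε)
  filter_upwards [h1, h2] with w hw1 hw2
  rw [mem_ball, dist_eq_norm] at hw2
  have e := hlad z hzK w (ball_subset_closedBall hw1) hw2 n le_rfl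
  rw [hpn, hpn] at e
  have e' : H z + (HH z w - HH z z) = H w := e
  rw [← e']; ring

end Pool.Agent.H62.EL
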