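import Pool.Agent.H62.EL.Defs
import Pool.Agent.H62.EL.Gl

/-!
# EL Hf: the function `H` of a section

`Sol H z` := for all `k` with `F z ∈ T.W k`: `HasDerivAt (fun w => H w + lam k (F w)) (bt (T.χ k) (A k) F z) z`.  Apply `glue`.
`hloc`: let `z ∈ ball b s`, `k` with `F z ∈ T.W k` (`TubeG.cover`), `r > 0` with `ball z r ⊆ ball b s` and `F w ∈ T.W k` for `w ∈ ball z r`.  The function
`w ↦ bt (T.χ k) (A k) F w` is analytic on `ball z r` (`T.W k ⊆ U`, `q` and `A k` are analytic, `F` is entire, `q (F w) ∈ ball 0 2` by `Chart.surj`), so it has a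
primitive `P` there (`DifferentiableOn.isExactOn_ball`); `H w = P w - lam k (F w)`.  For `w ∈ ball z r` and `l` with `F w ∈ T.W l`:
`H + lam l ∘ F = P - (lam k ∘ F - lam l ∘ F)` has the derivative `bt k - (bt k - bt l) = bt l` (`Split`, with `CurveAt X F w`, `u (F w) - w ∈ Λ`).
`hdiff`: choose `k` with `F z ∈ T.W k`: `H - H' = (H + lam k ∘ F) - (H' + lam k ∘ F)` has the derivative `bt k - bt k = 0`.  `hcongr`: clear.
-/

set_option autoImplicit false

open Topology Filter Metric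

namespace Pool.Agent.H62.EL

open Pool.Agent.H36.BP (EN fs wd IsGermChart)
open Pool.Agent.H14.PP (IsCone Chart Tan CurveAt jac)
open Pool.Agent.H62.EF (Lat MN pr TorusMap Sec Charts DU)

variable {N : ℕ} {X : Set (EN N)} {Λ : AddSubgroup ℂ} {u : EN N → ℂ}

theorem exists_H {b : ℂ} {s η : ℝ} {T : TubeData X} (hT : TubeG Λ u b s η T) {A : Fin T.m → ℂ × ℂ → ℂ}
    (hA : ∀ k, ∀ p ∈ ball (0 : ℂ × ℂ) 2, AnalyticAt ℂ (A k) p) {lam : Fin T.m → EN N → ℂ} (hs : Split Λ u b s T A lam)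
    {F : ℂ → EN N} (hF : F ∈ Sec X Λ u) {s' : ℝ} (hs' : s' < s) : ∃ H : ℂ → ℂ, ∀ z ∈ ball b s', ∀ k, F z ∈ T.W k →
      HasDerivAt (fun w => H w + lam k (F w)) (bt (T.χ k) (A k) F z) z := by
  obtain ⟨hFd, hFX, hFu⟩ := hF
  have hcv : ∀ z, CurveAt X F z := fun z => ⟨hFd.analyticAt z, Eventually.of_forall hFX⟩
  have hbt : ∀ k z, F z ∈ T.W k → AnalyticAt ℂ (fun w => bt (T.χ k) (A k) F w) z := by
    intro k z hz
    have hU : F z ∈ (T.χ k).U := hT.W_sub k hz
    have hq : AnalyticAt ℂ (fun ξ => (T.χ k).q (F ξ)) z :=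
      AnalyticAt.comp (g := (T.χ k).q) (f := F) ((T.χ k).q_an _ hU) (hFd.analyticAt z)
    have hA' : AnalyticAt ℂ (fun ξ => A k ((T.χ k).q (F ξ))) z :=
      AnalyticAt.comp (g := A k) (f := fun ξ => (T.χ k).q (F ξ)) (hA k _ ((T.χ k).surj _ (hFX z) hU).1) hq
    have hd : AnalyticAt ℂ (fun ζ => (deriv (fun ξ => (T.χ k).q (F ξ)) ζ).1) z :=
      AnalyticAt.comp (g := Prod.fst) (f := deriv (fun ξ => (T.χ k).q (F ξ))) analyticAt_fst hq.deriv
    unfold bt
    exact (hA'.mul hd).neg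
  apply glue hs' (fun H z => ∀ k, F z ∈ T.W k →
    HasDerivAt (fun w => H w + lam k (F w)) (bt (T.χ k) (A k) F z) z)
  · intro z hz
    obtain ⟨k, hk⟩ := hT.cover z hz (F z) (hFX z) (hFu z)
    have ho : IsOpen (ball b s ∩ F ⁻¹' T.W k) :=
      isOpen_ball.inter ((hT.W_open k).preimage hFd.continuous)
    obtain ⟨r, hr, hsub⟩ := Metric.isOpen_iff.1 ho z ⟨hz, hk⟩
    have hex : DifferentiableOn ℂ (fun w => bt (T.χ k) (A k) F w) (ball z r) := fun w hw =>
      (hbt k w (hsub hw).2).differentiableAt.differentiableWithinAt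
    obtain ⟨P, hP⟩ := hex.isExactOn_ball
    refine ⟨r, fun w => P w - lam k (F w), hr, ?_⟩
    intro w hw l hl
    have h1 := hP w hw
    have h2 := hs.2 k l F w (hcv w) ⟨w, (hsub hw).1, hFu w⟩ (hsub hw).2 hl
    have h3 := h1.sub h2
    have e1 : bt (T.χ k) (A k) F w - (bt (T.χ k) (A k) F w - bt (T.χ l) (A l) F w) = bt (T.χ l) (A l) F w := by
      ring
    rw [e1] at h3
    refine h3.congr_of_eventuallyEq (Eventually.of_forall fun ξ => ?_)
    simp only [Pi.sub_apply]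
    ring
  · intro H H' z hz h h'
    obtain ⟨k, hk⟩ := hT.cover z hz (F z) (hFX z) (hFu z)
    have h1 := (h k hk).sub (h' k hk)
    rw [sub_self] at h1
    refine h1.congr_of_eventuallyEq (Eventually.of_forall fun ξ => ?_)
    simp only [Pi.sub_apply]
    ring
  · intro H H' z c h hc k hk
    have h1 := (h k hk).add_const c
    refine h1.congr_of_eventuallyEq ?_
    filter_upwards [hc] with ξ hξ
    rw [hξ]
    ring

end Pool.Agent.H62.EL
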