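import Pool.Agent.H62.EL.Db

/-!
# EL Kq: the primitive of `β` along the fibres, in a straight chart

`χ` is a chart of the tube (with `u = b + ρ s^i t^j`, primitive `A`), `χ₀` a straight chart (`u = c₀ + ρ₀ s`, primitive `A₀`) inside `χ`; `b₁ = bc χ A χ₀ (1, 0)`, `b₂ = bc χ A χ₀ (0, 1)`; `Q` is the primitive of `b₂`
in the direction of the second variable with `Q (s, 0) = 0`.

`q_fderiv`: fix `p`; for all `t` with `|t| < 2` and `q = (p.1, t)`: `mo c₀ ρ₀ 1 0 q = mo c₀ ρ₀ 1 0 p` is within `η` of `b`, and `mo b ρ i j (τ q)` too (`τ = χ.q ∘ χ₀.σ`), both are `u (χ₀.σ q)` modulo `Λ`, so they are equal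
(`hinj`); so `bc_closed`: `∂₁ b₂ - ∂₂ b₁ = tc α χ₀ (mo c₀ ρ₀ 1 0) = ∂₂ A₀` at `q`.  Hence the functions `t ↦ ∂₁ Q (p.1, t)` and `t ↦ A₀ (p.1, t) + b₁ (p.1, t) - b₁ (p.1, 0)` have the same derivative on the disc
(`∂₂ ∂₁ Q = ∂₁ ∂₂ Q = ∂₁ b₂`) and the same value `0` at `t = 0` (`Q (·, 0) = 0`, `A₀ (·, 0) = 0`).

`q_curve`: near `z`, `c₀ + ρ₀ (χ₀.q (F w)).1 = w`: the difference is in `Λ` (`Mon.lift`, `F w = a • χ₀.σ (χ₀.q (F w))`), continuous and `0` at `w = z`.  So `(χ₀.q ∘ F)' = (1 / ρ₀, f₂')`, and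
`(Q ∘ χ₀.q ∘ F)' = ∂₁ Q / ρ₀ + b₂ f₂' = (A₀ + b₁ - b₁ (·, 0)) / ρ₀ + b₂ f₂' = bt χ A F z + (A₀ - b₁ (·, 0)) / ρ₀` (`bt_eq`).

`q_fibre`: `(Q ∘ χ₀.q ∘ γ)' = b₂ (χ₀.q ∘ γ)'.2 = bt χ A γ ζ` (`bt_eq`; the first coordinate of the derivative is `0`).
-/

set_option autoImplicit false

open Topology Filter Metric

namespace Pool.Agent.H62.EL

open Pool.Agent.H36.BP (EN fs wd IsGermChart)
open Pool.Agent.H14.PP (IsCone Chart Tan CurveAt jac)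
open Pool.Agent.H62.EF (Lat MN pr TorusMap Sec Charts DU)

variable {N : ℕ} {X : Set (EN N)} {Λ : AddSubgroup ℂ} {u : EN N → ℂ}

variable {α : TForm X Λ u} {χ χ₀ : Chart X} {b c₀ : ℂ} {ρ ρ₀ η : ℝ} {i j : ℕ} {A A₀ Q : ℂ × ℂ → ℂ}

private theorem Kq_pair (L : (ℂ × ℂ) →L[ℂ] ℂ) (w : ℂ × ℂ) : L w = w.1 * L (1, 0) + w.2 * L (0, 1) := by
  rw [← smul_eq_mul, ← smul_eq_mul, ← map_smul, ← map_smul, ← map_add]
  congr 1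
  ext
  · simp
  · simp

private theorem Kq_snd {g : ℂ × ℂ → ℂ} {s t : ℂ} (hg : DifferentiableAt ℂ g (s, t)) :
    HasDerivAt (fun t' => g (s, t')) (fderiv ℂ g (s, t) (0, 1)) t := by
  have h1 : HasDerivAt (fun t' : ℂ => (s, t')) ((0 : ℂ), (1 : ℂ)) t :=
    (hasDerivAt_const t s).prodMk (hasDerivAt_id t)
  exact HasFDerivAt.comp_hasDerivAt (f := fun t' : ℂ => (s, t')) t hg.hasFDerivAt h1

private theorem Kq_fst {g : ℂ × ℂ → ℂ} {s t : ℂ} (hg : DifferentiableAt ℂ g (s, t)) :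
    HasDerivAt (fun s' => g (s', t)) (fderiv ℂ g (s, t) (1, 0)) s := by
  have h1 : HasDerivAt (fun s' : ℂ => (s', t)) ((1 : ℂ), (0 : ℂ)) s :=
    (hasDerivAt_id s).prodMk (hasDerivAt_const s t)
  exact HasFDerivAt.comp_hasDerivAt (f := fun s' : ℂ => (s', t)) s hg.hasFDerivAt h1

private theorem Kq_mo (c : ℂ) (ρ : ℝ) (p : ℂ × ℂ) : mo c ρ 1 0 p = c + ρ * p.1 := by
  simp [mo]

private theorem Kq_lift (hu : TorusMap X Λ u) (hinj : ∀ l ∈ Λ, ‖l‖ < 2 * η → l = 0) (hm : Mon Λ u χ b ρ i j)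
    (hr : ∀ p ∈ ball (0 : ℂ × ℂ) 2, ‖mo b ρ i j p - b‖ < η) (hm₀ : Mon Λ u χ₀ c₀ ρ₀ 1 0)
    (hsub : ∀ p ∈ ball (0 : ℂ × ℂ) 2, χ₀.σ p ∈ χ.U) {q : ℂ × ℂ} (hq : q ∈ ball (0 : ℂ × ℂ) 2)
    (hqb : ‖mo c₀ ρ₀ 1 0 q - b‖ < η) : mo b ρ i j (χ.q (χ₀.σ q)) = mo c₀ ρ₀ 1 0 q := by
  obtain ⟨hτ, c, hc, hx⟩ := χ.surj _ (χ₀.σ_mem q hq).1 (hsub q hq)
  have h1 := hm₀.lift q hq
  have h2 := hm.lift _ hτ
  have h3 := hu.smul _ (χ.σ_mem _ hτ).1 c hc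
  rw [← hx] at h3
  have h4 : mo b ρ i j (χ.q (χ₀.σ q)) - mo c₀ ρ₀ 1 0 q ∈ Λ := by
    have := Λ.sub_mem (Λ.sub_mem h1 h3) h2
    convert this using 1
    ring
  have h5 : ‖mo b ρ i j (χ.q (χ₀.σ q)) - mo c₀ ρ₀ 1 0 q‖ < 2 * η := by
    have h6 := hr _ hτ
    calc ‖mo b ρ i j (χ.q (χ₀.σ q)) - mo c₀ ρ₀ 1 0 q‖
        = ‖(mo b ρ i j (χ.q (χ₀.σ q)) - b) - (mo c₀ ρ₀ 1 0 q - b)‖ := by congr 1; ring
      _ ≤ ‖mo b ρ i j (χ.q (χ₀.σ q)) - b‖ + ‖mo c₀ ρ₀ 1 0 q - b‖ := norm_sub_le _ _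
      _ < 2 * η := by linarith
  exact sub_eq_zero.1 (hinj _ h4 h5)

theorem q_fderiv (hX : IsCone X) (hu : TorusMap X Λ u) (hinj : ∀ l ∈ Λ, ‖l‖ < 2 * η → l = 0) (hm : Mon Λ u χ b ρ i j)
    (hr : ∀ p ∈ ball (0 : ℂ × ℂ) 2, ‖mo b ρ i j p - b‖ < η) (hm₀ : Mon Λ u χ₀ c₀ ρ₀ 1 0) (hA : IsPrim α χ (mo b ρ i j) A)
    (hA₀ : IsPrim α χ₀ (mo c₀ ρ₀ 1 0) A₀) (hsub : ∀ p ∈ ball (0 : ℂ × ℂ) 2, χ₀.σ p ∈ χ.U)
    (hQ : ∀ p ∈ ball (0 : ℂ × ℂ) 2, AnalyticAt ℂ Q p ∧ fderiv ℂ Q p (0, 1) = bc χ A χ₀ (0, 1) p)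
    (hQ0 : ∀ s : ℂ, ‖s‖ < 2 → Q (s, 0) = 0) {p : ℂ × ℂ} (hp : p ∈ ball (0 : ℂ × ℂ) 2) (hpb : ‖mo c₀ ρ₀ 1 0 p - b‖ < η) :
    fderiv ℂ Q p (1, 0) = A₀ p + bc χ A χ₀ (1, 0) p - bc χ A χ₀ (1, 0) (p.1, 0) := by
  have hp' := hp
  rw [mem_ball_zero_iff, Prod.norm_def, max_lt_iff] at hp'
  obtain ⟨hp1, hp2⟩ := hp'
  have hmem : ∀ t ∈ ball (0 : ℂ) 2, ((p.1, t) : ℂ × ℂ) ∈ ball (0 : ℂ × ℂ) 2 := by
    intro t ht
    rw [mem_ball_zero_iff] at ht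
    rw [mem_ball_zero_iff, Prod.norm_def, max_lt_iff]
    exact ⟨hp1, ht⟩
  have hmo : ∀ t : ℂ, mo c₀ ρ₀ 1 0 (p.1, t) = mo c₀ ρ₀ 1 0 p := by
    intro t
    rw [Kq_mo, Kq_mo]
  let G : ℂ → ℂ := fun t => fderiv ℂ Q (p.1, t) (1, 0) - A₀ (p.1, t) - bc χ A χ₀ (1, 0) (p.1, t)
  have hG : ∀ t ∈ ball (0 : ℂ) 2, HasDerivAt G 0 t := by
    intro t ht
    have hq := hmem t ht
    have hQa := (hQ _ hq).1
    have hb1 : AnalyticAt ℂ (bc χ A χ₀ (1, 0)) (p.1, t) := bc_an χ χ₀ hA.an hq (hsub _ hq) (1, 0)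
    have hA0 : AnalyticAt ℂ A₀ (p.1, t) := hA₀.an _ hq
    have hd1 : HasFDerivAt (fun y => fderiv ℂ Q y (1, 0))
        ((ContinuousLinearMap.apply ℂ ℂ ((1 : ℂ), (0 : ℂ))).comp (fderiv ℂ (fderiv ℂ Q) (p.1, t))) (p.1, t) :=
      HasFDerivAt.comp (g := fun L : (ℂ × ℂ) →L[ℂ] ℂ => ContinuousLinearMap.apply ℂ ℂ ((1 : ℂ), (0 : ℂ)) L) (p.1, t)
        (ContinuousLinearMap.apply ℂ ℂ ((1 : ℂ), (0 : ℂ))).hasFDerivAt hQa.fderiv.differentiableAt.hasFDerivAt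
    have hd2 : HasFDerivAt (fun y => fderiv ℂ Q y (0, 1))
        ((ContinuousLinearMap.apply ℂ ℂ ((0 : ℂ), (1 : ℂ))).comp (fderiv ℂ (fderiv ℂ Q) (p.1, t))) (p.1, t) :=
      HasFDerivAt.comp (g := fun L : (ℂ × ℂ) →L[ℂ] ℂ => ContinuousLinearMap.apply ℂ ℂ ((0 : ℂ), (1 : ℂ)) L) (p.1, t)
        (ContinuousLinearMap.apply ℂ ℂ ((0 : ℂ), (1 : ℂ))).hasFDerivAt hQa.fderiv.differentiableAt.hasFDerivAt
    have hev : (fun y => fderiv ℂ Q y (0, 1)) =ᶠ[𝓝 (p.1, t)] bc χ A χ₀ (0, 1) :=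
      eventuallyEq_of_mem (isOpen_ball.mem_nhds hq) (fun y hy => (hQ y hy).2)
    have hsym : fderiv ℂ (fderiv ℂ Q) (p.1, t) (0, 1) (1, 0) = fderiv ℂ (fderiv ℂ Q) (p.1, t) (1, 0) (0, 1) := by
      have := hQa.contDiffAt (n := ⊤)
      exact (this.isSymmSndFDerivAt (by simp)) _ _
    have h1 : HasDerivAt (fun t' => fderiv ℂ Q (p.1, t') (1, 0)) (fderiv ℂ (bc χ A χ₀ (0, 1)) (p.1, t) (1, 0)) t := by
      have h2 := Kq_snd (g := fun y => fderiv ℂ Q y (1, 0)) (s := p.1) (t := t) hd1.differentiableAt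
      rw [hd1.fderiv] at h2
      have h3 : fderiv ℂ (bc χ A χ₀ (0, 1)) (p.1, t) (1, 0) = fderiv ℂ (fderiv ℂ Q) (p.1, t) (1, 0) (0, 1) := by
        rw [← hev.fderiv_eq, hd2.fderiv]
        rfl
      rw [h3, ← hsym]
      exact h2
    have h4 := Kq_snd (g := A₀) (s := p.1) (t := t) hA0.differentiableAt
    have h5 := Kq_snd (g := bc χ A χ₀ (1, 0)) (s := p.1) (t := t) hb1.differentiableAt
    have h6 := bc_closed hX hu α χ χ₀ (υ := mo b ρ i j) (υ' := mo c₀ ρ₀ 1 0) hA hq (hsub _ hq) (hm₀.lift _ hq)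
      (Kq_lift hu hinj hm hr hm₀ hsub hq (by rw [hmo t]; exact hpb))
    have h7 := hA₀.der _ hq
    have h8 := (h1.sub h4).sub h5
    have h9 : fderiv ℂ (bc χ A χ₀ (0, 1)) (p.1, t) (1, 0) - fderiv ℂ A₀ (p.1, t) (0, 1) -
        fderiv ℂ (bc χ A χ₀ (1, 0)) (p.1, t) (0, 1) = 0 := by
      rw [h7, ← h6]
      ring
    rw [h9] at h8
    exact h8
  have hGc : ∀ t ∈ ball (0 : ℂ) 2, G t = G 0 := by
    intro t ht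
    refine (convex_ball (0 : ℂ) 2).is_const_of_fderivWithin_eq_zero (𝕜 := ℂ) (f := G)
      (fun x hx => (hG x hx).differentiableAt.differentiableWithinAt) ?_ ht (mem_ball_self two_pos)
    intro x hx
    rw [fderivWithin_of_isOpen isOpen_ball hx]
    have := (hG x hx).hasFDerivAt.fderiv
    rw [this]
    ext
    simp
  have h0m := hmem 0 (mem_ball_self two_pos)
  have hQ00 : fderiv ℂ Q (p.1, 0) (1, 0) = 0 := by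
    have h1 := Kq_fst (g := Q) (s := p.1) (t := 0) (hQ _ h0m).1.differentiableAt
    have h2 : (fun s' : ℂ => Q (s', 0)) =ᶠ[𝓝 p.1] fun _ => 0 := by
      refine eventuallyEq_of_mem (isOpen_ball.mem_nhds (x := p.1) (s := ball (0 : ℂ) 2) ?_) ?_
      · rwa [mem_ball_zero_iff]
      · intro s' hs'
        rw [mem_ball_zero_iff] at hs'
        exact hQ0 s' hs'
    have h3 : HasDerivAt (fun s' : ℂ => Q (s', 0)) 0 p.1 := (hasDerivAt_const p.1 (0 : ℂ)).congr_of_eventuallyEq h2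
    exact h1.unique h3
  have h1 := hGc p.2 (by rwa [mem_ball_zero_iff])
  have h2 : G p.2 = fderiv ℂ Q p (1, 0) - A₀ p - bc χ A χ₀ (1, 0) p := rfl
  have h3 : G 0 = fderiv ℂ Q (p.1, 0) (1, 0) - A₀ (p.1, 0) - bc χ A χ₀ (1, 0) (p.1, 0) := rfl
  rw [h2, h3, hQ00, hA₀.zero p.1 hp1] at h1
  linear_combination h1

theorem q_curve (hX : IsCone X) (hu : TorusMap X Λ u) (hΛ : Lat Λ) (hinj : ∀ l ∈ Λ, ‖l‖ < 2 * η → l = 0) (hm : Mon Λ u χ b ρ i j)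
    (hr : ∀ p ∈ ball (0 : ℂ × ℂ) 2, ‖mo b ρ i j p - b‖ < η) (hm₀ : Mon Λ u χ₀ c₀ ρ₀ 1 0) (hA : IsPrim α χ (mo b ρ i j) A)
    (hA₀ : IsPrim α χ₀ (mo c₀ ρ₀ 1 0) A₀) (hsub : ∀ p ∈ ball (0 : ℂ × ℂ) 2, χ₀.σ p ∈ χ.U)
    (hQ : ∀ p ∈ ball (0 : ℂ × ℂ) 2, AnalyticAt ℂ Q p ∧ fderiv ℂ Q p (0, 1) = bc χ A χ₀ (0, 1) p)
    (hQ0 : ∀ s : ℂ, ‖s‖ < 2 → Q (s, 0) = 0) {F : ℂ → EN N} (hF : F ∈ Sec X Λ u) {z : ℂ} (hU : F z ∈ χ₀.U)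
    (hz : c₀ + ρ₀ * (χ₀.q (F z)).1 = z) (hzb : ‖z - b‖ < η) :
    HasDerivAt (fun w => Q (χ₀.q (F w)))
      (bt χ A F z + (A₀ (χ₀.q (F z)) - bc χ A χ₀ (1, 0) ((z - c₀) / ρ₀, 0)) / ρ₀) z := by
  have hcur : CurveAt X F z := ⟨hF.1.analyticAt z, Eventually.of_forall hF.2.1⟩
  have hFan : AnalyticAt ℂ F z := hF.1.analyticAt z
  have hfan : AnalyticAt ℂ (fun w => χ₀.q (F w)) z := (χ₀.q_an _ hU).comp hFan
  obtain ⟨hfb, -⟩ := χ₀.surj _ (hF.2.1 z) hU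
  have hUχ : F z ∈ χ.U := by
    obtain ⟨hb, c, hc, hx⟩ := χ₀.surj _ (hF.2.1 z) hU
    rw [hx]
    exact χ.smul_U _ (hsub _ hb) c hc
  have hρ : (ρ₀ : ℂ) ≠ 0 := by exact_mod_cast hm₀.pos.ne'
  obtain ⟨δΛ, hδΛ, hdisc⟩ := hΛ.discrete
  have hev : ∀ᶠ w in 𝓝 z, c₀ + ρ₀ * (χ₀.q (F w)).1 = w := by
    have hcont : ContinuousAt (fun w => c₀ + ρ₀ * (χ₀.q (F w)).1 - w) z := by
      have h1 : ContinuousAt (fun w => (χ₀.q (F w)).1) z := continuousAt_fst.comp hfan.continuousAt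
      exact ((continuousAt_const.add (continuousAt_const.mul h1)).sub continuousAt_id)
    have h2 : ∀ᶠ w in 𝓝 z, ‖c₀ + ρ₀ * (χ₀.q (F w)).1 - w‖ < δΛ := by
      have h3 := hcont.norm.tendsto
      refine h3.eventually_lt_const ?_
      rw [hz, sub_self, norm_zero]
      exact hδΛ
    have h4 : ∀ᶠ w in 𝓝 z, F w ∈ χ₀.U := hFan.continuousAt.eventually (χ₀.isOpen_U.mem_nhds hU)
    filter_upwards [h2, h4] with w hw hwU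
    obtain ⟨hb, c, hc, hx⟩ := χ₀.surj _ (hF.2.1 w) hwU
    have h5 := hm₀.lift _ hb
    have h6 := hu.smul _ (χ₀.σ_mem _ hb).1 c hc
    rw [← hx] at h6
    have h7 := hF.2.2 w
    rw [Kq_mo] at h5
    have h8 : c₀ + ρ₀ * (χ₀.q (F w)).1 - w ∈ Λ := by
      have := Λ.sub_mem (Λ.sub_mem h7 h6) h5
      convert this using 1
      ring
    exact sub_eq_zero.1 (hdisc _ h8 hw)
  have hd := hfan.differentiableAt.hasDerivAt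
  have hd1 : (deriv (fun w => χ₀.q (F w)) z).1 = 1 / ρ₀ := by
    have h1 : HasDerivAt (fun w => (χ₀.q (F w)).1) (deriv (fun w => χ₀.q (F w)) z).1 z :=
      HasFDerivAt.comp_hasDerivAt (f := fun w => χ₀.q (F w)) z
        (ContinuousLinearMap.fst ℂ ℂ ℂ).hasFDerivAt hd
    have h2 : (fun w => (χ₀.q (F w)).1) =ᶠ[𝓝 z] fun w => (w - c₀) / ρ₀ := by
      filter_upwards [hev] with w hw
      rw [eq_div_iff hρ]
      linear_combination hw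
    have h3 : HasDerivAt (fun w : ℂ => (w - c₀) / ρ₀) (1 / ρ₀) z := ((hasDerivAt_id z).sub_const c₀).div_const _
    exact h1.unique (h3.congr_of_eventuallyEq h2)
  have hpb : ‖mo c₀ ρ₀ 1 0 (χ₀.q (F z)) - b‖ < η := by rw [Kq_mo, hz]; exact hzb
  have h1 := q_fderiv hX hu hinj hm hr hm₀ hA hA₀ hsub hQ hQ0 hfb hpb
  have h2 := (hQ _ hfb).2
  have h3 : HasDerivAt (fun w => Q (χ₀.q (F w))) (fderiv ℂ Q (χ₀.q (F z)) (deriv (fun w => χ₀.q (F w)) z)) z :=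
    HasFDerivAt.comp_hasDerivAt (f := fun w => χ₀.q (F w)) z (hQ _ hfb).1.differentiableAt.hasFDerivAt hd
  have hz1 : (χ₀.q (F z)).1 = (z - c₀) / ρ₀ := by
    rw [eq_div_iff hρ]
    linear_combination hz
  rw [Kq_pair, h1, h2, hd1] at h3
  rw [bt_eq χ χ₀ A hcur hU hUχ, hd1, ← hz1]
  convert h3 using 1
  field_simp
  ring

theorem q_fibre (hsub : ∀ p ∈ ball (0 : ℂ × ℂ) 2, χ₀.σ p ∈ χ.U)
    (hQ : ∀ p ∈ ball (0 : ℂ × ℂ) 2, AnalyticAt ℂ Q p ∧ fderiv ℂ Q p (0, 1) = bc χ A χ₀ (0, 1) p) {γ : ℂ → EN N} {ζ : ℂ}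
    (hγ : CurveAt X γ ζ) (hU : γ ζ ∈ χ₀.U) (h1 : (deriv (fun ξ => χ₀.q (γ ξ)) ζ).1 = 0) :
    HasDerivAt (fun ξ => Q (χ₀.q (γ ξ))) (bt χ A γ ζ) ζ := by
  obtain ⟨hfb, c, hc, hx⟩ := χ₀.surj _ hγ.2.self_of_nhds hU
  have hUχ : γ ζ ∈ χ.U := by
    rw [hx]
    exact χ.smul_U _ (hsub _ hfb) c hc
  have hfan : AnalyticAt ℂ (fun w => χ₀.q (γ w)) ζ := (χ₀.q_an _ hU).comp hγ.1
  have hd := hfan.differentiableAt.hasDerivAt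
  have h2 := (hQ _ hfb).2
  have h3 : HasDerivAt (fun w => Q (χ₀.q (γ w))) (fderiv ℂ Q (χ₀.q (γ ζ)) (deriv (fun w => χ₀.q (γ w)) ζ)) ζ :=
    HasFDerivAt.comp_hasDerivAt (f := fun w => χ₀.q (γ w)) ζ (hQ _ hfb).1.differentiableAt.hasFDerivAt hd
  rw [Kq_pair, h2, h1] at h3
  rw [bt_eq χ χ₀ A hγ hU hUχ, h1]
  convert h3 using 1
  ring

end Pool.Agent.H62.EL
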