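import Pool.Agent.H62.EL.Kq
import Pool.Agent.H62.EL.Hf
import Pool.Agent.H62.EL.Un
import Pool.Agent.H62.EF.PrA

/-!
# EL Kz: the integral `II` has a primitive on the annulus

Let `𝒜 = {z : r₁ < ‖z - b‖ < r₂}`; `H_F`, `H_G` from `exists_H` (with `s' = r₂ < s`) for `F` and `G`.  For every `z₀ ∈ 𝒜` choose by `hcap` a chart `χ₀` (with `c₀, ρ₀`), an index `k`, and by `exists_prim` a primitive
`A₀` of the form in `χ₀`, and by `exists_prim_snd` a primitive `Q` of `bc (T.χ k) (A k) χ₀ (0, 1)` in the second variable (`χ₀.σ p ∈ T.W k ⊆ (T.χ k).U`, `bc_an`).  Let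
`Φ x = Q (χ₀.q x) - lam k x` and `K_{z₀} z = Φ (G z) - Φ (F z) - H_G z + H_F z`.  Define `K z := K_z z`.
(1) For `z` near `z₀` (`z ∈ 𝒜`, `‖z - z₀‖ ≤ 3ε`, `dist (pr (F z)) (pr (F z₀)) ≤ ε`): `K z = K_{z₀} z`.  Let `Φ₀` (chart `χ₀`, index `k₀`) belong to `z₀` and `Φ₁` (`χ₁`, `k₁`) to `z`.  Let `χ', c', ρ', p, p'` be from `IRel α ε z (pr (F z))
(pr (G z)) v`; for `θ ∈ [0, 1]` let `γ θ = χ'.σ (p + θ (p' - p))` (a complex curve for complex `θ` near `[0, 1]`).  Its points are over `z` and within `ε` of `pr (F z)`, so within `2ε` of `pr (F z₀)`: by `Cap` of radius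
`3ε` they are in `χ₀.U` and `χ₁.U`, with `c₀ + ρ₀ (χ₀.q (γ θ)).1 = z`, and similarly for `χ₁`.  The first coordinates of `χ₀.q ∘ γ` and `χ₁.q ∘ γ` have derivative `0` at `θ` [for complex `θ'` near `θ`, `u (γ θ') - z ∈ Λ`
because `mo c' ρ' 1 0` is constant along the line, so `c₀ + ρ₀ (χ₀.q (γ θ')).1 - z ∈ Λ`, continuous and `0` at `θ`].  `γ θ ∈ T.W k₀ ∩ T.W k₁` (multiples of `χ₀.σ _`, `χ₁.σ _`).  By `q_fibre` and `Split` the derivative of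
`θ ↦ Φ₀ (γ θ) - Φ₁ (γ θ) = Q₀ - Q₁ - (lam k₀ - lam k₁)` is `bt k₀ - bt k₁ - (bt k₀ - bt k₁) = 0`.  So `Φ₀ (γ 1) - Φ₀ (γ 0) = Φ₁ (γ 1) - Φ₁ (γ 0)`; `γ 0`, `γ 1` are multiples of `F z`, `G z` (`pr_eq_iff`) and `Φ` is invariant
under scaling (`Split`, `q_smul`).
(2) `K_{z₀}` has at `z₀` the derivative `II α ε z₀ (pr (F z₀)) (pr (G z₀))`: `K_{z₀} = (Q (χ₀.q (G z)) - Q (χ₀.q (F z))) - (H_G z + lam k (G z)) + (H_F z + lam k (F z))`; by `q_curve` and `exists_H` the derivative is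
`bt(G) + (A₀ (q G) - b₁) / ρ₀ - bt(F) - (A₀ (q F) - b₁) / ρ₀ - bt(G) + bt(F) = (A₀ (χ₀.q (G z₀)) - A₀ (χ₀.q (F z₀))) / ρ₀`, which is `II` by `II_eq`.  (`G z₀ ∈ χ₀.U`: `dist (pr (G z₀)) (pr (F z₀)) ≤ ε` by `IRel` with `θ = 1`.)
-/

set_option autoImplicit false

open Topology Filter Metric

namespace Pool.Agent.H62.EL

open Pool.Agent.H36.BP (EN fs wd IsGermChart)
open Pool.Agent.H14.PP (IsCone Chart Tan CurveAt jac)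
open Pool.Agent.H62.EF (Lat MN pr TorusMap Sec Charts DU)

variable {N : ℕ} {X : Set (EN N)} {Λ : AddSubgroup ℂ} {u : EN N → ℂ}

/-- the complex line through `p` and `p'` -/
private noncomputable def kz_line (p p' : ℂ × ℂ) (θ : ℂ) : ℂ × ℂ := p + θ • (p' - p)

private theorem kz_line_an (p p' : ℂ × ℂ) (θ : ℂ) : AnalyticAt ℂ (kz_line p p') θ := by
  unfold kz_line
  exact analyticAt_const.add (analyticAt_id.smul analyticAt_const)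

private theorem kz_line_mem {p p' : ℂ × ℂ} (hp : p ∈ ball (0 : ℂ × ℂ) 2) (hp' : p' ∈ ball (0 : ℂ × ℂ) 2) {θ : ℝ}
    (hθ : θ ∈ Set.Icc (0 : ℝ) 1) : kz_line p p' (θ : ℂ) ∈ ball (0 : ℂ × ℂ) 2 := by
  have h1 := (convex_ball (0 : ℂ × ℂ) 2).add_smul_sub_mem hp hp' hθ
  unfold kz_line
  rwa [Complex.coe_smul]

private theorem kz_line_fst {p p' : ℂ × ℂ} (h : p.1 = p'.1) (θ : ℂ) : (kz_line p p' θ).1 = p.1 := by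
  unfold kz_line
  simp [h]

private theorem kz_mo (c : ℂ) (ρ : ℝ) (p : ℂ × ℂ) : mo c ρ 1 0 p = c + ρ * p.1 := by
  unfold mo
  simp

/-- the situation at a point of the path -/
private theorem kz_point (hu : TorusMap X Λ u) (hΛ : Lat Λ) {b : ℂ} {s η : ℝ} {T : TubeData X} (hT : TubeG Λ u b s η T)
    {A : Fin T.m → ℂ × ℂ → ℂ} {χ : Chart X} {c : ℂ} {ρ : ℝ} {k : Fin T.m} {z₀ : ℂ} {y₀ : MN N} {r : ℝ}
    (hc : Cap Λ u χ c ρ z₀ y₀ r) (hW : ∀ p ∈ ball (0 : ℂ × ℂ) 2, χ.σ p ∈ T.W k) {Q : ℂ × ℂ → ℂ}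
    (hQ : ∀ p ∈ ball (0 : ℂ × ℂ) 2, AnalyticAt ℂ Q p ∧ fderiv ℂ Q p (0, 1) = bc (T.χ k) (A k) χ (0, 1) p)
    {χ' : Chart X} {c' : ℂ} {ρ' : ℝ} (hm' : Mon Λ u χ' c' ρ' 1 0) {p p' : ℂ × ℂ} (hp : p ∈ ball (0 : ℂ × ℂ) 2)
    (hp' : p' ∈ ball (0 : ℂ × ℂ) 2) {z : ℂ} (hz : z ∈ closedBall z₀ r) (hpz : c' + ρ' * p.1 = z) (hpp : p.1 = p'.1)
    {θ : ℝ} (hθ : θ ∈ Set.Icc (0 : ℝ) 1) (hd : dist (pr (χ'.σ (kz_line p p' θ))) y₀ ≤ r) :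
    CurveAt X (fun ξ => χ'.σ (kz_line p p' ξ)) (θ : ℂ) ∧ u (χ'.σ (kz_line p p' θ)) - z ∈ Λ ∧
      χ'.σ (kz_line p p' θ) ∈ χ.U ∧ χ'.σ (kz_line p p' θ) ∈ T.W k ∧
      HasDerivAt (fun ξ => Q (χ.q (χ'.σ (kz_line p p' ξ)))) (bt (T.χ k) (A k) (fun ξ => χ'.σ (kz_line p p' ξ)) (θ : ℂ)) (θ : ℂ) := by
  have hmem := kz_line_mem hp hp' hθ
  have hlc : ContinuousAt (kz_line p p') (θ : ℂ) := (kz_line_an p p' θ).continuousAt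
  have hevb : ∀ᶠ ξ in 𝓝 (θ : ℂ), kz_line p p' ξ ∈ ball (0 : ℂ × ℂ) 2 := hlc.eventually (isOpen_ball.mem_nhds hmem)
  have hγan : AnalyticAt ℂ (fun ξ => χ'.σ (kz_line p p' ξ)) (θ : ℂ) := AnalyticAt.fun_comp (χ'.σ_an _ hmem) (kz_line_an p p' θ)
  have hcurve : CurveAt X (fun ξ => χ'.σ (kz_line p p' ξ)) (θ : ℂ) := by
    refine ⟨hγan, ?_⟩
    filter_upwards [hevb] with ξ hξ
    exact (χ'.σ_mem _ hξ).1
  have hlift : ∀ ξ : ℂ, kz_line p p' ξ ∈ ball (0 : ℂ × ℂ) 2 → u (χ'.σ (kz_line p p' ξ)) - z ∈ Λ := by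
    intro ξ hξ
    have h1 := hm'.lift _ hξ
    rwa [kz_mo, kz_line_fst hpp, hpz] at h1
  have hX1 : χ'.σ (kz_line p p' θ) ∈ X := (χ'.σ_mem _ hmem).1
  obtain ⟨hU, hq1, hqz⟩ := hc.cap z hz _ hX1 (hlift _ hmem) hd
  obtain ⟨hq2, a, ha, hqa⟩ := χ.surj _ hX1 hU
  have hρ : (ρ : ℂ) ≠ 0 := by exact_mod_cast hc.mon.pos.ne'
  refine ⟨hcurve, hlift _ hmem, hU, ?_, ?_⟩
  · rw [hqa]
    exact hT.W_smul k _ (hW _ hq2) a ha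
  · have hevU : ∀ᶠ ξ in 𝓝 (θ : ℂ), χ'.σ (kz_line p p' ξ) ∈ χ.U := hγan.continuousAt.eventually (χ.isOpen_U.mem_nhds hU)
    have hqan : AnalyticAt ℂ (fun ξ => χ.q (χ'.σ (kz_line p p' ξ))) (θ : ℂ) := AnalyticAt.fun_comp (χ.q_an _ hU) hγan
    have hzero : ∀ᶠ ξ in 𝓝 (θ : ℂ), c + ρ * (χ.q (χ'.σ (kz_line p p' ξ))).1 - z = 0 := by
      obtain ⟨δ, hδ, hdisc⟩ := hΛ.discrete
      have hcont : ContinuousAt (fun ξ => c + ρ * (χ.q (χ'.σ (kz_line p p' ξ))).1 - z) (θ : ℂ) :=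
        ((continuousAt_const.mul (continuousAt_fst.comp (f := fun ξ => χ.q (χ'.σ (kz_line p p' ξ))) hqan.continuousAt)).const_add _).sub
          continuousAt_const
      have h0 : (fun ξ => c + ρ * (χ.q (χ'.σ (kz_line p p' ξ))).1 - z) (θ : ℂ) = 0 := by
        show c + ρ * (χ.q (χ'.σ (kz_line p p' (θ : ℂ)))).1 - z = 0
        rw [hqz, sub_self]
      have hsmall : ∀ᶠ ξ in 𝓝 (θ : ℂ), ‖c + ρ * (χ.q (χ'.σ (kz_line p p' ξ))).1 - z‖ < δ := by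
        have h1 := hcont.norm
        have h2 : ‖(fun ξ => c + ρ * (χ.q (χ'.σ (kz_line p p' ξ))).1 - z) (θ : ℂ)‖ < δ := by rw [h0, norm_zero]; exact hδ
        exact h1.eventually_lt_const h2
      filter_upwards [hsmall, hevb, hevU] with ξ h1 h2 h3
      refine hdisc _ ?_ h1
      obtain ⟨h4, a', ha', h5⟩ := χ.surj _ (χ'.σ_mem _ h2).1 h3
      have h6 := hc.mon.lift _ h4
      have h7 := hu.smul _ (χ.σ_mem _ h4).1 a' ha'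
      rw [← h5] at h7
      rw [kz_mo] at h6
      have h8 := Λ.sub_mem (hlift ξ h2) (Λ.add_mem h7 h6)
      convert h8 using 1
      ring
    refine q_fibre (fun y hy => hT.W_sub k (hW y hy)) hQ hcurve hU ?_
    have hd1 : HasDerivAt (fun ξ => χ.q (χ'.σ (kz_line p p' ξ))) (deriv (fun ξ => χ.q (χ'.σ (kz_line p p' ξ))) (θ : ℂ)) (θ : ℂ) :=
      hqan.differentiableAt.hasDerivAt
    have hd2 : HasDerivAt (fun ξ => (χ.q (χ'.σ (kz_line p p' ξ))).1) (deriv (fun ξ => χ.q (χ'.σ (kz_line p p' ξ))) (θ : ℂ)).1 (θ : ℂ) :=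
      (hasFDerivAt_fst (𝕜 := ℂ) (E := ℂ) (F := ℂ)).comp_hasDerivAt (θ : ℂ) hd1
    have hd3 : HasDerivAt (fun ξ => (χ.q (χ'.σ (kz_line p p' ξ))).1) 0 (θ : ℂ) := by
      refine (hasDerivAt_const (θ : ℂ) ((z - c) / ρ)).congr_of_eventuallyEq ?_
      filter_upwards [hzero] with ξ hξ
      rw [eq_div_iff hρ]
      linear_combination hξ
    exact hd2.unique hd3

/-- two local primitives have the same increment along the path -/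
private theorem kz_cons (hX : IsCone X) (hu : TorusMap X Λ u) (hΛ : Lat Λ) {b : ℂ} {s η : ℝ} {T : TubeData X} (hT : TubeG Λ u b s η T)
    {α : TForm X Λ u} {A : Fin T.m → ℂ × ℂ → ℂ} {lam : Fin T.m → EN N → ℂ} (hs : Split Λ u b s T A lam) {x x' : EN N}
    (hx : x ∈ X) (hx' : x' ∈ X) {ε r : ℝ} {z v : ℂ} (hzb : z ∈ ball b s) (hrel : IRel α ε z (pr x) (pr x') v)
    {χ₀ : Chart X} {c₀ : ℂ} {ρ₀ : ℝ} {k₀ : Fin T.m} {z₀ : ℂ} {y₀ : MN N} (hc₀ : Cap Λ u χ₀ c₀ ρ₀ z₀ y₀ r)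
    (hW₀ : ∀ p ∈ ball (0 : ℂ × ℂ) 2, χ₀.σ p ∈ T.W k₀) {Q₀ : ℂ × ℂ → ℂ}
    (hQ₀ : ∀ p ∈ ball (0 : ℂ × ℂ) 2, AnalyticAt ℂ Q₀ p ∧ fderiv ℂ Q₀ p (0, 1) = bc (T.χ k₀) (A k₀) χ₀ (0, 1) p)
    (hz₀ : z ∈ closedBall z₀ r) (hy₀ : dist (pr x) y₀ + ε ≤ r)
    {χ₁ : Chart X} {c₁ : ℂ} {ρ₁ : ℝ} {k₁ : Fin T.m} {z₁ : ℂ} {y₁ : MN N} (hc₁ : Cap Λ u χ₁ c₁ ρ₁ z₁ y₁ r)
    (hW₁ : ∀ p ∈ ball (0 : ℂ × ℂ) 2, χ₁.σ p ∈ T.W k₁) {Q₁ : ℂ × ℂ → ℂ}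
    (hQ₁ : ∀ p ∈ ball (0 : ℂ × ℂ) 2, AnalyticAt ℂ Q₁ p ∧ fderiv ℂ Q₁ p (0, 1) = bc (T.χ k₁) (A k₁) χ₁ (0, 1) p)
    (hz₁ : z ∈ closedBall z₁ r) (hy₁ : dist (pr x) y₁ + ε ≤ r) :
    (Q₀ (χ₀.q x') - lam k₀ x') - (Q₀ (χ₀.q x) - lam k₀ x) = (Q₁ (χ₁.q x') - lam k₁ x') - (Q₁ (χ₁.q x) - lam k₁ x) := by
  obtain ⟨χ', c', ρ', A', p, p', hm', -, hp, hp', hpz, hpz', hpx, hpx', hdist, -⟩ := hrel
  have hρ' : (ρ' : ℂ) ≠ 0 := by exact_mod_cast hm'.pos.ne'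
  have hpp : p.1 = p'.1 := by
    have h1 : (ρ' : ℂ) * p.1 = ρ' * p'.1 := by linear_combination hpz - hpz'
    exact mul_left_cancel₀ hρ' h1
  have hdl : ∀ θ ∈ Set.Icc (0 : ℝ) 1, dist (pr (χ'.σ (kz_line p p' (θ : ℂ)))) (pr x) ≤ ε := hdist
  have hP₀ := fun (θ : ℝ) (hθ : θ ∈ Set.Icc (0 : ℝ) 1) => kz_point hu hΛ hT (A := A) hc₀ hW₀ hQ₀ hm' hp hp' hz₀ hpz hpp hθ
    ((dist_triangle _ (pr x) _).trans (by linarith [hdl θ hθ]))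
  have hP₁ := fun (θ : ℝ) (hθ : θ ∈ Set.Icc (0 : ℝ) 1) => kz_point hu hΛ hT (A := A) hc₁ hW₁ hQ₁ hm' hp hp' hz₁ hpz hpp hθ
    ((dist_triangle _ (pr x) _).trans (by linarith [hdl θ hθ]))
  set h : ℂ → ℂ := fun ξ => Q₀ (χ₀.q (χ'.σ (kz_line p p' ξ))) - Q₁ (χ₁.q (χ'.σ (kz_line p p' ξ))) -
    (lam k₀ (χ'.σ (kz_line p p' ξ)) - lam k₁ (χ'.σ (kz_line p p' ξ))) with hh
  have hder : ∀ θ ∈ Set.Icc (0 : ℝ) 1, HasDerivAt h 0 (θ : ℂ) := by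
    intro θ hθ
    obtain ⟨h1, h2, h3, h4, h5⟩ := hP₀ θ hθ
    obtain ⟨-, -, h6, h7, h8⟩ := hP₁ θ hθ
    have h9 := hs.2 k₀ k₁ _ _ h1 ⟨z, hzb, h2⟩ h4 h7
    have h10 := (h5.sub h8).sub h9
    rw [sub_self] at h10
    exact h10
  have hconst : h ((1 : ℝ) : ℂ) = h ((0 : ℝ) : ℂ) := by
    refine constant_of_has_deriv_right_zero (f := fun t : ℝ => h (t : ℂ)) (a := 0) (b := 1) ?_ ?_ 1 (by simp)
    · intro t ht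
      exact ((hder t ht).comp_ofReal).continuousAt.continuousWithinAt
    · intro t ht
      exact ((hder t ⟨ht.1, ht.2.le⟩).comp_ofReal).hasDerivWithinAt
  have hx0 : x ≠ 0 := fun h0 => hX.zero_notMem (h0 ▸ hx)
  have hx0' : x' ≠ 0 := fun h0 => hX.zero_notMem (h0 ▸ hx')
  have hl0 : kz_line p p' ((0 : ℝ) : ℂ) = p := by unfold kz_line; simp
  have hl1 : kz_line p p' ((1 : ℝ) : ℂ) = p' := by unfold kz_line; simp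
  have hσ0 : χ'.σ p ≠ 0 := fun h0 => hX.zero_notMem (h0 ▸ (χ'.σ_mem p hp).1)
  have hσ1 : χ'.σ p' ≠ 0 := fun h0 => hX.zero_notMem (h0 ▸ (χ'.σ_mem p' hp').1)
  obtain ⟨a, ha, hax⟩ := (Pool.Agent.H62.EF.pr_eq_iff hσ0 hx0).1 hpx
  obtain ⟨a', ha', hax'⟩ := (Pool.Agent.H62.EF.pr_eq_iff hσ1 hx0').1 hpx'
  have hU₀ := (hP₀ 0 (by simp)).2.2.1
  have hU₀' := (hP₀ 1 (by simp)).2.2.1
  have hU₁ := (hP₁ 0 (by simp)).2.2.1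
  have hU₁' := (hP₁ 1 (by simp)).2.2.1
  rw [hl0, hax] at hU₀ hU₁
  rw [hl1, hax'] at hU₀' hU₁'
  have hback : ∀ (χ : Chart X) (y : EN N) (d : ℂ), d ≠ 0 → d • y ∈ χ.U → y ∈ χ.U := by
    intro χ y d hd hy
    have h1 := χ.smul_U _ hy d⁻¹ (inv_ne_zero hd)
    rwa [smul_smul, inv_mul_cancel₀ hd, one_smul] at h1
  simp only [hh, hl0, hl1, hax, hax'] at hconst
  rw [χ₀.q_smul _ (hback χ₀ x a ha hU₀) a ha, χ₀.q_smul _ (hback χ₀ x' a' ha' hU₀') a' ha', χ₁.q_smul _ (hback χ₁ x a ha hU₁) a ha,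
    χ₁.q_smul _ (hback χ₁ x' a' ha' hU₁') a' ha', hs.1 k₀ _ hx a ha, hs.1 k₀ _ hx' a' ha', hs.1 k₁ _ hx a ha, hs.1 k₁ _ hx' a' ha'] at hconst
  linear_combination hconst

theorem exists_K (hX : IsCone X) (hu : TorusMap X Λ u) (hΛ : Lat Λ) {b : ℂ} {s η : ℝ} {T : TubeData X} (hT : TubeG Λ u b s η T)
    {α : TForm X Λ u} {A : Fin T.m → ℂ × ℂ → ℂ} (hA : ∀ k, IsPrim α (T.χ k) (mo b (T.ρ k) (T.i k) (T.j k)) (A k))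
    {lam : Fin T.m → EN N → ℂ} (hs : Split Λ u b s T A lam) {F G : ℂ → EN N} (hF : F ∈ Sec X Λ u) (hG : G ∈ Sec X Λ u)
    {r₁ r₂ ε : ℝ} (hr₂ : r₂ < s) (hε : 0 < ε)
    (hcap : ∀ z₀, r₁ < ‖z₀ - b‖ → ‖z₀ - b‖ < r₂ → ∃ (χ : Chart X) (c : ℂ) (ρ : ℝ) (k : Fin T.m),
      Cap Λ u χ c ρ z₀ (pr (F z₀)) (3 * ε) ∧ ∀ p ∈ ball (0 : ℂ × ℂ) 2, χ.σ p ∈ T.W k)
    (hrel : ∀ z₀, r₁ < ‖z₀ - b‖ → ‖z₀ - b‖ < r₂ → ∃ v, IRel α ε z₀ (pr (F z₀)) (pr (G z₀)) v) :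
    ∃ K : ℂ → ℂ, ∀ z, r₁ < ‖z - b‖ → ‖z - b‖ < r₂ → HasDerivAt K (II α ε z (pr (F z)) (pr (G z))) z := by
  classical
  obtain ⟨HF, hHF⟩ := exists_H hT (fun k => (hA k).an) hs hF hr₂
  obtain ⟨HG, hHG⟩ := exists_H hT (fun k => (hA k).an) hs hG hr₂
  have hex : ∀ z, (r₁ < ‖z - b‖ ∧ ‖z - b‖ < r₂) → ∃ (χ : Chart X) (c : ℂ) (ρ : ℝ) (k : Fin T.m) (A₀ Q : ℂ × ℂ → ℂ),
      Cap Λ u χ c ρ z (pr (F z)) (3 * ε) ∧ (∀ p ∈ ball (0 : ℂ × ℂ) 2, χ.σ p ∈ T.W k) ∧ IsPrim α χ (mo c ρ 1 0) A₀ ∧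
      (∀ p ∈ ball (0 : ℂ × ℂ) 2, AnalyticAt ℂ Q p ∧ fderiv ℂ Q p (0, 1) = bc (T.χ k) (A k) χ (0, 1) p) ∧
      ∀ s : ℂ, ‖s‖ < 2 → Q (s, 0) = 0 := by
    rintro z ⟨hz1, hz2⟩
    obtain ⟨χ, c, ρ, k, hcap, hW⟩ := hcap z hz1 hz2
    obtain ⟨A₀, hA₀⟩ := exists_prim α χ hcap.mon
    obtain ⟨Q, hQ, hQ0⟩ := exists_prim_snd (R := 2) (a := bc (T.χ k) (A k) χ (0, 1))
      (fun p hp => bc_an (T.χ k) χ (hA k).an hp (hT.W_sub k (hW p hp)) (0, 1))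
    exact ⟨χ, c, ρ, k, A₀, Q, hcap, hW, hA₀, hQ, hQ0⟩
  choose χ c ρ k A₀ Q hC hW hA₀ hQ hQ0 using hex
  set KL : ∀ z₀, (r₁ < ‖z₀ - b‖ ∧ ‖z₀ - b‖ < r₂) → ℂ → ℂ := fun z₀ h₀ z =>
    ((Q z₀ h₀ ((χ z₀ h₀).q (G z)) - lam (k z₀ h₀) (G z)) - (Q z₀ h₀ ((χ z₀ h₀).q (F z)) - lam (k z₀ h₀) (F z))) - HG z + HF z with hKL
  refine ⟨fun z => if h : r₁ < ‖z - b‖ ∧ ‖z - b‖ < r₂ then KL z h z else 0, fun z₀ h1 h2 => ?_⟩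
  have h₀ : r₁ < ‖z₀ - b‖ ∧ ‖z₀ - b‖ < r₂ := ⟨h1, h2⟩
  have hX0 : ∀ x ∈ X, x ≠ 0 := fun x hx h => hX.zero_notMem (h ▸ hx)
  -- the function agrees with the local one
  have hev : (fun z => if h : r₁ < ‖z - b‖ ∧ ‖z - b‖ < r₂ then KL z h z else 0) =ᶠ[𝓝 z₀] KL z₀ h₀ := by
    have e1 : ∀ᶠ z in 𝓝 z₀, r₁ < ‖z - b‖ ∧ ‖z - b‖ < r₂ := by
      have hc : ContinuousAt (fun z : ℂ => ‖z - b‖) z₀ := (continuous_id.sub continuous_const).norm.continuousAt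
      exact (hc.eventually_const_lt h1).and (hc.eventually_lt_const h2)
    have e2 : ∀ᶠ z in 𝓝 z₀, z ∈ closedBall z₀ (3 * ε) := closedBall_mem_nhds _ (by positivity)
    have e3 : ∀ᶠ z in 𝓝 z₀, dist (pr (F z)) (pr (F z₀)) < ε := by
      have hc : ContinuousAt (fun z => pr (F z)) z₀ :=
        (Pool.Agent.H62.EF.continuousAt_pr (hX0 _ (hF.2.1 z₀))).comp (f := F) (hF.1 z₀).continuousAt
      exact hc.eventually (ball_mem_nhds _ hε)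
    filter_upwards [e1, e2, e3] with z g1 g2 g3
    rw [dif_pos g1]
    obtain ⟨v, hv⟩ := hrel z g1.1 g1.2
    have hcons := kz_cons hX hu hΛ hT hs (hF.2.1 z) (hG.2.1 z) (z := z) (by
      rw [mem_ball, dist_eq_norm]
      exact g1.2.trans hr₂) hv (hC z g1) (hW z g1) (hQ z g1) (mem_closedBall_self (by positivity)) (by rw [dist_self]; linarith)
      (hC z₀ h₀) (hW z₀ h₀) (hQ z₀ h₀) g2 (by linarith)
    simp only [hKL]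
    rw [hcons]
  refine HasDerivAt.congr_of_eventuallyEq ?_ hev
  -- the derivative of the local function
  obtain ⟨v, hv⟩ := hrel z₀ h1 h2
  have hself : z₀ ∈ closedBall z₀ (3 * ε) := mem_closedBall_self (by positivity)
  obtain ⟨hFU, hFq, hFz⟩ := (hC z₀ h₀).cap z₀ hself (F z₀) (hF.2.1 z₀) (hF.2.2 z₀) (by rw [dist_self]; positivity)
  have hdG : dist (pr (G z₀)) (pr (F z₀)) ≤ 3 * ε := by
    obtain ⟨χ', c', ρ', A', p, p', hm', -, hp, hp', hpz, hpz', hpx, hpx', hdist, -⟩ := hv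
    have h3 := hdist 1 (by simp)
    have h4 : p + ((1 : ℝ) : ℂ) • (p' - p) = p' := by simp
    rw [h4, hpx'] at h3
    linarith
  obtain ⟨hGU, hGq, hGz⟩ := (hC z₀ h₀).cap z₀ hself (G z₀) (hG.2.1 z₀) (hG.2.2 z₀) hdG
  have hη : ‖z₀ - b‖ < η := (h2.trans hr₂).trans_le hT.le
  have hsub : ∀ p ∈ ball (0 : ℂ × ℂ) 2, (χ z₀ h₀).σ p ∈ (T.χ (k z₀ h₀)).U := fun p hp => hT.W_sub _ (hW z₀ h₀ p hp)
  have dF := q_curve hX hu hΛ hT.inj (hT.mon (k z₀ h₀)) (hT.range (k z₀ h₀)) (hC z₀ h₀).mon (hA (k z₀ h₀)) (hA₀ z₀ h₀) hsub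
    (hQ z₀ h₀) (hQ0 z₀ h₀) hF hFU hFz hη
  have dG := q_curve hX hu hΛ hT.inj (hT.mon (k z₀ h₀)) (hT.range (k z₀ h₀)) (hC z₀ h₀).mon (hA (k z₀ h₀)) (hA₀ z₀ h₀) hsub
    (hQ z₀ h₀) (hQ0 z₀ h₀) hG hGU hGz hη
  have hWk : ∀ x ∈ X, x ∈ (χ z₀ h₀).U → x ∈ T.W (k z₀ h₀) := by
    intro x hx hxU
    obtain ⟨hq, a, ha, hxa⟩ := (χ z₀ h₀).surj x hx hxU
    rw [hxa]
    exact hT.W_smul _ _ (hW z₀ h₀ _ hq) a ha
  have hb₂ : z₀ ∈ ball b r₂ := by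
    rw [mem_ball, dist_eq_norm]
    exact h2
  have eF := hHF z₀ hb₂ (k z₀ h₀) (hWk _ (hF.2.1 z₀) hFU)
  have eG := hHG z₀ hb₂ (k z₀ h₀) (hWk _ (hG.2.1 z₀) hGU)
  have hII := II_eq hX hu hΛ ⟨v, hv⟩ (hC z₀ h₀) (hA₀ z₀ h₀) hself (by rw [dist_self]; linarith) (hF.2.1 z₀) (hG.2.1 z₀) rfl rfl
  rw [hII]
  have htot := ((dG.sub dF).sub eG).add eF
  refine (htot.congr_deriv ?_).congr_of_eventuallyEq (Eventually.of_forall fun z => ?_)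
  · ring
  · simp only [hKL, Pi.add_apply, Pi.sub_apply]
    ring

end Pool.Agent.H62.EL
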