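import Pool.Agent.H62.EL.Zl

/-!
# EL SbA: the limits of the sections

`sb_lip`: let `L` be from `sec_lip_gd` for `δ'`; `z ∈ Gd B δ'`, `w ∈ closedBall z (δ'/2)` (so `w ∈ Gd B (δ'/2)`), `ε > 0`: there is `F ∈ Sec` with `dist (pr (F ·)) (f ·) < ε` at `z` and
at `w` (definition of `Sb` with `δ'/2`, `R = ‖z‖ + δ'`); so `dist (f z) (f w) ≤ L ‖z - w‖ + 2ε`.
`sb_mem`: `f z` is a limit of points of the compact set `pr '' X` (`isCompact_pr`).
`sb_trans`: for `F ∈ Sec` near `f` on `Gd B δ' ∩ closedBall 0 (R + ‖l‖)`, `F (· + l)` is near `f (· + l)` (`sec_trans`, `BadSet.gd_add`); `l ∈ Λ`.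
`sec_sb`: take `F` itself.
`sb_lim`: let `F n ∈ Sb` for `𝒰`-almost all `n`, `F n z → f z` for all `z ∉ B`.  Let `δ', R, ε`.  `Gd B δ' ∩ closedBall 0 R` is compact; the `F n` and `f` satisfy the Lipschitz
condition with the same constant (the limit inherits it), so the convergence is uniform there (finite net of points of the set with mesh `s ≤ δ'/2`, `L s ≤ ε/8`); take `n` with
`dist (F n z) (f z) < ε/2` there and `G ∈ Sec` with `dist (pr (G z)) (F n z) < ε/2` there.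
-/

set_option autoImplicit false

open Topology Filter Metric

namespace Pool.Agent.H62.EL

open Pool.Agent.H36.BP (EN fs wd IsGermChart)
open Pool.Agent.H14.PP (IsCone Chart Tan CurveAt jac)
open Pool.Agent.H62.EF (Lat MN pr TorusMap Sec Charts DU)

variable {N : ℕ} {X : Set (EN N)} {Λ : AddSubgroup ℂ} {u : EN N → ℂ}

variable {Γ : AddSubgroup ℂ} {B : Set ℂ} {δ : ℝ}

theorem sb_lip (E : EData X Λ u Γ B δ) {δ' : ℝ} (hδ' : 0 < δ') :
    ∃ L : ℝ, 0 < L ∧ ∀ f ∈ Sb X Λ u B, ∀ z ∈ Gd B δ', ∀ w ∈ closedBall z (δ' / 2), dist (f z) (f w) ≤ L * ‖z - w‖ := by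
  obtain ⟨L, hL, hlip⟩ := sec_lip_gd E hδ'
  refine ⟨L, hL, fun f hf z hz w hw => ?_⟩
  have hzw : ‖z - w‖ ≤ δ' / 2 := by
    rw [mem_closedBall, dist_comm, dist_eq_norm] at hw
    exact hw
  have hw' : w ∈ Gd B (δ' / 2) := by
    intro b hb
    have h1 := hz b hb
    have h2 : ‖z - b‖ ≤ ‖z - w‖ + ‖w - b‖ := by
      calc ‖z - b‖ = ‖(z - w) + (w - b)‖ := by
            congr 1
            ring
        _ ≤ _ := norm_add_le _ _
    linarith
  refine le_of_forall_pos_le_add fun ε hε => ?_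
  obtain ⟨F, hF, hFd⟩ := hf (δ' / 2) (by linarith) (‖z‖ + δ') (ε / 2) (by linarith)
  have h1 := hFd z (gd_mono (by linarith) hz) (by linarith)
  have h2 := hFd w hw' (by
    have h3 : ‖w‖ ≤ ‖z‖ + ‖z - w‖ := by
      calc ‖w‖ = ‖z - (z - w)‖ := by
            congr 1
            ring
        _ ≤ _ := norm_sub_le _ _
    linarith)
  have h3 := hlip F hF z hz w hw
  calc dist (f z) (f w) ≤ dist (f z) (pr (F z)) + dist (pr (F z)) (pr (F w)) + dist (pr (F w)) (f w) :=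
        dist_triangle4 _ _ _ _
    _ ≤ ε / 2 + L * ‖z - w‖ + ε / 2 := by
        rw [dist_comm (f z)]
        linarith
    _ = L * ‖z - w‖ + ε := by ring

theorem sb_mem (E : EData X Λ u Γ B δ) {f : ℂ → MN N} (hf : f ∈ Sb X Λ u B) {z : ℂ} (hz : z ∉ B) : f z ∈ pr '' X := by
  obtain ⟨δ', hδ', hz'⟩ := E.bad.exists_gd hz
  have hc := (Pool.Agent.H62.EF.isCompact_pr E.cone).isClosed
  rw [← hc.closure_eq, Metric.mem_closure_iff]
  intro ε hε
  obtain ⟨F, hF, hFd⟩ := hf δ' hδ' ‖z‖ ε hε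
  refine ⟨pr (F z), ⟨F z, hF.2.1 z, rfl⟩, ?_⟩
  rw [dist_comm]
  exact hFd z hz' le_rfl

theorem sb_trans (E : EData X Λ u Γ B δ) {f : ℂ → MN N} (hf : f ∈ Sb X Λ u B) {l : ℂ} (hl : l ∈ Λ) :
    (fun z => f (z + l)) ∈ Sb X Λ u B := by
  intro δ' hδ' R ε hε
  obtain ⟨F, hF, hFd⟩ := hf δ' hδ' (R + ‖l‖) ε hε
  refine ⟨fun z => F (z + l), Pool.Agent.H62.EF.sec_trans hF hl, fun z hz hzR => ?_⟩
  exact hFd (z + l) ((E.bad.gd_add δ' hl).2 hz) ((norm_add_le _ _).trans (by linarith))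

theorem sec_sb {F : ℂ → EN N} (hF : F ∈ Sec X Λ u) : (fun z => pr (F z)) ∈ Sb X Λ u B := by
  intro δ' _ R ε hε
  exact ⟨F, hF, fun z _ _ => by rw [dist_self]; exact hε⟩

theorem sb_lim (E : EData X Λ u Γ B δ) (𝒰 : Ultrafilter ℕ) (F : ℕ → ℂ → MN N) (f : ℂ → MN N)
    (hF : ∀ᶠ n in (𝒰 : Filter ℕ), F n ∈ Sb X Λ u B) (hf : ∀ z, z ∉ B → Tendsto (fun n => F n z) 𝒰 (𝓝 (f z))) :
    f ∈ Sb X Λ u B := by
  intro δ' hδ' R ε hε
  obtain ⟨L, hL, hlip⟩ := sb_lip E hδ'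
  have hgd : ∀ z ∈ Gd B δ', ∀ w ∈ closedBall z (δ' / 2), w ∉ B := by
    intro z hz w hw hwB
    have h1 := hz w hwB
    rw [mem_closedBall, dist_comm, dist_eq_norm] at hw
    linarith
  have hflip : ∀ z ∈ Gd B δ', ∀ w ∈ closedBall z (δ' / 2), dist (f z) (f w) ≤ L * ‖z - w‖ := by
    intro z hz w hw
    refine le_of_tendsto ((hf z (gd_notMem hδ' hz)).dist (hf w (hgd z hz w hw))) ?_
    filter_upwards [hF] with n hn using hlip (F n) hn z hz w hw
  have hcomp : IsCompact (Gd B δ' ∩ closedBall (0 : ℂ) R) := (isCompact_closedBall 0 R).inter_left (isClosed_gd δ')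
  have hs : 0 < min (δ' / 2) (ε / (8 * L)) := by positivity
  obtain ⟨t, htS, htf, hcov⟩ := hcomp.finite_cover_balls hs
  have hev : ∀ᶠ n in (𝒰 : Filter ℕ), F n ∈ Sb X Λ u B ∧ ∀ y ∈ t, dist (F n y) (f y) < ε / 8 := by
    refine hF.and ((Filter.eventually_all_finite htf).2 fun y hy => ?_)
    exact (Metric.tendsto_nhds.1 (hf y (gd_notMem hδ' (htS hy).1))) (ε / 8) (by linarith)
  obtain ⟨n, hn, hnt⟩ := hev.exists
  obtain ⟨G, hG, hGd⟩ := hn δ' hδ' R (ε / 2) (by linarith)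
  refine ⟨G, hG, fun z hz hzR => ?_⟩
  have h1 := hGd z hz hzR
  obtain ⟨y, hyt, hzy⟩ : ∃ y ∈ t, z ∈ ball y (min (δ' / 2) (ε / (8 * L))) := by
    have h2 := hcov ⟨hz, by rw [mem_closedBall_zero_iff]; exact hzR⟩
    obtain ⟨y, hy, hzy⟩ := Set.mem_iUnion₂.1 h2
    exact ⟨y, hy, hzy⟩
  have hzy' : z ∈ closedBall y (δ' / 2) := ball_subset_closedBall (ball_subset_ball (min_le_left _ _) hzy)
  have hy := (htS hyt).1
  have hyz : ‖y - z‖ ≤ ε / (8 * L) := by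
    rw [mem_ball, dist_comm, dist_eq_norm] at hzy
    exact hzy.le.trans (min_le_right _ _)
  have hLz : L * ‖y - z‖ ≤ ε / 8 := by
    calc L * ‖y - z‖ ≤ L * (ε / (8 * L)) := mul_le_mul_of_nonneg_left hyz hL.le
      _ = ε / 8 := by field_simp
  have h3 := hlip (F n) hn y hy z hzy'
  have h4 := hflip y hy z hzy'
  have h5 := hnt y hyt
  have h6 : dist (F n z) (f z) ≤ dist (F n z) (F n y) + dist (F n y) (f y) + dist (f y) (f z) :=
    dist_triangle4 _ _ _ _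
  rw [dist_comm (F n z) (F n y)] at h6
  have h7 := dist_triangle (pr (G z)) (F n z) (f z)
  linarith

/-- limits exist -/
theorem sb_exists_lim (E : EData X Λ u Γ B δ) (𝒰 : Ultrafilter ℕ) (F : ℕ → ℂ → MN N)
    (hF : ∀ᶠ n in (𝒰 : Filter ℕ), F n ∈ Sb X Λ u B) :
    ∃ f ∈ Sb X Λ u B, ∀ z, z ∉ B → Tendsto (fun n => F n z) 𝒰 (𝓝 (f z)) := by
  classical
  have hc := Pool.Agent.H62.EF.isCompact_pr E.cone
  have h1 : ∀ z : ℂ, ∃ y : MN N, z ∉ B → Tendsto (fun n => F n z) 𝒰 (𝓝 y) := by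
    intro z
    by_cases hz : z ∈ B
    · exact ⟨0, fun h => absurd hz h⟩
    · have h2 : pr '' X ∈ (𝒰.map fun n => F n z) := by
        rw [Ultrafilter.mem_map]
        filter_upwards [hF] with n hn using sb_mem E hn hz
      obtain ⟨y, -, hy⟩ := hc.ultrafilter_le_nhds' _ h2
      exact ⟨y, fun _ => hy⟩
  choose f hf using h1
  exact ⟨f, sb_lim E 𝒰 F f hF hf, hf⟩

/-- convergence along convergent sequences of points -/
theorem sb_along (E : EData X Λ u Γ B δ) (𝒰 : Ultrafilter ℕ) (F : ℕ → ℂ → MN N) {f : ℂ → MN N}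
    (hF : ∀ᶠ n in (𝒰 : Filter ℕ), F n ∈ Sb X Λ u B) (hf : ∀ z, z ∉ B → Tendsto (fun n => F n z) 𝒰 (𝓝 (f z)))
    {w : ℕ → ℂ} {z : ℂ} (hz : z ∉ B) (hw : Tendsto w 𝒰 (𝓝 z)) : Tendsto (fun n => F n (w n)) 𝒰 (𝓝 (f z)) := by
  obtain ⟨δ', hδ', hz'⟩ := E.bad.exists_gd hz
  obtain ⟨L, hL, hlip⟩ := sb_lip E hδ'
  have h1 : Tendsto (fun n => L * ‖z - w n‖ + dist (F n z) (f z)) 𝒰 (𝓝 0) := by
    have h2 : Tendsto (fun n => ‖z - w n‖) 𝒰 (𝓝 0) := by
      have h3 := (tendsto_const_nhds (x := z) (f := (𝒰 : Filter ℕ))).sub hw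
      rw [sub_self] at h3
      simpa using h3.norm
    have h4 : Tendsto (fun n => dist (F n z) (f z)) 𝒰 (𝓝 0) := tendsto_iff_dist_tendsto_zero.1 (hf z hz)
    simpa using (h2.const_mul L).add h4
  rw [tendsto_iff_dist_tendsto_zero]
  refine squeeze_zero' (Filter.Eventually.of_forall fun n => dist_nonneg) ?_ h1
  filter_upwards [hF, hw.eventually (closedBall_mem_nhds z (by linarith : 0 < δ' / 2))] with n hn hwn
  have h5 := hlip (F n) hn z hz' (w n) hwn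
  rw [dist_comm] at h5
  exact (dist_triangle _ (F n z) _).trans (by linarith)

end Pool.Agent.H62.EL
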