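import Pool.Agent.H62.EL.ChN
import Pool.Agent.H62.EF.PrA

/-!
# EL TbA: covering a bad fibre by charts

Let `F_b = {x ∈ X : u x - b ∈ Λ}`, `D = pr '' F_b`, a compact set: `pr '' X` is compact (`isCompact_pr`), and `D` is closed in it: if `x_n ∈ F_b`, `pr x_n → pr x`,
`x ∈ X`, rescale (`near_of_pr`): `c_n • x_n → x`, in `F_b` (`TorusMap.smul`); a local lift `v` of `u` at `x` (`TorusMap.loc`) has `v (c_n x_n) ∈ b + Λ` and
converges to `v x`; `b + Λ` is closed (`Λ` is discrete), so `u x - b ∈ Λ`.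
If `D` is empty: `T` with `m = 0`, `𝒲 = ∅`, and `s` small such that no point of `X` is over `ball b s` (same argument).
(1) `η > 0` with `2η` smaller than the norms of the nonzero elements of `Λ`.  For every `x ∈ F_b` take `χ_x, ρ, i, j` from `exists_nc_chart` (size `η`), and `R_x > 0` such
that every `w ∈ X` with `dist (pr w) (pr x) < R_x` is in `χ_x.U` (`near_of_pr`, `smul_U`).
(2) finitely many balls `dist (·) (pr x_k) < R_k / 2` cover `D`.  `T`: the charts `χ_{x_k}`, `W k = {w : w ≠ 0, w ∈ χ_k.U, dist (pr w) (pr x_k) < R_k / 2}`, open cones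
(`continuousAt_pr`, `pr_smul`).  `R = min R_k > 0`.
(3) witnesses: for every `y ∈ F_b` choose by `exists_nc_chart` with size `min η (R/8)` a chart `χ'_y` (all its points are within `R/8` of `pr y`), and `R'_y ≤ R`, `R'_y > 0`
such that every `w ∈ X` with `dist (pr w) (pr y) < R'_y` is in `χ'_y.U`.  `p ↦ pr (χ'_y.σ p)` is continuous: choose `0 < r_y ≤ 2` with
`dist (pr (χ'_y.σ p)) (pr y) < R'_y / 4` for `p ∈ ball 0 r_y` (`χ'_y.q y = 0`, so `pr (χ'_y.σ 0) = pr y`).  `𝒲` = the set of all these `(χ'_y, ρ', i', j', r_y)`, `y ∈ F_b`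
(one choice for each `y`).
(4) `sub`: if `χ'_y.σ p ∈ W k` for one `p ∈ ball 0 r_y`: `dist (pr y) (pr x_k) < R_k/2 + R/8`, so all points of `χ'_y` are within `R_k/2 + R/4 < R_k` of `pr x_k`
and in `X`, so in `χ_k.U`.
(5) `nest`: a common point: `dist (pr y) (pr y') < R'_y/4 + R'_{y'}/4`.  If `R'_y ≤ R'_{y'}`: the points of `χ'_y` with `p ∈ ball 0 r_y` are within `R'_y/4` of `pr y`, so within
`3 R'_{y'}/4` of `pr y'`: in `χ'_{y'}.U`.  Otherwise symmetric.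
(6) `s`: there is `0 < s ≤ η` such that for `z ∈ ball b s`, `x ∈ X`, `u x - z ∈ Λ`, the point `pr x` is in the open set `O = ⋃_k {dist (·) (pr x_k) < R_k/2} ∩ ⋃_y pr(part of χ'_y)`
in the following sense: there is `k` with `x ∈ W k`, and `y` with `x ∈ χ'_y.U`, `χ'_y.q x ∈ ball 0 r_y`.  Otherwise there are `x_n ∈ X`, `z_n → b`, `u x_n - z_n ∈ Λ` violating it;
along an ultrafilter `pr x_n → pr x`, `x ∈ X`, rescaled `x_n → x` (both conditions are invariant under scaling), `u x - b ∈ Λ` as above (`v x_n - z_n ∈ Λ`, closed), so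
`x ∈ F_b`; `dist (pr x) (pr x_k) < R_k / 2` for some `k`, so eventually `x_n ∈ W k` (`x ∈ χ_k.U` open); and with `y = x`: `x ∈ χ'_x.U`, `χ'_x.q x = 0`, so eventually
`x_n ∈ χ'_x.U` and `χ'_x.q x_n ∈ ball 0 r_x`: contradiction.
-/

set_option autoImplicit false

open Topology Filter Metric

namespace Pool.Agent.H62.EL

open Pool.Agent.H36.BP (EN fs wd IsGermChart)
open Pool.Agent.H14.PP (IsCone Chart Tan CurveAt jac)
open Pool.Agent.H62.EF (Lat MN pr TorusMap Sec Charts DU)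

variable {N : ℕ} {X : Set (EN N)} {Λ : AddSubgroup ℂ} {u : EN N → ℂ}

private theorem isClosed_lat (hΛ : Lat Λ) : IsClosed (Λ : Set ℂ) := by
  obtain ⟨δ, hδ, h⟩ := hΛ.discrete
  refine Metric.isClosed_of_pairwise_le_dist hδ ?_
  intro x hx y hy hxy
  by_contra hlt
  push Not at hlt
  rw [dist_eq_norm] at hlt
  exact hxy (sub_eq_zero.mp (h _ (Λ.sub_mem hx hy) hlt))

private theorem lim_mem (hΛ : Lat Λ) (hu : TorusMap X Λ u) {l : Filter ℕ} [l.NeBot] {y : ℕ → EN N} {z : ℕ → ℂ} {x : EN N} {b : ℂ}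
    (hx : x ∈ X) (hy : Tendsto y l (𝓝 x)) (hz : Tendsto z l (𝓝 b)) (h : ∀ᶠ i in l, y i ∈ X ∧ u (y i) - z i ∈ Λ) : u x - b ∈ Λ := by
  obtain ⟨v, hv, hv'⟩ := hu.loc x hx
  have h1 : Tendsto (fun i => v (y i) - z i) l (𝓝 (v x - b)) := (hv.continuousAt.tendsto.comp hy).sub hz
  have h2 : ∀ᶠ i in l, v (y i) - z i ∈ (Λ : Set ℂ) := by
    filter_upwards [h, hy.eventually hv'] with i hi hi'
    have h3 : v (y i) - z i = u (y i) - z i - (u (y i) - v (y i)) := by ring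
    rw [h3]
    exact Λ.sub_mem hi.2 (hi' hi.1)
  have h4 : v x - b ∈ Λ := (isClosed_lat hΛ).mem_of_tendsto h1 h2
  have h5 := hv'.self_of_nhds hx
  have h6 : u x - b = (u x - v x) + (v x - b) := by ring
  rw [h6]
  exact Λ.add_mem h5 h4

private theorem compact_unit (hX : IsCone X) : IsCompact (X ∩ sphere (0 : EN N) 1) := by
  have h1 : X ∩ sphere (0 : EN N) 1 = (insert 0 X) ∩ sphere (0 : EN N) 1 := by
    ext x
    constructor
    · rintro ⟨hx, hs⟩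
      exact ⟨Set.mem_insert_of_mem _ hx, hs⟩
    · rintro ⟨hx, hs⟩
      refine ⟨?_, hs⟩
      rcases hx with rfl | hx
      · simp at hs
      · exact hx
  rw [h1]
  exact (isCompact_sphere (0 : EN N) 1).inter_left hX.closed

private theorem ne_zero (hX : IsCone X) {x : EN N} (hx : x ∈ X) : x ≠ 0 := fun h => hX.zero_notMem (h ▸ hx)

private theorem exists_unit (hX : IsCone X) {x : EN N} (hx : x ∈ X) : ∃ c : ℂ, c ≠ 0 ∧ c • x ∈ X ∩ sphere (0 : EN N) 1 := by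
  have hn : ‖x‖ ≠ 0 := norm_ne_zero_iff.mpr (ne_zero hX hx)
  have hc : (((‖x‖⁻¹ : ℝ)) : ℂ) ≠ 0 := by
    exact_mod_cast inv_ne_zero hn
  refine ⟨(((‖x‖⁻¹ : ℝ)) : ℂ), hc, hX.smul_mem x hx _ hc, ?_⟩
  rw [mem_sphere_zero_iff_norm, norm_smul, Complex.norm_real, norm_inv, norm_norm]
  exact inv_mul_cancel₀ hn

private theorem smul_mem_lat (hu : TorusMap X Λ u) {x : EN N} (hx : x ∈ X) {z : ℂ} (h : u x - z ∈ Λ) {c : ℂ} (hc : c ≠ 0) :
    u (c • x) - z ∈ Λ := by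
  have h3 : u (c • x) - z = u (c • x) - u x + (u x - z) := by ring
  rw [h3]
  exact Λ.add_mem (hu.smul x hx c hc) h

/-- a property which holds near the fibre over `b` holds over a ball -/
private theorem exists_rad (hX : IsCone X) (hΛ : Lat Λ) (hu : TorusMap X Λ u) {b : ℂ} (P : EN N → Prop)
    (hP : ∀ x ∈ X, P x → ∀ c : ℂ, c ≠ 0 → P (c • x))
    (h : ∀ x ∈ X, u x - b ∈ Λ → ∀ᶠ y in 𝓝 x, y ∈ X → P y) : ∃ s : ℝ, 0 < s ∧ ∀ z ∈ ball b s, ∀ x ∈ X, u x - z ∈ Λ → P x := by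
  by_contra hcon
  push Not at hcon
  have h1 : ∀ n : ℕ, ∃ (y : EN N) (z : ℂ), y ∈ X ∩ sphere (0 : EN N) 1 ∧ z ∈ ball b (1 / ((n : ℝ) + 1)) ∧ u y - z ∈ Λ ∧ ¬ P y := by
    intro n
    obtain ⟨z, hz, x, hx, hxz, hPx⟩ := hcon (1 / ((n : ℝ) + 1)) (by positivity)
    obtain ⟨c, hc, hcx⟩ := exists_unit hX hx
    refine ⟨c • x, z, hcx, hz, smul_mem_lat hu hx hxz hc, ?_⟩
    intro hP'
    have := hP _ hcx.1 hP' c⁻¹ (inv_ne_zero hc)
    rw [smul_smul, inv_mul_cancel₀ hc, one_smul] at this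
    exact hPx this
  choose y z hy hz hyz hPy using h1
  obtain ⟨x, hx, φ, hφ, hlim⟩ := (compact_unit hX).tendsto_subseq hy
  have hzl : Tendsto z atTop (𝓝 b) := by
    rw [tendsto_iff_dist_tendsto_zero]
    exact squeeze_zero (fun _ => dist_nonneg) (fun n => (mem_ball.mp (hz n)).le) tendsto_one_div_add_atTop_nhds_zero_nat
  have hxb : u x - b ∈ Λ := lim_mem hΛ hu hx.1 hlim (hzl.comp hφ.tendsto_atTop) (Eventually.of_forall fun n => ⟨(hy _).1, hyz _⟩)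
  obtain ⟨n, hn⟩ := (hlim.eventually (h x hx.1 hxb)).exists
  exact hPy _ (hn (hy _).1)

private theorem compact_fib (hX : IsCone X) (hΛ : Lat Λ) (hu : TorusMap X Λ u) (b : ℂ) :
    IsCompact {x : EN N | x ∈ X ∩ sphere (0 : EN N) 1 ∧ u x - b ∈ Λ} := by
  refine IsSeqCompact.isCompact ?_
  intro y hy
  obtain ⟨x, hx, φ, hφ, hlim⟩ := (compact_unit hX).tendsto_subseq (fun n => (hy n).1)
  exact ⟨x, ⟨hx, lim_mem hΛ hu hx.1 hlim tendsto_const_nhds (Eventually.of_forall fun n => ⟨(hy _).1.1, (hy _).2⟩)⟩, φ, hφ, hlim⟩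

private theorem exists_R (hX : IsCone X) (χ : Chart X) {x : EN N} (hx : x ∈ X) (hxU : x ∈ χ.U) :
    ∃ R : ℝ, 0 < R ∧ ∀ w ∈ X, dist (pr w) (pr x) < R → w ∈ χ.U := by
  obtain ⟨R, hR, h⟩ := Pool.Agent.H62.EF.near_of_pr (ne_zero hX hx) (χ.isOpen_U.mem_nhds hxU)
  refine ⟨R, hR, fun w hw hd => ?_⟩
  obtain ⟨c, hc, hcw⟩ := h w (ne_zero hX hw) hd
  have := χ.smul_U _ hcw c⁻¹ (inv_ne_zero hc)
  rwa [smul_smul, inv_mul_cancel₀ hc, one_smul] at this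

private theorem exists_r (hX : IsCone X) (χ : Chart X) {x : EN N} (hx : x ∈ X) (hxU : x ∈ χ.U) (hq : χ.q x = 0) {ε : ℝ} (hε : 0 < ε) :
    ∃ r : ℝ, 0 < r ∧ r ≤ 2 ∧ ∀ p ∈ ball (0 : ℂ × ℂ) r, dist (pr (χ.σ p)) (pr x) < ε := by
  have h0 : (0 : ℂ × ℂ) ∈ ball (0 : ℂ × ℂ) 2 := mem_ball_self two_pos
  obtain ⟨c, hc, hxc⟩ := (χ.surj x hx hxU).2
  rw [hq] at hxc
  have h1 : pr x = pr (χ.σ 0) := by
    conv_lhs => rw [hxc]
    exact Pool.Agent.H62.EF.pr_smul _ hc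
  have hc1 : ContinuousAt (fun p => pr (χ.σ p)) 0 :=
    (Pool.Agent.H62.EF.continuousAt_pr (ne_zero hX (χ.σ_mem 0 h0).1)).comp (χ.σ_an 0 h0).continuousAt
  have h2 : ∀ᶠ p in 𝓝 (0 : ℂ × ℂ), dist (pr (χ.σ p)) (pr x) < ε := by
    rw [h1]
    exact Metric.tendsto_nhds.mp hc1.tendsto ε hε
  obtain ⟨r, hr, h⟩ := Metric.eventually_nhds_iff_ball.mp h2
  exact ⟨min r 2, lt_min hr two_pos, min_le_right _ _, fun p hp => h p (ball_subset_ball (min_le_left _ _) hp)⟩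

theorem exists_tube_geo {Γ : AddSubgroup ℂ} {B : Set ℂ} {δ : ℝ} (E : EData X Λ u Γ B δ) {b : ℂ} (hb : b ∈ B) :
    ∃ (T : TubeData X) (s η : ℝ) (𝒲 : Set (Wit X)), TubeG Λ u b s η T ∧ WitG Λ u b s η T 𝒲 := by
  have hX := E.cone
  have hu := E.tor
  have hΛ := E.lat
  obtain ⟨d, hd, hdΛ⟩ := hΛ.discrete
  set η : ℝ := d / 2 with hη
  have hη0 : 0 < η := by rw [hη]; positivity
  -- the covering charts
  have h1 : ∀ x : {x : EN N // x ∈ X ∧ u x - b ∈ Λ}, ∃ (χ : Chart X) (ρ : ℝ) (i j : ℕ) (R : ℝ), x.1 ∈ χ.U ∧ Mon Λ u χ b ρ i j ∧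
      (∀ p ∈ ball (0 : ℂ × ℂ) 2, ‖mo b ρ i j p - b‖ < η) ∧ 0 < R ∧ ∀ w ∈ X, dist (pr w) (pr x.1) < R → w ∈ χ.U := by
    rintro ⟨x, hx, hxb⟩
    obtain ⟨χ, ρ, i, j, hxU, -, hm, hs⟩ := exists_nc_chart hX hu (E.nc b hb x hx hxb) hη0
    obtain ⟨R, hR, hRU⟩ := exists_R hX χ hx hxU
    exact ⟨χ, ρ, i, j, R, hxU, hm, fun p hp => (hs p hp).2, hR, hRU⟩
  choose χ ρ i j R hxU hmon hrange hR hRU using h1
  -- the open cones
  set O : {x : EN N // x ∈ X ∧ u x - b ∈ Λ} → Set (EN N) := fun x => {w | w ≠ 0 ∧ w ∈ (χ x).U ∧ dist (pr w) (pr x.1) < R x / 2} with hO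
  have hOopen : ∀ x, IsOpen (O x) := by
    intro x
    rw [isOpen_iff_mem_nhds]
    rintro w ⟨hw0, hwU, hwd⟩
    have e1 : ∀ᶠ y in 𝓝 w, y ≠ 0 := isOpen_ne.mem_nhds hw0
    have e2 : ∀ᶠ y in 𝓝 w, y ∈ (χ x).U := (χ x).isOpen_U.mem_nhds hwU
    have e3 : ∀ᶠ y in 𝓝 w, dist (pr y) (pr x.1) < R x / 2 :=
      ((Pool.Agent.H62.EF.continuousAt_pr hw0).dist continuousAt_const).eventually (gt_mem_nhds hwd)
    filter_upwards [e1, e2, e3] with y h1 h2 h3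
    exact ⟨h1, h2, h3⟩
  have hOsmul : ∀ x, ∀ w ∈ O x, ∀ c : ℂ, c ≠ 0 → c • w ∈ O x := by
    rintro x w ⟨hw0, hwU, hwd⟩ c hc
    refine ⟨smul_ne_zero hc hw0, (χ x).smul_U w hwU c hc, ?_⟩
    rw [Pool.Agent.H62.EF.pr_smul w hc]
    exact hwd
  obtain ⟨t, ht⟩ := (compact_fib hX hΛ hu b).elim_finite_subcover O hOopen (by
    rintro x ⟨⟨hx, -⟩, hxb⟩
    refine Set.mem_iUnion.mpr ⟨⟨x, hx, hxb⟩, ne_zero hX hx, hxU _, ?_⟩
    rw [dist_self]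
    exact half_pos (hR _))
  have hcov : ∀ x ∈ X, u x - b ∈ Λ → ∃ y ∈ t, x ∈ O y := by
    intro x hx hxb
    obtain ⟨c, hc, hcx⟩ := exists_unit hX hx
    obtain ⟨y, hyt, hy⟩ := Set.mem_iUnion₂.mp (ht ⟨hcx, smul_mem_lat hu hx hxb hc⟩)
    refine ⟨y, hyt, ?_⟩
    have := hOsmul y _ hy c⁻¹ (inv_ne_zero hc)
    rwa [smul_smul, inv_mul_cancel₀ hc, one_smul] at this
  obtain ⟨R₀, hR₀, hR₀t⟩ : ∃ R₀ : ℝ, 0 < R₀ ∧ ∀ x ∈ t, R₀ ≤ R x := by
    have e1 : ∀ᶠ r in 𝓝[>] (0 : ℝ), ∀ x ∈ t, r ≤ R x :=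
      (Finset.eventually_all t).mpr fun x _ => mem_nhdsWithin_of_mem_nhds (ge_mem_nhds (hR x))
    obtain ⟨r, hr, hr'⟩ := (e1.and self_mem_nhdsWithin).exists
    exact ⟨r, hr', hr⟩
  -- the witnesses
  have h2 : ∀ x : {x : EN N // x ∈ X ∧ u x - b ∈ Λ}, ∃ (χ' : Chart X) (ρ' : ℝ) (i' j' : ℕ) (R' r' : ℝ), x.1 ∈ χ'.U ∧ χ'.q x.1 = 0 ∧
      Mon Λ u χ' b ρ' i' j' ∧ (∀ p ∈ ball (0 : ℂ × ℂ) 2, dist (pr (χ'.σ p)) (pr x.1) < R₀ / 8) ∧
      (∀ p ∈ ball (0 : ℂ × ℂ) 2, ‖mo b ρ' i' j' p - b‖ < η) ∧ 0 < R' ∧ (∀ w ∈ X, dist (pr w) (pr x.1) < R' → w ∈ χ'.U) ∧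
      0 < r' ∧ r' ≤ 2 ∧ ∀ p ∈ ball (0 : ℂ × ℂ) r', dist (pr (χ'.σ p)) (pr x.1) < R' / 4 := by
    rintro ⟨x, hx, hxb⟩
    obtain ⟨χ', ρ', i', j', hxU', hq, hm, hs⟩ := exists_nc_chart hX hu (E.nc b hb x hx hxb) (lt_min hη0 (by positivity : 0 < R₀ / 8))
    obtain ⟨R', hR', hRU'⟩ := exists_R hX χ' hx hxU'
    obtain ⟨r', hr', hr2, hrr⟩ := exists_r hX χ' hx hxU' hq (by positivity : 0 < R' / 4)
    exact ⟨χ', ρ', i', j', R', r', hxU', hq, hm, fun p hp => lt_of_lt_of_le (hs p hp).1 (min_le_right _ _),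
      fun p hp => lt_of_lt_of_le (hs p hp).2 (min_le_left _ _), hR', hRU', hr', hr2, hrr⟩
  choose χ' ρ' i' j' R' r' hxU' hq' hmon' hsm' hrange' hR' hRU' hr' hr2' hrr' using h2
  -- the radius
  obtain ⟨s₀, hs₀, hs₀P⟩ := exists_rad hX hΛ hu (b := b)
    (fun y => (∃ x ∈ t, y ∈ O x) ∧ ∃ x, y ∈ (χ' x).U ∧ (χ' x).q y ∈ ball (0 : ℂ × ℂ) (r' x))
    (by
      rintro y - ⟨⟨x, hx, hyx⟩, x', hy1, hy2⟩ c hc
      refine ⟨⟨x, hx, hOsmul x y hyx c hc⟩, x', (χ' x').smul_U y hy1 c hc, ?_⟩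
      rw [(χ' x').q_smul y hy1 c hc]
      exact hy2)
    (by
      intro x hx hxb
      obtain ⟨x₁, hx₁, hxO⟩ := hcov x hx hxb
      have e1 : ∀ᶠ y in 𝓝 x, y ∈ O x₁ := (hOopen x₁).mem_nhds hxO
      have e2 : ∀ᶠ y in 𝓝 x, y ∈ (χ' ⟨x, hx, hxb⟩).U := (χ' ⟨x, hx, hxb⟩).isOpen_U.mem_nhds (hxU' ⟨x, hx, hxb⟩)
      have e3 : ∀ᶠ y in 𝓝 x, (χ' ⟨x, hx, hxb⟩).q y ∈ ball (0 : ℂ × ℂ) (r' ⟨x, hx, hxb⟩) := by
        refine ((χ' ⟨x, hx, hxb⟩).q_an x (hxU' ⟨x, hx, hxb⟩)).continuousAt.eventually (isOpen_ball.mem_nhds ?_)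
        rw [hq' ⟨x, hx, hxb⟩]
        exact mem_ball_self (hr' _)
      filter_upwards [e1, e2, e3] with y h1 h2 h3 _
      exact ⟨⟨x₁, hx₁, h1⟩, ⟨x, hx, hxb⟩, h2, h3⟩)
  refine ⟨⟨t.card, fun k => χ (t.equivFin.symm k).1, fun k => ρ (t.equivFin.symm k).1, fun k => i (t.equivFin.symm k).1,
    fun k => j (t.equivFin.symm k).1, fun k => O (t.equivFin.symm k).1⟩, min s₀ η, η,
    Set.range fun x => ⟨χ' x, ρ' x, i' x, j' x, r' x⟩, ?_, ?_⟩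
  · refine ⟨lt_min hs₀ hη0, min_le_right _ _, ?_, fun k => hmon _, fun k => hrange _, fun k => hOopen _, ?_, fun k => hOsmul _, ?_⟩
    · intro l hl hn
      exact hdΛ l hl (by rw [hη] at hn; linarith)
    · rintro k w ⟨-, hw, -⟩
      exact hw
    · intro z hz x hx hxz
      obtain ⟨⟨y, hy, hxy⟩, -⟩ := hs₀P z (ball_subset_ball (min_le_left _ _) hz) x hx hxz
      refine ⟨t.equivFin ⟨y, hy⟩, ?_⟩
      simp only [Equiv.symm_apply_apply]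
      exact hxy
  · refine ⟨?_, ?_, ?_, ?_, ?_, ?_⟩
    · rintro w ⟨x, rfl⟩
      exact ⟨hr' x, hr2' x⟩
    · rintro w ⟨x, rfl⟩
      exact hmon' x
    · rintro w ⟨x, rfl⟩
      exact hrange' x
    · rintro w ⟨x, rfl⟩ k ⟨p, hp, -, -, hpd⟩ p' hp'
      have hk := hR₀t _ (t.equivFin.symm k).2
      have a1 := hsm' x p (ball_subset_ball (hr2' x) hp)
      have a2 := hsm' x p' hp'
      refine hRU _ _ ((χ' x).σ_mem p' hp').1 ?_
      have a3 := dist_triangle (pr ((χ' x).σ p')) (pr x.1) (pr (t.equivFin.symm k).1.1)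
      have a4 := dist_triangle (pr x.1) (pr ((χ' x).σ p)) (pr (t.equivFin.symm k).1.1)
      rw [dist_comm (pr x.1) (pr ((χ' x).σ p))] at a4
      have a5 : dist (pr ((χ' x).σ p)) (pr (t.equivFin.symm k).1.1) < R (t.equivFin.symm k).1 / 2 := hpd
      have a6 : 0 < R (t.equivFin.symm k).1 := hR _
      linarith
    · rintro w ⟨x, rfl⟩ w' ⟨x', rfl⟩ ⟨p, hp, p', hp', hpp⟩
      have a1 : dist (pr ((χ' x).σ p)) (pr x.1) < R' x / 4 := hrr' x p hp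
      have a2 : dist (pr ((χ' x').σ p')) (pr x'.1) < R' x' / 4 := hrr' x' p' hp'
      have hpp' : pr ((χ' x).σ p) = pr ((χ' x').σ p') := hpp
      rw [hpp'] at a1
      have a3 := dist_triangle (pr x.1) (pr ((χ' x').σ p')) (pr x'.1)
      rw [dist_comm (pr x.1) (pr ((χ' x').σ p'))] at a3
      have b1 := hR' x
      have b2 := hR' x'
      rcases le_total (R' x) (R' x') with hle | hle
      · left
        intro q hq
        refine hRU' x' _ ((χ' x).σ_mem q (ball_subset_ball (hr2' x) hq)).1 ?_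
        have a4 := hrr' x q hq
        have a5 := dist_triangle (pr ((χ' x).σ q)) (pr x.1) (pr x'.1)
        linarith
      · right
        intro q hq
        refine hRU' x _ ((χ' x').σ_mem q (ball_subset_ball (hr2' x') hq)).1 ?_
        have a4 := hrr' x' q hq
        have a5 := dist_triangle (pr ((χ' x').σ q)) (pr x'.1) (pr x.1)
        rw [dist_comm (pr x'.1) (pr x.1)] at a5
        linarith
    · intro z hz x hx hxz
      obtain ⟨-, y, hy1, hy2⟩ := hs₀P z (ball_subset_ball (min_le_left _ _) hz) x hx hxz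
      exact ⟨_, ⟨y, rfl⟩, hy1, hy2⟩

end Pool.Agent.H62.EL
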